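import Pool.Agent.Lib.MP_65b7ad_nt.DS.Defs

/-! The statements of the steps. -/

open Finset Filter

namespace Pool.Agent.Lib.MP_65b7ad_nt.DS

/-! ### Local data -/

def Loc1St : Prop := ∀ l : ℕ, l.Prime → l % 3 = 1 → ∃ P : Loc, P.Ok l

def Loc2St : Prop := ∀ l : ℕ, l.Prime → l % 3 = 2 → ∃ P : Loc, P.Ok l

/-- The norm lemma. -/
def NLSt : Prop := ∀ (l : ℕ) (P : Loc), l.Prime → l ≠ 3 → P.Ok l → ∀ α x y z : P.F,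
  α ≠ 0 → Nf α x y z ≠ 0 → P.T α (Nf α x y z) = 0

/-- Three numbers with a linear relation. -/
def STSt : Prop := ∀ (l : ℕ) (P : Loc), l.Prime → l ≠ 3 → P.Ok l → ∀ z₀ z₁ z₂ : P.F,
  z₀ ≠ 0 → z₁ ≠ 0 → z₂ ≠ 0 → z₀ + P.om * z₁ + P.om ^ 2 * z₂ = 0 →
  P.T (z₀ * z₁ * z₂) (z₁ / z₂) = -P.T P.om (z₀ * z₁ * z₂) ∧
    ((3 : ℤ) ∣ P.v (z₀ * z₁ * z₂) → (3 : ℤ) ∣ P.v (z₁ / z₂))

/-- The cubic index on the integers. -/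
def IdxSt : Prop := ∀ (l : ℕ) (P : Loc), l.Prime → l ≠ 3 → P.Ok l →
  (l % 3 = 2 → ∀ n : ℤ, n ≠ 0 → P.c n = 0) ∧
  (P.c P.om = -(((l ^ 2 - 1) / 3 : ℕ) : ZMod 3)) ∧
  (l % 3 = 1 → ∀ γ : ZMod 3,
    3 * #((range l).filter fun a : ℕ => a ≠ 0 ∧ P.c (a : ℤ) = γ) = l - 1) ∧
  (l % 3 = 1 → ∀ (r t : ℤ) (j : ℕ), P.sm (P.om - r) → ¬(l : ℤ) ∣ t →
    (l : ℤ) ∣ t ^ ((l - 1) / 3) - r ^ j → P.c t = j)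

/-! ### Reciprocity -/

/-- Jacobi and Gauss sums. -/
def GaussSt : Prop := ∀ (p : ℕ) (r : ℤ), p.Prime → p % 3 = 1 → (p : ℤ) ∣ r ^ 2 + r + 1 →
  ∃ a b : ℤ, a ^ 2 - a * b + b ^ 2 = p ∧ a % 3 = 2 ∧ (3 : ℤ) ∣ b ∧ (p : ℤ) ∣ a + b * r ∧
    ∀ l j : ℕ, l.Prime → l ≠ 3 → l ≠ p → (p : ℤ) ∣ (l : ℤ) ^ ((p - 1) / 3) - r ^ j →
      ∃ g h : ℤ, ∀ (F : Type) [CommRing F] (w : F), w ^ 2 + w + 1 = 0 →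
        ((p : F) * (a + b * w)) ^ ((l ^ 2 - 1) / 3) = w ^ j + l * (g + h * w)

/-- Reciprocity for the primary primes. -/
def RecPSt : Prop := ∀ P : ℕ → Loc, FamOk P → ∀ p : ℕ, p.Prime → p % 3 = 1 →
  ∃ a b : ℤ, a ^ 2 - a * b + b ^ 2 = p ∧ a % 3 = 2 ∧ (3 : ℤ) ∣ b ∧
    ∀ α : ℤ, ¬(3 : ℤ) ∣ α → RR P α a b = 0

/-- Reciprocity for a first argument prime to `3`. -/
def RecASt : Prop := ∀ P : ℕ → Loc, FamOk P → ∀ α x y : ℤ, x ^ 2 - x * y + y ^ 2 ≠ 0 →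
  (Pm9 α → RR P α x y = 0) ∧ (¬(3 : ℤ) ∣ α → (3 : ℤ) ∣ y → ¬(3 : ℤ) ∣ x → RR P α x y = 0)

def RecBSt : Prop := ∀ P : ℕ → Loc, FamOk P → ∀ α x y : ℤ, α ≠ 0 → (9 : ℤ) ∣ y → ¬(3 : ℤ) ∣ x →
  RR P α x y = 0

/-! ### The rings -/

def R3St : Prop :=
  (∀ (F : Type) [CommRing F] (d : ℤ) (T : F), T ^ 3 = d → ∀ α β : V3,
    ev3 (mul3 d α β) T = ev3 α T * ev3 β T ∧ ev3 α T * ev3 (adj3 d α) T = N3 d α) ∧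
  (∀ (F : Type) [CommRing F] (d : ℤ) (w T : F), w ^ 2 + w + 1 = 0 → T ^ 3 = d → ∀ α : V3,
    ev3 α T * ev3 α (w * T) * ev3 α (w ^ 2 * T) = N3 d α) ∧
  (∀ (d : ℤ) (α β : V3), N3 d (mul3 d α β) = N3 d α * N3 d β ∧ N3 d (adj3 d α) = N3 d α ^ 2 ∧
    mul3 d α (adj3 d α) = ![N3 d α, 0, 0]) ∧
  (∀ (d B : ℤ) (α : V3), 1 ≤ d → (∀ i, |α i| ≤ B) → |N3 d α| ≤ 6 * d ^ 2 * B ^ 3)

def R9St : Prop :=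
  (∀ (F : Type) [CommRing F] (d d' : ℤ) (T U : F), T ^ 3 = d → U ^ 3 = d' → ∀ Δ Γ : V9,
    ev9 (mul9 d d' Δ Γ) T U = ev9 Δ T U * ev9 Γ T U ∧ ev9 (sw Δ) U T = ev9 Δ T U) ∧
  (∀ (F : Type) [CommRing F] (d d' : ℤ) (w T U : F), w ^ 2 + w + 1 = 0 → T ^ 3 = d → U ^ 3 = d' →
    ∀ Δ : V9, ev3 (n9 d d' Δ) T = ev9 Δ T U * ev9 Δ T (w * U) * ev9 Δ T (w ^ 2 * U)) ∧
  (∀ (d d' : ℤ) (Δ Γ : V9), N9 d d' (mul9 d d' Δ Γ) = N9 d d' Δ * N9 d d' Γ ∧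
    N9 d' d (sw Δ) = N9 d d' Δ) ∧
  (∀ (d d' A B : ℤ) (Δ Γ : V9), 1 ≤ d → 1 ≤ d' → (∀ k, |Δ k| ≤ A) → (∀ k, |Γ k| ≤ B) →
    (∀ k, |mul9 d d' Δ Γ k| ≤ 9 * d * d' * A * B) ∧ |N9 d d' Δ| ≤ 10 ^ 6 * (d * d') ^ 8 * A ^ 9)

/-! ### The key relation -/

/-- The element `E`. -/
def Ef {F : Type} [CommRing F] (W d : ℤ) (ζ η : V3) (w μ : F) : F :=
  3 * ((η 0 ^ 3 + w * d * η 1 ^ 3 + w ^ 2 * d ^ 2 * η 2 ^ 3)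
    + (ζ 0 ^ 3 + w ^ 2 * W * ζ 1 ^ 3 + w * W ^ 2 * ζ 2 ^ 3)
    + 3 * μ * ζ 0 * (η 0 ^ 2 - d * η 1 * η 2) + 3 * μ ^ 2 * (ζ 0 ^ 2 - W * ζ 1 * ζ 2) * η 0
    + N3 d η)

/-- The first identity, as a norm form over an arbitrary ring. -/
def Id1St : Prop := ∀ (F : Type) [CommRing F] (W d : ℤ) (ζ η : V3) (w μ θ : F),
  N3 W ζ = N3 d η → w ^ 2 + w + 1 = 0 → μ ^ 3 = 1 → θ ^ 3 = d →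
  ev3 η θ * ev3 η (w * θ) ^ 2 * Ef W d ζ η w μ =
    Nf (W : F) (ev3 η θ * ev3 η (w * θ) + μ * ev3 η (w * θ) * ζ 0 + μ ^ 2 * (ζ 0 ^ 2 - W * ζ 1 * ζ 2))
      (μ * ev3 η (w * θ) * ζ 1 + μ ^ 2 * w ^ 2 * (W * ζ 2 ^ 2 - ζ 0 * ζ 1))
      (μ * ev3 η (w * θ) * ζ 2 + μ ^ 2 * w * (ζ 1 ^ 2 - ζ 0 * ζ 2))

/-- The second and the third identity, as norm forms over a field. -/
def Id2St : Prop := ∀ (F : Type) [Field F] (W d : ℤ) (ζ η : V3) (w μ : F), (d : F) ≠ 0 →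
  N3 W ζ = N3 d η → w ^ 2 + w + 1 = 0 → μ ^ 3 = 1 →
  (∀ s : F, s ^ 3 = W → ∃ X Y Z : F,
    (μ * ev3 ζ s) ^ 2 * (μ * ev3 ζ (w * s)) * Ef W d ζ η w μ = Nf (d : F) X Y Z) ∧
  (∀ g : F, g ^ 3 = W * d → ∃ X Y Z : F, N3 d η * Ef W d ζ η w μ = Nf (d : F) X Y Z)

/-- The local terms; `w` is either of the two primitive cube roots of unity. -/
def KeyLSt : Prop := ∀ (l : ℕ) (P : Loc), l.Prime → l ≠ 3 → P.Ok l → ∀ (W d : ℤ) (ζ η : V3)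
  (w μ : P.F), W ≠ 0 → d ≠ 0 → N3 W ζ = N3 d η → N3 d η ≠ 0 → w ^ 2 + w + 1 = 0 → μ ^ 3 = 1 →
  (Ef W d ζ η w μ ≠ 0 →
    (∀ θ : P.F, θ ^ 3 = d → P.T W (Ef W d ζ η w μ) = P.T W (ev3 η (w * θ) / ev3 η θ)) ∧
    (∀ s : P.F, s ^ 3 = W → P.T d (Ef W d ζ η w μ) = P.T d (ev3 ζ s / ev3 ζ (w * s))) ∧
    (P.Cb (W * d) → P.T d (Ef W d ζ η w μ) = 0)) ∧
  (P.Cb d → ¬P.Cb W → ∃ m : ℕ, Ef W d ζ η w (w ^ m) ≠ 0)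

/-- The place `3`. -/
def Key3St : Prop := ∀ P : ℕ → Loc, FamOk P → ∀ (W d : ℤ) (ζ η : V3) (m : ℕ) (E₁ E₂ : ℤ),
  W ≠ 0 → Pm9 d → N3 W ζ = N3 d η → N3 d η ≠ 0 → Sc3 η → E₁ ^ 2 - E₁ * E₂ + E₂ ^ 2 ≠ 0 →
  (∀ (F : Type) [CommRing F] (w : F), w ^ 2 + w + 1 = 0 → Ef W d ζ η w (w ^ m) = E₁ + E₂ * w) →
  RR P W E₁ E₂ = 0

def KeySt : Prop := ∀ P : ℕ → Loc, FamOk P → ∀ (W d : ℤ) (ζ η : V3),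
  W ≠ 0 → Pm9 d → N3 W ζ = N3 d η → N3 d η ≠ 0 → Sc3 η →
  (∃ l : ℕ, l.Prime ∧ l ≠ 3 ∧ (P l).Cb d ∧ ¬(P l).Cb W) →
  (∀ l : ℕ, l.Prime → l ≠ 3 → (P l).T W d = 0 ∧
    ((P l).Cb d → (P l).v ((P l).rt d η) = 0) ∧
    (¬(P l).Cb d → ∀ s : (P l).F, s ^ 3 = W →
      (P l).T d (ev3 ζ ((P l).om * s) / ev3 ζ ((P l).om ^ 2 * s)) = 0)) →
  phi P W d η = 0

/-- Two good triples in the same class. -/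
def CLSt : Prop := ∀ P : ℕ → Loc, FamOk P → ∀ (d m : ℤ) (p p' : ℕ) (γ γ' : V3),
  p.Prime → p ≠ 3 → p'.Prime → p' ≠ 3 → Good P d p m γ → Good P d p' m γ' → Same m γ γ' →
  Sc3 (mul3 d γ (adj3 d γ')) ∧
    ∀ l : ℕ, l.Prime → l ≠ 3 → (P l).Cb d → (P l).v ((P l).rt d γ) = (P l).v ((P l).rt d γ')

/-- The subgroup `V0`. -/
def V0St : Prop := ∀ P : ℕ → Loc, FamOk P → ∀ (a b c : ℕ) (S : Finset ℕ) (p q : ℕ),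
  Ctx a b c S → Fr a b c p → Fr a b c q →
  3 ^ #S ≤ 3 ^ (om1 (a * b * c) + 1) * #(V0 P a b c S p q) ∧
  #(V0 P a b c S p q) ≤ 9 * #((V0 P a b c S p q).filter fun e =>
    (P p).c (dd S e : ℤ) = 0 ∧ (P q).c (dd S e : ℤ) = 0) ∧
  ∀ p' q' : ℕ, Fr a b c p' → Fr a b c q' → p ≡ p' [MOD ∏ l ∈ S, l] → q ≡ q' [MOD ∏ l ∈ S, l] →
    V0 P a b c S p q = V0 P a b c S p' q' ∧ (Els P a b c S p q ↔ Els P a b c S p' q')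

/-- Local dependence of `W` and `d`; soluble pairs satisfy the local conditions. -/
def DepSt : Prop := ∀ P : ℕ → Loc, FamOk P → ∀ (a b c : ℕ) (S : Finset ℕ) (p q : ℕ),
  Ctx a b c S → Fr a b c p → Fr a b c q → p ≠ q →
  (Sol (a * p : ℕ) (b * q : ℕ) c → Els P a b c S p q) ∧
  ∀ e ∈ V0 P a b c S p q, Els P a b c S p q → (P q).c (dd S e : ℤ) = 0 →
    ((P q).Cb (dd S e : ℤ) ∧ ¬(P q).Cb ((b * q * c ^ 2 : ℕ) : ℤ)) ∧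
    (∀ l : ℕ, l.Prime → l ≠ 3 → (P l).T ((b * q * c ^ 2 : ℕ) : ℤ) (dd S e : ℤ) = 0) ∧
    ∀ l : ℕ, l.Prime → l ≠ 3 → ¬(P l).Cb (dd S e : ℤ) → (P l).Cb ((b * q * c ^ 2 : ℕ) : ℤ) →
      (¬l ∣ a * (b * q) * c ∧ ¬(l : ℤ) ∣ dd S e) ∨
      (l ∈ S ∧ l ∣ a ∧ ∀ x : (P l).F, x ≠ 0 →
        (P l).T (dd S e : ℤ) x = (padicValInt l (dd S e) : ZMod 3) *
          (P l).T ((a * p * c ^ 2 : ℕ) : ℤ) x)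

def K1St : Prop := ∀ P : ℕ → Loc, FamOk P → ∀ (a b c : ℕ) (S : Finset ℕ) (p p' q : ℕ),
  Ctx a b c S → Fr a b c p → Fr a b c p' → Fr a b c q → p ≠ q → p' ≠ q →
  p ≡ p' [MOD ∏ l ∈ S, l] → Sol (a * p : ℕ) (b * q : ℕ) c → Sol (a * p' : ℕ) (b * q : ℕ) c →
  ∀ e ∈ V0 P a b c S p q, (P q).c (dd S e : ℤ) = 0 → ∀ (m : ℤ) (γ γ' : V3),
    Good P (dd S e) p m γ → Good P (dd S e) p' m γ' → Same m γ γ' →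
    phi P (b * q * c ^ 2 : ℕ) (dd S e) γ = phi P (b * q * c ^ 2 : ℕ) (dd S e) γ'

def K2St : Prop := ∀ P : ℕ → Loc, FamOk P → ∀ (W d : ℤ) (p p' : ℕ) (m m₂ : ℤ) (δ δ' γ γ' : V3),
  W ≠ 0 → Pm9 d → (∃ l : ℕ, l.Prime ∧ l ≠ 3 ∧ (P l).Cb d ∧ ¬(P l).Cb W) →
  (∀ l : ℕ, l.Prime → l ≠ 3 → (P l).T W d = 0) → p.Prime → p ≠ 3 → p'.Prime → p' ≠ 3 →
  Good P d p m δ → Good P d p' m δ' → Same m δ δ' →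
  Good P d p m₂ γ → Good P d p' m₂ γ' → Same m₂ γ γ' →
  phi P W d δ - phi P W d γ = phi P W d δ' - phi P W d γ'

/-! ### Short vectors and the bilinear bound -/

def SV3St : Prop := ∀ P : ℕ → Loc, FamOk P → ∀ (d : ℤ) (p : ℕ), 1 ≤ d →
  (∃ l : ℕ, l.Prime ∧ ¬3 ∣ padicValInt l d) → p.Prime → p ≠ 3 → (P p).c d = 0 → 6 * d ^ 2 < p →
  ∃ (γ : V3) (m : ℤ), Good P d p m γ ∧ |m| ≤ 6 * d ^ 2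

/-- The norm does not vanish. -/
def NZSt : Prop := ∀ (d d' : ℤ) (Δ : V9), d ≠ 0 → d' ≠ 0 →
  (∀ i j : ℕ, i < 3 → j < 3 → ¬(i = 0 ∧ j = 0) →
    ∃ l : ℕ, l.Prime ∧ ¬3 ∣ padicValInt l (d ^ i * d' ^ j)) → Δ ≠ 0 → N9 d d' Δ ≠ 0

def SV9St : Prop := ∀ P : ℕ → Loc, FamOk P → ∀ (d d' : ℤ) (p : ℕ), 1 ≤ d → 1 ≤ d' →
  (∀ Δ : V9, Δ ≠ 0 → N9 d d' Δ ≠ 0) → p.Prime → p ≠ 3 → (P p).c d = 0 → (P p).c d' = 0 →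
  10 ^ 6 * (d * d') ^ 8 < p →
  ∃ (Δ : V9) (m : ℤ), (∀ k, |Δ k| ^ 9 ≤ p) ∧ N9 d d' Δ = p * m ∧ |m| ≤ 10 ^ 6 * (d * d') ^ 8 ∧
    Good P d p m (n9 d d' Δ) ∧ Good P d' p m (n9 d' d (sw Δ))

/-- The properties of a character modulo `q` of the ring of rank nine. -/
def Chr (mul : V9 → V9 → V9) (q : ℕ) (X : V9 → ℂ) : Prop :=
  (∀ x y, X (mul x y) = X x * X y) ∧ (∀ x, ‖X x‖ ≤ 1) ∧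
  (∀ x y, (∀ k, (q : ℤ) ∣ x k - y k) → X x = X y) ∧
  ∑ x ∈ Fintype.piFinset (fun _ : Fin 3 × Fin 3 => Ico (0 : ℤ) q), X x = 0

def XqSt : Prop := ∀ P : ℕ → Loc, FamOk P → ∀ (d d' : ℤ) (q : ℕ), q.Prime → q ≠ 3 →
  ¬(q : ℤ) ∣ d → ¬(q : ℤ) ∣ d' → (P q).c d = 0 → (P q).c d' = 0 → Chr (mul9 d d') q (Xq P d d' q)

/-- Sums over a box of a product of two periodic functions with mean zero. -/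
def BoxSt : Prop := ∀ (q q' T : ℕ) (X X' : V9 → ℂ), q.Prime → q'.Prime → q ≠ q' →
  (∀ x, ‖X x‖ ≤ 1) → (∀ x, ‖X' x‖ ≤ 1) → (∀ x y, (∀ k, (q : ℤ) ∣ x k - y k) → X x = X y) →
  (∀ x y, (∀ k, (q' : ℤ) ∣ x k - y k) → X' x = X' y) →
  ∑ x ∈ Fintype.piFinset (fun _ : Fin 3 × Fin 3 => Ico (0 : ℤ) q), X x = 0 →
  ‖∑ x ∈ Fintype.piFinset (fun _ : Fin 3 × Fin 3 => Icc (-T : ℤ) T), X x * X' x‖ ≤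
    9 * (q * q') * (2 * T + 1) ^ 8

def BLSt : Prop := ∃ C : ℝ, 0 < C ∧ ∀ (mul : V9 → V9 → V9) (N : V9 → ℤ) (C₀ X₁ X₂ : ℕ)
  (A B : Finset ℕ) (Δ : ℕ → V9) (m : ℤ) (X : ℕ → V9 → ℂ) (α β : ℕ → ℂ),
  1 ≤ C₀ → 9 ≤ X₂ → X₂ ≤ X₁ →
  (∀ (x y : V9) (s t : ℤ), (∀ k, |x k| ≤ s) → (∀ k, |y k| ≤ t) → ∀ k, |mul x y k| ≤ C₀ * s * t) →
  (∀ x y, N (mul x y) = N x * N y) → m ≠ 0 →
  (∀ p ∈ A, p.Prime ∧ p ≤ X₁ ∧ N (Δ p) = p * m ∧ ∀ k, |Δ p k| ^ 9 ≤ X₁) →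
  (∀ q ∈ B, q.Prime ∧ q ≤ X₂ ∧ Chr mul q (X q)) → (∀ p, ‖α p‖ ≤ 1) → (∀ q, ‖β q‖ ≤ 1) →
  ‖∑ p ∈ A, ∑ q ∈ B, α p * β q * X q (Δ p)‖ ≤ C * C₀ ^ 5 * X₁ * (X₂ : ℝ) ^ (71 / 72 : ℝ)

/-! ### One context -/

/-- The data of one pair of residue classes. -/
def Cell (P : ℕ → Loc) (a b c : ℕ) (S : Finset ℕ) (p₀ q₀ X₁ X₂ : ℕ) (A B : Finset ℕ) : Prop :=
  Ctx a b c S ∧ Fr a b c p₀ ∧ Fr a b c q₀ ∧ Els P a b c S p₀ q₀ ∧ 9 ≤ X₂ ∧ X₂ ≤ X₁ ∧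
  (∀ p ∈ A, Fr a b c p ∧ p ≡ p₀ [MOD ∏ l ∈ S, l] ∧ 10 ^ 6 * (∏ l ∈ S, l) ^ 32 < p ∧ p ≤ X₁) ∧
  (∀ q ∈ B, Fr a b c q ∧ q ≡ q₀ [MOD ∏ l ∈ S, l] ∧ 10 ^ 6 * (∏ l ∈ S, l) ^ 32 < q ∧ q ≤ X₂)

open Classical in
/-- The detecting functions. -/
def FSt : Prop := ∃ (C : ℝ) (K : ℕ), 0 < C ∧ ∀ P : ℕ → Loc, FamOk P →
  ∀ (a b c : ℕ) (S : Finset ℕ) (p₀ q₀ X₁ X₂ : ℕ) (A B : Finset ℕ),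
  Cell P a b c S p₀ q₀ X₁ X₂ A B → ∃ f : (S → ZMod 3) → ℕ → ℕ → ℂ,
    (∀ e p q, ‖f e p q‖ ≤ 1) ∧
    (∀ e ∈ V0 P a b c S p₀ q₀, ∀ p ∈ A, ∀ q ∈ B, p ≠ q → Sol (a * p : ℕ) (b * q : ℕ) c →
      f e p q = if (P p).c (dd S e : ℤ) = 0 ∧ (P q).c (dd S e : ℤ) = 0 then 1 else 0) ∧
    ∀ e ∈ V0 P a b c S p₀ q₀, ∀ e' ∈ V0 P a b c S p₀ q₀, Indep e e' →
      ‖∑ p ∈ A, ∑ q ∈ B, f e p q * (starRingEnd ℂ) (f e' p q)‖ ≤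
        C * ((∏ l ∈ S, l : ℕ) : ℝ) ^ K * X₁ * (X₂ : ℝ) ^ (71 / 72 : ℝ)

open Classical in
def CellSt : Prop := ∃ (C : ℝ) (K : ℕ), 0 < C ∧ ∀ P : ℕ → Loc, FamOk P →
  ∀ (a b c : ℕ) (S : Finset ℕ) (p₀ q₀ X₁ X₂ : ℕ) (A B : Finset ℕ),
  Cell P a b c S p₀ q₀ X₁ X₂ A B →
  (#((A ×ˢ B).filter fun t => t.1 ≠ t.2 ∧ Sol (a * t.1 : ℕ) (b * t.2 : ℕ) c) : ℝ) ≤
    972 * 3 ^ om1 (a * b * c) / 3 ^ #S * (#A * #B) +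
      C * ((∏ l ∈ S, l : ℕ) : ℝ) ^ K * X₁ * (X₂ : ℝ) ^ (71 / 72 : ℝ)

open Classical in
def CtxSt : Prop := ∃ (C : ℝ) (K : ℕ), 0 < C ∧ ∀ P : ℕ → Loc, FamOk P →
  ∀ (a b c : ℕ) (S : Finset ℕ) (z : ℝ) (X₁ X₂ : ℕ), Ctx a b c S → 9 ≤ X₂ → X₂ ≤ X₁ →
  10 ^ 6 * ((∏ l ∈ S, l : ℕ) : ℝ) ^ 32 ≤ z →
  (#((PP a b c z X₁ ×ˢ PP a b c z X₂).filter fun t =>
      t.1 ≠ t.2 ∧ Sol (a * t.1 : ℕ) (b * t.2 : ℕ) c) : ℝ) ≤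
    972 * 3 ^ om1 (a * b * c) / 3 ^ #S *
        #((PP a b c z X₁ ×ˢ PP a b c z X₂).filter fun t => Els P a b c S t.1 t.2) +
      C * ((∏ l ∈ S, l : ℕ) : ℝ) ^ K * X₁ * (X₂ : ℝ) ^ (71 / 72 : ℝ)

/-! ### Counting -/

/-- The inequality of Brun and Titchmarsh. -/
def BTSt : Prop := ∃ C : ℝ, 0 < C ∧ ∀ (m r X : ℕ), 1 ≤ m → 2 ≤ X → m ^ 2 ≤ X →
  (#((Icc 1 X).filter fun p => p.Prime ∧ ¬p ∣ m ∧ p ≡ r [MOD m]) : ℝ) ≤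
    C * X / (m.totient * Real.log X)

/-- Primes with prescribed cubic indices. -/
def BTcSt : Prop := ∃ C : ℝ, 0 < C ∧ ∀ P : ℕ → Loc, FamOk P → ∀ (S : Finset ℕ) (γ : ℕ → ZMod 3)
  (X : ℕ), (∀ l ∈ S, l.Prime ∧ l % 3 = 1) → 2 ≤ X → (∏ l ∈ S, l) ^ 2 ≤ X →
  (#((Icc 1 X).filter fun p : ℕ => p.Prime ∧ p ∉ S ∧ ∀ l ∈ S, (P l).c (p : ℤ) = γ l) : ℝ) ≤
    C * X / (3 ^ #S * Real.log X)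

open Classical in
def ElsSt : Prop := ∃ C : ℝ, 0 < C ∧ ∀ P : ℕ → Loc, FamOk P →
  ∀ (a b c : ℕ) (S : Finset ℕ) (z : ℝ) (X₁ X₂ : ℕ), Ctx a b c S → 2 ≤ z →
  ((∏ l ∈ S, l : ℕ) : ℝ) ^ 2 ≤ z →
  (#((PP a b c z X₁ ×ˢ PP a b c z X₂).filter fun t => Els P a b c S t.1 t.2) : ℝ) ≤
    C * X₁ * X₂ / (3 ^ #(S.filter fun l => l % 3 = 1) * Real.log z ^ 2)

/-- The Euler product. -/
def EulSt : Prop := ∃ C : ℝ, 0 < C ∧ ∀ (y : ℝ) (H : ℕ), 2 ≤ y → y ≤ H →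
  ∑ a ∈ Icc 1 H, ∑ b ∈ Icc 1 H, ∑ c ∈ Icc 1 H, gw y (a * b * c) / (a * b * c : ℝ) ≤
    C * Real.log y * (Real.log H / Real.log y) ^ 9

/-- The trick of Rankin. -/
def RankSt : Prop := ∃ (C : ℝ) (K : ℕ), 0 < C ∧ ∀ (y Y : ℝ) (A : Finset ℕ), 3 ≤ y → 1 ≤ Y →
  (∀ m ∈ A, Y < m ∧ ∀ l ∈ m.primeFactors, (l : ℝ) ≤ y) →
  ∑ m ∈ A, (1 / m : ℝ) ≤ C * Real.log y ^ K * Real.exp (-(Real.log Y / Real.log y))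

open Classical in
def BadSt : Prop := ∃ C : ℝ, ∀ᶠ H : ℕ in atTop,
  (#((Icc 1 H ×ˢ Icc 1 H ×ˢ Icc 1 H).filter fun t : ℕ × ℕ × ℕ => ¬Typ3 H t.1 t.2.1 t.2.2) : ℝ) ≤
    C * H ^ 3 / Real.log H ^ 2

open Classical in
/-- The reduction to contexts. -/
def RedSt : Prop := ∀ H : ℕ, 3 ≤ zz H →
  #((Icc 1 H ×ˢ Icc 1 H ×ˢ Icc 1 H).filter fun t : ℕ × ℕ × ℕ =>
      Typ3 H t.1 t.2.1 t.2.2 ∧ Sol t.1 t.2.1 t.2.2) ≤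
    2 * ∑ a ∈ Icc 1 H, ∑ b ∈ Icc 1 H, ∑ c ∈ Icc 1 H,
      if a ≤ b ∧ zz H < (H / b : ℕ) ∧ ((∏ l ∈ SS (yy H) (a * b * c), l : ℕ) : ℝ) ≤ YY H ^ 3 ∧
          ∃ r : ℕ, r.Prime ∧ r ∣ c ∧ zz H < r then
        #((PP a b c (zz H) (H / a) ×ˢ PP a b c (zz H) (H / b)).filter fun t =>
          t.1 ≠ t.2 ∧ Sol (a * t.1 : ℕ) (b * t.2 : ℕ) c)
      else 0

open Classical in
/-- The diagonal sum. -/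
def DiagSt : Prop := ∃ C : ℝ, ∀ᶠ H : ℕ in atTop,
  ∑ a ∈ Icc 1 H, ∑ b ∈ Icc 1 H, ∑ c ∈ (Icc 1 H).filter (fun c => ∃ r : ℕ, r.Prime ∧ r ∣ c ∧ zz H < r),
      gw (yy H) (a * b * c) / (a * b : ℝ) / Real.log (zz H) ^ 2 ≤
    C * H * Real.log (Real.log H) ^ 46 / Real.log H ^ 2

def UpSt : Prop := ∃ C : ℝ, ∀ᶠ H : ℕ in atTop,
  (Npos H : ℝ) ≤ C * H ^ 3 * Real.log (Real.log H) ^ 46 / Real.log H ^ 2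

def SgnSt : Prop := ∀ H : ℕ, Nsol H ≤ 8 * Npos H + 3 * (2 * H + 1) ^ 2

/-! ### The lower bound for the locally soluble triples -/

/-- A point modulo a prime of good reduction. -/
def FpSt : Prop := ∀ (p : ℕ) [Fact p.Prime] (a b c : ZMod p), a ≠ 0 → b ≠ 0 → c ≠ 0 →
  ∃ x y z : ZMod p, ¬(x = 0 ∧ y = 0 ∧ z = 0) ∧ a * x ^ 3 + b * y ^ 3 + c * z ^ 3 = 0

def LocSolSt : Prop := ∀ H a b c : ℕ, a ∈ NN H → b ∈ NN H → c ∈ NN H → a % 9 = b % 9 →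
  LocSol a b c

def NNSt : Prop := ∃ c : ℝ, 0 < c ∧ ∀ᶠ H : ℕ in atTop,
  c * H / Real.log H ^ (8 / 15 : ℝ) ≤ #(NN H)

def LowSt : Prop := ∃ c : ℝ, 0 < c ∧ ∀ᶠ H : ℕ in atTop,
  c * H ^ 3 / Real.log H ^ (8 / 5 : ℝ) ≤ Nloc H

def MainSt : Prop :=
  (∃ C : ℝ, ∀ᶠ H : ℕ in atTop,
    (Nsol H : ℝ) ≤ C * H ^ 3 * Real.log (Real.log H) ^ 46 / Real.log H ^ 2) ∧
  Tendsto (fun H : ℕ => (Nsol H : ℝ) / Nloc H) atTop (nhds 0)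

end Pool.Agent.Lib.MP_65b7ad_nt.DS
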