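import Pool.Agent.Lib.MP_65b7ad_nt.DS.St

/-! The bilinear bound. -/

open Finset

namespace Pool.Agent.Lib.MP_65b7ad_nt.DS

namespace BL

/-- The iterated product. -/
def pr (mul : V9 → V9 → V9) (Δ : ℕ → V9) : (k : ℕ) → (Fin (k + 1) → ℕ) → V9
  | 0, t => Δ (t 0)
  | k + 1, t => mul (Δ (t 0)) (pr mul Δ k (Fin.tail t))

theorem map_pr {M : Type} [CommMonoid M] (mul : V9 → V9 → V9) (Δ : ℕ → V9) (f : V9 → M)
    (hf : ∀ x y, f (mul x y) = f x * f y) (k : ℕ) :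
    ∀ t : Fin (k + 1) → ℕ, f (pr mul Δ k t) = ∏ i, f (Δ (t i)) := by
  induction k with
  | zero => intro t; simp [pr]
  | succ k ih =>
    intro t
    rw [pr, hf, ih, Fin.prod_univ_succ (n := k + 1)]
    rfl

theorem pr_le (mul : V9 → V9 → V9) (Δ : ℕ → V9) (C₀ : ℕ)
    (hm : ∀ (x y : V9) (s t : ℤ), (∀ k, |x k| ≤ s) → (∀ k, |y k| ≤ t) →
      ∀ k, |mul x y k| ≤ C₀ * s * t) (s : ℤ) (k : ℕ) :
    ∀ t : Fin (k + 1) → ℕ, (∀ i j, |Δ (t i) j| ≤ s) →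
      ∀ j, |pr mul Δ k t j| ≤ (C₀ : ℤ) ^ k * s ^ (k + 1) := by
  induction k with
  | zero => intro t ht j; simpa [pr] using ht 0 j
  | succ k ih =>
    intro t ht j
    have := hm (Δ (t 0)) (pr mul Δ k (Fin.tail t)) s _ (ht 0)
      (ih (Fin.tail t) (fun i => ht i.succ)) j
    rw [pr]
    calc _ ≤ _ := this
      _ = _ := by ring

theorem card_le (B : Finset ℕ) (X : ℕ) (h : ∀ q ∈ B, q.Prime ∧ q ≤ X) : #B ≤ X := by
  have : B ⊆ Icc 1 X := fun q hq => mem_Icc.2 ⟨(h q hq).1.one_le, (h q hq).2⟩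
  simpa using card_le_card this

theorem fiber_le (mul : V9 → V9 → V9) (Δ : ℕ → V9) (N : V9 → ℤ) (A : Finset ℕ) (m : ℤ)
    (hN : ∀ x y, N (mul x y) = N x * N y) (hm : m ≠ 0)
    (hA : ∀ p ∈ A, p.Prime ∧ N (Δ p) = p * m) (k : ℕ) (x : V9) :
    #((Fintype.piFinset fun _ : Fin (k + 1) => A).filter fun t => pr mul Δ k t = x) ≤
      (k + 1) ^ (k + 1) := by
  classical
  rcases ((Fintype.piFinset fun _ : Fin (k + 1) => A).filter
    fun t => pr mul Δ k t = x).eq_empty_or_nonempty with h | ⟨t₀, h₀⟩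
  · rw [h]; simp
  have key : ∀ t ∈ (Fintype.piFinset fun _ : Fin (k + 1) => A).filter
      (fun t => pr mul Δ k t = x), N x = ((∏ i, t i : ℕ) : ℤ) * m ^ (k + 1) := by
    intro t ht
    obtain ⟨h1, h2⟩ := mem_filter.1 ht
    rw [← h2, map_pr mul Δ N hN, prod_congr rfl fun i _ => (hA _ (Fintype.mem_piFinset.1 h1 i)).2,
      prod_mul_distrib]
    simp
  have hsub : (Fintype.piFinset fun _ : Fin (k + 1) => A).filter (fun t => pr mul Δ k t = x) ⊆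
      Fintype.piFinset fun _ : Fin (k + 1) => (univ : Finset (Fin (k + 1))).image t₀ := by
    intro t ht
    have e : (∏ i, t i : ℕ) = ∏ i, t₀ i := by
      have := (key t ht).symm.trans (key t₀ h₀)
      exact_mod_cast mul_right_cancel₀ (pow_ne_zero _ hm) this
    refine Fintype.mem_piFinset.2 fun i => ?_
    have hp := (hA _ (Fintype.mem_piFinset.1 (mem_filter.1 ht).1 i)).1
    have hd : t i ∣ ∏ i, t₀ i := e ▸ dvd_prod_of_mem _ (mem_univ i)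
    obtain ⟨j, -, hj⟩ := (Prime.dvd_finsetProd_iff hp.prime _).1 hd
    have hq := (hA _ (Fintype.mem_piFinset.1 (mem_filter.1 h₀).1 j)).1
    exact mem_image.2 ⟨j, mem_univ _, ((Nat.prime_dvd_prime_iff_eq hp hq).1 hj).symm⟩
  refine (card_le_card hsub).trans ?_
  rw [Fintype.card_piFinset]
  simp only [prod_const, card_univ, Fintype.card_fin]
  exact Nat.pow_le_pow_left (card_image_le.trans (by simp)) _

theorem ms (h : BoxSt) (mul : V9 → V9 → V9) (X₂ T : ℕ) (B : Finset ℕ) (X : ℕ → V9 → ℂ)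
    (γ : ℕ → ℂ) (hB : ∀ q ∈ B, q.Prime ∧ q ≤ X₂ ∧ Chr mul q (X q)) (hγ : ∀ q, ‖γ q‖ ≤ 1) :
    ∑ x ∈ Fintype.piFinset (fun _ : Fin 3 × Fin 3 => Icc (-T : ℤ) T), ‖∑ q ∈ B, γ q * X q x‖ ^ 2 ≤
      X₂ * (2 * T + 1 : ℝ) ^ 9 + 9 * (X₂ : ℝ) ^ 4 * (2 * T + 1 : ℝ) ^ 8 := by
  classical
  set D := Fintype.piFinset (fun _ : Fin 3 × Fin 3 => Icc (-T : ℤ) T) with hD
  have hcD : (#D : ℝ) = (2 * T + 1 : ℝ) ^ 9 := by
    have : #(Icc (-T : ℤ) T) = 2 * T + 1 := by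
      rw [Int.card_Icc]; omega
    rw [hD, Fintype.card_piFinset]
    simp [this]
  have hcB : (#B : ℝ) ≤ X₂ := by
    exact_mod_cast card_le B X₂ fun q hq => ⟨(hB q hq).1, (hB q hq).2.1⟩
  have e1 : ((∑ x ∈ D, ‖∑ q ∈ B, γ q * X q x‖ ^ 2 : ℝ) : ℂ) =
      ∑ q ∈ B, ∑ q' ∈ B, γ q * (starRingEnd ℂ) (γ q') *
        ∑ x ∈ D, X q x * (starRingEnd ℂ) (X q' x) := by
    push_cast
    simp_rw [← Complex.mul_conj', map_sum, sum_mul_sum, mul_sum]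
    rw [sum_comm]
    refine sum_congr rfl fun q _ => ?_
    rw [sum_comm]
    refine sum_congr rfl fun q' _ => sum_congr rfl fun x _ => ?_
    rw [map_mul]; ring
  have e2 : ∀ q ∈ B, ∀ q' ∈ B, ‖γ q * (starRingEnd ℂ) (γ q') *
      ∑ x ∈ D, X q x * (starRingEnd ℂ) (X q' x)‖ ≤
      (if q' = q then (2 * T + 1 : ℝ) ^ 9 else 0) + 9 * (X₂ : ℝ) ^ 2 * (2 * T + 1 : ℝ) ^ 8 := by
    intro q hq q' hq'
    obtain ⟨hp, hle, -, hb, hper, hz⟩ := hB q hq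
    obtain ⟨hp', hle', -, hb', hper', -⟩ := hB q' hq'
    have h1 : ‖γ q * (starRingEnd ℂ) (γ q')‖ ≤ 1 := by
      rw [norm_mul, Complex.norm_conj]
      exact mul_le_one₀ (hγ q) (norm_nonneg _) (hγ q')
    rw [norm_mul]
    refine (mul_le_of_le_one_left (norm_nonneg _) h1).trans ?_
    split_ifs with hqq
    · have : ‖∑ x ∈ D, X q x * (starRingEnd ℂ) (X q' x)‖ ≤ (2 * T + 1 : ℝ) ^ 9 := by
        rw [← hcD]
        refine (norm_sum_le _ _).trans ?_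
        have := sum_le_card_nsmul D (fun x => ‖X q x * (starRingEnd ℂ) (X q' x)‖) 1
          (fun x _ => by
            rw [norm_mul, Complex.norm_conj]
            exact mul_le_one₀ (hb x) (norm_nonneg _) (hb' x))
        simpa using this
      have h0 : (0 : ℝ) ≤ 9 * (X₂ : ℝ) ^ 2 * (2 * T + 1 : ℝ) ^ 8 := by positivity
      linarith
    · have := h q q' T (X q) (fun x => (starRingEnd ℂ) (X q' x)) hp hp' (Ne.symm hqq) hb
        (fun x => by rw [Complex.norm_conj]; exact hb' x) hper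
        (fun x y hxy => by rw [hper' x y hxy]) hz
      refine this.trans ?_
      rw [zero_add]
      have h2 : (q : ℝ) * q' ≤ (X₂ : ℝ) ^ 2 := by
        rw [sq]
        exact mul_le_mul (by exact_mod_cast hle) (by exact_mod_cast hle') (by positivity)
          (by positivity)
      gcongr
  calc ∑ x ∈ D, ‖∑ q ∈ B, γ q * X q x‖ ^ 2
      ≤ ‖((∑ x ∈ D, ‖∑ q ∈ B, γ q * X q x‖ ^ 2 : ℝ) : ℂ)‖ := by
        rw [Complex.norm_real]; exact le_abs_self _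
    _ ≤ ∑ q ∈ B, ∑ q' ∈ B, ((if q' = q then (2 * T + 1 : ℝ) ^ 9 else 0) +
          9 * (X₂ : ℝ) ^ 2 * (2 * T + 1 : ℝ) ^ 8) := by
        rw [e1]
        refine (norm_sum_le _ _).trans (sum_le_sum fun q hq => ?_)
        exact (norm_sum_le _ _).trans (sum_le_sum fun q' hq' => e2 q hq q' hq')
    _ = #B * ((2 * T + 1 : ℝ) ^ 9 + #B * (9 * (X₂ : ℝ) ^ 2 * (2 * T + 1 : ℝ) ^ 8)) := by
        rw [← nsmul_eq_mul, ← sum_const]
        refine sum_congr rfl fun q hq => ?_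
        rw [sum_add_distrib, sum_ite_eq' B q, if_pos hq, sum_const, nsmul_eq_mul]
    _ ≤ X₂ * ((2 * T + 1 : ℝ) ^ 9 + X₂ * (9 * (X₂ : ℝ) ^ 2 * (2 * T + 1 : ℝ) ^ 8)) := by
        gcongr
    _ = _ := by ring

theorem phase (z : ℂ) : ∃ c : ℂ, ‖c‖ ≤ 1 ∧ (‖z‖ : ℂ) = c * z := by
  by_cases hz : z = 0
  · exact ⟨0, by simp, by simp [hz]⟩
  · refine ⟨(‖z‖ : ℂ) / z, ?_, by field_simp⟩
    rw [norm_div, Complex.norm_real, norm_norm, div_self (norm_ne_zero_iff.2 hz)]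

/-- The high moment. -/
theorem mom (h : BoxSt) (mul : V9 → V9 → V9) (N : V9 → ℤ) (X₁ X₂ T k : ℕ)
    (A B : Finset ℕ) (Δ : ℕ → V9) (m : ℤ) (X : ℕ → V9 → ℂ) (α : ℕ → ℂ)
    (hN : ∀ x y, N (mul x y) = N x * N y) (hm : m ≠ 0)
    (hA : ∀ p ∈ A, p.Prime ∧ p ≤ X₁ ∧ N (Δ p) = p * m)
    (hT : ∀ t ∈ Fintype.piFinset fun _ : Fin (k + 1) => A, ∀ j, |pr mul Δ k t j| ≤ T)
    (hB : ∀ q ∈ B, q.Prime ∧ q ≤ X₂ ∧ Chr mul q (X q)) (hα : ∀ p, ‖α p‖ ≤ 1) :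
    (∑ q ∈ B, ‖∑ p ∈ A, α p * X q (Δ p)‖ ^ (k + 1)) ^ 2 ≤
      (X₁ : ℝ) ^ (k + 1) * (((k + 1) ^ (k + 1) : ℕ) *
        (X₂ * (2 * T + 1 : ℝ) ^ 9 + 9 * (X₂ : ℝ) ^ 4 * (2 * T + 1 : ℝ) ^ 8)) := by
  classical
  choose γ hγ hγ' using fun q => phase ((∑ p ∈ A, α p * X q (Δ p)) ^ (k + 1))
  set I := Fintype.piFinset fun _ : Fin (k + 1) => A with hI
  set D := Fintype.piFinset (fun _ : Fin 3 × Fin 3 => Icc (-T : ℤ) T) with hD
  set V : V9 → ℂ := fun x => ∑ q ∈ B, γ q * X q x with hV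
  have hcI : (#I : ℝ) ≤ (X₁ : ℝ) ^ (k + 1) := by
    have := card_le A X₁ fun q hq => ⟨(hA q hq).1, (hA q hq).2.1⟩
    rw [hI, Fintype.card_piFinset]
    simp only [prod_const, card_univ, Fintype.card_fin]
    exact_mod_cast Nat.pow_le_pow_left this _
  have e1 : ((∑ q ∈ B, ‖∑ p ∈ A, α p * X q (Δ p)‖ ^ (k + 1) : ℝ) : ℂ) =
      ∑ t ∈ I, (∏ i, α (t i)) * V (pr mul Δ k t) := by
    rw [Complex.ofReal_sum]
    simp_rw [← norm_pow, hγ', hV, mul_sum]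
    rw [sum_comm]
    refine sum_congr rfl fun q hq => ?_
    have : (∑ p ∈ A, α p * X q (Δ p)) ^ (k + 1) =
        ∏ _i : Fin (k + 1), ∑ p ∈ A, α p * X q (Δ p) := by simp
    rw [this, prod_univ_sum, mul_sum]
    refine sum_congr rfl fun t _ => ?_
    rw [map_pr mul Δ (X q) (hB q hq).2.2.1, prod_mul_distrib]
    ring
  have e2 : ∑ q ∈ B, ‖∑ p ∈ A, α p * X q (Δ p)‖ ^ (k + 1) ≤ ∑ t ∈ I, ‖V (pr mul Δ k t)‖ := by
    calc _ ≤ ‖((∑ q ∈ B, ‖∑ p ∈ A, α p * X q (Δ p)‖ ^ (k + 1) : ℝ) : ℂ)‖ := by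
          rw [Complex.norm_real]; exact le_abs_self _
      _ ≤ _ := by
          rw [e1]
          refine (norm_sum_le _ _).trans (sum_le_sum fun t _ => ?_)
          rw [norm_mul]
          refine mul_le_of_le_one_left (norm_nonneg _) ?_
          rw [norm_prod]
          exact prod_le_one (fun i _ => norm_nonneg _) fun i _ => hα _
  have e3 : ∑ t ∈ I, ‖V (pr mul Δ k t)‖ ^ 2 ≤ ((k + 1) ^ (k + 1) : ℕ) * ∑ x ∈ D, ‖V x‖ ^ 2 := by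
    have hmap : ∀ t ∈ I, pr mul Δ k t ∈ D := fun t ht =>
      Fintype.mem_piFinset.2 fun j => mem_Icc.2 (abs_le.1 (hT t ht j))
    rw [← sum_fiberwise_of_maps_to hmap, mul_sum]
    refine sum_le_sum fun x _ => ?_
    rw [sum_congr rfl (g := fun _ => ‖V x‖ ^ 2) fun t ht => by rw [(mem_filter.1 ht).2],
      sum_const, nsmul_eq_mul]
    have := fiber_le mul Δ N A m hN hm (fun p hp => ⟨(hA p hp).1, (hA p hp).2.2⟩) k x
    gcongr
  have e4 := ms h mul X₂ T B X γ hB hγ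
  calc _ ≤ (∑ t ∈ I, ‖V (pr mul Δ k t)‖) ^ 2 := by gcongr
    _ ≤ #I * ∑ t ∈ I, ‖V (pr mul Δ k t)‖ ^ 2 := sq_sum_le_card_mul_sum_sq
    _ ≤ _ := by
        refine mul_le_mul hcI (e3.trans ?_) (by positivity) (by positivity)
        exact mul_le_mul_of_nonneg_left e4 (by positivity)

theorem root9 (X : ℕ) : ∃ s : ℕ, s ^ 9 ≤ X ∧ ∀ u : ℤ, |u| ^ 9 ≤ X → |u| ≤ s := by
  classical
  refine ⟨Nat.findGreatest (fun s => s ^ 9 ≤ X) X,
    Nat.findGreatest_spec (P := fun s => s ^ 9 ≤ X) (Nat.zero_le X) (by simp), fun u hu => ?_⟩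
  have h1 : u.natAbs ^ 9 ≤ X := by
    rw [← Int.natCast_natAbs] at hu
    exact_mod_cast hu
  have h2 : u.natAbs ≤ X := (Nat.le_self_pow (by norm_num) _).trans h1
  rw [← Int.natCast_natAbs]
  exact_mod_cast Nat.le_findGreatest (P := fun s => s ^ 9 ≤ X) h2 h1

theorem fin (K c x y S W T : ℝ) (hK : 1 ≤ K) (hc : 1 ≤ c) (hy : 9 ≤ y) (hxy : y ≤ x)
    (hT : T = c ^ 35 * x ^ 4) (h1 : S ^ 36 ≤ y ^ 35 * W)
    (h2 : W ^ 2 ≤ x ^ 36 * (K * (y * (2 * T + 1) ^ 9 + 9 * y ^ 4 * (2 * T + 1) ^ 8))) :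
    S ≤ 2 * 3 ^ 9 * K * c ^ 5 * x * y ^ (71 / 72 : ℝ) := by
  have hy0 : 0 < y := by linarith
  have hx0 : 0 < x := by linarith
  have hc35 : 1 ≤ c ^ 35 := one_le_pow₀ hc
  have hx4 : 9 * y ^ 3 ≤ x ^ 4 :=
    calc 9 * y ^ 3 ≤ y * y ^ 3 := by gcongr
      _ = y ^ 4 := by ring
      _ ≤ x ^ 4 := by gcongr
  have hT1 : x ^ 4 ≤ T := by rw [hT]; exact le_mul_of_one_le_left (by positivity) hc35
  have hy3 : 1 ≤ y ^ 3 := one_le_pow₀ (by linarith)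
  have hT0 : 1 ≤ T := by linarith
  have h3 : y * (2 * T + 1) ^ 9 + 9 * y ^ 4 * (2 * T + 1) ^ 8 ≤ 2 * y * (3 * T) ^ 9 := by
    have : 9 * y ^ 4 * (2 * T + 1) ^ 8 ≤ y * (2 * T + 1) ^ 9 :=
      calc 9 * y ^ 4 * (2 * T + 1) ^ 8 = y * ((9 * y ^ 3) * (2 * T + 1) ^ 8) := by ring
        _ ≤ y * ((2 * T + 1) * (2 * T + 1) ^ 8) := by gcongr; linarith
        _ = _ := by ring
    have h4 : y * (2 * T + 1) ^ 9 ≤ y * (3 * T) ^ 9 := by gcongr; linarith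
    linarith
  have hC : 1 ≤ 2 * 3 ^ 9 * K := by linarith
  generalize hCe : 2 * 3 ^ 9 * K = C at hC
  have h5 : (y ^ (71 / 72 : ℝ)) ^ 72 = y ^ 71 := by
    rw [← Real.rpow_natCast, ← Real.rpow_mul hy0.le]
    norm_num
  refine le_of_pow_le_pow_left₀ (n := 72) (by norm_num) (by positivity) ?_
  calc S ^ 72 = (S ^ 36) ^ 2 := by ring
    _ ≤ (y ^ 35 * W) ^ 2 := by gcongr
    _ = y ^ 70 * W ^ 2 := by ring
    _ ≤ y ^ 70 * (x ^ 36 * (K * (2 * y * (3 * T) ^ 9))) := by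
        refine mul_le_mul_of_nonneg_left (h2.trans ?_) (by positivity)
        gcongr
    _ = C * c ^ 315 * x ^ 72 * y ^ 71 := by rw [hT, ← hCe]; ring
    _ ≤ C ^ 72 * c ^ 360 * x ^ 72 * y ^ 71 := by
        have h6 : C ≤ C ^ 72 := le_self_pow₀ hC (by norm_num)
        have h7 : c ^ 315 ≤ c ^ 360 := pow_le_pow_right₀ hc (by norm_num)
        gcongr
    _ = _ := by rw [mul_pow, mul_pow, mul_pow, h5, ← pow_mul]

end BL

theorem bl (h : BoxSt) : BLSt := by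
  obtain ⟨K, hK⟩ : ∃ K : ℕ, K = (35 + 1) ^ (35 + 1) := ⟨_, rfl⟩
  have hK1 : (1 : ℝ) ≤ K := by
    have : 1 ≤ K := hK ▸ Nat.one_le_pow _ _ (by norm_num)
    exact_mod_cast this
  refine ⟨2 * 3 ^ 9 * K, by positivity, ?_⟩
  intro mul N C₀ X₁ X₂ A B Δ m X α β hC hX₂ hX hmul hN hm hA hB hα hβ
  obtain ⟨s, hs, hs'⟩ := BL.root9 X₁
  have hmom := BL.mom h mul N X₁ X₂ (C₀ ^ 35 * X₁ ^ 4) 35 A B Δ m X α hN hm
    (fun p hp => ⟨(hA p hp).1, (hA p hp).2.1, (hA p hp).2.2.1⟩)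
    (fun t ht j => by
      refine (BL.pr_le mul Δ C₀ hmul s 35 t
        (fun i j => hs' _ ((hA _ (Fintype.mem_piFinset.1 ht i)).2.2.2 j)) j).trans ?_
      have : s ^ (35 + 1) ≤ X₁ ^ 4 :=
        calc s ^ (35 + 1) = (s ^ 9) ^ 4 := by rw [← pow_mul]
          _ ≤ X₁ ^ 4 := Nat.pow_le_pow_left hs 4
      exact_mod_cast Nat.mul_le_mul_left (C₀ ^ 35) this) hB hα
  rw [← hK] at hmom
  have hcB : (#B : ℝ) ≤ X₂ := by
    exact_mod_cast BL.card_le B X₂ fun q hq => ⟨(hB q hq).1, (hB q hq).2.1⟩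
  have h1 : ‖∑ p ∈ A, ∑ q ∈ B, α p * β q * X q (Δ p)‖ ≤ ∑ q ∈ B, ‖∑ p ∈ A, α p * X q (Δ p)‖ := by
    rw [sum_comm]
    refine (norm_sum_le _ _).trans (sum_le_sum fun q _ => ?_)
    have : ∑ p ∈ A, α p * β q * X q (Δ p) = β q * ∑ p ∈ A, α p * X q (Δ p) := by
      rw [mul_sum]
      exact sum_congr rfl fun p _ => by ring
    rw [this, norm_mul]
    exact mul_le_of_le_one_left (norm_nonneg _) (hβ q)
  refine BL.fin K C₀ X₁ X₂ _ _ _ hK1 (by exact_mod_cast hC) (by exact_mod_cast hX₂)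
    (by exact_mod_cast hX) (by push_cast; rfl) ?_ hmom
  calc _ ≤ (∑ q ∈ B, ‖∑ p ∈ A, α p * X q (Δ p)‖) ^ (35 + 1) := by gcongr
    _ ≤ (#B : ℝ) ^ 35 * ∑ q ∈ B, ‖∑ p ∈ A, α p * X q (Δ p)‖ ^ (35 + 1) :=
        pow_sum_le_card_mul_sum_pow (fun _ _ => norm_nonneg _) 35
    _ ≤ _ := mul_le_mul_of_nonneg_right (pow_le_pow_left₀ (Nat.cast_nonneg _) hcB 35)
        (sum_nonneg fun _ _ => pow_nonneg (norm_nonneg _) _)

end Pool.Agent.Lib.MP_65b7ad_nt.DS
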