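import Pool.Agent.Lib.MP_65b7ad_nt.DS.St

/-! Sums over a box of a product of two periodic functions. -/

open Finset

namespace Pool.Agent.Lib.MP_65b7ad_nt.DS

namespace Box

lemma card_fib (Q k : ℕ) (hQ : 0 < Q) (a c : ℤ) :
    #((Ico a (a + Q * k)).filter (fun x => x ≡ c [ZMOD Q])) = k := by
  have h := Int.Ico_filter_modEq_card a (a + Q * k) (r := (Q : ℤ)) (by exact_mod_cast hQ) c
  have hQ' : ((Q : ℤ) : ℚ) ≠ 0 := by exact_mod_cast hQ.ne'
  have e : (((a + Q * k : ℤ) : ℚ) - c) / ((Q : ℤ) : ℚ) = ((a : ℚ) - c) / ((Q : ℤ) : ℚ) + (k : ℤ) := by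
    push_cast at hQ' ⊢
    field_simp
    ring
  rw [e, Int.ceil_add_intCast, add_sub_cancel_left, max_eq_left (by positivity)] at h
  exact_mod_cast h

lemma card_two (q q' k : ℕ) (hq : 0 < q) (hq' : 0 < q') (hc : q.Coprime q') (a u u' : ℤ) :
    #((Ico a (a + (q * q' : ℕ) * k)).filter (fun x => x ≡ u [ZMOD q] ∧ x ≡ u' [ZMOD q'])) = k := by
  obtain ⟨s, t, hst⟩ : IsCoprime (q : ℤ) (q' : ℤ) := Nat.isCoprime_iff_coprime.2 hc
  have h1 : u * (t * q') + u' * (s * q) ≡ u [ZMOD q] := by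
    refine Int.modEq_iff_dvd.2 ⟨u * s - u' * s, ?_⟩
    linear_combination (-u) * hst
  have h2 : u * (t * q') + u' * (s * q) ≡ u' [ZMOD q'] := by
    refine Int.modEq_iff_dvd.2 ⟨u' * t - u * t, ?_⟩
    linear_combination (-u') * hst
  refine Eq.trans ?_ (card_fib (q * q') k (by positivity) a (u * (t * q') + u' * (s * q)))
  refine congrArg card (filter_congr fun x _ => ?_)
  push_cast
  rw [← Int.modEq_and_modEq_iff_modEq_mul (by simpa using hc)]
  exact ⟨fun h => ⟨h.1.trans h1.symm, h.2.trans h2.symm⟩, fun h => ⟨h.1.trans h1, h.2.trans h2⟩⟩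

lemma sum_zero {ι : Type} [Fintype ι] [DecidableEq ι] (q q' k : ℕ) (hq : 0 < q) (hq' : 0 < q')
    (hc : q.Coprime q') (a : ℤ) (X X' : (ι → ℤ) → ℂ)
    (hX : ∀ x y, (∀ k, (q : ℤ) ∣ x k - y k) → X x = X y)
    (hX' : ∀ x y, (∀ k, (q' : ℤ) ∣ x k - y k) → X' x = X' y)
    (h0 : ∑ x ∈ Fintype.piFinset (fun _ : ι => Ico (0 : ℤ) q), X x = 0) :
    ∑ x ∈ Fintype.piFinset (fun _ : ι => Ico a (a + (q * q' : ℕ) * k)), X x * X' x = 0 := by
  have hq0 : (0 : ℤ) < q := by exact_mod_cast hq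
  have hq0' : (0 : ℤ) < q' := by exact_mod_cast hq'
  rw [← sum_fiberwise_of_maps_to (t := Fintype.piFinset (fun _ : ι => Ico (0 : ℤ) q) ×ˢ
    Fintype.piFinset (fun _ : ι => Ico (0 : ℤ) q'))
    (g := fun x : ι → ℤ => (fun i => x i % (q : ℤ), fun i => x i % (q' : ℤ)))]
  · have : ∀ y ∈ Fintype.piFinset (fun _ : ι => Ico (0 : ℤ) q) ×ˢ
        Fintype.piFinset (fun _ : ι => Ico (0 : ℤ) q'),
        ∑ x ∈ (Fintype.piFinset (fun _ : ι => Ico a (a + (q * q' : ℕ) * k))).filter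
          (fun x : ι → ℤ => (fun i => x i % (q : ℤ), fun i => x i % (q' : ℤ)) = y), X x * X' x =
          (k : ℂ) ^ Fintype.card ι * (X y.1 * X' y.2) := by
      intro y hy
      obtain ⟨hy1, hy2⟩ := mem_product.1 hy
      rw [Fintype.mem_piFinset] at hy1 hy2
      have e : (Fintype.piFinset (fun _ : ι => Ico a (a + (q * q' : ℕ) * k))).filter
          (fun x : ι → ℤ => (fun i => x i % (q : ℤ), fun i => x i % (q' : ℤ)) = y) =
          Fintype.piFinset (fun i : ι => (Ico a (a + (q * q' : ℕ) * k)).filter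
            (fun x => x ≡ y.1 i [ZMOD q] ∧ x ≡ y.2 i [ZMOD q'])) := by
        ext x
        have m1 : ∀ i, y.1 i % q = y.1 i := fun i =>
          Int.emod_eq_of_lt (mem_Ico.1 (hy1 i)).1 (mem_Ico.1 (hy1 i)).2
        have m2 : ∀ i, y.2 i % q' = y.2 i := fun i =>
          Int.emod_eq_of_lt (mem_Ico.1 (hy2 i)).1 (mem_Ico.1 (hy2 i)).2
        simp only [mem_filter, Fintype.mem_piFinset, Prod.ext_iff, funext_iff, Int.ModEq, m1, m2]
        exact ⟨fun h i => ⟨h.1 i, h.2.1 i, h.2.2 i⟩,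
          fun h => ⟨fun i => (h i).1, fun i => (h i).2.1, fun i => (h i).2.2⟩⟩
      rw [e, sum_congr rfl (g := fun _ => X y.1 * X' y.2), sum_const, Fintype.card_piFinset]
      · simp only [card_two q q' k hq hq' hc, prod_const, card_univ, nsmul_eq_mul, Nat.cast_pow]
      · intro x hx
        rw [Fintype.mem_piFinset] at hx
        rw [hX x y.1 fun i => (mem_filter.1 (hx i)).2.1.symm.dvd,
          hX' x y.2 fun i => (mem_filter.1 (hx i)).2.2.symm.dvd]
    rw [sum_congr rfl this, ← mul_sum, sum_product]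
    simp only [← mul_sum, ← sum_mul, h0, zero_mul, mul_zero]
  · intro x _
    simp only [mem_product, Fintype.mem_piFinset, mem_Ico]
    exact ⟨fun i => ⟨Int.emod_nonneg _ hq0.ne', Int.emod_lt_of_pos _ hq0⟩,
      fun i => ⟨Int.emod_nonneg _ hq0'.ne', Int.emod_lt_of_pos _ hq0'⟩⟩

end Box

theorem box : BoxSt := by
  intro q q' T X X' hq hq' hne hX1 hX1' hX hX' h0
  have hc : q.Coprime q' := (Nat.coprime_primes hq hq').2 hne
  have hQ : 0 < q * q' := Nat.mul_pos hq.pos hq'.pos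
  obtain ⟨k, hk1, hk2⟩ : ∃ k : ℕ, q * q' * k ≤ 2 * T + 1 ∧ 2 * T + 1 < q * q' * k + q * q' :=
    ⟨(2 * T + 1) / (q * q'), Nat.mul_div_le _ _, by
      have := Nat.div_add_mod (2 * T + 1) (q * q')
      have := Nat.mod_lt (2 * T + 1) hQ
      omega⟩
  have hz := Box.sum_zero q q' k hq.pos hq'.pos hc (-T) X X' hX hX' h0
  have hsub : Fintype.piFinset (fun _ : Fin 3 × Fin 3 => Ico (-T : ℤ) (-T + (q * q' : ℕ) * k)) ⊆
      Fintype.piFinset (fun _ : Fin 3 × Fin 3 => Icc (-T : ℤ) T) := by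
    refine Fintype.piFinset_subset _ _ fun _ x hx => ?_
    have h1 : ((q * q' * k : ℕ) : ℤ) ≤ (2 * T + 1 : ℕ) := by exact_mod_cast hk1
    rw [mem_Ico] at hx
    rw [mem_Icc]
    push_cast at h1 hx
    constructor <;> linarith [hx.1, hx.2]
  rw [← sum_sdiff hsub, hz, add_zero]
  refine (norm_sum_le _ _).trans ?_
  refine (sum_le_card_nsmul _ _ 1 fun x _ => ?_).trans ?_
  · rw [norm_mul]
    exact mul_le_one₀ (hX1 x) (norm_nonneg _) (hX1' x)
  have c1 : #(Icc (-T : ℤ) T) = 2 * T + 1 := by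
    rw [Int.card_Icc]; omega
  have c2 : #(Ico (-T : ℤ) (-T + (q * q' : ℕ) * k)) = q * q' * k := by
    rw [Int.card_Ico, add_sub_cancel_left]
    exact_mod_cast Int.toNat_natCast (q * q' * k)
  rw [card_sdiff_of_subset hsub, Fintype.card_piFinset, Fintype.card_piFinset]
  simp only [c1, c2, prod_const, card_univ, Fintype.card_prod, Fintype.card_fin, nsmul_eq_mul,
    mul_one]
  rw [Nat.cast_sub (Nat.pow_le_pow_left hk1 _)]
  have r1 : ((q * q' * k : ℕ) : ℝ) ≤ (2 * T + 1 : ℕ) := by exact_mod_cast hk1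
  have r2 : ((2 * T + 1 : ℕ) : ℝ) ≤ (q * q' * k + q * q' : ℕ) := by exact_mod_cast hk2.le
  have r0 : (0 : ℝ) ≤ (q * q' * k : ℕ) := by positivity
  have h := abs_pow_sub_pow_le ((2 * T + 1 : ℕ) : ℝ) ((q * q' * k : ℕ) : ℝ) (3 * 3)
  rw [abs_of_nonneg (sub_nonneg.2 r1), abs_of_nonneg r0, abs_of_nonneg (r0.trans r1),
    max_eq_left r1] at h
  have h2 := (le_abs_self _).trans h
  push_cast at h2 r1 r2 ⊢
  refine h2.trans ?_
  have : (2 * (T : ℝ) + 1 - q * q' * k) * 9 ≤ 9 * (q * q') := by linarith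
  exact mul_le_mul_of_nonneg_right this (by positivity)

end Pool.Agent.Lib.MP_65b7ad_nt.DS
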