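import Pool.Agent.Lib.MP_65b7ad_nt.DS.Bas

/-! Two good triples in the same class. -/

open Finset

namespace Pool.Agent.Lib.MP_65b7ad_nt.DS

namespace CL

/-- The valuations of the three conjugates. -/
theorem vals {P : Loc} {l : ℕ} (h : P.Ok l) {d : ℤ} (hd : P.Cb d) {γ : V3} (hγ : N3 d γ ≠ 0) :
    0 ≤ P.v (ev3 γ (P.th d)) ∧ 0 ≤ P.v (ev3 γ (P.om * P.th d)) ∧
      0 ≤ P.v (ev3 γ (P.om ^ 2 * P.th d)) ∧
      P.v (ev3 γ (P.th d)) + P.v (ev3 γ (P.om * P.th d)) + P.v (ev3 γ (P.om ^ 2 * P.th d)) =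
        P.v ((N3 d γ : ℤ) : P.F) := by
  have hθ := Loc.th_cube hd
  obtain ⟨n0, n1, n2⟩ := h.ev3_ne hθ hγ
  have i0 := h.it_cube hθ
  refine ⟨(h.it_ev3 γ i0).resolve_left n0, (h.it_ev3 γ (h.it_mul h.it_om i0)).resolve_left n1,
    (h.it_ev3 γ (h.it_mul (h.it_pow h.it_om 2) i0)).resolve_left n2, ?_⟩
  rw [← ev3_norm h.om_eq hθ γ, h.v_mul _ _ (mul_ne_zero n0 n1) n2, h.v_mul _ _ n0 n1]

theorem v_prime {P : Loc} {l : ℕ} (h : P.Ok l) (hl : l.Prime) {p : ℕ} (hp : p.Prime) (hne : l ≠ p) :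
    P.v ((p : ℤ) : P.F) = 0 :=
  (h.v_int_zero fun e => hne ((Nat.prime_dvd_prime_iff_eq hl hp).1 (by exact_mod_cast e))).2

theorem v_norm {P : Loc} {l : ℕ} (h : P.Ok l) {p : ℕ} (hp : p.Prime) {m : ℤ} (hm : m ≠ 0) :
    P.v ((p * m : ℤ) : P.F) = P.v ((p : ℤ) : P.F) + P.v (m : P.F) := by
  rw [Int.cast_mul, h.v_mul _ _ (by exact_mod_cast hp.ne_zero) (by exact_mod_cast hm)]

/-- Away from `m` the quotient is a unit. -/
theorem rt_unit {P : ℕ → Loc} {l : ℕ} (h : (P l).Ok l) (hl : l.Prime) {d m : ℤ} {p : ℕ} {γ : V3}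
    (hp : p.Prime) (hg : Good P d p m γ) (hd : (P l).Cb d) (hm : ¬(l : ℤ) ∣ m) :
    (P l).v ((P l).rt d γ) = 0 := by
  obtain ⟨g1, g2, -, -, g5⟩ := hg
  have hγ : N3 d γ ≠ 0 := by
    rw [g1]; exact mul_ne_zero (by exact_mod_cast hp.ne_zero) g2
  obtain ⟨n0, n1, n2⟩ := h.ev3_ne (Loc.th_cube hd) hγ
  obtain ⟨a0, a1, a2, a3⟩ := vals h hd hγ
  rw [g1, v_norm h hp g2, (h.v_int_zero hm).2, add_zero] at a3
  rw [Loc.rt, h.v_div n1 n2]
  by_cases e : l = p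
  · subst e
    have b1 := g5.resolve_left n0
    have b2 : (P l).v (((l : ℕ) : ℤ) : (P l).F) = 1 := by simpa using h.v_l hl
    omega
  · have := v_prime h hl hp e
    omega

theorem ev3_sub {F : Type} [CommRing F] {γ γ' k : V3} {M : ℤ} (hk : ∀ i, γ i - γ' i = M * k i)
    (T : F) : ev3 γ T - ev3 γ' T = M * ev3 k T := by
  have e : ∀ i, (γ i : F) = γ' i + M * k i := fun i => by
    have := congrArg (Int.cast : ℤ → F) (hk i)
    push_cast at this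
    linear_combination this
  simp only [ev3, e]
  ring

end CL

theorem cl : CLSt := by
  intro P hP d m p p' γ γ' hp _ hp' hp3' hg hg' hs
  choose k hk using hs
  have hm : m ≠ 0 := hg.2.1
  constructor
  · obtain ⟨t, m', hm', e⟩ : ∃ (t : ℕ) (m' : ℤ), ¬(3 : ℤ) ∣ m' ∧ m = 3 ^ t * m' := by
      obtain ⟨m', e, hm'⟩ :=
        (FiniteMultiplicity.of_prime_left Int.prime_three hm).exists_eq_pow_mul_and_not_dvd
      exact ⟨_, m', hm', e⟩
    have hN := hg'.1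
    have e0 : γ 0 = γ' 0 + 9 * m ^ 2 * k 0 := by linear_combination hk 0
    have e1 : γ 1 = γ' 1 + 9 * m ^ 2 * k 1 := by linear_combination hk 1
    have e2 : γ 2 = γ' 2 + 9 * m ^ 2 * k 2 := by linear_combination hk 2
    have h3 : ¬(3 : ℤ) ∣ (p' : ℤ) := fun e =>
      hp3' ((Nat.prime_dvd_prime_iff_eq Nat.prime_three hp').1 (by exact_mod_cast e)).symm
    simp only [N3, Nf] at hN
    refine ⟨t, p' * m' + 9 * m * m' * mul3 d k (adj3 d γ') 0, fun e3 => ?_, ?_, ?_, ?_⟩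
    · have : (3 : ℤ) ∣ p' * m' :=
        (dvd_add_left ⟨3 * m * m' * mul3 d k (adj3 d γ') 0, by ring⟩).1 e3
      exact (Int.prime_three.dvd_or_dvd this).elim h3 hm'
    · simp only [mul3, adj3, Matrix.cons_val_zero, Matrix.cons_val_one, Matrix.cons_val, e0, e1, e2]
      linear_combination hN + (p' + 9 * m * (k 0 * (γ' 0 ^ 2 - d * γ' 1 * γ' 2) +
        d * (k 1 * (γ' 1 ^ 2 - γ' 0 * γ' 2) + k 2 * (d * γ' 2 ^ 2 - γ' 0 * γ' 1)))) * e
    · refine ⟨m * m' * mul3 d k (adj3 d γ') 1, ?_⟩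
      simp only [mul3, adj3, Matrix.cons_val_zero, Matrix.cons_val_one, Matrix.cons_val, e0, e1, e2]
      linear_combination (9 * m * (k 0 * (d * γ' 2 ^ 2 - γ' 0 * γ' 1) +
        k 1 * (γ' 0 ^ 2 - d * γ' 1 * γ' 2) + d * (k 2 * (γ' 1 ^ 2 - γ' 0 * γ' 2)))) * e
    · refine ⟨m * m' * mul3 d k (adj3 d γ') 2, ?_⟩
      simp only [mul3, adj3, Matrix.cons_val_zero, Matrix.cons_val_one, Matrix.cons_val, e0, e1, e2]
      linear_combination (9 * m * (k 0 * (γ' 1 ^ 2 - γ' 0 * γ' 2) +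
        k 1 * (d * γ' 2 ^ 2 - γ' 0 * γ' 1) + k 2 * (γ' 0 ^ 2 - d * γ' 1 * γ' 2))) * e
  · intro l hl hl3 hd
    have h := hP l hl hl3
    by_cases hlm : (l : ℤ) ∣ m
    · have hγ : N3 d γ ≠ 0 := by
        rw [hg.1]; exact mul_ne_zero (by exact_mod_cast hp.ne_zero) hm
      have hγ' : N3 d γ' ≠ 0 := by
        rw [hg'.1]; exact mul_ne_zero (by exact_mod_cast hp'.ne_zero) hm
      have hθ := Loc.th_cube hd
      obtain ⟨-, n1, n2⟩ := h.ev3_ne hθ hγ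
      obtain ⟨-, n1', n2'⟩ := h.ev3_ne hθ hγ'
      obtain ⟨a0, a1, a2, a3⟩ := CL.vals h hd hγ'
      have hne : l ≠ p' := by rintro rfl; exact hg'.2.2.1 hlm
      rw [hg'.1, CL.v_norm h hp' hm, CL.v_prime h hl hp' hne, zero_add] at a3
      have m0 : (m : (P l).F) ≠ 0 := by exact_mod_cast hm
      have vm : 0 < (P l).v (m : (P l).F) := ((h.sm_int_iff hl m).2 hlm).resolve_left m0
      have i0 := h.it_cube hθ
      have key : ∀ T : (P l).F, (P l).it T → ev3 γ' T ≠ 0 →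
          (P l).v (ev3 γ' T) ≤ (P l).v (m : (P l).F) → (P l).v (ev3 γ T) = (P l).v (ev3 γ' T) := by
        intro T iT n hv
        refine (h.close' hl hl3 n ?_).2.1
        rw [CL.ev3_sub hk T]
        have ik := h.it_mul (h.it_int 9) (h.it_ev3 k iT)
        have e : ((9 * m ^ 2 : ℤ) : (P l).F) * ev3 k T = m * m * (((9 : ℤ) : (P l).F) * ev3 k T) := by
          push_cast; ring
        rw [e]
        by_cases k0 : ((9 : ℤ) : (P l).F) * ev3 k T = 0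
        · exact Or.inl (by rw [k0, mul_zero])
        · have := ik.resolve_left k0
          right
          rw [h.v_mul _ _ (mul_ne_zero m0 m0) k0, h.v_mul _ _ m0 m0]
          omega
      rw [Loc.rt, Loc.rt, h.v_div n1 n2, h.v_div n1' n2',
        key _ (h.it_mul h.it_om i0) n1' (by omega),
        key _ (h.it_mul (h.it_pow h.it_om 2) i0) n2' (by omega)]
    · rw [CL.rt_unit h hl hp hg hd hlm, CL.rt_unit h hl hp' hg' hd hlm]

end Pool.Agent.Lib.MP_65b7ad_nt.DS
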