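import Pool.Agent.Lib.MP_65b7ad_nt.DS.St

/-! The second moment bound in one cell and in one context. -/

open Finset

namespace Pool.Agent.Lib.MP_65b7ad_nt.DS

namespace CellA

open Classical in
/-- At most `4 |V|` pairs are dependent. -/
theorem dep_le {S : Finset ℕ} (V : Finset (S → ZMod 3)) :
    #((V ×ˢ V).filter fun t => ¬Indep t.1 t.2) ≤ 4 * #V := by
  have hsub : ((V ×ˢ V).filter fun t => ¬Indep t.1 t.2) ⊆
      (V.image fun e => ((0 : S → ZMod 3), e)) ∪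
        ((V ×ˢ (univ : Finset (ZMod 3))).image fun t => (t.1, t.2 • t.1)) := by
    rintro ⟨e, e'⟩ h
    simp only [mem_filter, mem_product, Indep, not_forall] at h
    obtain ⟨⟨he, he'⟩, i, j, hij, hne⟩ := h
    simp only [mem_union, mem_image, mem_product, mem_univ, and_true, Prod.mk.injEq, Prod.exists]
    have h3 : ∀ k : ZMod 3, k ≠ 0 → k * k = 1 := by decide
    by_cases hj : j = 0
    · have hi : i ≠ 0 := fun hi => hne ⟨hi, hj⟩
      left
      refine ⟨e', he', ?_, rfl⟩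
      have h1 : i • e = 0 := by simpa [hj] using hij
      have h2 : (i * i) • e = 0 := by rw [mul_smul, h1, smul_zero]
      rw [h3 i hi, one_smul] at h2
      exact h2.symm
    · right
      refine ⟨e, -(j * i), he, rfl, ?_⟩
      have h1 : j • e' = -(i • e) := eq_neg_of_add_eq_zero_right hij
      have h2 : (j * j) • e' = -((j * i) • e) := by rw [mul_smul, h1, smul_neg, mul_smul]
      rw [h3 j hj, one_smul] at h2
      rw [h2, neg_smul]
  calc _ ≤ _ := card_le_card hsub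
    _ ≤ #V + #(V ×ˢ (univ : Finset (ZMod 3))) :=
      (card_union_le _ _).trans (add_le_add card_image_le card_image_le)
    _ = 4 * #V := by rw [card_product, card_univ, ZMod.card]; ring

open Classical in
/-- The abstract second moment bound. -/
theorem moment {S : Finset ℕ} (V : Finset (S → ZMod 3)) (hV : 0 < #V) (U G : Finset (ℕ × ℕ))
    (hG : G ⊆ U) (f : (S → ZMod 3) → ℕ × ℕ → ℂ) (E : ℝ) (hE : 0 ≤ E) (h1 : ∀ e t, ‖f e t‖ ≤ 1)
    (h2 : ∀ t ∈ G, (#V : ℝ) ≤ 9 * ‖∑ e ∈ V, f e t‖)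
    (h3 : ∀ e ∈ V, ∀ e' ∈ V, Indep e e' → ‖∑ t ∈ U, f e t * (starRingEnd ℂ) (f e' t)‖ ≤ E) :
    (#G : ℝ) ≤ 324 / #V * #U + 81 * E := by
  have hv : (0 : ℝ) < #V := by exact_mod_cast hV
  have ha : (#G : ℝ) * (#V : ℝ) ^ 2 ≤ 81 * ∑ t ∈ U, ‖∑ e ∈ V, f e t‖ ^ 2 := by
    calc (#G : ℝ) * (#V : ℝ) ^ 2 = ∑ _t ∈ G, (#V : ℝ) ^ 2 := by simp
      _ ≤ ∑ t ∈ G, 81 * ‖∑ e ∈ V, f e t‖ ^ 2 := by
        refine sum_le_sum fun t ht => ?_
        have := h2 t ht
        nlinarith [norm_nonneg (∑ e ∈ V, f e t)]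
      _ ≤ ∑ t ∈ U, 81 * ‖∑ e ∈ V, f e t‖ ^ 2 :=
        sum_le_sum_of_subset_of_nonneg hG fun _ _ _ => by positivity
      _ = _ := by rw [mul_sum]
  have hb : ((∑ t ∈ U, ‖∑ e ∈ V, f e t‖ ^ 2 : ℝ) : ℂ) =
      ∑ s ∈ V ×ˢ V, ∑ t ∈ U, f s.1 t * (starRingEnd ℂ) (f s.2 t) := by
    rw [sum_comm, Complex.ofReal_sum]
    refine sum_congr rfl fun t _ => ?_
    rw [Complex.ofReal_pow, ← Complex.mul_conj', map_sum, sum_mul_sum, sum_product]
  have hc : ∑ t ∈ U, ‖∑ e ∈ V, f e t‖ ^ 2 ≤ 4 * #V * #U + (#V : ℝ) ^ 2 * E := by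
    have h0 : ∑ t ∈ U, ‖∑ e ∈ V, f e t‖ ^ 2 ≤
        ∑ s ∈ V ×ˢ V, ‖∑ t ∈ U, f s.1 t * (starRingEnd ℂ) (f s.2 t)‖ := by
      refine le_trans ?_ (norm_sum_le _ _)
      rw [← hb, Complex.norm_real]
      exact le_abs_self _
    refine h0.trans ?_
    rw [← sum_filter_add_sum_filter_not (V ×ˢ V) fun s => ¬Indep s.1 s.2]
    refine add_le_add ?_ ?_
    · calc _ ≤ ∑ _s ∈ (V ×ˢ V).filter (fun s => ¬Indep s.1 s.2), (#U : ℝ) := by
            refine sum_le_sum fun s _ => (norm_sum_le _ _).trans ?_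
            calc _ ≤ ∑ _t ∈ U, (1 : ℝ) := by
                  refine sum_le_sum fun t _ => ?_
                  rw [norm_mul, Complex.norm_conj]
                  exact mul_le_one₀ (h1 _ _) (norm_nonneg _) (h1 _ _)
              _ = _ := by simp
        _ = (#((V ×ˢ V).filter fun s => ¬Indep s.1 s.2) : ℝ) * #U := by simp
        _ ≤ _ := by
            refine mul_le_mul_of_nonneg_right ?_ (by positivity)
            exact_mod_cast dep_le V
    · calc _ ≤ ∑ _s ∈ (V ×ˢ V).filter (fun s => ¬¬Indep s.1 s.2), E := by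
            refine sum_le_sum fun s hs => ?_
            simp only [mem_filter, mem_product, not_not] at hs
            exact h3 _ hs.1.1 _ hs.1.2 hs.2
        _ ≤ ∑ _s ∈ V ×ˢ V, E := sum_le_sum_of_subset_of_nonneg (filter_subset _ _) fun _ _ _ => hE
        _ = _ := by simp [card_product, sq]
  have hd : (#G : ℝ) * (#V : ℝ) ^ 2 ≤ (324 / #V * #U + 81 * E) * (#V : ℝ) ^ 2 := by
    have : (324 / #V * #U + 81 * E) * (#V : ℝ) ^ 2 = 81 * (4 * #V * #U + (#V : ℝ) ^ 2 * E) := by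
      field_simp
      ring
    rw [this]
    linarith
  exact le_of_mul_le_mul_right hd (by positivity)

end CellA

open Classical in
theorem cell (h1 : FSt) (h2 : V0St) : CellSt := by
  obtain ⟨C, K, hC, hF⟩ := h1
  refine ⟨81 * C, K, by positivity, fun P hP a b c S p₀ q₀ X₁ X₂ A B hc => ?_⟩
  obtain ⟨f, f1, f2, f3⟩ := hF P hP a b c S p₀ q₀ X₁ X₂ A B hc
  obtain ⟨hx, hp₀, hq₀, -, -, -, hA, hB⟩ := hc
  obtain ⟨v1, -, v3⟩ := h2 P hP a b c S p₀ q₀ hx hp₀ hq₀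
  set V := V0 P a b c S p₀ q₀ with hVd
  have hV : 0 < #V := by
    rcases Nat.eq_zero_or_pos #V with h | h
    · rw [h, mul_zero] at v1
      exact absurd v1 (not_le.mpr (by positivity))
    · exact h
  have hm := CellA.moment V hV (A ×ˢ B)
    ((A ×ˢ B).filter fun t => t.1 ≠ t.2 ∧ Sol (a * t.1 : ℕ) (b * t.2 : ℕ) c) (filter_subset _ _)
    (fun e t => f e t.1 t.2) (C * ((∏ l ∈ S, l : ℕ) : ℝ) ^ K * X₁ * (X₂ : ℝ) ^ (71 / 72 : ℝ))
    (by positivity) (fun e t => f1 _ _ _) ?_ ?_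
  · refine hm.trans (add_le_add ?_ (le_of_eq (by ring)))
    rw [card_product, Nat.cast_mul]
    refine mul_le_mul_of_nonneg_right ?_ (by positivity)
    have hv : (0 : ℝ) < #V := by exact_mod_cast hV
    have v1' : (3 : ℝ) ^ #S ≤ 3 ^ (om1 (a * b * c) + 1) * #V := by exact_mod_cast v1
    rw [div_le_div_iff₀ hv (by positivity)]
    rw [pow_succ] at v1'
    linarith
  · rintro ⟨p, q⟩ ht
    simp only [mem_filter, mem_product] at ht
    obtain ⟨⟨hp, hq⟩, hne, hs⟩ := ht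
    have e1 := (v3 p q (hA p hp).1 (hB q hq).1 (hA p hp).2.1.symm (hB q hq).2.1.symm).1
    have e2 := (h2 P hP a b c S p q hx (hA p hp).1 (hB q hq).1).2.1
    rw [← e1] at e2
    have e3 : ∑ e ∈ V, f e p q =
        (#(V.filter fun e => (P p).c (dd S e : ℤ) = 0 ∧ (P q).c (dd S e : ℤ) = 0) : ℂ) := by
      rw [sum_congr rfl fun e he => f2 e he p hp q hq hne hs, sum_boole]
    show (#V : ℝ) ≤ 9 * ‖∑ e ∈ V, f e p q‖
    rw [e3, Complex.norm_natCast]
    exact_mod_cast e2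
  · intro e he e' he' hi
    rw [sum_product]
    exact f3 e he e' he' hi

open Classical in
theorem ctx (h1 : CellSt) (h2 : DepSt) (h3 : V0St) : CtxSt := by
  obtain ⟨C, K, hC, hF⟩ := h1
  refine ⟨C, K + 2, hC, fun P hP a b c S z X₁ X₂ hx h9 hX hz => ?_⟩
  set M : ℕ := ∏ l ∈ S, l with hM
  have hM0 : 0 < M := prod_pos fun l hl => (hx.2.2.2 l hl).1.pos
  set U := PP a b c z X₁ ×ˢ PP a b c z X₂ with hU
  set κ : ℝ := 972 * 3 ^ om1 (a * b * c) / 3 ^ #S with hκ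
  set E : ℝ := C * (M : ℝ) ^ K * X₁ * (X₂ : ℝ) ^ (71 / 72 : ℝ) with hE
  have hκ0 : 0 ≤ κ := by positivity
  have hE0 : 0 ≤ E := by positivity
  have hmap : ∀ G : Finset (ℕ × ℕ), #G =
      ∑ s ∈ range M ×ˢ range M, #(G.filter fun t => (t.1 % M, t.2 % M) = s) := by
    intro G
    refine card_eq_sum_card_fiberwise fun t _ => ?_
    simp only [coe_product, coe_range, Set.mem_prod, Set.mem_Iio]
    exact ⟨Nat.mod_lt _ hM0, Nat.mod_lt _ hM0⟩
  have hPP : ∀ X p, p ∈ PP a b c z X → Fr a b c p ∧ 10 ^ 6 * M ^ 32 < p ∧ p ≤ X := by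
    intro X p hp
    simp only [PP, mem_filter, mem_Icc] at hp
    refine ⟨hp.2.1, ?_, hp.1.2⟩
    have : 10 ^ 6 * (M : ℝ) ^ 32 < p := hz.trans_lt hp.2.2
    exact_mod_cast this
  have hcl : ∀ s ∈ range M ×ˢ range M,
      (#((U.filter fun t => t.1 ≠ t.2 ∧ Sol (a * t.1 : ℕ) (b * t.2 : ℕ) c).filter
        fun t => (t.1 % M, t.2 % M) = s) : ℝ) ≤
      κ * #((U.filter fun t => Els P a b c S t.1 t.2).filter fun t => (t.1 % M, t.2 % M) = s) + E := by
    intro s _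
    rcases ((U.filter fun t => t.1 ≠ t.2 ∧ Sol (a * t.1 : ℕ) (b * t.2 : ℕ) c).filter
        fun t => (t.1 % M, t.2 % M) = s).eq_empty_or_nonempty with h | ⟨⟨p₀, q₀⟩, h⟩
    · rw [h, card_empty, Nat.cast_zero]
      exact add_nonneg (mul_nonneg hκ0 (Nat.cast_nonneg _)) hE0
    rw [mem_filter, mem_filter, hU, mem_product] at h
    obtain ⟨⟨⟨hp, hq⟩, hne, hs⟩, rfl⟩ := h
    have fp := (hPP _ _ hp).1
    have fq := (hPP _ _ hq).1
    have hels := (h2 P hP a b c S p₀ q₀ hx fp fq hne).1 hs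
    set A := (PP a b c z X₁).filter fun p => p % M = p₀ % M with hA
    set B := (PP a b c z X₂).filter fun q => q % M = q₀ % M with hB
    have hcell : Cell P a b c S p₀ q₀ X₁ X₂ A B := by
      refine ⟨hx, fp, fq, hels, h9, hX, fun p h => ?_, fun q h => ?_⟩
      · have h' := mem_filter.mp h
        exact ⟨(hPP _ _ h'.1).1, h'.2, (hPP _ _ h'.1).2⟩
      · have h' := mem_filter.mp h
        exact ⟨(hPP _ _ h'.1).1, h'.2, (hPP _ _ h'.1).2⟩
    have e1 : ((U.filter fun t => t.1 ≠ t.2 ∧ Sol (a * t.1 : ℕ) (b * t.2 : ℕ) c).filter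
        fun t => (t.1 % M, t.2 % M) = (p₀ % M, q₀ % M)) =
        (A ×ˢ B).filter fun t => t.1 ≠ t.2 ∧ Sol (a * t.1 : ℕ) (b * t.2 : ℕ) c := by
      ext t
      simp only [mem_filter, hU, hA, hB, mem_product, Prod.mk.injEq]
      tauto
    have e2 : ((U.filter fun t => Els P a b c S t.1 t.2).filter
        fun t => (t.1 % M, t.2 % M) = (p₀ % M, q₀ % M)) = A ×ˢ B := by
      ext t
      simp only [mem_filter, hU, hA, hB, mem_product, Prod.mk.injEq]
      refine ⟨by tauto, fun h => ⟨⟨⟨h.1.1, h.2.1⟩, ?_⟩, h.1.2, h.2.2⟩⟩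
      exact ((h3 P hP a b c S p₀ q₀ hx fp fq).2.2 t.1 t.2 (hPP _ _ h.1.1).1 (hPP _ _ h.2.1).1
        h.1.2.symm h.2.2.symm).2.mp hels
    rw [e1, e2, card_product, Nat.cast_mul]
    exact hF P hP a b c S p₀ q₀ X₁ X₂ A B hcell
  rw [hmap (U.filter fun t => t.1 ≠ t.2 ∧ Sol (a * t.1 : ℕ) (b * t.2 : ℕ) c),
    hmap (U.filter fun t => Els P a b c S t.1 t.2), Nat.cast_sum, Nat.cast_sum]
  refine (sum_le_sum hcl).trans (le_of_eq ?_)
  rw [sum_add_distrib, ← mul_sum, sum_const, card_product, card_range, nsmul_eq_mul, hE]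
  push_cast
  ring

end Pool.Agent.Lib.MP_65b7ad_nt.DS
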