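import Pool.Agent.Lib.MP_65b7ad_nt.DS.Bas

/-! Local dependence of the two integers attached to a pair of primes. -/

open Finset

namespace Pool.Agent.Lib.MP_65b7ad_nt.DS

namespace Dep

variable {a b c : ℕ} {S : Finset ℕ} {p q l : ℕ}

lemma dd_ne (hc : Ctx a b c S) (e : S → ZMod 3) : dd S e ≠ 0 := by
  unfold dd
  refine Finset.prod_ne_zero_iff.2 fun l _ => pow_ne_zero _ ?_
  exact_mod_cast (hc.2.2.2 l l.2).1.ne_zero

lemma dd_ndvd (hc : Ctx a b c S) (e : S → ZMod 3) (hl : l.Prime) (hS : l ∉ S) :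
    ¬(l : ℤ) ∣ dd S e := by
  intro h
  have hl' : Prime (l : ℤ) := Nat.prime_iff_prime_int.1 hl
  obtain ⟨r, -, hr⟩ := (Prime.dvd_finsetProd_iff hl' _).1 h
  have h1 : l ∣ (r : ℕ) := by exact_mod_cast hl'.dvd_of_dvd_pow hr
  exact hS (((Nat.prime_dvd_prime_iff_eq hl (hc.2.2.2 r r.2).1).1 h1) ▸ r.2)

lemma val_one (hc : Ctx a b c S) (hS : l ∈ S) :
    padicValNat l a + padicValNat l b + padicValNat l c = 1 := by
  obtain ⟨ha, hb, hc', h⟩ := hc
  obtain ⟨hl, -, h1, h2⟩ := h l hS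
  have := Fact.mk hl
  have h0 : a * b * c ≠ 0 := by positivity
  have e1 := (padicValNat_dvd_iff_le (p := l) (n := 1) h0).1 (by simpa using h1)
  have e2 := mt (padicValNat_dvd_iff_le (p := l) (n := 2) h0).2 h2
  rw [padicValNat.mul (by positivity) hc'.ne', padicValNat.mul ha.ne' hb.ne'] at e1 e2
  omega

lemma val_fr (hl : l.Prime) (hd : l ∣ a * b * c) (hp : Fr a b c p) : padicValNat l p = 0 :=
  padicValNat.eq_zero_of_not_dvd fun h =>
    hp.2.2 (((Nat.prime_dvd_prime_iff_eq hl hp.1).1 h) ▸ hd)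

lemma vW {P : Loc} (h : P.Ok l) (hl : l.Prime) (hb : 0 < b) (hq : 0 < q) (hc : 0 < c) :
    P.v (((b * q * c ^ 2 : ℕ) : ℤ) : P.F)
      = padicValNat l b + padicValNat l q + 2 * padicValNat l c := by
  have := Fact.mk hl
  rw [Int.cast_natCast, h.v_nat (by positivity), padicValNat.mul (by positivity) (by positivity),
    padicValNat.mul hb.ne' hq.ne', padicValNat.pow]
  push_cast
  ring

lemma vD {P : Loc} (h : P.Ok l) (hc : Ctx a b c S) (hS : l ∈ S) (hp : Fr a b c p)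
    (hq : Fr a b c q) : P.v (((a * p * (b * q) * c : ℕ) : ℤ) : P.F) = 1 := by
  obtain ⟨hl, -, h1, -⟩ := hc.2.2.2 l hS
  have := Fact.mk hl
  have e := val_one hc hS
  obtain ⟨ha, hb, hc', -⟩ := hc
  have p0 := hp.1.pos
  have q0 := hq.1.pos
  rw [Int.cast_natCast, h.v_nat (by positivity), padicValNat.mul (by positivity) (by positivity),
    padicValNat.mul (by positivity) (by positivity), padicValNat.mul ha.ne' p0.ne',
    padicValNat.mul hb.ne' q0.ne', val_fr hl h1 hp, val_fr hl h1 hq]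
  omega

lemma not_cb {P : Loc} (h : P.Ok q) (hc : Ctx a b c S) (hq : Fr a b c q) :
    ¬P.Cb (((b * q * c ^ 2 : ℕ) : ℤ) : P.F) := by
  obtain ⟨ha, hb, hc', -⟩ := hc
  have := Fact.mk hq.1
  have q0 := hq.1.pos
  intro hcb
  have e := (h.cb_cl (by exact_mod_cast (by positivity : b * q * c ^ 2 ≠ 0)) hcb).1
  rw [vW h hq.1 hb q0 hc', padicValNat_self,
    padicValNat.eq_zero_of_not_dvd fun k => hq.2.2 ((k.mul_left a).mul_right c),
    padicValNat.eq_zero_of_not_dvd fun k => hq.2.2 (k.mul_left _)] at e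
  simp at e

/-- The classes of `W` and `u` add up to the class of `D`. -/
lemma cl_add {P : Loc} (h : P.Ok l) (hc : Ctx a b c S) (hp : Fr a b c p) (hq : Fr a b c q) :
    (P.v (((b * q * c ^ 2 : ℕ) : ℤ) : P.F) : ZMod 3) + P.v (((a * p * c ^ 2 : ℕ) : ℤ) : P.F)
      = P.v (((a * p * (b * q) * c : ℕ) : ℤ) : P.F) ∧
    P.c (((b * q * c ^ 2 : ℕ) : ℤ) : P.F) + P.c (((a * p * c ^ 2 : ℕ) : ℤ) : P.F)
      = P.c (((a * p * (b * q) * c : ℕ) : ℤ) : P.F) := by
  obtain ⟨ha, hb, hc', -⟩ := hc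
  have p0 := hp.1.pos
  have q0 := hq.1.pos
  have n1 : (((b * q * c ^ 2 : ℕ) : ℤ) : P.F) ≠ 0 := by
    exact_mod_cast (by positivity : b * q * c ^ 2 ≠ 0)
  have n2 : (((a * p * c ^ 2 : ℕ) : ℤ) : P.F) ≠ 0 := by
    exact_mod_cast (by positivity : a * p * c ^ 2 ≠ 0)
  have n3 : (((a * p * (b * q) * c : ℕ) : ℤ) : P.F) ≠ 0 := by
    exact_mod_cast (by positivity : a * p * (b * q) * c ≠ 0)
  have n4 : (c : P.F) ≠ 0 := by exact_mod_cast hc'.ne'
  have e : (((b * q * c ^ 2 : ℕ) : ℤ) : P.F) * (((a * p * c ^ 2 : ℕ) : ℤ) : P.F)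
      = (((a * p * (b * q) * c : ℕ) : ℤ) : P.F) * (c : P.F) ^ 3 := by
    push_cast
    ring
  have e1 := h.v_mul _ _ n1 n2
  have e2 := h.c_mul _ _ n1 n2
  rw [e, h.v_mul _ _ n3 (pow_ne_zero _ n4), h.v_pow n4] at e1
  rw [e, h.c_mul _ _ n3 (pow_ne_zero _ n4), h.c_cube n4, add_zero] at e2
  refine ⟨?_, e2.symm⟩
  rw [← Int.cast_add, ← e1]
  push_cast
  rw [show (3 : ZMod 3) = 0 from rfl, zero_mul, add_zero]

end Dep

open Dep in
theorem dep' (h1 : NLSt) : DepSt := by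
  intro P hP a b c S p q hc hp hq hpq
  have p0 := hp.1.pos
  have q0 := hq.1.pos
  have a0 := hc.1
  have b0 := hc.2.1
  have c0 := hc.2.2.1
  have hQ := hP q hq.1 hq.2.1
  refine ⟨?_, ?_⟩
  · rintro ⟨x, y, z, hne, hs⟩ l hS
    obtain ⟨hl, hl3, -, -⟩ := hc.2.2.2 l hS
    have h := hP l hl hl3
    have key : ∀ (F : Type) [Field F], Nf (((b * q * c ^ 2 : ℕ) : ℤ) : F) (c * z) y 0
        = -((((a * p * c ^ 2 : ℕ) : ℤ) : F) * (x : F) ^ 3) := by
      intro F _
      have := congrArg (Int.cast : ℤ → F) hs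
      unfold Nf
      push_cast at this ⊢
      linear_combination (c : F) ^ 2 * this
    have hx : x ≠ 0 := by
      rintro rfl
      obtain ⟨e1, e2, -⟩ := nf_aniso (F := (P q).F) (not_cb hQ hc hq) (x := c * z) (y := y)
        (z := 0) (by rw [key]; simp)
      have n4 : (c : (P q).F) ≠ 0 := by exact_mod_cast c0.ne'
      exact hne ⟨rfl, by exact_mod_cast e2, by exact_mod_cast (mul_eq_zero.1 e1).resolve_left n4⟩
    have n1 : (((b * q * c ^ 2 : ℕ) : ℤ) : (P l).F) ≠ 0 := by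
      exact_mod_cast (by positivity : b * q * c ^ 2 ≠ 0)
    have n2 : (((a * p * c ^ 2 : ℕ) : ℤ) : (P l).F) ≠ 0 := by
      exact_mod_cast (by positivity : a * p * c ^ 2 ≠ 0)
    have n3 : (x : (P l).F) ^ 3 ≠ 0 := pow_ne_zero _ (by exact_mod_cast hx)
    have := h1 l (P l) hl hl3 h _ (c * z) y 0 n1
      (by rw [key]; exact neg_ne_zero.2 (mul_ne_zero n2 n3))
    rwa [key, h.T_neg_right, h.T_mul_right _ n2 n3, h.T_cb_right _ n3 ⟨_, rfl⟩, add_zero] at this
  · intro e he hE hcq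
    classical
    obtain ⟨-, hT, hr, -⟩ := mem_filter.1 he
    have d0 := dd_ne hc e
    have hqS : q ∉ S := fun k => hq.2.2 (hc.2.2.2 q k).2.2.1
    have out : ∀ l : ℕ, l.Prime → l ≠ 3 → l ∉ S → l ∣ a * (b * q) * c →
        (P l).c (dd S e : ℤ) = 0 := by
      intro l hl hl3 hS hd
      rw [show a * (b * q) * c = a * b * c * q by ring] at hd
      rcases (Nat.Prime.dvd_mul hl).1 hd with k | k
      · exact hr l (Nat.mem_primeFactors.2 ⟨hl, k, by positivity⟩) hS hl3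
      · rw [(Nat.prime_dvd_prime_iff_eq hl hq.1).1 k]
        exact hcq
    have ins : ∀ l ∈ S, (P l).c (dd S e : ℤ) = ((P l).v (dd S e : ℤ) : ZMod 3) *
          (P l).c (((a * p * (b * q) * c : ℕ) : ℤ)) ∧
        (P l).c (((b * q * c ^ 2 : ℕ) : ℤ)) = ((P l).v (((b * q * c ^ 2 : ℕ) : ℤ)) : ZMod 3) *
          (P l).c (((a * p * (b * q) * c : ℕ) : ℤ)) := by
      intro l hS
      obtain ⟨hl, hl3, -, -⟩ := hc.2.2.2 l hS
      have h := hP l hl hl3
      have t1 := hT l hS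
      have t2 := hE l hS
      obtain ⟨k1, k2⟩ := cl_add h hc hp hq
      unfold Loc.T at t1 t2
      rw [vD h hc hS hp hq] at t1 k1
      push_cast at t1 t2 k1 k2 ⊢
      refine ⟨by linear_combination t1, ?_⟩
      linear_combination t2 - (P l).c ((b : (P l).F) * q * c ^ 2) * k1
        + ((P l).v ((b : (P l).F) * q * c ^ 2) : ZMod 3) * k2
    refine ⟨⟨(hQ.cb_iff d0).2 ⟨?_, hcq⟩, not_cb hQ hc hq⟩, ?_, ?_⟩
    · rw [(hQ.v_int_zero (dd_ndvd hc e hq.1 hqS)).2]
      rfl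
    · intro l hl hl3
      have h := hP l hl hl3
      unfold Loc.T
      by_cases hS : l ∈ S
      · obtain ⟨k1, k2⟩ := ins l hS
        rw [k1, k2]
        ring
      · rw [(h.v_int_zero (dd_ndvd hc e hl hS)).2]
        by_cases hd : l ∣ a * (b * q) * c
        · rw [out l hl hl3 hS hd]
          simp
        · have : ¬(l : ℤ) ∣ ((b * q * c ^ 2 : ℕ) : ℤ) := by
            intro k
            have k' : l ∣ b * q * c ^ 2 := by exact_mod_cast k
            rcases (Nat.Prime.dvd_mul hl).1 k' with k | k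
            · exact hd ((k.mul_left a).mul_right c)
            · exact hd ((hl.dvd_of_dvd_pow k).mul_left _)
          rw [(h.v_int_zero this).2]
          simp
    · intro l hl hl3 hnd hW
      have h := hP l hl hl3
      by_cases hS : l ∈ S
      · right
        obtain ⟨w1, w2⟩ := h.cb_cl (by exact_mod_cast (by positivity : b * q * c ^ 2 ≠ 0)) hW
        obtain ⟨k1, k2⟩ := cl_add h hc hp hq
        rw [w1, zero_add, vD h hc hS hp hq] at k1
        rw [w2, zero_add] at k2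
        refine ⟨hS, ?_, fun x _ => ?_⟩
        · have e1 := val_one hc hS
          rw [vW h hl b0 q0 c0, val_fr hl (hc.2.2.2 l hS).2.2.1 hq,
            ZMod.intCast_zmod_eq_zero_iff_dvd] at w1
          have := Fact.mk hl
          exact dvd_of_one_le_padicValNat (by omega)
        · unfold Loc.T
          rw [(ins l hS).1, k1, k2, h.v_int _ d0]
          push_cast
          ring
      · left
        have nd := dd_ndvd hc e hl hS
        refine ⟨fun hd => hnd ((h.cb_iff d0).2 ⟨?_, out l hl hl3 hS hd⟩), nd⟩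
        rw [(h.v_int_zero nd).2]
        rfl

theorem dep (h1 : NLSt) (_ : IdxSt) : DepSt := dep' h1

end Pool.Agent.Lib.MP_65b7ad_nt.DS
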