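import Pool.Agent.Lib.MP_65b7ad_nt.DS.St

/-! Cubic Jacobi and Gauss sums. -/

open Finset

namespace Pool.Agent.Lib.MP_65b7ad_nt.DS

namespace Gauss

abbrev E : Type := QuadraticAlgebra ℤ (-1) (-1)

def om : E := ⟨0, 1⟩

@[simp] lemma re1 : (1 : E).re = 1 := rfl

@[simp] lemma im1 : (1 : E).im = 0 := rfl

def ev {F : Type} [CommRing F] (w : F) (hw : w ^ 2 + w + 1 = 0) : E →+* F where
  toFun x := x.re + x.im * w
  map_one' := by simp
  map_zero' := by simp
  map_add' x y := by simp; ring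
  map_mul' x y := by
    simp only [QuadraticAlgebra.re_mul, QuadraticAlgebra.im_mul]
    push_cast
    linear_combination (-(x.im : F) * y.im) * hw

lemma ev_apply {F : Type} [CommRing F] (w : F) (hw : w ^ 2 + w + 1 = 0) (x : E) :
    ev w hw x = x.re + x.im * w := rfl

lemma ev_om {F : Type} [CommRing F] (w : F) (hw : w ^ 2 + w + 1 = 0) : ev w hw om = w := by
  simp [ev_apply, om]

lemma sq_root {F : Type} [CommRing F] {w : F} (hw : w ^ 2 + w + 1 = 0) :
    (w ^ 2) ^ 2 + w ^ 2 + 1 = 0 := by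
  linear_combination (w ^ 2 - w + 1) * hw

lemma cube {F : Type} [CommRing F] {w : F} (hw : w ^ 2 + w + 1 = 0) : w ^ 3 = 1 := by
  linear_combination (w - 1) * hw

lemma pow_md {F : Type} [CommRing F] {w : F} (hw : w ^ 2 + w + 1 = 0) (j : ℕ) :
    w ^ j = w ^ (j % 3) := by
  conv_lhs => rw [← Nat.div_add_mod j 3, pow_add, pow_mul, cube hw, one_pow, one_mul]

lemma om_eq : om ^ 2 + om + 1 = 0 := by
  ext <;> simp [om, pow_two]

lemma ne_one {F : Type} [CommRing F] {w : F} (hw : w ^ 2 + w + 1 = 0) (h3 : (3 : F) ≠ 0) :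
    w ≠ 1 := by
  rintro rfl
  exact h3 (by linear_combination hw)

lemma two_roots {K : Type} [Field K] {w : K} (hw : w ^ 2 + w + 1 = 0) (h3 : (3 : K) ≠ 0)
    {x y : K} (h1 : x + y * w = 0) (h2 : x + y * w ^ 2 = 0) : x = 0 ∧ y = 0 := by
  have hy : (3 : K) * y = 0 := by
    linear_combination (-(1 + 2 * w)) * h1 + (1 + 2 * w) * h2 + (3 * y - 2 * w * y) * hw
  have hy' : y = 0 := (mul_eq_zero.1 hy).resolve_left h3
  refine ⟨?_, hy'⟩
  rw [hy'] at h1
  simpa using h1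

lemma exists_root (K : Type) [Field K] [IsAlgClosed K] : ∃ w : K, w ^ 2 + w + 1 = 0 := by
  obtain ⟨w, hw⟩ := IsAlgClosed.exists_root (Polynomial.X ^ 2 + Polynomial.X + 1 : Polynomial K)
    (by
      have : (Polynomial.X ^ 2 + Polynomial.X + 1 : Polynomial K).degree = 2 := by compute_degree!
      rw [this]; decide)
  exact ⟨w, by simpa using hw⟩

instance : IsDomain E := by
  obtain ⟨w, hw⟩ := exists_root ℂ
  refine Function.Injective.isDomain (ev w hw) ?_
  rw [injective_iff_map_eq_zero]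
  intro x hx
  rw [ev_apply] at hx
  have h : ((x.re ^ 2 - x.re * x.im + x.im ^ 2 : ℤ) : ℂ) = 0 := by
    push_cast
    linear_combination (x.re + x.im * w ^ 2 : ℂ) * hx
      + (-(x.re : ℂ) * x.im - (x.im : ℂ) ^ 2 * (w - 1)) * hw
  have h' : x.re ^ 2 - x.re * x.im + x.im ^ 2 = 0 := by exact_mod_cast h
  have h1 : x.im = 0 := by nlinarith [sq_nonneg (2 * x.re - x.im), sq_nonneg x.im]
  have h2 : x.re = 0 := by rw [h1] at h'; nlinarith [sq_nonneg x.re]
  ext <;> simp [h1, h2]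

section chi

variable {p : ℕ} [Fact p.Prime] (ρ : ZMod p)

def chi0 (t : ZMod p) : E :=
  if t ^ ((p - 1) / 3) = 1 then 1 else if t ^ ((p - 1) / 3) = ρ then om
  else if t ^ ((p - 1) / 3) = ρ ^ 2 then om ^ 2 else 0

variable {ρ}

lemma three_ne (hp : p % 3 = 1) : (3 : ZMod p) ≠ 0 := by
  intro h
  have h' : ((3 : ℕ) : ZMod p) = 0 := by exact_mod_cast h
  rw [ZMod.natCast_eq_zero_iff] at h'
  have := (Nat.prime_dvd_prime_iff_eq Fact.out Nat.prime_three).1 h'
  omega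

lemma chi0_of (hp : p % 3 = 1) (hρ : ρ ^ 2 + ρ + 1 = 0) {t : ZMod p} {j : ℕ}
    (h : t ^ ((p - 1) / 3) = ρ ^ j) : chi0 ρ t = om ^ j := by
  have h1 : ρ ≠ 1 := ne_one hρ (three_ne hp)
  have h2 : ρ ^ 2 ≠ 1 := ne_one (sq_root hρ) (three_ne hp)
  have h3 : ρ ^ 2 ≠ ρ := by
    intro h
    apply h1
    linear_combination (ρ ^ 2) * h - (ρ - 1) * cube hρ
  rw [pow_md hρ] at h
  rw [pow_md om_eq]
  have hj : j % 3 = 0 ∨ j % 3 = 1 ∨ j % 3 = 2 := by omega
  unfold chi0
  rcases hj with hj | hj | hj <;> rw [hj] at h ⊢ <;> rw [h] <;> simp [h1, h2, h3]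

lemma ex_j (hp : p % 3 = 1) (hρ : ρ ^ 2 + ρ + 1 = 0) {t : ZMod p} (ht : t ≠ 0) :
    ∃ j : ℕ, t ^ ((p - 1) / 3) = ρ ^ j := by
  have h : (t ^ ((p - 1) / 3)) ^ 3 = 1 := by
    rw [← pow_mul, show (p - 1) / 3 * 3 = p - 1 by omega]
    exact ZMod.pow_card_sub_one_eq_one ht
  set u := t ^ ((p - 1) / 3)
  have h' : (u - 1) * ((u - ρ) * (u - ρ ^ 2)) = 0 := by
    linear_combination h + (u - 1) * (ρ - 1 - u) * hρ
  rcases mul_eq_zero.1 h' with h1 | h1
  · exact ⟨0, by linear_combination h1⟩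
  rcases mul_eq_zero.1 h1 with h1 | h1
  · exact ⟨1, by linear_combination h1⟩
  · exact ⟨2, by linear_combination h1⟩

lemma n_pos (hp : p % 3 = 1) : 0 < (p - 1) / 3 := by
  have := (Fact.out : p.Prime).two_le
  omega

lemma chi0_zero (hp : p % 3 = 1) (hρ : ρ ^ 2 + ρ + 1 = 0) : chi0 ρ 0 = 0 := by
  have h0 : ρ ≠ 0 := by
    rintro rfl
    simp at hρ
  unfold chi0
  rw [zero_pow (n_pos hp).ne']
  simp [h0.symm, (pow_ne_zero 2 h0).symm]

def chi (hp : p % 3 = 1) (hρ : ρ ^ 2 + ρ + 1 = 0) : MulChar (ZMod p) E where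
  toFun := chi0 ρ
  map_one' := by simp [chi0]
  map_mul' s t := by
    by_cases hs : s = 0
    · simp [hs, chi0_zero hp hρ]
    by_cases ht : t = 0
    · simp [ht, chi0_zero hp hρ]
    obtain ⟨i, hi⟩ := ex_j hp hρ hs
    obtain ⟨j, hj⟩ := ex_j hp hρ ht
    rw [chi0_of hp hρ hi, chi0_of hp hρ hj, ← pow_add]
    exact chi0_of hp hρ (by rw [mul_pow, hi, hj, pow_add])
  map_nonunit' a ha := by
    have : a = 0 := by simpa using ha
    rw [this]
    exact chi0_zero hp hρ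

variable (hp : p % 3 = 1) (hρ : ρ ^ 2 + ρ + 1 = 0)

lemma chi_of {t : ZMod p} {j : ℕ} (h : t ^ ((p - 1) / 3) = ρ ^ j) : chi hp hρ t = om ^ j :=
  chi0_of hp hρ h

lemma ev_chi (t : ZMod p) : ev ρ hρ (chi hp hρ t) = t ^ ((p - 1) / 3) := by
  by_cases ht : t = 0
  · rw [ht, MulChar.map_zero, map_zero, zero_pow (n_pos hp).ne']
  obtain ⟨j, hj⟩ := ex_j hp hρ ht
  rw [chi_of hp hρ hj, map_pow, ev_om, hj]

lemma ev_jac : ev ρ hρ (jacobiSum (chi hp hρ) (chi hp hρ)) = 0 := by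
  have h2 := (Fact.out : p.Prime).two_le
  unfold jacobiSum
  rw [map_sum]
  simp only [map_mul, ev_chi]
  simp only [sub_eq_neg_add, add_pow, one_pow, mul_one, Finset.mul_sum]
  rw [Finset.sum_comm]
  refine Finset.sum_eq_zero fun k hk => ?_
  have hk' : k ≤ (p - 1) / 3 := by simpa [Nat.lt_succ_iff] using hk
  have h := FiniteField.sum_pow_lt_card_sub_one (ZMod p) ((p - 1) / 3 + k)
    (by rw [ZMod.card]; omega)
  have : ∀ x : ZMod p, x ^ ((p - 1) / 3) * ((-x) ^ k * (((p - 1) / 3).choose k : ZMod p))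
      = ((-1) ^ k * (((p - 1) / 3).choose k : ZMod p)) * x ^ ((p - 1) / 3 + k) := by
    intro x
    rw [neg_pow, pow_add]
    ring
  simp only [this]
  rw [← Finset.mul_sum, h, mul_zero]

lemma chi_cube : chi hp hρ ^ 3 = 1 := by
  ext a
  all_goals
    obtain ⟨j, hj⟩ := ex_j hp hρ a.ne_zero
    rw [MulChar.pow_apply_coe, chi_of hp hρ hj, ← pow_mul, mul_comm, pow_mul, cube om_eq, one_pow,
      MulChar.one_apply_coe]

variable {K : Type} [Field K] {w : K} (hw : w ^ 2 + w + 1 = 0)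

/-- The character with values in a field. -/
def chK : MulChar (ZMod p) K := (chi hp hρ).ringHomComp (ev w hw)

lemma chK_of {t : ZMod p} {j : ℕ} (h : t ^ ((p - 1) / 3) = ρ ^ j) : chK hp hρ hw t = w ^ j := by
  rw [chK, MulChar.ringHomComp_apply, chi_of hp hρ h, map_pow, ev_om]

lemma chK_cube : chK hp hρ hw ^ 3 = 1 := by
  ext a
  obtain ⟨j, hj⟩ := ex_j hp hρ a.ne_zero
  rw [MulChar.pow_apply_coe, chK_of hp hρ hw hj, ← pow_mul, mul_comm, pow_mul, cube hw, one_pow,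
    MulChar.one_apply_coe]

lemma chK_ne (h3 : (3 : K) ≠ 0) : chK hp hρ hw ≠ 1 := by
  intro h
  have h2 := (Fact.out : p.Prime).two_le
  obtain ⟨a, ha⟩ := exists_pow_ne_one_of_isCyclic (G := (ZMod p)ˣ) (n_pos hp).ne'
    (by rw [Nat.card_eq_fintype_card, ZMod.card_units]; omega)
  obtain ⟨j, hj⟩ := ex_j hp hρ a.ne_zero
  have h1 := chK_of hp hρ hw hj
  rw [h, MulChar.one_apply_coe, pow_md hw] at h1
  have hj0 : j % 3 = 0 := by
    have hj : j % 3 = 0 ∨ j % 3 = 1 ∨ j % 3 = 2 := by omega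
    rcases hj with hj | hj | hj
    · exact hj
    · rw [hj, pow_one] at h1
      exact absurd h1.symm (ne_one hw h3)
    · rw [hj] at h1
      exact absurd h1.symm (ne_one (sq_root hw) h3)
  apply ha
  rw [pow_md hρ, hj0, pow_zero] at hj
  ext
  simpa using hj

lemma chK_inv : (chK hp hρ hw)⁻¹ = chK hp hρ (sq_root hw) := by
  apply inv_eq_of_mul_eq_one_right
  ext a
  obtain ⟨j, hj⟩ := ex_j hp hρ a.ne_zero
  rw [MulChar.mul_apply, chK_of hp hρ hw hj, chK_of hp hρ (sq_root hw) hj, ← mul_pow,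
    MulChar.one_apply_coe, show w * w ^ 2 = 1 by linear_combination cube hw, one_pow]

lemma jac_K : jacobiSum (chK hp hρ hw) (chK hp hρ hw)
    = ev w hw (jacobiSum (chi hp hρ) (chi hp hρ)) := jacobiSum_ringHomComp _ _ _

lemma norm_K (h3 : (3 : K) ≠ 0) (hc : ringChar K ≠ ringChar (ZMod p)) :
    ev w hw (jacobiSum (chi hp hρ) (chi hp hρ))
      * ev (w ^ 2) (sq_root hw) (jacobiSum (chi hp hρ) (chi hp hρ)) = p := by
  have hne := chK_ne hp hρ hw h3
  have h2 : chK hp hρ hw * chK hp hρ hw ≠ 1 := by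
    intro h
    apply hne
    have := chK_cube hp hρ hw
    rwa [pow_succ, pow_two, h, one_mul] at this
  have := jacobiSum_mul_jacobiSum_inv hc hne hne h2
  rwa [chK_inv, jac_K, jac_K, ZMod.card] at this

lemma frob [IsAlgClosed K] {l j : ℕ} [Fact l.Prime] [CharP K l] (hl3 : l ≠ 3) (hlp : l ≠ p)
    (hj : (l : ZMod p) ^ ((p - 1) / 3) = ρ ^ j) :
    ((p : K) * ev w hw (jacobiSum (chi hp hρ) (chi hp hρ))) ^ ((l ^ 2 - 1) / 3) = w ^ j := by
  have hl : l.Prime := Fact.out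
  have hpp : p.Prime := Fact.out
  have h3 : (3 : K) ≠ 0 := by
    intro h
    have h' : ((3 : ℕ) : K) = 0 := by exact_mod_cast h
    rw [CharP.cast_eq_zero_iff K l] at h'
    exact hl3 ((Nat.prime_dvd_prime_iff_eq hl Nat.prime_three).1 h')
  have hpK : (p : K) ≠ 0 := by
    intro h
    rw [CharP.cast_eq_zero_iff K l] at h
    exact hlp ((Nat.prime_dvd_prime_iff_eq hl hpp).1 h)
  have hlZ : (l : ZMod p) ≠ 0 := by
    intro h
    rw [ZMod.natCast_eq_zero_iff] at h
    exact hlp ((Nat.prime_dvd_prime_iff_eq hpp hl).1 h).symm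
  have hc : ringChar K ≠ ringChar (ZMod p) := by
    rw [ringChar.eq K l, ZMod.ringChar_zmod_n]
    exact hlp
  have : NeZero (p : K) := ⟨hpK⟩
  obtain ⟨ζ, hζ⟩ := HasEnoughRootsOfUnity.exists_primitiveRoot K p
  have hψ := AddChar.zmodChar_primitive_of_primitive_root p hζ
  set ψ := AddChar.zmodChar p ((IsPrimitiveRoot.iff_def ζ p).mp hζ).left
  set χ := chK hp hρ hw with hχ
  have hord : orderOf χ = 3 := by
    have : Fact (Nat.Prime 3) := ⟨Nat.prime_three⟩
    exact orderOf_eq_prime (chK_cube hp hρ hw) (chK_ne hp hρ hw h3)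
  have hcube : ∀ t : ZMod p, t ≠ 0 → χ t ^ 3 = 1 := by
    intro t ht
    obtain ⟨i, hi⟩ := ex_j hp hρ ht
    rw [hχ, chK_of hp hρ hw hi, ← pow_mul, mul_comm, pow_mul, cube hw, one_pow]
  have hm1 : χ (-1) = 1 := by
    have h1 : χ (-1) ^ 3 = 1 := hcube _ (by simp)
    have h2 : χ (-1) ^ 2 = 1 := by rw [← map_pow]; simp
    rwa [pow_succ, h2, one_mul] at h1
  have hg := gaussSum_pow_eq_prod_jacobiSum (χ := χ) (by omega) hψ
  rw [hord, hm1, one_mul, ZMod.card] at hg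
  simp only [Nat.add_one_sub_one, Nat.Ico_succ_singleton, prod_singleton, pow_one] at hg
  rw [hχ, jac_K] at hg
  rw [← hχ] at hg
  have hJ : ev w hw (jacobiSum (chi hp hρ) (chi hp hρ)) ≠ 0 := by
    intro h
    have := norm_K hp hρ hw h3 hc
    rw [h, zero_mul] at this
    exact hpK this.symm
  have hg0 : gaussSum χ ψ ≠ 0 := by
    intro h
    rw [h] at hg
    exact mul_ne_zero hpK hJ (by rw [← hg]; simp)
  have hl2 : l ^ 2 = 3 * ((l ^ 2 - 1) / 3) + 1 := by
    have h1 : l % 3 ≠ 0 := fun h =>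
      hl3 ((Nat.prime_dvd_prime_iff_eq Nat.prime_three hl).1 (Nat.dvd_of_mod_eq_zero h)).symm
    have h2 : l ^ 2 % 3 = 1 := by
      have : l % 3 = 1 ∨ l % 3 = 2 := by omega
      rcases this with h | h <;> simp [Nat.pow_mod, h]
    omega
  have hf : gaussSum χ ψ ^ (l ^ 2) = gaussSum χ (ψ.mulShift ((l : ZMod p) ^ 2)) := by
    rw [pow_two l, pow_mul, gaussSum_frob, gaussSum_frob, ← pow_mul, ← pow_mul, ← pow_two l,
      AddChar.pow_mulShift]
    congr 1
    · rw [hl2, pow_succ, pow_mul, chK_cube, one_pow, one_mul]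
    · push_cast
      rfl
  have hs := gaussSum_mulShift χ ψ (Units.mk0 _ (pow_ne_zero 2 hlZ))
  rw [Units.val_mk0, ← hf, map_pow] at hs
  have hχl : χ l = w ^ j := chK_of hp hρ hw hj
  have h1 := hcube _ hlZ
  rw [← hg, ← pow_mul, ← hχl]
  apply mul_right_cancel₀ hg0
  rw [← pow_succ, ← hl2]
  linear_combination (χ l) * hs - gaussSum χ ψ ^ l ^ 2 * h1

end chi

end Gauss

open Gauss in
theorem gauss : GaussSt := by
  intro p r hpp hp hr
  have : Fact p.Prime := ⟨hpp⟩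
  have hρ : (r : ZMod p) ^ 2 + r + 1 = 0 := by
    have := (ZMod.intCast_zmod_eq_zero_iff_dvd _ p).2 hr
    push_cast at this
    exact this
  set J := jacobiSum (chi hp hρ) (chi hp hρ) with hJ
  have hprim : IsPrimitiveRoot om 3 := by
    have : Fact (Nat.Prime 3) := ⟨Nat.prime_three⟩
    have h1 : om ≠ 1 := by
      intro h
      have := congrArg QuadraticAlgebra.im h
      simp [om] at this
    have := orderOf_eq_prime (cube om_eq) h1
    rw [← this]
    exact IsPrimitiveRoot.orderOf om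
  obtain ⟨z, -, hz⟩ := exists_jacobiSum_eq_neg_one_add (n := 3) (by norm_num) (chi_cube hp hρ)
    (chi_cube hp hρ) (by rw [ZMod.card]; omega) hprim
  rw [← hJ] at hz
  have hre : J.re = -1 + 3 * z.im := by
    rw [hz]
    simp [om, pow_two]
    ring
  have him : J.im = 3 * (z.im - z.re) := by
    rw [hz]
    simp [om, pow_two]
    ring
  refine ⟨J.re, J.im, ?_, by omega, ⟨_, him⟩, ?_, ?_⟩
  · obtain ⟨w, hw⟩ := exists_root ℂ
    have h := norm_K hp hρ hw (by norm_num) (by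
      rw [ringChar.eq ℂ 0, ZMod.ringChar_zmod_n]
      exact hpp.ne_zero.symm)
    rw [← hJ, ev_apply, ev_apply] at h
    have h' : ((J.re ^ 2 - J.re * J.im + J.im ^ 2 : ℤ) : ℂ) = ((p : ℤ) : ℂ) := by
      push_cast
      linear_combination h + (-(J.re : ℂ) * J.im - (J.im : ℂ) ^ 2 * (w - 1)) * hw
    exact_mod_cast h'
  · rw [← ZMod.intCast_zmod_eq_zero_iff_dvd]
    have := ev_jac hp hρ
    rw [← hJ, ev_apply] at this
    push_cast
    exact this
  · intro l j hl hl3 hlp hd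
    have : Fact l.Prime := ⟨hl⟩
    have hj : (l : ZMod p) ^ ((p - 1) / 3) = (r : ZMod p) ^ j := by
      have := (ZMod.intCast_zmod_eq_zero_iff_dvd _ p).2 hd
      push_cast at this
      linear_combination this
    obtain ⟨w, hw⟩ := exists_root (AlgebraicClosure (ZMod l))
    set δ : E := ((p : E) * J) ^ ((l ^ 2 - 1) / 3) - om ^ j with hδ
    have key : ∀ (F : Type) [CommRing F] (w : F) (hw : w ^ 2 + w + 1 = 0),
        ((p : F) * (J.re + J.im * w)) ^ ((l ^ 2 - 1) / 3) - w ^ j = δ.re + δ.im * w := by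
      intro F _ w hw
      rw [← ev_apply w hw δ, hδ, map_sub, map_pow, map_pow, map_mul, map_natCast, ev_om, ev_apply]
    have h3 : (3 : AlgebraicClosure (ZMod l)) ≠ 0 := by
      intro h
      have h' : ((3 : ℕ) : AlgebraicClosure (ZMod l)) = 0 := by exact_mod_cast h
      rw [CharP.cast_eq_zero_iff _ l] at h'
      exact hl3 ((Nat.prime_dvd_prime_iff_eq hl Nat.prime_three).1 h')
    have h1 := frob hp hρ hw hl3 hlp hj
    have h2 := frob hp hρ (sq_root hw) hl3 hlp hj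
    rw [← hJ, ev_apply] at h1 h2
    obtain ⟨hx, hy⟩ := two_roots hw h3 (x := (δ.re : AlgebraicClosure (ZMod l))) (y := δ.im)
      (by rw [← key _ w hw, h1, sub_self]) (by rw [← key _ _ (sq_root hw), h2, sub_self])
    rw [CharP.intCast_eq_zero_iff _ l] at hx hy
    obtain ⟨g, hg⟩ := hx
    obtain ⟨h, hh⟩ := hy
    refine ⟨g, h, fun F _ w hw => ?_⟩
    have := key F w hw
    rw [hg, hh] at this
    push_cast at this
    linear_combination this

end Pool.Agent.Lib.MP_65b7ad_nt.DS
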