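import Pool.Agent.Lib.MP_65b7ad_nt.DS.St

/-! The second and the third identity as norm forms. -/

namespace Pool.Agent.Lib.MP_65b7ad_nt.DS

namespace Id2

variable {F : Type} [CommRing F]

theorem idA (w d x y z a b c : F) (hw : w ^ 2 + w + 1 = 0) (h : a * b * c = Nf d x y z) :
    a ^ 2 * b * (3 * (x ^ 3 + w * d * y ^ 3 + w ^ 2 * d ^ 2 * z ^ 3)
      + (a * b ^ 2 + b * c ^ 2 + c * a ^ 2) + (a + b + c) * 3 * (x ^ 2 - d * y * z)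
      + (a * b + b * c + c * a) * 3 * x + 3 * Nf d x y z) =
    Nf d (x ^ 2 - d * y * z + a * x + a * b) (w ^ 2 * (d * z ^ 2 - x * y) + a * w * y)
      (w * (y ^ 2 - x * z) + a * w ^ 2 * z) := by
  unfold Nf at h ⊢
  linear_combination (- 3*d*y*z*a^3*b + 3*d*y^3*a^2*b + d*y^3*a^3 - 3*d*x*y*z*a^2*b - 3*d*x*y*z*a^3 + 3*d*x*y^3*a*b
      + 3*d*x*y^3*a^2 - 3*d*x^2*y*z*a*b - 6*d*x^2*y*z*a^2 + 3*d*x^2*y^3*a - 6*d*x^3*y*z*a + 2*d*x^3*y^3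
      - 3*d*x^4*y*z + 3*d^2*z^3*a^2*b + d^2*z^3*a^3 - 3*d^2*y^2*z^2*a*b - 3*d^2*y^4*z*a + d^2*y^6
      + 3*d^2*x*z^3*a*b + 3*d^2*x*z^3*a^2 + 6*d^2*x*y^2*z^2*a - 6*d^2*x*y^4*z + 3*d^2*x^2*z^3*a + 6*d^2*x^2*y^2*z^2
      + 2*d^2*x^3*z^3 - 3*d^3*y*z^4*a + 3*d^3*y^3*z^3 - 6*d^3*x*y*z^4 + d^4*z^6 + 3*w*d*y*z*a^3*b
      - w*d*y^3*a^3 + 3*w*d*x*y*z*a^2*b + 3*w*d*x*y*z*a^3 - 3*w*d*x*y^3*a*b - 3*w*d*x*y^3*a^2 + 3*w*d*x^2*y*z*a*b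
      + 6*w*d*x^2*y*z*a^2 - 3*w*d*x^2*y^3*a + 6*w*d*x^3*y*z*a - 2*w*d*x^3*y^3 + 3*w*d*x^4*y*z - 3*w*d^2*z^3*a^2*b
      - w*d^2*z^3*a^3 + 3*w*d^2*y^2*z^2*a*b + 3*w*d^2*y^4*z*a - w*d^2*y^6 - 3*w*d^2*x*z^3*a*b - 3*w*d^2*x*z^3*a^2
      - 6*w*d^2*x*y^2*z^2*a + 6*w*d^2*x*y^4*z - 3*w*d^2*x^2*z^3*a - 6*w*d^2*x^2*y^2*z^2 - 2*w*d^2*x^3*z^3
      + 3*w*d^3*y*z^4*a - 3*w*d^3*y^3*z^3 + 6*w*d^3*x*y*z^4 - w*d^4*z^6 - 3*w^2*d*x*y*z*a^2*b + 3*w^2*d*x*y^3*a^2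
      - 3*w^2*d*x^2*y*z*a^2 + 3*w^2*d*x^2*y^3*a - 3*w^2*d*x^3*y*z*a + 3*w^2*d^2*z^3*a^2*b - 3*w^2*d^2*y^4*z*a
      + 3*w^2*d^2*x*y^2*z^2*a - 3*w^3*d*x^2*y^3*a - w^3*d*x^3*y^3 + w^3*d^2*z^3*a^3 - 3*w^3*d^2*y^2*z^2*a^2
      + 3*w^3*d^2*x*z^3*a^2 + 6*w^3*d^2*x*y^2*z^2*a + 3*w^3*d^2*x^2*y^2*z^2 - 3*w^3*d^3*y*z^4*a - 3*w^3*d^3*x*y*z^4
      + w^3*d^4*z^6 + w^4*d*x^3*y^3 - w^4*d^2*z^3*a^3 - 3*w^4*d^2*x^2*y^2*z^2 + 3*w^4*d^3*x*y*z^4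
      - w^4*d^4*z^6) * hw
    + (a*b*c + a^3 + 3*x*a*b + 3*x*a^2 + 3*x^2*a + x^3 - 3*d*y*z*a + d*y^3 - 3*d*x*y*z + d^2*z^3) * h

theorem idB (w d x y z a b c : F) (hw : w ^ 2 + w + 1 = 0) (h : Nf d a b c = Nf d x y z) :
    Nf d x y z * (3 * ((x ^ 3 + w * d * y ^ 3 + w ^ 2 * d ^ 2 * z ^ 3)
      + (a ^ 3 + w ^ 2 * (d ^ 2 * c ^ 3) + w * (d * b ^ 3)) + 3 * a * (x ^ 2 - d * y * z)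
      + 3 * (a ^ 2 - d * b * c) * x + Nf d x y z)) =
    Nf d ((x ^ 2 - d * y * z) + (a ^ 2 - d * b * c) + (a * x + d * (b * w ^ 2 * z + c * w * y)))
      (w ^ 2 * (d * z ^ 2 - x * y) + w * (d * c ^ 2 - a * b)
        + (a * w * y + b * x + d * c * w ^ 2 * z))
      (w * (y ^ 2 - x * z) + w ^ 2 * (b ^ 2 - a * c) + (a * w ^ 2 * z + b * w * y + c * x)) := by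
  unfold Nf at h ⊢
  linear_combination (2*d*a^3*b^3 - 3*d*a^4*b*c - 3*d*y*a^3*b^2 + 3*d*y*a^4*c - 3*d*y*z*a^4 - 3*d*y^2*a^3*b + 4*d*y^3*a^3
      + 3*d*x*a^2*b^3 - 6*d*x*a^3*b*c + 3*d*x*z*a^3*b + 3*d*x*y*a^3*c - 6*d*x*y*z*a^3 + 6*d*x*y^3*a^2
      + 6*d*x^2*a*b^3 - 6*d*x^2*a^2*b*c - 9*d*x^2*y*z*a^2 + 3*d*x^2*y^3*a + 3*d*x^3*b^3 - 3*d*x^3*a*b*c
      + 3*d*x^3*y*b^2 - 3*d*x^3*y*a*c - 6*d*x^3*y*z*a + 3*d*x^3*y^2*b + 2*d*x^3*y^3 - 3*d*x^4*z*b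
      - 3*d*x^4*y*c - 3*d*x^4*y*z + d^2*b^6 - 6*d^2*a*b^4*c + 6*d^2*a^2*b^2*c^2 + 2*d^2*a^3*c^3 - 3*d^2*z^2*a^3*c
      + d^2*z^3*a^3 - 3*d^2*y*b^5 + 12*d^2*y*a*b^3*c - 9*d^2*y*a^2*b*c^2 - 6*d^2*y*z*a*b^3 + 12*d^2*y*z*a^2*b*c
      - 3*d^2*y^2*b^4 + 9*d^2*y^2*a*b^2*c - 3*d^2*y^2*z^2*a^2 + d^2*y^3*b^3 - 3*d^2*y^3*a*b*c + 3*d^2*y^4*b^2
      - 3*d^2*y^4*a*c - 3*d^2*y^4*z*a + 3*d^2*y^5*b + d^2*y^6 - 3*d^2*x*b^4*c + 6*d^2*x*a*b^2*c^2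
      + 3*d^2*x*a^2*c^3 + 3*d^2*x*z*b^4 - 9*d^2*x*z*a*b^2*c + 6*d^2*x*z^3*a^2 + 3*d^2*x*y*b^3*c - 9*d^2*x*y*a*b*c^2
      - 3*d^2*x*y*z*b^3 + 3*d^2*x*y*z*a*b*c - 9*d^2*x*y^2*z*b^2 + 9*d^2*x*y^2*z*a*c + 6*d^2*x*y^2*z^2*a
      - 6*d^2*x*y^3*b*c - 12*d^2*x*y^3*z*b - 3*d^2*x*y^4*c - 6*d^2*x*y^4*z - 6*d^2*x^2*b^2*c^2 + 6*d^2*x^2*a*c^3
      + 3*d^2*x^2*z^3*a + 9*d^2*x^2*y*z*b*c + 9*d^2*x^2*y*z^2*b + 9*d^2*x^2*y^2*z*c + 6*d^2*x^2*y^2*z^2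
      + 3*d^2*x^3*c^3 + 3*d^2*x^3*z^2*c + 5*d^2*x^3*z^3 + 3*d^3*b^3*c^3 - 6*d^3*a*b*c^4 - 3*d^3*z^2*b^3*c
      + 9*d^3*z^2*a*b*c^2 - 2*d^3*z^3*b^3 + 6*d^3*z^3*a*b*c - 3*d^3*y*b^2*c^3 + 3*d^3*y*a*c^4 + 3*d^3*y*z*b^2*c^2
      - 6*d^3*y*z*a*c^3 + 3*d^3*y*z^3*b^2 - 3*d^3*y*z^3*a*c - 3*d^3*y*z^4*a - 3*d^3*y^2*b*c^3 + 3*d^3*y^2*z^2*b*c
      + 3*d^3*y^2*z^3*b + d^3*y^3*c^3 + 3*d^3*y^3*z^2*c + 6*d^3*y^3*z^3 - 3*d^3*x*b*c^4 + 3*d^3*x*z*b*c^3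
      - 6*d^3*x*z^3*b*c - 3*d^3*x*z^4*b + 3*d^3*x*y*c^4 - 3*d^3*x*y*z*c^3 - 12*d^3*x*y*z^3*c - 15*d^3*x*y*z^4
      + d^4*c^6 - 3*d^4*z^2*c^4 - 2*d^4*z^3*c^3 + 3*d^4*z^5*c + 4*d^4*z^6 - 2*w*d*a^3*b^3 + 3*w*d*a^4*b*c
      - 3*w*d*z*a^4*b - 3*w*d*y*a^4*c + 3*w*d*y*z*a^4 + 3*w*d*y^2*a^3*b - w*d*y^3*a^3 - 3*w*d*x*a^2*b^3
      + 3*w*d*x*a^3*b*c - 3*w*d*x*z*a^3*b + 3*w*d*x*y*a^2*b^2 - 6*w*d*x*y*a^3*c + 6*w*d*x*y*z*a^3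
      + 3*w*d*x*y^2*a^2*b - 6*w*d*x*y^3*a^2 - 3*w*d*x^2*a*b^3 + 3*w*d*x^2*a^2*b*c - 3*w*d*x^2*z*a^2*b
      - 6*w*d*x^2*y*a^2*c + 9*w*d*x^2*y*z*a^2 + 3*w*d*x^2*y^2*a*b - 3*w*d*x^2*y^3*a + 3*w*d*x^3*y*b^2
      - 3*w*d*x^3*y*a*c + 6*w*d*x^3*y*z*a - 2*w*d*x^3*y^3 + 3*w*d*x^4*y*z - w*d^2*b^6 + 6*w*d^2*a*b^4*c
      - 6*w*d^2*a^2*b^2*c^2 - 2*w*d^2*a^3*c^3 - 3*w*d^2*z*a*b^4 + 9*w*d^2*z*a^2*b^2*c + 3*w*d^2*z*a^3*c^2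
      + 3*w*d^2*z^2*a^3*c - 4*w*d^2*z^3*a^3 + 6*w*d^2*y*a^2*b*c^2 + 6*w*d^2*y*z*a*b^3 - 12*w*d^2*y*z*a^2*b*c
      + 3*w*d^2*y^2*b^4 - 9*w*d^2*y^2*a*b^2*c + 6*w*d^2*y^2*z*a^2*c + 3*w*d^2*y^2*z^2*a^2 + 5*w*d^2*y^3*b^3
      - 6*w*d^2*y^3*a*b*c + 3*w*d^2*y^3*z*a*b + 3*w*d^2*y^4*z*a - 3*w*d^2*y^5*b - w*d^2*y^6 + 3*w*d^2*x*b^4*c
      - 3*w*d^2*x*a*b^2*c^2 - 3*w*d^2*x*z*b^4 + 9*w*d^2*x*z*a*b^2*c - 6*w*d^2*x*z^3*a^2 - 6*w*d^2*x*y*b^3*c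
      + 12*w*d^2*x*y*a*b*c^2 - 6*w*d^2*x*y*z*b^3 - 9*w*d^2*x*y*z^2*a*b - 3*w*d^2*x*y^2*b^2*c - 3*w*d^2*x*y^2*z*b^2
      + 3*w*d^2*x*y^2*z*a*c - 6*w*d^2*x*y^2*z^2*a + 6*w*d^2*x*y^3*b*c + 9*w*d^2*x*y^3*z*b + 3*w*d^2*x*y^4*c
      + 6*w*d^2*x*y^4*z + 3*w*d^2*x^2*b^2*c^2 - 3*w*d^2*x^2*a*c^3 + 3*w*d^2*x^2*z*b^2*c - 3*w*d^2*x^2*z^3*a
      + 6*w*d^2*x^2*y*b*c^2 - 9*w*d^2*x^2*y*z*b*c - 6*w*d^2*x^2*y*z^2*b - 3*w*d^2*x^2*y^2*c^2 - 3*w*d^2*x^2*y^2*z*c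
      - 6*w*d^2*x^2*y^2*z^2 - 3*w*d^2*x^3*z^2*c - 2*w*d^2*x^3*z^3 - 3*w*d^3*b^3*c^3 + 6*w*d^3*a*b*c^4
      + 3*w*d^3*z*b^3*c^2 - 12*w*d^3*z*a*b*c^3 + 3*w*d^3*z^2*b^3*c - 9*w*d^3*z^2*a*b*c^2 + 2*w*d^3*z^3*b^3
      + 3*w*d^3*z^3*a*b*c + 3*w*d^3*z^4*a*b - 3*w*d^3*y*b^2*c^3 - 3*w*d^3*y*z*b^2*c^2 + 6*w*d^3*y*z*a*c^3
      + 3*w*d^3*y*z^4*a + 3*w*d^3*y^2*b*c^3 - 6*w*d^3*y^2*z*b*c^2 - 3*w*d^3*y^2*z^2*b*c - 3*w*d^3*y^2*z^3*b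
      + 2*w*d^3*y^3*c^3 - 3*w*d^3*y^3*z*c^2 - 6*w*d^3*y^3*z^2*c - 3*w*d^3*y^3*z^3 - 3*w*d^3*x*z*b*c^3
      + 6*w*d^3*x*z^3*b*c + 3*w*d^3*x*z^4*b - 3*w*d^3*x*y*c^4 + 9*w*d^3*x*y*z^2*c^2 + 12*w*d^3*x*y*z^3*c
      + 6*w*d^3*x*y*z^4 - w*d^4*c^6 + 3*w*d^4*z*c^5 + 3*w*d^4*z^2*c^4 - w*d^4*z^3*c^3 - 3*w*d^4*z^4*c^2
      - 3*w*d^4*z^5*c - w*d^4*z^6 + 3*w^2*d*x*y*a^3*c - 3*w^2*d*x*y*z*a^3 - 6*w^2*d*x*y^2*a^2*b + 3*w^2*d*x*y^3*a^2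
      - 3*w^2*d*x^2*y*a*b^2 + 3*w^2*d*x^2*y*a^2*c - 3*w^2*d*x^2*y*z*a^2 - 3*w^2*d*x^2*y^2*a*b + 3*w^2*d*x^2*y^3*a
      - 3*w^2*d*x^3*y*b^2 + 3*w^2*d*x^3*y*a*c - 3*w^2*d*x^3*y*z*a - 3*w^2*d*x^3*y^2*b + 3*w^2*d^2*z*a*b^4
      - 3*w^2*d^2*z*a^2*b^2*c - 3*w^2*d^2*z*a^3*c^2 + 3*w^2*d^2*z^3*a^3 + 3*w^2*d^2*y*b^5 - 9*w^2*d^2*y*a*b^3*c
      + 6*w^2*d^2*y*a^2*b*c^2 + 6*w^2*d^2*y*z^2*a^2*b + 3*w^2*d^2*y^2*z*a*b^2 - 6*w^2*d^2*y^2*z*a^2*c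
      - 6*w^2*d^2*y^3*b^3 + 6*w^2*d^2*y^3*a*b*c - 3*w^2*d^2*y^3*z*a*b - 3*w^2*d^2*y^4*b^2 + 3*w^2*d^2*y^4*a*c
      - 3*w^2*d^2*y^4*z*a - 3*w^2*d^2*x*b^4*c + 6*w^2*d^2*x*a*b^2*c^2 - 3*w^2*d^2*x*a^2*c^3 + 3*w^2*d^2*x*z^2*a^2*c
      + 3*w^2*d^2*x*y*b^3*c - 9*w^2*d^2*x*y*a*b*c^2 + 6*w^2*d^2*x*y*z*b^3 + 3*w^2*d^2*x*y*z*a*b*c
      + 9*w^2*d^2*x*y*z^2*a*b + 3*w^2*d^2*x*y^2*b^2*c + 3*w^2*d^2*x*y^2*a*c^2 + 12*w^2*d^2*x*y^2*z*b^2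
      - 12*w^2*d^2*x*y^2*z*a*c + 3*w^2*d^2*x*y^2*z^2*a - 3*w^2*d^2*x*y^3*b*c + 3*w^2*d^2*x*y^3*z*b
      - 3*w^2*d^2*x*y^4*c + 3*w^2*d^2*x^2*z*b^2*c - 3*w^2*d^2*x^2*z*a*c^2 - 3*w^2*d^2*x^2*z^2*b^2
      + 3*w^2*d^2*x^2*z^2*a*c + 3*w^2*d^2*x^2*y*z*b*c + 3*w^2*d^2*x^2*y*z^2*b + 3*w^2*d^2*x^2*y^2*c^2
      + 3*w^2*d^2*x^2*y^2*z*c - 6*w^2*d^3*z*b^3*c^2 + 12*w^2*d^3*z*a*b*c^3 - 9*w^2*d^3*z^3*a*b*c - 3*w^2*d^3*z^4*a*b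
      + 3*w^2*d^3*y*b^2*c^3 - 3*w^2*d^3*y*a*c^4 - 6*w^2*d^3*y*z^2*b^2*c - 3*w^2*d^3*y*z^3*b^2 + 3*w^2*d^3*y*z^3*a*c
      + 3*w^2*d^3*y^2*z*b*c^2 - 3*w^2*d^3*y^2*z^3*b + 3*w^2*d^3*y^3*z*c^2 + 3*w^2*d^3*y^3*z^2*c - 3*w^2*d^3*x*z^2*b*c^2
      + 3*w^2*d^3*x*y*c^4 - 6*w^2*d^3*x*y*z*c^3 - 9*w^2*d^3*x*y*z^2*c^2 - 3*w^2*d^3*x*y*z^3*c - 3*w^2*d^4*z*c^5
      + 6*w^2*d^4*z^3*c^3 + 3*w^2*d^4*z^4*c^2 + 3*w^3*d*x^2*y^2*a*b - 3*w^3*d*x^2*y^3*a - w^3*d*x^3*y^3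
      + w^3*d^2*b^6 - 3*w^3*d^2*a*b^4*c + 3*w^3*d^2*a^2*b^2*c^2 - w^3*d^2*a^3*c^3 - 3*w^3*d^2*z*a^2*b^2*c
      + 3*w^3*d^2*z*a^3*c^2 - 3*w^3*d^2*z^2*a^3*c + w^3*d^2*z^3*a^3 - 3*w^3*d^2*y*b^5 + 6*w^3*d^2*y*a*b^3*c
      - 3*w^3*d^2*y*a^2*b*c^2 - 3*w^3*d^2*y*z*a*b^3 + 3*w^3*d^2*y*z*a^2*b*c - 3*w^3*d^2*y^2*b^4 + 6*w^3*d^2*y^2*a*b^2*c
      - 3*w^3*d^2*y^2*a^2*c^2 - 6*w^3*d^2*y^2*z*a*b^2 + 6*w^3*d^2*y^2*z*a^2*c - 3*w^3*d^2*y^2*z^2*a^2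
      + 3*w^3*d^2*x*z*b^4 - 6*w^3*d^2*x*z*a*b^2*c + 3*w^3*d^2*x*z*a^2*c^2 + 6*w^3*d^2*x*z^2*a*b^2
      - 6*w^3*d^2*x*z^2*a^2*c + 3*w^3*d^2*x*z^3*a^2 + 3*w^3*d^2*x*y*z*b^3 - 9*w^3*d^2*x*y*z*a*b*c
      - 3*w^3*d^2*x*y*z^2*a*b - 3*w^3*d^2*x*y^2*b^2*c + 3*w^3*d^2*x*y^2*a*c^2 - 3*w^3*d^2*x*y^2*z*b^2
      + 3*w^3*d^2*x*y^2*z*a*c + 6*w^3*d^2*x*y^2*z^2*a - 3*w^3*d^2*x*y^3*z*b + 3*w^3*d^2*x^2*y*z^2*b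
      - 3*w^3*d^2*x^2*y^2*c^2 + 3*w^3*d^2*x^2*y^2*z*c + 3*w^3*d^2*x^2*y^2*z^2 + 3*w^3*d^3*z*b^3*c^2
      - 3*w^3*d^3*z*a*b*c^3 - 3*w^3*d^3*z^2*b^3*c + 9*w^3*d^3*z^2*a*b*c^2 - 2*w^3*d^3*z^3*b^3 + 6*w^3*d^3*z^3*a*b*c
      + 3*w^3*d^3*y*z*b^2*c^2 - 3*w^3*d^3*y*z*a*c^3 + 3*w^3*d^3*y*z^2*b^2*c - 3*w^3*d^3*y*z^2*a*c^2
      + 3*w^3*d^3*y*z^3*b^2 - 3*w^3*d^3*y*z^3*a*c - 3*w^3*d^3*y*z^4*a + 3*w^3*d^3*y^2*z^2*b*c + 3*w^3*d^3*y^2*z^3*b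
      - 3*w^3*d^3*x*z^3*b*c - 3*w^3*d^3*x*z^4*b + 6*w^3*d^3*x*y*z*c^3 + 3*w^3*d^3*x*y*z^2*c^2 - 6*w^3*d^3*x*y*z^3*c
      - 3*w^3*d^3*x*y*z^4 - 3*w^3*d^4*z^2*c^4 - 5*w^3*d^4*z^3*c^3 + 3*w^3*d^4*z^5*c + w^3*d^4*z^6
      + w^4*d*x^3*y^3 - w^4*d^2*b^6 + 3*w^4*d^2*a*b^4*c - 3*w^4*d^2*a^2*b^2*c^2 + w^4*d^2*a^3*c^3
      - 3*w^4*d^2*z*a*b^4 + 6*w^4*d^2*z*a^2*b^2*c - 3*w^4*d^2*z*a^3*c^2 - 3*w^4*d^2*z^2*a^2*b^2 + 3*w^4*d^2*z^2*a^3*c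
      - w^4*d^2*z^3*a^3 - 3*w^4*d^2*x*y*z*b^3 + 3*w^4*d^2*x*y*z*a*b*c - 3*w^4*d^2*x*y*z^2*a*b - 3*w^4*d^2*x^2*y^2*z*c
      - 3*w^4*d^2*x^2*y^2*z^2 + 3*w^4*d^3*z^2*b^3*c - 3*w^4*d^3*z^2*a*b*c^2 + 2*w^4*d^3*z^3*b^3 + 3*w^4*d^3*z^4*a*b
      + 3*w^4*d^3*x*y*z^2*c^2 + 6*w^4*d^3*x*y*z^3*c + 3*w^4*d^3*x*y*z^4 - w^4*d^4*z^3*c^3 - 3*w^4*d^4*z^4*c^2
      - 3*w^4*d^4*z^5*c - w^4*d^4*z^6) * hw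
    + (- a^3 - 3*x*a^2 - 6*x^2*a - 5*x^3 - d*b^3 + 3*d*a*b*c + 3*d*y*b^2 - 3*d*y*a*c + 6*d*y*z*a + 3*d*y^2*b
      - 2*d*y^3 + 3*d*x*b*c - 3*d*x*z*b - 3*d*x*y*c + 6*d*x*y*z - d^2*c^3 + 3*d^2*z^2*c + d^2*z^3
      + 3*w*d*z*a*b + 3*w*d*y*b^2 - 3*w*d*y*a*c - 3*w*d*y^3 - 3*w*d^2*z*c^2 + 3*w*d^2*z^3) * h

/-- The value of a triple, times a scalar. -/
def zv (m x y z t : F) : F := m * (x + y * t + z * t ^ 2)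

theorem s1 (w s x y z m : F) (hw : w ^ 2 + w + 1 = 0) :
    zv m x y z s + zv m x y z (w * s) + zv m x y z (w ^ 2 * s) = 3 * m * x := by
  unfold zv
  linear_combination (s*y*m + s^2*z*m - w*s^2*z*m + w^2*s^2*z*m) * hw

theorem s2 (w s x y z m : F) (hw : w ^ 2 + w + 1 = 0) :
    zv m x y z s * zv m x y z (w * s) + zv m x y z (w * s) * zv m x y z (w ^ 2 * s)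
      + zv m x y z (w ^ 2 * s) * zv m x y z s = 3 * m ^ 2 * (x ^ 2 - s ^ 3 * y * z) := by
  unfold zv
  linear_combination (2*s*x*y*m^2 + 2*s^2*x*z*m^2 + 3*s^3*y*z*m^2 + w*s^2*y^2*m^2 - 2*w*s^2*x*z*m^2 - 2*w*s^3*y*z*m^2
      + 2*w^2*s^2*x*z*m^2 + w^2*s^3*y*z*m^2 + w^2*s^4*z^2*m^2 + w^3*s^3*y*z*m^2 - w^3*s^4*z^2*m^2
      + w^4*s^4*z^2*m^2) * hw

theorem s3 (w s x y z m : F) (hw : w ^ 2 + w + 1 = 0) :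
    zv m x y z s * zv m x y z (w * s) ^ 2 + zv m x y z (w * s) * zv m x y z (w ^ 2 * s) ^ 2
      + zv m x y z (w ^ 2 * s) * zv m x y z s ^ 2 =
      m ^ 3 * 3 * (x ^ 3 + w ^ 2 * s ^ 3 * y ^ 3 + w * (s ^ 3) ^ 2 * z ^ 3) := by
  unfold zv
  linear_combination (3*s*x^2*y*m^3 + s^2*x*y^2*m^3 + 3*s^2*x^2*z*m^3 + 2*s^3*x*y*z*m^3 + s^4*x*z^2*m^3 + w*s^2*x*y^2*m^3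
      - 3*w*s^2*x^2*z*m^3 - w*s^4*x*z^2*m^3 - 3*w*s^6*z^3*m^3 + w^2*s^2*x*y^2*m^3 + 3*w^2*s^2*x^2*z*m^3
      - w^2*s^3*y^3*m^3 + 2*w^2*s^3*x*y*z*m^3 + 3*w^2*s^4*y^2*z*m^3 + 2*w^2*s^4*x*z^2*m^3 + w^2*s^5*y*z^2*m^3
      + 3*w^2*s^6*z^3*m^3 + w^3*s^3*y^3*m^3 - w^3*s^4*y^2*z*m^3 - w^3*s^4*x*z^2*m^3 + w^3*s^5*y*z^2*m^3
      + 2*w^4*s^3*x*y*z*m^3 - w^4*s^4*y^2*z*m^3 + 2*w^4*s^4*x*z^2*m^3 + w^4*s^5*y*z^2*m^3 - w^4*s^6*z^3*m^3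
      + 2*w^5*s^4*y^2*z*m^3 - w^5*s^4*x*z^2*m^3 - 2*w^5*s^5*y*z^2*m^3 + w^5*s^6*z^3*m^3 + w^6*s^4*x*z^2*m^3
      + w^6*s^5*y*z^2*m^3 + w^7*s^5*y*z^2*m^3 - w^7*s^6*z^3*m^3 + w^8*s^6*z^3*m^3) * hw

theorem s4 (w s x y z m : F) (hw : w ^ 2 + w + 1 = 0) :
    zv m x y z s * zv m x y z (w * s) * zv m x y z (w ^ 2 * s) = m ^ 3 * Nf (s ^ 3) x y z := by
  unfold zv Nf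
  linear_combination (s*x^2*y*m^3 + s^2*x^2*z*m^3 - s^3*y^3*m^3 + 3*s^3*x*y*z*m^3 - s^6*z^3*m^3 + w*s^2*x*y^2*m^3
      - w*s^2*x^2*z*m^3 + w*s^3*y^3*m^3 - 2*w*s^3*x*y*z*m^3 + w*s^6*z^3*m^3 + w^2*s^2*x^2*z*m^3 + w^2*s^3*x*y*z*m^3
      + w^2*s^4*x*z^2*m^3 + w^3*s^3*x*y*z*m^3 + w^3*s^4*y^2*z*m^3 - w^3*s^4*x*z^2*m^3 - w^3*s^6*z^3*m^3
      + w^4*s^4*x*z^2*m^3 + w^4*s^5*y*z^2*m^3 + w^4*s^6*z^3*m^3) * hw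

theorem cast_N3 (d : ℤ) (α : V3) : ((N3 d α : ℤ) : F) = Nf (d : F) (α 0) (α 1) (α 2) := by
  unfold N3 Nf
  push_cast
  ring

end Id2

open Id2 in
theorem id2 : Id2St := by
  intro F _ W d ζ η w μ hd hN hw hμ
  have hN' : Nf (W : F) (ζ 0) (ζ 1) (ζ 2) = Nf (d : F) (η 0) (η 1) (η 2) := by
    rw [← cast_N3, ← cast_N3, hN]
  refine ⟨fun s hs => ?_, fun g hg => ?_⟩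
  · have h1 := s1 w s (ζ 0) (ζ 1) (ζ 2) μ hw
    have h2 := s2 w s (ζ 0) (ζ 1) (ζ 2) μ hw
    have h3 := s3 w s (ζ 0) (ζ 1) (ζ 2) μ hw
    have h4 := s4 w s (ζ 0) (ζ 1) (ζ 2) μ hw
    rw [hs] at h2
    rw [hs, hμ, one_mul] at h3
    rw [hs, hμ, one_mul, hN'] at h4
    have h := idA w d (η 0) (η 1) (η 2) _ _ _ hw h4
    rw [h1, h2, h3] at h
    refine ⟨_, _, _, Eq.trans ?_ h⟩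
    unfold Ef
    rw [cast_N3]
    unfold zv ev3
    ring
  · have hb : (d : F) * (μ * ζ 2 * g ^ 2 / d) ^ 3 = (W : F) ^ 2 * (ζ 2 : F) ^ 3 := by
      have : (d : F) * (μ * ζ 2 * g ^ 2 / d) ^ 3 = μ ^ 3 * (ζ 2 : F) ^ 3 * (g ^ 3) ^ 2 / d ^ 2 := by
        field_simp
      rw [this, hμ, hg]
      field_simp
    have hc : (d : F) ^ 2 * (μ * ζ 1 * g / d) ^ 3 = (W : F) * (ζ 1 : F) ^ 3 := by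
      have : (d : F) ^ 2 * (μ * ζ 1 * g / d) ^ 3 = μ ^ 3 * (ζ 1 : F) ^ 3 * g ^ 3 / d := by
        field_simp
      rw [this, hμ, hg]
      field_simp
    have hbc : (d : F) * (μ * ζ 2 * g ^ 2 / d) * (μ * ζ 1 * g / d) = μ ^ 2 * (W * ζ 1 * ζ 2) := by
      have : (d : F) * (μ * ζ 2 * g ^ 2 / d) * (μ * ζ 1 * g / d) =
          μ ^ 2 * (ζ 1 : F) * ζ 2 * g ^ 3 / d := by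
        field_simp
      rw [this, hg]
      field_simp
    have ha : (μ * ζ 0) ^ 3 = (ζ 0 : F) ^ 3 := by rw [mul_pow, hμ, one_mul]
    have hn : Nf (d : F) (μ * ζ 0) (μ * ζ 2 * g ^ 2 / d) (μ * ζ 1 * g / d) =
        Nf (d : F) (η 0) (η 1) (η 2) := by
      rw [← hN']
      unfold Nf
      linear_combination ha + hb + hc - 3 * (μ * ζ 0) * hbc - 3 * (W * ζ 0 * ζ 1 * ζ 2) * hμ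
    have h := idB w d (η 0) (η 1) (η 2) _ _ _ hw hn
    rw [ha, hb, hc, hbc] at h
    refine ⟨_, _, _, Eq.trans ?_ h⟩
    unfold Ef
    rw [cast_N3]
    ring

end Pool.Agent.Lib.MP_65b7ad_nt.DS
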