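import Pool.Agent.Lib.MP_65b7ad_nt.DS.Bas

/-! The cubic index on the integers. -/

open Finset

namespace Pool.Agent.Lib.MP_65b7ad_nt.DS

namespace Idx

variable {P : Loc} {l : ℕ}

lemma fermat (hl : l.Prime) {n : ℤ} (hn : ¬(l : ℤ) ∣ n) : (n : ZMod l) ^ (l - 1) = 1 := by
  have := Fact.mk hl
  exact ZMod.pow_card_sub_one_eq_one fun e => hn ((ZMod.intCast_zmod_eq_zero_iff_dvd n l).1 e)

lemma two (h : P.Ok l) (hl : l.Prime) (h3 : l ≠ 3) (e : l % 3 = 2) {n : ℤ} (hn : n ≠ 0) :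
    P.c n = 0 := by
  obtain ⟨k, n', hn', rfl⟩ : ∃ (k : ℕ) (n' : ℤ), ¬(l : ℤ) ∣ n' ∧ n = l ^ k * n' := by
    obtain ⟨k', e, hk'⟩ := (FiniteMultiplicity.of_prime_left (Nat.prime_iff_prime_int.1 hl)
      hn).exists_eq_pow_mul_and_not_dvd
    exact ⟨_, k', hk', e⟩
  obtain ⟨n0, vn⟩ := h.v_int_zero hn'
  have l0 : (l : P.F) ≠ 0 := by exact_mod_cast hl.ne_zero
  have e1 : (l ^ 2 - 1) / 3 = (l - 1) * ((l + 1) / 3) := by
    obtain ⟨m, rfl⟩ : ∃ m, l = 3 * m + 2 := ⟨l / 3, by omega⟩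
    rw [show (3 * m + 2) ^ 2 = 3 * ((3 * m + 1) * (m + 1)) + 1 by ring,
      show 3 * m + 2 + 1 = 3 * (m + 1) by ring]
    simp
  have hd : (l : ℤ) ∣ n' ^ ((l ^ 2 - 1) / 3) - 1 := by
    rw [← ZMod.intCast_zmod_eq_zero_iff_dvd]
    push_cast
    rw [e1, pow_mul, fermat hl hn', one_pow, sub_self]
  have hc := h.c_eq hl h3 n0 vn (j := 0) (by simpa using (h.sm_int_iff hl _).2 hd)
  push_cast
  rw [h.c_mul _ _ (pow_ne_zero _ l0) n0, h.c_pow l0, h.c_l, hc]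
  simp

lemma four (h : P.Ok l) (hl : l.Prime) (h3 : l ≠ 3) (e : l % 3 = 1) (r t : ℤ) (j : ℕ)
    (hr : P.sm (P.om - r)) (ht : ¬(l : ℤ) ∣ t) (hd : (l : ℤ) ∣ t ^ ((l - 1) / 3) - r ^ j) :
    P.c t = j := by
  obtain ⟨t0, vt⟩ := h.v_int_zero ht
  have e1 : (l ^ 2 - 1) / 3 = (l - 1) / 3 * (l + 1) := by
    obtain ⟨m, rfl⟩ : ∃ m, l = 3 * m + 1 := ⟨l / 3, by omega⟩
    rw [show (3 * m + 1) ^ 2 = 3 * (m * (3 * m + 1 + 1)) + 1 by ring]
    simp
  have s1 : P.sm ((t : P.F) ^ ((l - 1) / 3) - r ^ j) := by simpa using (h.sm_int_iff hl _).2 hd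
  have s2 := h.sm_pow_sub h.it_om (h.it_int r) hr j
  have s3 : P.sm ((t : P.F) ^ ((l - 1) / 3) - P.om ^ j) := by simpa using h.sm_sub s1 s2
  have s4 := h.sm_pow_sub (h.it_pow (h.it_int t) _) (h.it_pow h.it_om j) s3 (l + 1)
  rw [← pow_mul, ← pow_mul, ← e1] at s4
  rw [h.c_eq hl h3 t0 vt s4]
  obtain ⟨m, rfl⟩ : ∃ m, l = 3 * m + 1 := ⟨l / 3, by omega⟩
  have z : (3 : ZMod 3) = 0 := rfl
  push_cast
  linear_combination (-(j : ZMod 3) * (m + 1)) * z

lemma three (h : P.Ok l) (hl : l.Prime) (h3 : l ≠ 3) (e : l % 3 = 1) (γ : ZMod 3) :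
    3 * #((range l).filter fun a : ℕ => a ≠ 0 ∧ P.c (a : ℤ) = γ) = l - 1 := by
  have := Fact.mk hl
  obtain ⟨r, hr⟩ := h.om_int e
  have hr0 : (r : ZMod l) ^ 2 + r + 1 = 0 := by
    have s := h.sm_mul hr (h.it_neg (h.it_add (h.it_add h.it_om (h.it_int r)) h.it_one))
    have e2 : (P.om - r) * -(P.om + r + 1) = ((r ^ 2 + r + 1 : ℤ) : P.F) := by
      push_cast
      linear_combination -h.om_eq
    rw [e2, h.sm_int_iff hl, ← ZMod.intCast_zmod_eq_zero_iff_dvd] at s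
    exact_mod_cast s
  have hm : (l - 1) / 3 * 3 = l - 1 := by omega
  have hm0 : 0 < (l - 1) / 3 := by have := hl.two_le; omega
  have le : ∀ γ : ZMod 3,
      #((range l).filter fun a : ℕ => a ≠ 0 ∧ P.c (a : ℤ) = γ) ≤ (l - 1) / 3 := fun γ => by
    refine le_trans ?_ ((Multiset.toFinset_card_le _).trans
      (Polynomial.card_nthRoots ((l - 1) / 3) ((r : ZMod l) ^ γ.val)))
    refine card_le_card_of_injOn (fun a : ℕ => (a : ZMod l)) (fun a ha => ?_) fun a ha b hb hab => ?_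
    · obtain ⟨ha1, ha2, ha3⟩ := mem_filter.1 (mem_coe.1 ha)
      have hn : ¬(l : ℤ) ∣ (a : ℤ) := fun d =>
        ha2 (Nat.eq_zero_of_dvd_of_lt (Int.natCast_dvd_natCast.1 d) (mem_range.1 ha1))
      have f := fermat hl hn
      rw [← hm, pow_mul, Int.cast_natCast] at f
      have ex : ∃ j : ℕ, j < 3 ∧ (a : ZMod l) ^ ((l - 1) / 3) = r ^ j := by
        have : ((a : ZMod l) ^ ((l - 1) / 3) - r ^ 0) * ((a : ZMod l) ^ ((l - 1) / 3) - r ^ 1) *
            ((a : ZMod l) ^ ((l - 1) / 3) - r ^ 2) = 0 := by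
          generalize (a : ZMod l) ^ ((l - 1) / 3) = x at f
          linear_combination f + (-x ^ 2 + r * x - r + 1) * hr0
        rcases mul_eq_zero.1 this with e | e
        · rcases mul_eq_zero.1 e with e | e
          · exact ⟨0, by norm_num, sub_eq_zero.1 e⟩
          · exact ⟨1, by norm_num, sub_eq_zero.1 e⟩
        · exact ⟨2, by norm_num, sub_eq_zero.1 e⟩
      obtain ⟨j, hj, ej⟩ := ex
      have hc := four h hl h3 e r a j hr hn (by
        rw [← ZMod.intCast_zmod_eq_zero_iff_dvd]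
        push_cast
        rw [ej, sub_self])
      rw [mem_coe, Multiset.mem_toFinset, Polynomial.mem_nthRoots hm0, ej, ← ha3, hc,
        ZMod.val_cast_of_lt hj]
    · have h1 := mem_range.1 (mem_filter.1 (mem_coe.1 ha)).1
      have h2 := mem_range.1 (mem_filter.1 (mem_coe.1 hb)).1
      have := (ZMod.natCast_eq_natCast_iff' a b l).1 hab
      rwa [Nat.mod_eq_of_lt h1, Nat.mod_eq_of_lt h2] at this
  have tot : ∑ γ : ZMod 3, #((range l).filter fun a : ℕ => a ≠ 0 ∧ P.c (a : ℤ) = γ) = l - 1 := by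
    have := card_eq_sum_card_fiberwise (s := (range l).filter fun a : ℕ => a ≠ 0) (t := univ)
      (f := fun a : ℕ => P.c (a : ℤ)) fun _ _ => mem_univ _
    simp only [filter_filter] at this
    rw [← this, filter_ne', card_erase_of_mem (mem_range.2 hl.pos), card_range]
  have s := add_sum_erase univ
    (fun γ : ZMod 3 => #((range l).filter fun a : ℕ => a ≠ 0 ∧ P.c (a : ℤ) = γ)) (mem_univ γ)
  have b := sum_le_card_nsmul (univ.erase γ) _ _ fun x _ => le x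
  rw [card_erase_of_mem (mem_univ _), card_univ, ZMod.card, smul_eq_mul] at b
  have := le γ
  omega

end Idx

theorem idx : IdxSt := fun _ _ hl h3 h =>
  ⟨fun e _ hn => Idx.two h hl h3 e hn,
    h.c_eq hl h3 h.om_ne h.v_om (by rw [sub_self]; exact Loc.sm_zero),
    Idx.three h hl h3, Idx.four h hl h3⟩

end Pool.Agent.Lib.MP_65b7ad_nt.DS
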