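import Pool.Agent.Lib.MP_65b7ad_nt.DS.Bas

/-! The two consequences of the key relation. -/

open Finset

namespace Pool.Agent.Lib.MP_65b7ad_nt.DS

namespace K12

theorem same_symm {m : ℤ} {γ γ' : V3} (h : Same m γ γ') : Same m γ' γ := fun i => by
  have := (h i).neg_right
  rwa [neg_sub] at this

theorem good_ne {P : ℕ → Loc} {d m : ℤ} {p : ℕ} {γ : V3} (hp : p.Prime) (h : Good P d p m γ) :
    N3 d γ ≠ 0 := by
  rw [h.1]
  exact mul_ne_zero (by exact_mod_cast hp.ne_zero) h.2.1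

/-- The quotient of two good triples in one class. -/
theorem quo (h2 : CLSt) {P : ℕ → Loc} (hP : FamOk P) {d m : ℤ} {p p' : ℕ} {γ γ' : V3}
    (hp : p.Prime) (hp3 : p ≠ 3) (hp' : p'.Prime) (hp3' : p' ≠ 3) (hg : Good P d p m γ)
    (hg' : Good P d p' m γ') (hs : Same m γ γ') :
    Sc3 (mul3 d γ (adj3 d γ')) ∧ N3 d (mul3 d γ (adj3 d γ')) = p * p' ^ 2 * m ^ 3 ∧
      (∀ l : ℕ, l.Prime → l ≠ 3 → (P l).Cb d →
        (P l).v ((P l).rt d (mul3 d γ (adj3 d γ'))) = 0) ∧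
      ∀ W : ℤ, phi P W d (mul3 d γ (adj3 d γ')) = phi P W d γ - phi P W d γ' := by
  obtain ⟨c1, c2⟩ := h2 P hP d m p p' γ γ' hp hp3 hp' hp3' hg hg' hs
  have n1 := good_ne hp hg
  have n2 := good_ne hp' hg'
  have n3 : N3 d (adj3 d γ') ≠ 0 := by rw [N3_adj]; exact pow_ne_zero _ n2
  refine ⟨c1, ?_, fun l hl h3 hc => ?_, fun W => ?_⟩
  · rw [N3_mul, N3_adj, hg.1, hg'.1]; ring
  · have h := hP l hl h3
    rw [h.rt_mul hc, h.rt_adj hc n2, h.v_mul _ _ (h.rt_ne hc n1) (inv_ne_zero (h.rt_ne hc n2)),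
      h.v_inv (h.rt_ne hc n2), c2 l hl h3 hc, add_neg_cancel]
  · rw [phi_mul hP W n1 n3, phi_adj hP W n2, sub_eq_add_neg]

/-- The ratio of the two complex conjugates. -/
noncomputable def ra (P : Loc) (ζ : V3) (s : P.F) : P.F := ev3 ζ (P.om * s) / ev3 ζ (P.om ^ 2 * s)

theorem ra_ne {P : Loc} {l : ℕ} (h : P.Ok l) {W : ℤ} {s : P.F} (hs : s ^ 3 = W) {ζ : V3}
    (hζ : N3 W ζ ≠ 0) : ra P ζ s ≠ 0 :=
  div_ne_zero (h.ev3_ne hs hζ).2.1 (h.ev3_ne hs hζ).2.2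

theorem ra_quo {P : Loc} {l : ℕ} (h : P.Ok l) {W k : ℤ} (hk : k ≠ 0) {s : P.F} (hs : s ^ 3 = W)
    (ζ : V3) {ζ' : V3} (hζ : N3 W ζ' ≠ 0) :
    ra P (k • mul3 W ζ (adj3 W ζ')) s = ra P ζ s / ra P ζ' s := by
  obtain ⟨-, n1, n2⟩ := h.ev3_ne hs hζ
  have s1 := w_mul_cube h.om_eq hs
  have s2 := w_mul_cube (w_sq h.om_eq) hs
  have e1 := ev3_adj s1 ζ'
  have e2 := ev3_adj s2 ζ'
  have n0 : ((N3 W ζ' : ℤ) : P.F) ≠ 0 := by exact_mod_cast hζ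
  have a1 : ev3 (adj3 W ζ') (P.om * s) = N3 W ζ' / ev3 ζ' (P.om * s) := by
    rw [eq_div_iff n1, mul_comm, e1]
  have a2 : ev3 (adj3 W ζ') (P.om ^ 2 * s) = N3 W ζ' / ev3 ζ' (P.om ^ 2 * s) := by
    rw [eq_div_iff n2, mul_comm, e2]
  have k0 : (k : P.F) ≠ 0 := by exact_mod_cast hk
  rw [ra, ra, ra, ev3_smul, ev3_smul, mul_div_mul_left _ _ k0, ev3_mul s1, ev3_mul s2, a1, a2]
  by_cases e : ev3 ζ (P.om ^ 2 * s) = 0
  · simp [e]
  · field_simp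

/-- The triple attached to a solution. -/
theorem tri (hst : STSt) {P : Loc} {l : ℕ} (hl : l.Prime) (h3 : l ≠ 3) (h : P.Ok l)
    {W A B u x : ℤ} {s : P.F} (hs : s ^ 3 = W) (hu : u ≠ 0) (hx : x ≠ 0)
    (hN : N3 W ![A, B, 0] = -u * x ^ 3) :
    P.T u (ra P ![A, B, 0] s) = -P.T P.om u ∧
      ((3 : ℤ) ∣ P.v u → (3 : ℤ) ∣ P.v (ra P ![A, B, 0] s)) := by
  have n0 : N3 W ![A, B, 0] ≠ 0 := by
    rw [hN]; exact mul_ne_zero (neg_ne_zero.2 hu) (pow_ne_zero _ hx)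
  obtain ⟨n1, n2, n3⟩ := h.ev3_ne hs n0
  have u0 : (u : P.F) ≠ 0 := by exact_mod_cast hu
  have x0 : (x : P.F) ≠ 0 := by exact_mod_cast hx
  have e : ev3 ![A, B, 0] s * ev3 ![A, B, 0] (P.om * s) * ev3 ![A, B, 0] (P.om ^ 2 * s) =
      -(u * x ^ 3 : P.F) := by
    rw [ev3_norm h.om_eq hs, hN]; push_cast; ring
  obtain ⟨t1, t2⟩ := hst l P hl h3 h _ _ _ n1 n2 n3 (by
    simp only [ev3, Matrix.cons_val_zero, Matrix.cons_val_one, Matrix.cons_val]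
    push_cast
    linear_combination ((A : P.F) + B * s * (P.om ^ 2 - P.om + 1)) * h.om_eq)
  have x3 : (x : P.F) ^ 3 ≠ 0 := pow_ne_zero _ x0
  have cb : P.Cb ((x : P.F) ^ 3) := ⟨x, rfl⟩
  rw [e] at t1 t2
  refine ⟨?_, fun hv => t2 ?_⟩
  · rw [h.T_neg_left, h.T_neg_right, h.T_mul_left u0 x3, h.T_mul_right _ u0 x3,
      h.T_cb_left x3 cb, h.T_cb_right _ x3 cb, add_zero, add_zero] at t1
    exact t1
  · rw [h.v_neg, h.v_mul _ _ u0 x3, h.v_pow x0]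
    exact dvd_add hv ⟨P.v x, by push_cast; ring⟩

/-- A solution gives a triple of norm `-u x^3` with `x` nonzero. -/
theorem sol {P : Loc} {a b c : ℕ} (hc : 0 < c) (hW : ¬P.Cb ((b * c ^ 2 : ℕ) : ℤ))
    (h : Sol a b c) : ∃ A B x : ℤ, x ≠ 0 ∧
      N3 ((b * c ^ 2 : ℕ) : ℤ) ![A, B, 0] = -((a * c ^ 2 : ℕ) : ℤ) * x ^ 3 := by
  obtain ⟨x, y, z, h0, e⟩ := h
  refine ⟨c * z, y, x, fun hx => h0 ?_, ?_⟩
  · subst hx
    have c0 : (c : P.F) ≠ 0 := by exact_mod_cast hc.ne'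
    have e' : (b : P.F) * y ^ 3 + c * z ^ 3 = 0 := by
      have : (b : ℤ) * y ^ 3 + c * z ^ 3 = 0 := by linear_combination e
      exact_mod_cast congrArg (fun t : ℤ => (t : P.F)) this
    obtain ⟨h1, h2, -⟩ := nf_aniso (x := (c * z : P.F)) (y := (y : P.F)) (z := 0) hW (by
      simp only [Nf]
      push_cast
      linear_combination (c : P.F) ^ 2 * e')
    exact ⟨rfl, by exact_mod_cast h2, by exact_mod_cast (mul_eq_zero.1 h1).resolve_left c0⟩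
  · simp only [N3, Nf, Matrix.cons_val_zero, Matrix.cons_val_one, Matrix.cons_val]
    push_cast
    linear_combination (c : ℤ) ^ 2 * e

theorem nat_unit {P : Loc} {l n : ℕ} (h : P.Ok l) (hn : ¬l ∣ n) :
    P.v (((n : ℕ) : ℤ) : P.F) = 0 :=
  (h.v_int_zero (n := n) (by exact_mod_cast hn)).2

theorem not_dvd {l a p c : ℕ} (hl : l.Prime) (hp : p.Prime) (hlp : l ≠ p) (ha : ¬l ∣ a)
    (hc : ¬l ∣ c) : ¬l ∣ a * p * c ^ 2 := fun e => by
  rcases (hl.dvd_mul).1 e with e | e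
  · rcases (hl.dvd_mul).1 e with e | e
    · exact ha e
    · exact hlp ((Nat.prime_dvd_prime_iff_eq hl hp).1 e)
  · exact hc (hl.dvd_of_dvd_pow e)

theorem T_om {P : Loc} {l a p c : ℕ} (h : P.Ok l) (hl : l.Prime) (hp : p.Prime) (hlp : l ≠ p)
    (ha : 0 < a) (hc : 0 < c) :
    P.T P.om ((a * p * c ^ 2 : ℕ) : ℤ) = P.T P.om ((a * c ^ 2 : ℕ) : ℤ) := by
  have e : (((a * p * c ^ 2 : ℕ) : ℤ) : P.F) = ((a * c ^ 2 : ℕ) : ℤ) * ((p : ℕ) : ℤ) := by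
    push_cast; ring
  have n1 : (((a * c ^ 2 : ℕ) : ℤ) : P.F) ≠ 0 := by
    have : a * c ^ 2 ≠ 0 := by positivity
    exact_mod_cast this
  have n2 : (((p : ℕ) : ℤ) : P.F) ≠ 0 := by exact_mod_cast hp.ne_zero
  rw [e, h.T_mul_right _ n1 n2, Loc.Ok.T_units h.v_om
    (nat_unit h fun e => hlp ((Nat.prime_dvd_prime_iff_eq hl hp).1 e)), add_zero]

end K12

open K12

theorem k2 (h1 : KeySt) (h2 : CLSt) : K2St := by
  intro P hP W d p p' m m₂ δ δ' γ γ' hW hd hl0 hT hp hp3 hp' hp3' gδ gδ' sδ gγ gγ' sγ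
  obtain ⟨a1, a2, a3, a4⟩ := quo h2 hP hp hp3 hp' hp3' gδ gδ' sδ
  obtain ⟨b1, b2, b3, b4⟩ := quo h2 hP hp' hp3' hp hp3 gγ' gγ (same_symm sγ)
  have p0 : (p : ℤ) ≠ 0 := by exact_mod_cast hp.ne_zero
  have p0' : (p' : ℤ) ≠ 0 := by exact_mod_cast hp'.ne_zero
  have m0 := gδ.2.1
  have m0' := gγ.2.1
  have na : N3 d (mul3 d δ (adj3 d δ')) ≠ 0 := by rw [a2]; positivity
  have nb : N3 d (mul3 d γ' (adj3 d γ)) ≠ 0 := by rw [b2]; positivity
  have n0 : (p : ℤ) * p' * m * m₂ ≠ 0 := by positivity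
  have key := h1 P hP W d ![p * p' * m * m₂, 0, 0]
    (mul3 d (mul3 d δ (adj3 d δ')) (mul3 d γ' (adj3 d γ))) hW hd (by
      rw [N3_mul, a2, b2]
      simp only [N3, Nf, Matrix.cons_val_zero, Matrix.cons_val_one, Matrix.cons_val]
      ring) (by rw [N3_mul]; exact mul_ne_zero na nb) (a1.mul b1 d) hl0 (fun l hl h3 => by
      have h := hP l hl h3
      refine ⟨hT l hl h3, fun hc => ?_, fun _ s _ => ?_⟩
      · rw [h.rt_mul hc, h.v_mul _ _ (h.rt_ne hc na) (h.rt_ne hc nb), a3 l hl h3 hc,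
          b3 l hl h3 hc, add_zero]
      · have n1 : (((p : ℤ) * p' * m * m₂ : ℤ) : (P l).F) ≠ 0 := by exact_mod_cast n0
        simp only [ev3, Matrix.cons_val_zero, Matrix.cons_val_one, Matrix.cons_val, Int.cast_zero,
          zero_mul, add_zero]
        rw [div_self n1, h.T_one_right])
  rw [phi_mul hP W na nb, a4, b4] at key
  linear_combination key

theorem k1 (h1 : KeySt) (h2 : CLSt) (h3 : STSt) (h4 : DepSt) (h5 : V0St) : K1St := by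
  intro P hP a b c S p p' q hctx fp fp' fq hpq hpq' hmod sl sl' e he hq m γ γ' g g' hs
  obtain ⟨ha, hb, hc, hS⟩ := id hctx
  obtain ⟨d1, d2⟩ := h4 P hP a b c S p q hctx fp fq hpq
  obtain ⟨d1', d2'⟩ := h4 P hP a b c S p' q hctx fp' fq hpq'
  have he' : e ∈ V0 P a b c S p' q := by
    rw [← ((h5 P hP a b c S p q hctx fp fq).2.2 p' q fp' fq hmod (Nat.ModEq.refl _)).1]
    exact he
  obtain ⟨⟨q1, q2⟩, hT, hD⟩ := d2 e he (d1 sl) hq
  obtain ⟨-, -, hD'⟩ := d2' e he' (d1' sl') hq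
  have hd : Pm9 (dd S e) := by
    classical
    rw [V0] at he
    exact (mem_filter.1 he).2.2.2
  obtain ⟨A, B, x, x0, hN⟩ := sol hc q2 sl
  obtain ⟨A', B', x', x0', hN'⟩ := sol hc q2 sl'
  obtain ⟨a1, a2, a3, a4⟩ := quo h2 hP fp.1 fp.2.1 fp'.1 fp'.2.1 g g' hs
  have pp := fp.1.pos
  have pp' := fp'.1.pos
  have qp := fq.1.pos
  have m0 := g.2.1
  have u0 : ((a * p * c ^ 2 : ℕ) : ℤ) ≠ 0 := by positivity
  have u0' : ((a * p' * c ^ 2 : ℕ) : ℤ) ≠ 0 := by positivity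
  have k0 : -((a : ℤ) * c ^ 2 * x * x' ^ 2) ≠ 0 := neg_ne_zero.2 (by positivity)
  have n1 : N3 ((b * q * c ^ 2 : ℕ) : ℤ) ![A, B, 0] ≠ 0 := by
    rw [hN]; exact mul_ne_zero (neg_ne_zero.2 u0) (pow_ne_zero _ x0)
  have n1' : N3 ((b * q * c ^ 2 : ℕ) : ℤ) ![A', B', 0] ≠ 0 := by
    rw [hN']; exact mul_ne_zero (neg_ne_zero.2 u0') (pow_ne_zero _ x0')
  have key := h1 P hP ((b * q * c ^ 2 : ℕ) : ℤ) (dd S e)
    (m • mul3 ((b * q * c ^ 2 : ℕ) : ℤ) ![A, B, 0] (adj3 ((b * q * c ^ 2 : ℕ) : ℤ) ![A', B', 0]))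
    (-((a : ℤ) * c ^ 2 * x * x' ^ 2) • mul3 (dd S e) γ (adj3 (dd S e) γ')) (by positivity) hd (by
      rw [N3_smul, N3_smul, N3_mul, N3_adj, hN, hN', a2]
      push_cast
      ring) (by
      rw [N3_smul, a2]
      exact mul_ne_zero (pow_ne_zero _ k0) (by positivity)) (a1.smul k0)
    ⟨q, fq.1, fq.2.1, q1, q2⟩ (fun l hl l3 => by
      have h := hP l hl l3
      refine ⟨hT l hl l3, fun hcb => ?_, fun hcb s hs => ?_⟩
      · rw [Loc.Ok.rt_smul _ k0, a3 l hl l3 hcb]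
      · change (P l).T _ (ra (P l) _ s) = 0
        have r1 := ra_ne h hs n1
        have r2 := ra_ne h hs n1'
        obtain ⟨t1, t2⟩ := tri h3 hl l3 h hs u0 x0 hN
        obtain ⟨t1', t2'⟩ := tri h3 hl l3 h hs u0' x0' hN'
        have lp : l ≠ p := by
          rintro rfl
          exact hcb ⟨_, g.2.2.2.1⟩
        have lp' : l ≠ p' := by
          rintro rfl
          exact hcb ⟨_, g'.2.2.2.1⟩
        rw [ra_quo h m0 hs _ n1', h.T_div_right _ r1 r2, sub_eq_zero]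
        rcases hD l hl l3 hcb ⟨s, hs⟩ with ⟨c1, c2⟩ | ⟨-, c2, c3⟩
        · have la : ¬l ∣ a := fun e => c1 ((e.mul_right _).mul_right _)
          have lc : ¬l ∣ c := fun e => c1 (e.mul_left _)
          have v1 := t2 (by rw [nat_unit h (not_dvd hl fp.1 lp la lc)]; exact dvd_zero _)
          have v2 := t2' (by rw [nat_unit h (not_dvd hl fp'.1 lp' la lc)]; exact dvd_zero _)
          have v0 := (h.v_int_zero c2).2
          replace v1 := (ZMod.intCast_zmod_eq_zero_iff_dvd _ 3).2 v1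
          replace v2 := (ZMod.intCast_zmod_eq_zero_iff_dvd _ 3).2 v2
          simp only [Loc.T, v0, v1, v2, Int.cast_zero, zero_mul]
        · rcases hD' l hl l3 hcb ⟨s, hs⟩ with ⟨c1', -⟩ | ⟨-, -, c3'⟩
          · exact absurd ((c2.mul_right _).mul_right _) c1'
          · rw [c3 _ r1, c3' _ r2, t1, t1', T_om h hl fp.1 lp ha hc, T_om h hl fp'.1 lp' ha hc])
  rw [phi_smul _ _ k0, a4] at key
  exact sub_eq_zero.1 key

end Pool.Agent.Lib.MP_65b7ad_nt.DS
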