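import Pool.Agent.Lib.MP_65b7ad_nt.DS.Bas

/-! The key relation from the local terms and reciprocity. -/

open Finset

namespace Pool.Agent.Lib.MP_65b7ad_nt.DS

namespace Key

theorem pow_int (m : ℕ) : ∃ a b : ℤ, ∀ (F : Type) [CommRing F] (w : F), w ^ 2 + w + 1 = 0 →
    w ^ m = a + b * w := by
  induction m with
  | zero => exact ⟨1, 0, fun F _ w _ => by simp⟩
  | succ m ih =>
    obtain ⟨a, b, h⟩ := ih
    refine ⟨-b, a - b, fun F _ w hw => ?_⟩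
    rw [pow_succ, h F w hw]
    push_cast
    linear_combination (b : F) * hw

theorem ef_int (W d : ℤ) (ζ η : V3) (m : ℕ) : ∃ E₁ E₂ : ℤ, ∀ (F : Type) [CommRing F] (w : F),
    w ^ 2 + w + 1 = 0 → Ef W d ζ η w (w ^ m) = E₁ + E₂ * w := by
  obtain ⟨a, b, h⟩ := pow_int m
  refine ⟨3 * (η 0 ^ 3 - d ^ 2 * η 2 ^ 3 + ζ 0 ^ 3 - W * ζ 1 ^ 3
      + 3 * a * ζ 0 * (η 0 ^ 2 - d * η 1 * η 2)
      + 3 * (a ^ 2 - b ^ 2) * (ζ 0 ^ 2 - W * ζ 1 * ζ 2) * η 0 + N3 d η),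
    3 * (d * η 1 ^ 3 - d ^ 2 * η 2 ^ 3 - W * ζ 1 ^ 3 + W ^ 2 * ζ 2 ^ 3
      + 3 * b * ζ 0 * (η 0 ^ 2 - d * η 1 * η 2)
      + 3 * (2 * a * b - b ^ 2) * (ζ 0 ^ 2 - W * ζ 1 * ζ 2) * η 0), fun F _ w hw => ?_⟩
  rw [h F w hw, Ef]
  push_cast
  linear_combination (3 * ((d : F) ^ 2 * η 2 ^ 3 + W * ζ 1 ^ 3)
    + 9 * (b : F) ^ 2 * (ζ 0 ^ 2 - W * ζ 1 * ζ 2) * η 0) * hw

theorem three (a₁ a₂ b₁ b₂ : ZMod 3) (h : a₁ * b₂ - b₁ * a₂ = 0) (ha : ¬(a₁ = 0 ∧ a₂ = 0)) :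
    (b₁ = 0 ∧ b₂ = 0) ∨ (b₁ = a₁ ∧ b₂ = a₂) ∨ (b₁ + a₁ = 0 ∧ b₂ + a₂ = 0) := by
  revert a₁ a₂ b₁ b₂
  decide

open Classical in
/-- The local term at one prime. -/
theorem loc (h1 : KeyLSt) {l : ℕ} {P : Loc} (hl : l.Prime) (h3 : l ≠ 3) (h : P.Ok l) {W d : ℤ}
    {ζ η : V3} {m : ℕ} {E₁ E₂ : ℤ} (hW : W ≠ 0) (hd : d ≠ 0) (hN : N3 W ζ = N3 d η)
    (hN0 : N3 d η ≠ 0) (hE : E₁ ^ 2 - E₁ * E₂ + E₂ ^ 2 ≠ 0)
    (hEf : ∀ w : P.F, w ^ 2 + w + 1 = 0 → Ef W d ζ η w (w ^ m) = E₁ + E₂ * w)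
    (hT : P.T W d = 0) (hv : P.Cb d → P.v (P.rt d η) = 0)
    (hs : ¬P.Cb d → ∀ s : P.F, s ^ 3 = W →
      P.T d (ev3 ζ (P.om * s) / ev3 ζ (P.om ^ 2 * s)) = 0) :
    P.tm d E₁ E₂ - P.tm W E₁ E₂ =
      if P.Cb d then (padicValInt l W : ZMod 3) * P.c (P.rt d η) else 0 := by
  obtain ⟨-, n1, n2⟩ := h.zw_ne hE
  have o1 := h.om_eq
  have o2 := w_sq o1
  have mu : ∀ w : P.F, w ^ 2 + w + 1 = 0 → (w ^ m) ^ 3 = 1 := fun w hw => by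
    rw [← pow_mul, mul_comm, pow_mul, w_cube hw, one_pow]
  have k1 := (h1 l P hl h3 h W d ζ η _ _ hW hd hN hN0 o1 (mu _ o1)).1
  have k2 := (h1 l P hl h3 h W d ζ η _ _ hW hd hN hN0 o2 (mu _ o2)).1
  rw [hEf _ o1] at k1
  rw [hEf _ o2] at k2
  obtain ⟨a1, b1, c1⟩ := k1 n1
  obtain ⟨a2, b2, c2⟩ := k2 n2
  have W0 : (W : P.F) ≠ 0 := by exact_mod_cast hW
  have d0 : (d : P.F) ≠ 0 := by exact_mod_cast hd
  rw [Loc.tm, Loc.tm]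
  split_ifs with hc
  · have ht := Loc.th_cube hc
    obtain ⟨e0, e1, e2⟩ := h.ev3_ne ht hN0
    have e : P.T W (P.rt d η) = -((padicValInt l W : ZMod 3) * P.c (P.rt d η)) := by
      rw [Loc.T, hv hc, h.v_int W hW]
      simp
    rw [h.T_cb_left d0 hc, h.T_div_right _ n1 n2, a1 _ ht, a2 _ ht, h.T_div_right _ e1 e0,
      h.T_div_right _ e2 e0]
    rw [Loc.rt, h.T_div_right _ e1 e2] at e
    rw [Loc.rt]
    linear_combination -e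
  · rcases three _ _ _ _ hT (fun e => hc ((h.cb_iff hd).2 e)) with e | e | e
    · have hWc := (h.cb_iff hW).2 e
      obtain ⟨s, hs3⟩ := id hWc
      obtain ⟨e0, e1, e2⟩ := h.ev3_ne hs3 (hN ▸ hN0)
      have := hs hc s hs3
      rw [h.T_div_right _ e1 e2] at this
      rw [h.T_cb_left W0 hWc, h.T_div_right _ n1 n2, b1 _ hs3, b2 _ hs3, h.T_div_right _ e0 e1,
        h.T_div_right _ e0 e2]
      linear_combination -this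
    · simp only [Loc.T, e.1, e.2, sub_self]
    · have hWd : P.Cb ((W : P.F) * d) := by
        have := (h.cb_iff (mul_ne_zero hW hd)).2 (by
          rw [Int.cast_mul, h.v_mul _ _ W0 d0, h.c_mul _ _ W0 d0, Int.cast_add]
          exact e)
        rwa [Int.cast_mul] at this
      have t := h.T_cb_left (mul_ne_zero W0 d0) hWd
        ((E₁ + E₂ * P.om) / (E₁ + E₂ * P.om ^ 2))
      rw [h.T_mul_left W0 d0] at t
      have u : P.T d ((E₁ + E₂ * P.om) / (E₁ + E₂ * P.om ^ 2)) = 0 := by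
        rw [h.T_div_right _ n1 n2, c1 hWd, c2 hWd, sub_zero]
      linear_combination 2 * u - t

end Key

theorem key (h1 : KeyLSt) (h2 : Key3St) (h3 : RecASt) : KeySt := by
  classical
  intro P hP W d ζ η hW hd9 hN hN0 hS ⟨l₀, p₀, t₀, c₀, c₀'⟩ hloc
  have hd : d ≠ 0 := by
    rintro rfl
    rcases hd9 with e | e <;> simp at e
  have h₀ := hP l₀ p₀ t₀
  obtain ⟨m, hm⟩ := (h1 l₀ _ p₀ t₀ h₀ W d ζ η _ 1 hW hd hN hN0 h₀.om_eq (one_pow 3)).2 c₀ c₀'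
  obtain ⟨E₁, E₂, hEf⟩ := Key.ef_int W d ζ η m
  have hE : E₁ ^ 2 - E₁ * E₂ + E₂ ^ 2 ≠ 0 := fun e => hm (by
    have e2 : E₂ = 0 := by nlinarith [sq_nonneg (2 * E₁ - E₂), sq_nonneg E₂]
    have e1 : E₁ = 0 := by
      rw [e2] at e
      exact pow_eq_zero_iff two_ne_zero |>.1 (by simpa using e)
    rw [hEf _ _ h₀.om_eq, e1, e2]
    simp)
  have r1 := h2 P hP W d ζ η m E₁ E₂ hW hd9 hN hN0 hS hE hEf
  have r2 := (h3 P hP d E₁ E₂ hE).1 hd9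
  have hn : W * d * (E₁ ^ 2 - E₁ * E₂ + E₂ ^ 2) ≠ 0 := mul_ne_zero (mul_ne_zero hW hd) hE
  rw [RR_eq hP hn ⟨d, by ring⟩] at r1
  rw [RR_eq hP hn ⟨W, by ring⟩] at r2
  have r := sub_eq_zero.2 (r2.trans r1.symm)
  rw [← sum_sub_distrib, sum_congr rfl fun l hl => Key.loc h1 (mem_pf.1 hl).1 (mem_pf.1 hl).2.1
    (hP l (mem_pf.1 hl).1 (mem_pf.1 hl).2.1) hW hd hN hN0 hE (hEf _)
    (hloc l (mem_pf.1 hl).1 (mem_pf.1 hl).2.1).1 (hloc l (mem_pf.1 hl).1 (mem_pf.1 hl).2.1).2.1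
    (hloc l (mem_pf.1 hl).1 (mem_pf.1 hl).2.1).2.2] at r
  rw [phi, sum_filter]
  refine Eq.trans (sum_subset (fun l hl => ?_) fun l hl hl' => ?_) r
  · rw [mem_pf] at hl ⊢
    exact ⟨hl.1, hl.2.1, (hl.2.2.1.mul_right _).mul_right _, hn⟩
  · rw [mem_pf] at hl hl'
    have : ¬(l : ℤ) ∣ W := fun e => hl' ⟨hl.1, hl.2.1, e, hW⟩
    simp [padicValInt.eq_zero_of_not_dvd this]

end Pool.Agent.Lib.MP_65b7ad_nt.DS
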