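import Pool.Agent.Lib.MP_65b7ad_nt.DS.Bas

/-! The place `3` in the key relation. -/

open Finset

namespace Pool.Agent.Lib.MP_65b7ad_nt.DS

namespace Key3

abbrev R : Type := QuadraticAlgebra ℤ (-1) (-1)

def nm (z : R) : ℤ := z.re ^ 2 - z.re * z.im + z.im ^ 2

def cj (z : R) : R := ⟨z.re - z.im, -z.im⟩

def om : R := ⟨0, 1⟩

theorem om_eq : om ^ 2 + om + 1 = 0 := by
  ext <;> simp [om, sq, QuadraticAlgebra.re_one, QuadraticAlgebra.im_one]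

theorem ev_int (η : V3) (θ : ℤ) :
    (ev3 η (θ : R)).re = η 0 + η 1 * θ + η 2 * θ ^ 2 ∧ (ev3 η (θ : R)).im = 0 ∧
    (ev3 η (om * θ : R)).re = η 0 - η 2 * θ ^ 2 ∧ (ev3 η (om * θ : R)).im = η 1 * θ - η 2 * θ ^ 2 := by
  refine ⟨?_, ?_, ?_, ?_⟩ <;> simp [ev3, sq, om] <;> ring

theorem add_int (n k : ℤ) (G : R) :
    ((⟨n, 0⟩ : R) + G * (k : R)).re = n + G.re * k ∧ ((⟨n, 0⟩ : R) + G * (k : R)).im = G.im * k := by
  constructor <;> simp

theorem nm_mul (z z' : R) : nm (z * z') = nm z * nm z' := by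
  simp only [nm, QuadraticAlgebra.re_mul, QuadraticAlgebra.im_mul]; ring

theorem nm_cj (z : R) : nm (cj z) = nm z := by simp only [nm, cj]; ring

theorem mul_cj (z : R) : z * cj z = ⟨nm z, 0⟩ := by
  ext <;> simp only [nm, cj, QuadraticAlgebra.re_mul, QuadraticAlgebra.im_mul] <;> ring

theorem evw {F : Type} [CommRing F] (w : F) (hw : w ^ 2 + w + 1 = 0) :
    ∃ f : R →+* F, ∀ z : R, f z = z.re + z.im * w := by
  refine ⟨{ toFun := fun z => z.re + z.im * w, map_one' := ?_, map_mul' := fun x y => ?_,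
            map_zero' := by simp, map_add' := fun x y => ?_ }, fun _ => rfl⟩
  · simp [QuadraticAlgebra.re_one, QuadraticAlgebra.im_one]
  · simp only [QuadraticAlgebra.re_mul, QuadraticAlgebra.im_mul]
    push_cast
    linear_combination (-(x.im * y.im) : F) * hw
  · simp only [QuadraticAlgebra.re_add, QuadraticAlgebra.im_add]
    push_cast
    ring

theorem map_nf {A B : Type} [CommRing A] [CommRing B] (f : A →+* B) (W : ℤ) (x y z : A) :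
    f (Nf (W : A) x y z) = Nf (W : B) (f x) (f y) (f z) := by
  simp [Nf, map_ofNat]

theorem map_ev3 {A B : Type} [CommRing A] [CommRing B] (f : A →+* B) (η : V3) (T : A) :
    f (ev3 η T) = ev3 η (f T) := by
  simp [ev3]

theorem cube_root {d : ℤ} (hd : Pm9 d) (N : ℕ) :
    ∃ θ : ℤ, (3 : ℤ) ∣ θ ^ 2 - 1 ∧ (3 : ℤ) ^ (N + 2) ∣ θ ^ 3 - d := by
  induction N with
  | zero =>
    rcases hd with h | h
    · exact ⟨1, by norm_num, by norm_num; omega⟩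
    · exact ⟨-1, by norm_num, by norm_num; omega⟩
  | succ N ih =>
    obtain ⟨θ, ⟨v, hv⟩, u, hu⟩ := ih
    refine ⟨θ - 3 ^ (N + 1) * u, ⟨v - 2 * θ * 3 ^ N * u + 3 ^ (2 * N + 1) * u ^ 2, ?_⟩,
      ⟨-(u * v) + 3 ^ N * θ * u ^ 2 - 3 ^ (2 * N) * u ^ 3, ?_⟩⟩
    · linear_combination hv
    · linear_combination hu - 3 ^ (N + 2) * u * hv

section

variable {P : ℕ → Loc} (hP : FamOk P) {W : ℤ} (hW : W ≠ 0)
include hP hW

theorem rq_mul {z z' : R} (h : nm z ≠ 0) (h' : nm z' ≠ 0) :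
    RR P W (z * z').re (z * z').im = RR P W z.re z.im + RR P W z'.re z'.im := by
  rw [← RR_mul_right hP hW h h']
  simp only [QuadraticAlgebra.re_mul, QuadraticAlgebra.im_mul]
  congr 1 <;> ring

omit hP hW in
theorem unit3 {x y : ℤ} (hx : ¬(3 : ℤ) ∣ x) (hy : (9 : ℤ) ∣ y) :
    ¬(3 : ℤ) ∣ x ^ 2 - x * y + y ^ 2 := by
  obtain ⟨c, rfl⟩ := hy
  intro h
  refine hx (Int.prime_three.dvd_of_dvd_pow (n := 2) ?_)
  have := h.add (Dvd.intro (3 * c * x - 27 * c ^ 2) rfl)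
  rwa [show x ^ 2 - x * (9 * c) + (9 * c) ^ 2 + 3 * (3 * c * x - 27 * c ^ 2) = x ^ 2 by ring] at this

theorem good (h3 : RecBSt) {z : R} {k : ℕ} {x y : ℤ} (hx : ¬(3 : ℤ) ∣ x) (hy : (9 : ℤ) ∣ y)
    (h1 : z.re = 3 ^ k * x) (h2 : z.im = 3 ^ k * y) :
    (∃ n : ℤ, ¬(3 : ℤ) ∣ n ∧ nm z = 3 ^ (2 * k) * n) ∧ RR P W z.re z.im = 0 := by
  have hu := unit3 hx hy
  refine ⟨⟨_, hu, by rw [nm, h1, h2]; ring⟩, ?_⟩
  rw [h1, h2, RR_smul hP hW (by positivity) fun e => hu (by simp [e])]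
  exact h3 P hP W x y hW hy hx

theorem rq_nf (h1 : NLSt) (X Y Z : R) (hn : nm (Nf (W : R) X Y Z) ≠ 0) :
    RR P W (Nf (W : R) X Y Z).re (Nf (W : R) X Y Z).im = 0 := by
  refine sum_eq_zero fun l hl => ?_
  obtain ⟨l1, l2, -⟩ := mem_pf.1 hl
  have h := hP l l1 l2
  obtain ⟨-, n1, n2⟩ := h.zw_ne hn
  obtain ⟨f, hf⟩ := evw _ h.om_eq
  obtain ⟨g, hg⟩ := evw _ (w_sq h.om_eq)
  have hW' : (W : (P l).F) ≠ 0 := by exact_mod_cast hW
  rw [Loc.tm, h.T_div_right _ n1 n2]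
  rw [← hf, map_nf] at n1
  rw [← hg, map_nf] at n2
  rw [← hf, ← hg, map_nf, map_nf, h1 l _ l1 l2 h _ _ _ _ hW' n1, h1 l _ l1 l2 h _ _ _ _ hW' n2,
    sub_zero]

end

end Key3

open Key3 in
theorem key3 (h1 : NLSt) (h2 : Id1St) (h3 : RecBSt) : Key3St := by
  intro P hP W d ζ η m E₁ E₂ hW hd hN _ hS hE hEf
  obtain ⟨t, n, hn, e0, ⟨a, e1⟩, b, e2⟩ := hS
  obtain ⟨s, n0, hn0, hs⟩ := WfDvdMonoid.max_power_factor hE Int.prime_three.irreducible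
  obtain ⟨θ, -, hθ⟩ := cube_root hd (6 * t + s)
  set E : R := ⟨E₁, E₂⟩ with hEdef
  have nE : nm E = 3 ^ s * n0 := hs
  have hn9 : ∀ c : ℤ, ¬(3 : ℤ) ∣ n + 9 * c := fun c h => hn (by omega)
  obtain ⟨⟨n1, hn1, m1⟩, r1⟩ := good hP hW h3 (z := ev3 η (θ : R)) (k := t)
    (hn9 (a * θ + b * θ ^ 2)) (dvd_zero 9) (by rw [(ev_int η θ).1, e0, e1, e2]; ring)
    (by rw [(ev_int η θ).2.1, mul_zero])
  obtain ⟨⟨n2, hn2, m2⟩, r2⟩ := good hP hW h3 (z := ev3 η (om * θ : R)) (k := t)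
    (hn9 (-(b * θ ^ 2))) (Dvd.intro (a * θ - b * θ ^ 2) rfl)
    (by rw [(ev_int η θ).2.2.1, e0, e2]; ring) (by rw [(ev_int η θ).2.2.2, e1, e2]; ring)
  set A := ev3 η (θ : R) with hA
  set B := ev3 η (om * θ : R) with hB
  have z1 : nm A ≠ 0 := by
    rw [m1]; exact mul_ne_zero (by positivity) fun e => hn1 (by simp [e])
  have z2 : nm B ≠ 0 := by
    rw [m2]; exact mul_ne_zero (by positivity) fun e => hn2 (by simp [e])
  have z3 : nm (A * B) ≠ 0 := by rw [nm_mul]; exact mul_ne_zero z1 z2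
  have z4 : nm (A * B * B) ≠ 0 := by rw [nm_mul]; exact mul_ne_zero z3 z2
  have z5 : nm (A * B * B * E) ≠ 0 := by rw [nm_mul]; exact mul_ne_zero z4 hE
  have s1 := rq_mul hP hW z4 (z' := E) hE
  rw [rq_mul hP hW z3 z2, rq_mul hP hW z1 z2, r1, r2] at s1
  obtain ⟨X, Y, Z, δ, hδ⟩ : ∃ X Y Z δ : R,
      Nf (W : R) X Y Z = A * B * B * E + δ * ((3 ^ (6 * t + s + 2) : ℤ) : R) := by
    set f := Ideal.Quotient.mk (Ideal.span {((3 ^ (6 * t + s + 2) : ℤ) : R)}) with hf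
    have w1 : f om ^ 2 + f om + 1 = 0 := by
      have := congrArg f om_eq
      simpa using this
    have t1 : f (θ : R) ^ 3 = d := by
      obtain ⟨u, hu⟩ := hθ
      rw [← map_pow, ← map_intCast f d, hf, Ideal.Quotient.eq, Ideal.mem_span_singleton']
      exact ⟨(u : R), by exact_mod_cast (by rw [hu, mul_comm] : u * 3 ^ (6 * t + s + 2) = θ ^ 3 - d)⟩
    have id := h2 _ W d ζ η (f om) (f om ^ m) (f θ) hN w1
      (by rw [← pow_mul, pow_mul', w_cube w1, one_pow]) t1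
    have hfE : f E = E₁ + E₂ * f om := by
      rw [show E = (E₁ : R) + (E₂ : R) * om by ext <;> simp [om, hEdef]]; simp
    have key : f (Nf (W : R) (A * B + om ^ m * B * ζ 0 + (om ^ m) ^ 2 * (ζ 0 ^ 2 - W * ζ 1 * ζ 2))
        (om ^ m * B * ζ 1 + (om ^ m) ^ 2 * om ^ 2 * (W * ζ 2 ^ 2 - ζ 0 * ζ 1))
        (om ^ m * B * ζ 2 + (om ^ m) ^ 2 * om * (ζ 1 ^ 2 - ζ 0 * ζ 2))) = f (A * B * B * E) := by
      rw [map_nf]
      simp only [map_add, map_mul, map_pow, map_sub, hA, hB, map_ev3, map_intCast f W,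
        map_intCast f (ζ _)]
      rw [← id, hEf _ _ w1, hfE]; ring
    rw [hf, Ideal.Quotient.eq, Ideal.mem_span_singleton'] at key
    obtain ⟨δ, hδ⟩ := key
    exact ⟨_, _, _, δ, by rw [hδ]; ring⟩
  set D := A * B * B * E with hD
  have nD : nm D = 3 ^ (6 * t + s) * (n1 * n2 * n2 * n0) := by
    rw [hD, nm_mul, nm_mul, nm_mul, m1, m2, nE]; ring
  have u3 : ¬(3 : ℤ) ∣ n1 * n2 * n2 * n0 := fun h => by
    simp only [Int.prime_three.dvd_mul] at h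
    tauto
  have pr : Nf (W : R) X Y Z * cj D = ⟨nm D, 0⟩ + δ * cj D * ((3 ^ (6 * t + s + 2) : ℤ) : R) := by
    rw [hδ, ← mul_cj]; ring
  obtain ⟨⟨n5, hn5, m5⟩, r5⟩ := good hP hW h3 (z := Nf (W : R) X Y Z * cj D) (k := 6 * t + s)
    (x := n1 * n2 * n2 * n0 + 9 * (δ * cj D).re) (fun h => u3 (by omega))
    (Dvd.intro (δ * cj D).im rfl)
    (by rw [pr, nD, (add_int _ _ _).1]; ring)
    (by rw [pr, (add_int _ _ _).2]; ring)
  have z6 : nm (Nf (W : R) X Y Z) ≠ 0 := fun e => by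
    rw [nm_mul, e, zero_mul] at m5
    exact mul_ne_zero (by positivity) (fun e => hn5 (by simp [e])) m5.symm
  have z7 : nm (cj D) ≠ 0 := by rw [nm_cj]; exact z5
  rw [rq_mul hP hW z6 z7, rq_nf hP hW h1 X Y Z z6, zero_add] at r5
  have s2 := rq_mul hP hW z5 z7
  rw [mul_cj, r5, add_zero, s1] at s2
  have s3 := RR_int hP W z5
  simpa [s3, hEdef] using s2.symm

end Pool.Agent.Lib.MP_65b7ad_nt.DS
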