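import Pool.Agent.Lib.MP_65b7ad_nt.DS.Bas

/-! The local terms of the key relation. -/

namespace Pool.Agent.Lib.MP_65b7ad_nt.DS

namespace KeyL

theorem conj_ne {F : Type} [Field F] [CharZero F] {d : ℤ} {w θ : F} (hw : w ^ 2 + w + 1 = 0)
    (hθ : θ ^ 3 = d) {γ : V3} (hγ : N3 d γ ≠ 0) : ev3 γ θ ≠ 0 ∧ ev3 γ (w * θ) ≠ 0 := by
  have e := ev3_norm hw hθ γ
  have : ((N3 d γ : ℤ) : F) ≠ 0 := by exact_mod_cast hγ
  rw [← e] at this
  exact ⟨left_ne_zero_of_mul (left_ne_zero_of_mul this),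
    right_ne_zero_of_mul (left_ne_zero_of_mul this)⟩

theorem three (x : ZMod 3) : 3 * x = 0 := mul_eq_zero_of_left rfl _

end KeyL

open KeyL in
theorem keyL (h1 : NLSt) (h2 : Id1St) (h3 : Id2St) : KeyLSt := by
  intro l P hl hl3 h W d ζ η w μ hW hd hN hη hw hμ
  have W0 : (W : P.F) ≠ 0 := by exact_mod_cast hW
  have d0 : (d : P.F) ≠ 0 := by exact_mod_cast hd
  have N0 : ((N3 d η : ℤ) : P.F) ≠ 0 := by exact_mod_cast hη
  have nl : ∀ α x y z u : P.F, α ≠ 0 → u ≠ 0 → u = Nf α x y z → P.T α u = 0 :=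
    fun α x y z u hα hu e => by
      rw [e] at hu ⊢
      exact h1 l P hl hl3 h α x y z hα hu
  refine ⟨fun hE => ⟨fun θ hθ => ?_, fun s hs => ?_, fun hc => ?_⟩, fun hc hn => ?_⟩
  · obtain ⟨e0, e1⟩ := conj_ne hw hθ hη
    have k := nl _ _ _ _ _ W0 (mul_ne_zero (mul_ne_zero e0 (pow_ne_zero 2 e1)) hE)
      (h2 P.F W d ζ η w μ θ hN hw hμ hθ)
    rw [h.T_mul_right _ (mul_ne_zero e0 (pow_ne_zero 2 e1)) hE,
      h.T_mul_right _ e0 (pow_ne_zero 2 e1), h.T_pow_right _ e1] at k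
    rw [h.T_div_right _ e1 e0]
    push_cast at k
    linear_combination k - three (P.T W (ev3 η (w * θ)))
  · obtain ⟨z0, z1⟩ := conj_ne hw hs (hN ▸ hη : N3 W ζ ≠ 0)
    obtain ⟨X, Y, Z, e⟩ := (h3 P.F W d ζ η w μ d0 hN hw hμ).1 s hs
    have e' : ev3 ζ s ^ 2 * ev3 ζ (w * s) * Ef W d ζ η w μ = Nf (d : P.F) X Y Z := by
      rw [← e]
      linear_combination (-(ev3 ζ s ^ 2 * ev3 ζ (w * s) * Ef W d ζ η w μ)) * hμ
    have k := nl _ _ _ _ _ d0 (mul_ne_zero (mul_ne_zero (pow_ne_zero 2 z0) z1) hE) e'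
    rw [h.T_mul_right _ (mul_ne_zero (pow_ne_zero 2 z0) z1) hE,
      h.T_mul_right _ (pow_ne_zero 2 z0) z1, h.T_pow_right _ z0] at k
    rw [h.T_div_right _ z0 z1]
    push_cast at k
    linear_combination k - three (P.T d (ev3 ζ s))
  · obtain ⟨g, hg⟩ := hc
    obtain ⟨X, Y, Z, e⟩ := (h3 P.F W d ζ η w μ d0 hN hw hμ).2 g hg
    have k := nl _ _ _ _ _ d0 (mul_ne_zero N0 hE) e
    have k' := nl (d : P.F) (η 0) (η 1) (η 2) _ d0 N0 (by simp [N3, Nf])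
    rwa [h.T_mul_right _ N0 hE, k', zero_add] at k
  · obtain ⟨θ, hθ⟩ := hc
    obtain ⟨e0, e1⟩ := conj_ne hw hθ hη
    by_contra hz
    push Not at hz
    have w3 := w_cube hw
    have k : ∀ m : ℕ, ev3 η θ * ev3 η (w * θ) + w ^ m * ev3 η (w * θ) * ζ 0
        + (w ^ m) ^ 2 * ((ζ 0 : P.F) ^ 2 - W * ζ 1 * ζ 2) = 0 := fun m => by
      have e := h2 P.F W d ζ η w (w ^ m) θ hN hw
        (by rw [← pow_mul, mul_comm, pow_mul, w3, one_pow]) hθ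
      rw [hz m, mul_zero] at e
      exact (nf_aniso hn e.symm).1
    have k3 : (3 : P.F) * (ev3 η θ * ev3 η (w * θ)) = 0 := by
      linear_combination k 0 + k 1 + k 2 - (ev3 η (w * θ) * ζ 0) * hw
        - ((ζ 0 : P.F) ^ 2 - W * ζ 1 * ζ 2) * w_sq hw
    exact mul_ne_zero (by norm_num) (mul_ne_zero e0 e1) k3

end Pool.Agent.Lib.MP_65b7ad_nt.DS
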