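import Pool.Agent.Lib.MP_65b7ad_nt.DS.St

/-! Local data at a prime that is `1` modulo `3`. -/

open Polynomial

namespace Pool.Agent.Lib.MP_65b7ad_nt.DS

namespace Loc1

variable {l : ℕ} [hl : Fact l.Prime]

theorem res0 (z : ℤ_[l]) : PadicInt.toZMod z = 0 ↔ ‖z‖ < 1 := by
  rw [← RingHom.mem_ker, PadicInt.ker_toZMod, IsLocalRing.mem_maximalIdeal, PadicInt.mem_nonunits]

theorem lift (F : ℤ_[l][X]) (r : ℤ) (h : PadicInt.toZMod (F.eval (r : ℤ_[l])) = 0)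
    (h' : PadicInt.toZMod (F.derivative.eval (r : ℤ_[l])) ≠ 0) :
    ∃ z : ℤ_[l], F.eval z = 0 ∧ PadicInt.toZMod z = r := by
  have h1 : ‖F.derivative.aeval (r : ℤ_[l])‖ = 1 :=
    le_antisymm (PadicInt.norm_le_one _) (not_lt.1 fun e => h' ((res0 _).2 (by simpa using e)))
  obtain ⟨z, a, b, -⟩ := hensels_lemma (F := F) (a := (r : ℤ_[l])) (by
    rw [h1, one_pow]
    simpa using (res0 _).1 h)
  refine ⟨z, by simpa using a, ?_⟩
  rw [h1, ← res0, map_sub, sub_eq_zero, map_intCast] at b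
  exact b

theorem small {z : ℤ_[l]} (h : PadicInt.toZMod z = 0) :
    (z : ℚ_[l]) = 0 ∨ 0 < (z : ℚ_[l]).valuation := by
  refine or_iff_not_imp_left.2 fun h0 => ?_
  have h1 : ‖(z : ℚ_[l])‖ < 1 := (res0 z).1 h
  rw [Padic.norm_eq_zpow_neg_valuation h0,
    zpow_lt_one_iff_right₀ (by exact_mod_cast hl.out.one_lt)] at h1
  omega

theorem unit {z : ℤ_[l]} (h : PadicInt.toZMod z ≠ 0) :
    (z : ℚ_[l]) ≠ 0 ∧ (z : ℚ_[l]).valuation = 0 := by
  have h1 : ‖(z : ℚ_[l])‖ = 1 :=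
    le_antisymm (PadicInt.norm_le_one _) (not_lt.1 fun e => h ((res0 _).2 e))
  have h0 : (z : ℚ_[l]) ≠ 0 := fun e => by simp [e] at h1
  rw [Padic.norm_eq_zpow_neg_valuation h0,
    zpow_eq_one_iff_right₀ (by positivity) (by exact_mod_cast hl.out.one_lt.ne')] at h1
  exact ⟨h0, by omega⟩

theorem l0 : (l : ℚ_[l]) ≠ 0 := Nat.cast_ne_zero.2 hl.out.ne_zero

theorem ex_up (x : ℚ_[l]) : ∃ u : ℤ_[l], x ≠ 0 →
    PadicInt.toZMod u ≠ 0 ∧ x = u * (l : ℚ_[l]) ^ x.valuation := by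
  by_cases h : x = 0
  · exact ⟨0, fun e => absurd h e⟩
  have h1 : ‖x * (l : ℚ_[l]) ^ (-x.valuation)‖ = 1 := by
    rw [norm_mul, Padic.norm_eq_zpow_neg_valuation h, Padic.norm_p_zpow, neg_neg,
      ← zpow_add₀ (by exact_mod_cast hl.out.ne_zero), neg_add_cancel, zpow_zero]
  refine ⟨⟨_, h1.le⟩, fun _ => ⟨fun e => ((res0 _).1 e).ne h1, ?_⟩⟩
  change x = x * _ * _
  rw [mul_assoc, ← zpow_add₀ l0, neg_add_cancel, zpow_zero, mul_one]

/-- The unit part. -/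
noncomputable def up (x : ℚ_[l]) : ℤ_[l] := (ex_up x).choose

theorem up_ne {x : ℚ_[l]} (h : x ≠ 0) : PadicInt.toZMod (up x) ≠ 0 := ((ex_up x).choose_spec h).1

theorem up_eq {x : ℚ_[l]} (h : x ≠ 0) : x = up x * (l : ℚ_[l]) ^ x.valuation :=
  ((ex_up x).choose_spec h).2

theorem up_mul {x y : ℚ_[l]} (hx : x ≠ 0) (hy : y ≠ 0) : up (x * y) = up x * up y := by
  have h := up_eq (mul_ne_zero hx hy)
  rw [Padic.valuation_mul hx hy, zpow_add₀ l0] at h
  refine Subtype.ext (mul_right_cancel₀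
    (mul_ne_zero (zpow_ne_zero x.valuation l0) (zpow_ne_zero y.valuation l0)) ?_)
  rw [← h, PadicInt.coe_mul, mul_mul_mul_comm, ← up_eq hx, ← up_eq hy]

theorem up_of {x : ℚ_[l]} (h : x ≠ 0) (hv : x.valuation = 0) : (up x : ℚ_[l]) = x := by
  have := up_eq h
  rw [hv, zpow_zero, mul_one] at this
  exact this.symm

theorem up_unit {z : ℤ_[l]} (h : PadicInt.toZMod z ≠ 0) : up (z : ℚ_[l]) = z :=
  Subtype.ext (up_of (unit h).1 (unit h).2)

open Classical in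
/-- The cubic index in the residue field. -/
noncomputable def ind (w a : ZMod l) : ZMod 3 :=
  if h : ∃ j : ZMod 3, a ^ ((l ^ 2 - 1) / 3) * w ^ j.val = 1 then h.choose else 0

theorem three_ne (h1 : l % 3 = 1) : (3 : ZMod l) ≠ 0 := fun e => by
  have := (Nat.prime_dvd_prime_iff_eq hl.out Nat.prime_three).1
    ((ZMod.natCast_eq_zero_iff 3 l).1 (by exact_mod_cast e))
  omega

variable {w : ZMod l}

theorem prim (h1 : l % 3 = 1) (hw : w ^ 2 + w + 1 = 0) : IsPrimitiveRoot w 3 := by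
  have : Fact (Nat.Prime 3) := ⟨Nat.prime_three⟩
  have h : orderOf w = 3 := orderOf_eq_prime (by linear_combination (w - 1) * hw) fun e =>
    three_ne h1 (by rw [e] at hw; linear_combination hw)
  exact h ▸ IsPrimitiveRoot.orderOf w

omit hl in
theorem exps (h1 : l % 3 = 1) : ∃ k, l - 1 = 3 * k ∧ (l ^ 2 - 1) / 3 = k * (3 * k + 2) := by
  obtain ⟨k, hk⟩ : ∃ k, l = 3 * k + 1 := ⟨l / 3, by omega⟩
  refine ⟨k, by omega, ?_⟩
  have : l ^ 2 = 3 * (k * (3 * k + 2)) + 1 := by rw [hk]; ring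
  omega

theorem ind_spec (h1 : l % 3 = 1) (hw : w ^ 2 + w + 1 = 0) {a : ZMod l} (ha : a ≠ 0) :
    a ^ ((l ^ 2 - 1) / 3) * w ^ (ind w a).val = 1 := by
  have h : ∃ j : ZMod 3, a ^ ((l ^ 2 - 1) / 3) * w ^ j.val = 1 := by
    obtain ⟨k, e1, e2⟩ := exps h1
    have h3 : ((a ^ ((l ^ 2 - 1) / 3))⁻¹) ^ 3 = 1 := by
      rw [inv_pow, ← pow_mul, e2, show k * (3 * k + 2) * 3 = (l - 1) * (3 * k + 2) by rw [e1]; ring,
        pow_mul, ZMod.pow_card_sub_one_eq_one ha, one_pow, inv_one]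
    obtain ⟨i, hi, e⟩ := (prim h1 hw).eq_pow_of_pow_eq_one h3
    exact ⟨i, by rw [ZMod.val_cast_of_lt hi, e, mul_inv_cancel₀ (pow_ne_zero _ ha)]⟩
  rw [ind, dif_pos h]
  exact h.choose_spec

theorem ind_eq (h1 : l % 3 = 1) (hw : w ^ 2 + w + 1 = 0) {a : ZMod l} (ha : a ≠ 0) {j : ℕ}
    (h : a ^ ((l ^ 2 - 1) / 3) * w ^ j = 1) : ind w a = j := by
  have e := mul_left_cancel₀ (pow_ne_zero _ ha) ((ind_spec h1 hw ha).trans h.symm)
  have p := prim h1 hw
  rw [← pow_mod_orderOf w j, ← p.eq_orderOf] at e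
  rw [← ZMod.natCast_zmod_val (ind w a),
    p.pow_inj (ZMod.val_lt _) (Nat.mod_lt _ (by norm_num)) e, ZMod.natCast_mod]

theorem ind_mul (h1 : l % 3 = 1) (hw : w ^ 2 + w + 1 = 0) {a b : ZMod l} (ha : a ≠ 0)
    (hb : b ≠ 0) : ind w (a * b) = ind w a + ind w b := by
  rw [ind_eq h1 hw (mul_ne_zero ha hb) (j := (ind w a).val + (ind w b).val) (by
    rw [mul_pow, pow_add, mul_mul_mul_comm, ind_spec h1 hw ha, ind_spec h1 hw hb, one_mul])]
  simp

theorem gen (h1 : l % 3 = 1) : ∃ g : ZMod l, g ≠ 0 ∧ g ^ ((l ^ 2 - 1) / 3) ≠ 1 ∧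
    (g ^ ((l - 1) / 3)) ^ 2 + g ^ ((l - 1) / 3) + 1 = 0 ∧
    ∀ a : ZMod l, a ≠ 0 → a ^ ((l ^ 2 - 1) / 3) = 1 → ∃ t, t ^ 3 = a := by
  obtain ⟨g, hg⟩ := IsCyclic.exists_monoid_generator (α := (ZMod l)ˣ)
  have ho : orderOf (g : ZMod l) = l - 1 := by
    rw [orderOf_units, orderOf_eq_card_of_forall_mem_powers hg, Nat.card_eq_fintype_card,
      ZMod.card_units]
  obtain ⟨k, e1, e2⟩ := exps h1
  have k0 : 0 < k := by have := hl.out.two_le; omega
  have key : ∀ i : ℕ, ((g : ZMod l) ^ i) ^ ((l ^ 2 - 1) / 3) = 1 → 3 ∣ i := fun i h => by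
    rw [← pow_mul, ← orderOf_dvd_iff_pow_eq_one, ho, e1, e2, mul_left_comm, mul_comm 3 k,
      Nat.mul_dvd_mul_iff_left k0] at h
    exact (Nat.prime_three.dvd_mul.1 h).resolve_right (by omega)
  refine ⟨g, g.ne_zero, fun h => by simpa using key 1 (by rwa [pow_one]), ?_, fun a ha h => ?_⟩
  · have a1 : (g : ZMod l) ^ k - 1 ≠ 0 := fun e => by
      have := Nat.le_of_dvd k0 (orderOf_dvd_iff_pow_eq_one.2 (sub_eq_zero.1 e))
      omega
    have a2 : ((g : ZMod l) ^ k) ^ 3 = 1 := by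
      rw [← pow_mul, mul_comm, ← e1, ← ho, pow_orderOf_eq_one]
    rw [show (l - 1) / 3 = k by omega]
    exact mul_left_cancel₀ a1 (by linear_combination a2)
  · obtain ⟨i, hi⟩ := hg (Units.mk0 a ha)
    have e : (g : ZMod l) ^ i = a := by simpa using congrArg Units.val hi
    obtain ⟨j, rfl⟩ := key i (by rwa [e])
    exact ⟨g ^ j, by rw [← e, ← pow_mul, mul_comm]⟩

theorem cube (h1 : l % 3 = 1) (hw : w ^ 2 + w + 1 = 0) {u : ℤ_[l]} (hu : PadicInt.toZMod u ≠ 0)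
    (h : ind w (PadicInt.toZMod u) = 0) :
    ∃ (θ : ℤ_[l]) (r : ℤ), θ ^ 3 = u ∧ PadicInt.toZMod θ = r := by
  obtain ⟨-, -, -, -, hc⟩ := gen h1
  obtain ⟨t, ht⟩ := hc _ hu (by simpa [h] using ind_spec h1 hw hu)
  obtain ⟨r, rfl⟩ := ZMod.intCast_surjective t
  have r0 : (r : ZMod l) ≠ 0 := fun e => hu (by rw [← ht, e]; simp)
  obtain ⟨z, a, b⟩ := lift (X ^ 3 - C u) r (by simp [ht]) (by
    have : (2 + 1 : ZMod l) ≠ 0 := fun e => three_ne h1 (by linear_combination e)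
    simpa [map_ofNat] using ⟨this, r0⟩)
  exact ⟨z, r, by simpa [sub_eq_zero] using a, b⟩

end Loc1

open Loc1 in
theorem loc1 : Loc1St := by
  intro l hl h1
  have : Fact l.Prime := ⟨hl⟩
  obtain ⟨g, g0, g1, g2, -⟩ := gen h1
  obtain ⟨r, hr⟩ := ZMod.intCast_surjective (g ^ ((l - 1) / 3))
  rw [← hr] at g2
  obtain ⟨ω, o1, o2⟩ := lift (X ^ 2 + X + 1 : ℤ_[l][X]) r (by simpa using g2) (by
    have : (2 * r + 1 : ZMod l) ≠ 0 := fun e =>
      three_ne h1 (by linear_combination 4 * g2 - (2 * r + 1) * e)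
    simpa [one_add_one_eq_two, map_ofNat] using this)
  have o3 : ω ^ 2 + ω + 1 = 0 := by simpa using o1
  generalize hw : (r : ZMod l) = w at g2 o2
  have cm : ∀ x y : ℚ_[l], x ≠ 0 → y ≠ 0 → ind w (PadicInt.toZMod (up (x * y))) =
      ind w (PadicInt.toZMod (up x)) + ind w (PadicInt.toZMod (up y)) := fun x y hx hy => by
    rw [up_mul hx hy, map_mul, ind_mul h1 g2 (up_ne hx) (up_ne hy)]
  refine ⟨⟨ℚ_[l], inferInstance, inferInstance, ω, Padic.valuation,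
    fun x => ind w (PadicInt.toZMod (up x))⟩, ?_, fun x y hx hy => Padic.valuation_mul hx hy,
    fun x y _ _ h => Padic.le_valuation_add h, fun n _ => Padic.valuation_intCast n, cm, ?_,
    fun x hx hv => ?_, fun n hn h3 hc => ?_, fun n hn hc => ?_, ?_, fun _ => ⟨r, ?_⟩⟩
  · exact_mod_cast congrArg (fun z : ℤ_[l] => (z : ℚ_[l])) o3
  · have e : up (l : ℚ_[l]) = 1 := by
      have := up_eq (l0 (l := l))
      rw [Padic.valuation_p, zpow_one] at this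
      exact Subtype.ext (mul_right_cancel₀ l0 (this.symm.trans (one_mul _).symm))
    change ind w (PadicInt.toZMod (up (l : ℚ_[l]))) = 0
    rw [e, map_one, ind_eq h1 g2 one_ne_zero (j := 0) (by simp), Nat.cast_zero]
  · have := small (z := up x ^ ((l ^ 2 - 1) / 3) * ω ^ (ind w (PadicInt.toZMod (up x))).val - 1) (by
      rw [map_sub, map_mul, map_pow, map_pow, o2, ind_spec h1 g2 (up_ne hx), map_one, sub_self])
    push_cast at this
    rw [up_of hx hv] at this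
    exact this
  · have n0 : (n : ℚ_[l]) ≠ 0 := Int.cast_ne_zero.2 hn
    obtain ⟨θ, -, a, -⟩ := cube h1 g2 (up_ne n0) hc
    obtain ⟨k, hk⟩ : (3 : ℤ) ∣ (n : ℚ_[l]).valuation := h3
    refine ⟨(θ : ℚ_[l]) * (l : ℚ_[l]) ^ k, ?_⟩
    change ((θ : ℚ_[l]) * (l : ℚ_[l]) ^ k) ^ 3 = (n : ℚ_[l])
    rw [up_eq n0, hk, ← a, mul_pow, mul_comm 3 k, zpow_mul]
    norm_cast
  · have n0 : PadicInt.toZMod (n : ℤ_[l]) ≠ 0 := by
      rwa [map_intCast, Ne, ZMod.intCast_zmod_eq_zero_iff_dvd]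
    have e := up_unit n0
    rw [PadicInt.coe_intCast] at e
    obtain ⟨θ, s, a, b⟩ := cube h1 g2 n0 (by rw [← e]; exact hc)
    refine ⟨(θ : ℚ_[l]), by exact_mod_cast congrArg (fun z : ℤ_[l] => (z : ℚ_[l])) a, s, ?_⟩
    have := small (z := θ - (s : ℤ_[l])) (by rw [map_sub, b, map_intCast, sub_self])
    push_cast at this
    exact this
  · obtain ⟨x, hx⟩ := ZMod.intCast_surjective (g * w ^ 2 - w)
    obtain ⟨y, hy⟩ := ZMod.intCast_surjective (1 - g)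
    have w0 : w ^ 2 - w ≠ 0 := fun e =>
      three_ne h1 (by linear_combination (3 - 2 * w) * g2 + (2 * w + 1) * e)
    have a : PadicInt.toZMod (x + y * ω : ℤ_[l]) = g * (w ^ 2 - w) := by
      simp only [map_add, map_mul, map_intCast, o2, hx, hy]
      ring
    have b : PadicInt.toZMod (x + y * ω ^ 2 : ℤ_[l]) = w ^ 2 - w := by
      simp only [map_add, map_mul, map_pow, map_intCast, o2, hx, hy]
      ring
    have a0 := a ▸ mul_ne_zero g0 w0
    have b0 := b ▸ w0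
    refine ⟨x, y, fun h => mul_ne_zero (mul_ne_zero g0 w0) w0 ?_, fun h => g1 ?_⟩
    · rw [← ZMod.intCast_zmod_eq_zero_iff_dvd] at h
      push_cast at h
      rw [hx, hy] at h
      linear_combination h + ((g * w ^ 2 - w) * (1 - g) + (1 - g) ^ 2 * (w - 1)) * g2
    · have c := cm _ _ (div_ne_zero (unit a0).1 (unit b0).1) (unit b0).1
      rw [div_mul_cancel₀ _ (unit b0).1, up_unit a0, up_unit b0, a, b, ind_mul h1 g2 g0 w0,
        add_left_inj] at c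
      push_cast at c
      have e : ind w g = 0 := c.trans h
      simpa [e] using ind_spec h1 g2 g0
  · have := small (z := ω - (r : ℤ_[l])) (by rw [map_sub, o2, map_intCast, hw, sub_self])
    push_cast at this
    exact this

end Pool.Agent.Lib.MP_65b7ad_nt.DS
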