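import Pool.Agent.Lib.MP_65b7ad_nt.DS.St

/-! The local data at the primes that are `2` modulo `3`. -/

namespace Pool.Agent.Lib.MP_65b7ad_nt.DS

namespace Loc2

section cube

variable {K : Type} [Field K] {W : K}

lemma W3 (hW : W ^ 2 + W + 1 = 0) : W ^ 3 = 1 := by
  linear_combination (W - 1) * hW

lemma W_add (hW : W ^ 2 + W + 1 = 0) (i j : ZMod 3) : W ^ (i + j).val = W ^ i.val * W ^ j.val := by
  rw [← pow_add, ZMod.val_add, ← pow_eq_pow_mod _ (W3 hW)]

lemma ex_idx (hW : W ^ 2 + W + 1 = 0) (y : K) (hy : y ^ 3 = 1) :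
    ∃ j : ZMod 3, y * W ^ j.val = 1 := by
  have h : (y - 1) * (y - W) * (y - W ^ 2) = 0 := by
    linear_combination hy + (-y ^ 2 + y * W - (W - 1)) * hW
  rcases mul_eq_zero.1 h with h | h
  · rcases mul_eq_zero.1 h with h | h
    · exact ⟨0, by rw [ZMod.val_zero, pow_zero, mul_one]; exact sub_eq_zero.1 h⟩
    · refine ⟨2, ?_⟩
      rw [sub_eq_zero.1 h, show (2 : ZMod 3).val = 2 from rfl]
      linear_combination W3 hW
  · refine ⟨1, ?_⟩
    rw [sub_eq_zero.1 h, show (1 : ZMod 3).val = 1 from rfl]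
    linear_combination W3 hW

lemma idx_zero (hW : W ^ 2 + W + 1 = 0) (h3 : (3 : K) ≠ 0) (j : ZMod 3) (h : W ^ j.val = 1) :
    j = 0 := by
  have h1 : W ≠ 1 := by
    rintro rfl
    exact h3 (by linear_combination hW)
  have hj : ∀ j : ZMod 3, j = 0 ∨ j = 1 ∨ j = 2 := by decide
  rcases hj j with rfl | rfl | rfl
  · rfl
  · rw [show (1 : ZMod 3).val = 1 from rfl, pow_one] at h
    exact absurd h h1
  · rw [show (2 : ZMod 3).val = 2 from rfl] at h
    exact absurd (by linear_combination W3 hW - W * h) h1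

lemma idx_uniq (hW : W ^ 2 + W + 1 = 0) (h3 : (3 : K) ≠ 0) {y : K} {i j : ZMod 3}
    (hi : y * W ^ i.val = 1) (hj : y * W ^ j.val = 1) : i = j := by
  have h : W ^ (i - j).val = 1 := by
    have h1 := W_add hW (i - j) j
    rw [sub_add_cancel] at h1
    linear_combination hi - y * h1 - W ^ (i - j).val * hj
  exact sub_eq_zero.1 (idx_zero hW h3 _ h)

end cube

/-- The construction from a valuation ring with its residue field. -/
theorem core (l : ℕ) (hl : l.Prime) (h2 : l % 3 = 2) {F K O : Type} [Field F] [CharZero F]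
    [Field K] [CommRing O] [CharP K l] (ι : O →+* F) (ρ : O →+* K) (hι : Function.Injective ι)
    (hker : ∀ u, ρ u = 0 → (l : O) ∣ u)
    (hdec : ∀ x : F, x ≠ 0 → ∃ (k : ℤ) (u : O), ρ u ≠ 0 ∧ x = (l : F) ^ k * ι u)
    (w : O) (hw : w ^ 2 + w + 1 = 0) (hcard : Nat.card K = l ^ 2)
    (hgen : ∀ y : K, ∃ a b : ℤ, y = a + b * ρ w)
    (hroot : ∀ n : ℤ, ¬(l : ℤ) ∣ n → ∃ θ : O, θ ^ 3 = n ∧ ∃ r : ℤ, ρ (θ - r) = 0) :
    ∃ P : Loc, P.Ok l := by
  have l0 : (l : F) ≠ 0 := Nat.cast_ne_zero.2 hl.ne_zero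
  have lK : (l : K) = 0 := CharP.cast_eq_zero K l
  have hW : ρ w ^ 2 + ρ w + 1 = 0 := by
    have := congrArg ρ hw
    simpa using this
  have hK3 : (3 : K) ≠ 0 := by
    intro h
    have h1 : l ∣ 3 := (CharP.cast_eq_zero_iff K l 3).1 (by exact_mod_cast h)
    have := (Nat.prime_dvd_prime_iff_eq hl Nat.prime_three).1 h1
    omega
  have : Finite K := Nat.finite_of_card_ne_zero (by rw [hcard]; exact pow_ne_zero _ hl.ne_zero)
  obtain ⟨e, he⟩ : ∃ e, l ^ 2 - 1 = 3 * e := by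
    obtain ⟨m, rfl⟩ : ∃ m, l = 3 * m + 2 := ⟨l / 3, by omega⟩
    refine ⟨3 * m ^ 2 + 4 * m + 1, ?_⟩
    have : (3 * m + 2) ^ 2 = 3 * (3 * m ^ 2 + 4 * m + 1) + 1 := by ring
    omega
  have he' : (l ^ 2 - 1) / 3 = e := by omega
  have hpow : ∀ y : K, y ≠ 0 → (y ^ e) ^ 3 = 1 := fun y hy => by
    let := Fintype.ofFinite K
    have := FiniteField.pow_card_sub_one_eq_one y hy
    rwa [← Nat.card_eq_fintype_card, hcard, he, mul_comm, pow_mul] at this
  have shift : ∀ (k k' : ℤ) (u : O), k ≤ k' →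
      (l : F) ^ k' * ι u = (l : F) ^ k * ι ((l : O) ^ (k' - k).toNat * u) := fun k k' u h => by
    rw [map_mul, map_pow, map_natCast, ← zpow_natCast, Int.toNat_of_nonneg (by omega), ← mul_assoc,
      ← zpow_add₀ l0, add_sub_cancel]
  have low : ∀ (k k' : ℤ) (u u' : O), ρ u ≠ 0 → (l : F) ^ k * ι u = (l : F) ^ k' * ι u' →
      k' ≤ k := fun k k' u u' hu h => by
    by_contra hk
    rw [shift k k' u' (by omega)] at h
    have h1 := hι (mul_left_cancel₀ (zpow_ne_zero k l0) h)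
    apply hu
    rw [h1, map_mul, map_pow, map_natCast, lK, zero_pow (by omega), zero_mul]
  choose! v uf hu hx using hdec
  choose! δ hδ using ex_idx hW
  have nz : ∀ u : O, ρ u ≠ 0 → ι u ≠ 0 := fun u h h' => by
    rw [hι (h'.trans (map_zero ι).symm), map_zero] at h
    exact h rfl
  have uniq : ∀ (x : F) (k : ℤ) (u : O), ρ u ≠ 0 → x = (l : F) ^ k * ι u →
      v x = k ∧ uf x = u := fun x k u h1 h => by
    have x0 : x ≠ 0 := h ▸ mul_ne_zero (zpow_ne_zero k l0) (nz u h1)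
    have h3 := hx x x0
    have h4 : v x = k := le_antisymm (low _ _ _ _ h1 (h.symm.trans h3))
      (low _ _ _ _ (hu x x0) (h3.symm.trans h))
    refine ⟨h4, ?_⟩
    rw [h4] at h3
    exact hι (mul_left_cancel₀ (zpow_ne_zero k l0) (h3.symm.trans h))
  have vge : ∀ (x : F) (k : ℤ) (u : O), x ≠ 0 → x = (l : F) ^ k * ι u → k ≤ v x :=
    fun x k u x0 h => low _ _ _ _ (hu x x0) ((hx x x0).symm.trans h)
  have smv : ∀ u : O, ρ u = 0 → ι u = 0 ∨ 0 < v (ι u) := fun u h => by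
    by_cases h0 : ι u = 0
    · exact Or.inl h0
    obtain ⟨u', rfl⟩ := hker u h
    exact Or.inr (vge _ 1 u' h0 (by rw [map_mul, map_natCast, zpow_one]))
  have dmul : ∀ x y : F, x ≠ 0 → y ≠ 0 → v (x * y) = v x + v y ∧ uf (x * y) = uf x * uf y :=
    fun x y x0 y0 => uniq _ _ _ (by rw [map_mul]; exact mul_ne_zero (hu x x0) (hu y y0)) (by
      rw [zpow_add₀ l0, map_mul, mul_mul_mul_comm, ← hx x x0, ← hx y y0])
  have cmul : ∀ x y : F, x ≠ 0 → y ≠ 0 →
      δ (ρ (uf (x * y)) ^ e) = δ (ρ (uf x) ^ e) + δ (ρ (uf y) ^ e) := fun x y x0 y0 => by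
    refine idx_uniq hW hK3 (hδ _ (hpow _ (hu _ (mul_ne_zero x0 y0)))) ?_
    rw [(dmul x y x0 y0).2, map_mul, mul_pow, W_add hW, mul_mul_mul_comm,
      hδ _ (hpow _ (hu x x0)), hδ _ (hpow _ (hu y y0)), mul_one]
  have dint : ∀ n : ℤ, n ≠ 0 → ∃ m : ℤ, ¬(l : ℤ) ∣ m ∧ n = (l : ℤ) ^ padicValInt l n * m :=
    fun n hn => by
      have := Fact.mk hl
      obtain ⟨m, hm⟩ := padicValInt_dvd (p := l) n
      refine ⟨m, fun ⟨m', h⟩ => ?_, hm⟩
      have h1 : (l : ℤ) ^ (padicValInt l n + 1) ∣ n := ⟨m', by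
        rw [pow_succ, mul_assoc, ← h, ← hm]⟩
      have := (padicValInt_dvd_iff _ _).1 h1
      omega
  have rint : ∀ m : ℤ, ¬(l : ℤ) ∣ m → ρ (m : O) ≠ 0 := fun m hm h => by
    rw [map_intCast] at h
    exact hm ((CharP.intCast_eq_zero_iff K l m).1 h)
  have vint : ∀ n : ℤ, n ≠ 0 → v (n : F) = padicValInt l n := fun n hn => by
    obtain ⟨m, hm, h⟩ := dint n hn
    refine (uniq _ _ (m : O) (rint m hm) ?_).1
    rw [map_intCast, zpow_natCast]
    exact_mod_cast h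
  refine ⟨⟨F, inferInstance, inferInstance, ι w, v, fun x => δ (ρ (uf x) ^ e)⟩, ?_, ?_, ?_, vint,
    cmul, ?_, ?_, ?_, ?_, ?_, fun h => by omega⟩
  · have := congrArg ι hw
    simpa using this
  · exact fun x y x0 y0 => (dmul x y x0 y0).1
  · intro x y x0 y0 h0
    refine vge (x + y) (min (v x) (v y)) ((l : O) ^ (v x - min (v x) (v y)).toNat * uf x +
      (l : O) ^ (v y - min (v x) (v y)).toNat * uf y) h0 ?_
    rw [map_add, mul_add, ← shift _ _ _ (min_le_left _ _), ← shift _ _ _ (min_le_right _ _),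
      ← hx x x0, ← hx y y0]
  · have h1 : uf (l : F) = 1 :=
      (uniq _ 1 1 (by rw [map_one]; exact one_ne_zero) (by rw [map_one, zpow_one, mul_one])).2
    change δ (ρ (uf (l : F)) ^ e) = 0
    rw [h1, map_one, one_pow]
    have := hδ 1 (one_pow 3)
    rw [one_mul] at this
    exact idx_zero hW hK3 _ this
  · intro x x0 hv
    have h1 := hx x x0
    have hv' : v x = 0 := hv
    rw [hv', zpow_zero, one_mul] at h1
    have h3 := smv (uf x ^ e * w ^ (δ (ρ (uf x) ^ e)).val - 1) (by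
      rw [map_sub, map_mul, map_pow, map_pow, map_one, hδ _ (hpow _ (hu x x0)), sub_self])
    rw [map_sub, map_mul, map_pow, map_pow, map_one, ← h1] at h3
    rw [he']
    exact h3
  · intro n hn hv _
    obtain ⟨m, hm, h⟩ := dint n hn
    obtain ⟨θ, hθ, -⟩ := hroot m hm
    have hv' : (3 : ℤ) ∣ v (n : F) := hv
    rw [vint n hn] at hv'
    obtain ⟨k, hk⟩ : 3 ∣ padicValInt l n := by exact_mod_cast hv'
    refine ⟨(l : F) ^ k * ι θ, ?_⟩
    have h1 : (n : F) = (l : F) ^ padicValInt l n * m := by exact_mod_cast h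
    change ((l : F) ^ k * ι θ) ^ 3 = (n : F)
    rw [h1, hk, mul_pow, ← map_pow, hθ, map_intCast, ← pow_mul, mul_comm k]
  · intro n hn _
    obtain ⟨θ, hθ, r, hr⟩ := hroot n hn
    refine ⟨ι θ, ?_, r, ?_⟩
    · change ι θ ^ 3 = (n : F)
      rw [← map_pow, hθ, map_intCast]
    · have := smv _ hr
      rw [map_sub, map_intCast] at this
      exact this
  · have := Fact.mk hl
    obtain ⟨g, hg⟩ := IsCyclic.exists_ofOrder_eq_natCard (α := Kˣ)
    rw [Nat.card_units, hcard, he] at hg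
    obtain ⟨a, b, hab⟩ := hgen g
    have hfr : (g : K) ^ l = a + b * ρ w ^ 2 := by
      have i1 : ∀ z : ℤ, (z : K) ^ l = z := fun z => by
        rw [← frobenius_def, map_intCast]
      rw [hab, add_pow_char, mul_pow, i1, i1, pow_eq_pow_mod l (W3 hW), h2]
    have r1 : ρ ((a : O) + b * w) = g := by
      rw [map_add, map_mul, map_intCast, map_intCast, hab]
    have r2 : ρ ((a : O) + b * w ^ 2) = (g : K) ^ l := by
      rw [map_add, map_mul, map_intCast, map_intCast, map_pow, hfr]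
    have n1 : ρ ((a : O) + b * w) ≠ 0 := r1 ▸ g.ne_zero
    have n2 : ρ ((a : O) + b * w ^ 2) ≠ 0 := r2 ▸ pow_ne_zero l g.ne_zero
    refine ⟨a, b, fun h => ?_, fun h => ?_⟩
    · have h1 := (CharP.intCast_eq_zero_iff K l _).2 h
      refine mul_ne_zero g.ne_zero (pow_ne_zero l g.ne_zero) ?_
      rw [hfr, hab]
      push_cast at h1
      linear_combination h1 + ((a : K) * b + b ^ 2 * (ρ w - 1)) * hW
    · have j1 : ι ((a : O) + b * w) = (a : F) + b * ι w := by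
        rw [map_add, map_mul, map_intCast, map_intCast]
      have j2 : ι ((a : O) + b * w ^ 2) = (a : F) + b * ι w ^ 2 := by
        rw [map_add, map_mul, map_intCast, map_intCast, map_pow]
      have h' : δ (ρ (uf (((a : F) + b * ι w) / ((a : F) + b * ι w ^ 2))) ^ e) = 0 := h
      rw [← j1, ← j2] at h'
      have c1 := cmul _ _ (div_ne_zero (nz _ n1) (nz _ n2)) (nz _ n2)
      rw [div_mul_cancel₀ _ (nz _ n2), h', zero_add,
        (uniq _ 0 _ n1 (by rw [zpow_zero, one_mul])).2,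
        (uniq _ 0 _ n2 (by rw [zpow_zero, one_mul])).2, r1, r2] at c1
      have d1 := hδ _ (hpow _ g.ne_zero)
      have d2 := hδ _ (hpow _ (pow_ne_zero l g.ne_zero))
      rw [← c1, ← pow_mul, mul_comm l, pow_mul, pow_eq_pow_mod l (hpow _ g.ne_zero), h2] at d2
      have d3 : (g : K) ^ e = 1 := by
        linear_combination d2 - (g : K) ^ e * d1
      have d4 : g ^ e = 1 := Units.ext (by rw [Units.val_pow_eq_pow_val, d3, Units.val_one])
      have d5 := orderOf_dvd_of_pow_eq_one d4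
      rw [hg] at d5
      have e0 : 0 < e := by
        have : 2 ^ 2 ≤ l ^ 2 := Nat.pow_le_pow_left hl.two_le 2
        omega
      have := Nat.le_of_dvd e0 d5
      omega

/-- The map on quadratic algebras induced by a ring homomorphism. -/
def qmap {R S : Type} [CommRing R] [CommRing S] (f : R →+* S) :
    QuadraticAlgebra R (-1) (-1) →+* QuadraticAlgebra S (-1) (-1) where
  toFun z := ⟨f z.re, f z.im⟩
  map_one' := by ext <;> simp [QuadraticAlgebra.re_one, QuadraticAlgebra.im_one]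
  map_mul' x y := by ext <;> simp
  map_zero' := by ext <;> simp
  map_add' x y := by ext <;> simp

lemma cube_surj (l : ℕ) [Fact l.Prime] (h2 : l % 3 = 2) (y : ZMod l) : ∃ r : ZMod l, r ^ 3 = y := by
  obtain ⟨m, hm⟩ : ∃ m, l = 3 * m + 2 := ⟨l / 3, by omega⟩
  by_cases hy : y = 0
  · exact ⟨0, by rw [hy]; norm_num⟩
  refine ⟨y ^ (2 * m + 1), ?_⟩
  have h1 := ZMod.pow_card_sub_one_eq_one hy
  have h3 : (2 * m + 1) * 3 = (l - 1) * 2 + 1 := by omega
  rw [← pow_mul, h3, pow_succ, pow_mul, h1, one_pow, one_mul]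

lemma three_ne (l : ℕ) [hl : Fact l.Prime] (h2 : l % 3 = 2) : (3 : ZMod l) ≠ 0 := by
  intro h
  have h1 : l ∣ 3 := (CharP.cast_eq_zero_iff (ZMod l) l 3).1 (by exact_mod_cast h)
  have := (Nat.prime_dvd_prime_iff_eq hl.out Nat.prime_three).1 h1
  omega

lemma noroot_mod (l : ℕ) [Fact l.Prime] (h2 : l % 3 = 2) (r : ZMod l) : r ^ 2 ≠ -1 + -1 * r := by
  intro h
  have hW : r ^ 2 + r + 1 = 0 := by linear_combination h
  have h1 := ZMod.pow_card r
  rw [pow_eq_pow_mod l (W3 hW), h2] at h1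
  apply three_ne l h2
  linear_combination (3 - 2 * r) * hW + (2 * r + 1) * h1

lemma noroot_padic (l : ℕ) [Fact l.Prime] (h2 : l % 3 = 2) (r : ℚ_[l]) :
    r ^ 2 ≠ -1 + -1 * r := by
  intro h
  have hW : r ^ 2 + r + 1 = 0 := by linear_combination h
  have h1 : ‖r‖ ^ 3 = 1 := by rw [← norm_pow, W3 hW, norm_one]
  have h3 : ‖r‖ ≤ 1 := ((pow_eq_one_iff_of_nonneg (norm_nonneg r) (by norm_num)).1 h1).le
  obtain ⟨z, rfl⟩ : ∃ z : ℤ_[l], (z : ℚ_[l]) = r := ⟨⟨r, h3⟩, rfl⟩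
  have h4 : z ^ 2 = -1 + -1 * z := by
    apply PadicInt.ext
    simpa using h
  have h5 := congrArg (PadicInt.toZMod (p := l)) h4
  rw [map_pow, map_add, map_mul, map_neg, map_one] at h5
  exact noroot_mod l h2 _ h5

lemma toZMod_eq_zero (l : ℕ) [Fact l.Prime] (z : ℤ_[l]) :
    PadicInt.toZMod z = 0 ↔ (l : ℤ_[l]) ∣ z := by
  rw [← RingHom.mem_ker, PadicInt.ker_toZMod, PadicInt.maximalIdeal_eq_span_p,
    Ideal.mem_span_singleton]

lemma root_padic (l : ℕ) [Fact l.Prime] (h2 : l % 3 = 2) (n : ℤ) (hn : ¬(l : ℤ) ∣ n) :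
    ∃ θ : ℤ_[l], θ ^ 3 = n := by
  obtain ⟨r, hr⟩ := cube_surj l h2 (n : ZMod l)
  have n0 : (n : ZMod l) ≠ 0 := fun h => hn ((ZMod.intCast_zmod_eq_zero_iff_dvd n l).1 h)
  have r0 : r ≠ 0 := by
    rintro rfl
    exact n0 (by rw [← hr]; norm_num)
  have ha : PadicInt.toZMod ((r.val : ℕ) : ℤ_[l]) = r := by
    rw [map_natCast, ZMod.natCast_zmod_val]
  set a : ℤ_[l] := ((r.val : ℕ) : ℤ_[l]) with ha'
  have h1 : ‖a ^ 3 - n‖ < 1 := by
    rw [PadicInt.norm_lt_one_iff_dvd, ← toZMod_eq_zero, map_sub, map_pow, ha, hr, map_intCast,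
      sub_self]
  have h3 : ‖3 * a ^ 2‖ = 1 := by
    refine le_antisymm (PadicInt.norm_le_one _) (not_lt.1 fun h => ?_)
    rw [PadicInt.norm_lt_one_iff_dvd, ← toZMod_eq_zero, map_mul, map_pow, ha, map_ofNat] at h
    exact mul_ne_zero (three_ne l h2) (pow_ne_zero 2 r0) h
  obtain ⟨z, hz, -⟩ := hensels_lemma (p := l)
    (F := (Polynomial.X ^ 3 - Polynomial.C (n : ℤ_[l]) : Polynomial ℤ_[l])) (a := a) (by
      have e1 : Polynomial.aeval a (Polynomial.derivative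
          (Polynomial.X ^ 3 - Polynomial.C (n : ℤ_[l]) : Polynomial ℤ_[l])) = 3 * a ^ 2 := by
        simp only [Polynomial.derivative_sub, Polynomial.derivative_X_pow, Polynomial.derivative_C,
          sub_zero, map_mul, map_pow, Polynomial.aeval_X, Polynomial.aeval_C]
        norm_num
      have e2 : Polynomial.aeval a
          (Polynomial.X ^ 3 - Polynomial.C (n : ℤ_[l]) : Polynomial ℤ_[l]) = a ^ 3 - n := by
        simp
      rw [e1, e2, h3, one_pow]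
      exact h1)
  refine ⟨z, ?_⟩
  simpa [sub_eq_zero] using hz

lemma dec_pair (l : ℕ) [hl : Fact l.Prime] (a b : ℚ_[l]) (ha : a ≠ 0) (h : ‖b‖ ≤ ‖a‖) :
    ∃ (k : ℤ) (a' b' : ℤ_[l]), PadicInt.toZMod a' ≠ 0 ∧ a = (l : ℚ_[l]) ^ k * a' ∧
      b = (l : ℚ_[l]) ^ k * b' := by
  have l0 : (l : ℚ_[l]) ≠ 0 := Nat.cast_ne_zero.2 hl.out.ne_zero
  have t0 : (l : ℚ_[l]) ^ a.valuation ≠ 0 := zpow_ne_zero _ l0
  have h1 : ‖(l : ℚ_[l]) ^ a.valuation‖ = ‖a‖ := by
    rw [Padic.norm_p_zpow, Padic.norm_eq_zpow_neg_valuation ha]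
  have a0 : 0 < ‖a‖ := norm_pos_iff.2 ha
  have h2 : ‖a / (l : ℚ_[l]) ^ a.valuation‖ = 1 := by rw [norm_div, h1, div_self a0.ne']
  have h3 : ‖b / (l : ℚ_[l]) ^ a.valuation‖ ≤ 1 := by rwa [norm_div, h1, div_le_one a0]
  obtain ⟨a', ha'⟩ : ∃ z : ℤ_[l], (z : ℚ_[l]) = a / (l : ℚ_[l]) ^ a.valuation := ⟨⟨_, h2.le⟩, rfl⟩
  obtain ⟨b', hb'⟩ : ∃ z : ℤ_[l], (z : ℚ_[l]) = b / (l : ℚ_[l]) ^ a.valuation := ⟨⟨_, h3⟩, rfl⟩
  refine ⟨a.valuation, a', b', fun h0 => ?_, ?_, ?_⟩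
  · rw [toZMod_eq_zero, ← PadicInt.norm_lt_one_iff_dvd, PadicInt.norm_def, ha', h2] at h0
    exact lt_irrefl _ h0
  · rw [ha', mul_div_cancel₀ a t0]
  · rw [hb', mul_div_cancel₀ b t0]

end Loc2

open Loc2 in
/-- Local data exist at the primes that are `2` modulo `3`. -/
theorem loc2 : Loc2St := by
  intro l hl h2
  have := Fact.mk hl
  have := Fact.mk (noroot_padic l h2)
  have := Fact.mk (noroot_mod l h2)
  have : CharP (QuadraticAlgebra (ZMod l) (-1) (-1)) l :=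
    charP_of_injective_algebraMap (R := ZMod l) QuadraticAlgebra.algebraMap_injective l
  refine core l hl h2 (F := QuadraticAlgebra ℚ_[l] (-1) (-1))
    (K := QuadraticAlgebra (ZMod l) (-1) (-1)) (O := QuadraticAlgebra ℤ_[l] (-1) (-1))
    (qmap PadicInt.Coe.ringHom) (qmap PadicInt.toZMod) ?_ ?_ ?_ ⟨0, 1⟩ ?_ ?_ ?_ ?_
  · intro x y h
    ext
    · exact Subtype.ext (congrArg QuadraticAlgebra.re h)
    · exact Subtype.ext (congrArg QuadraticAlgebra.im h)
  · intro u h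
    obtain ⟨a, ha⟩ := (toZMod_eq_zero l u.re).1 (congrArg QuadraticAlgebra.re h)
    obtain ⟨b, hb⟩ := (toZMod_eq_zero l u.im).1 (congrArg QuadraticAlgebra.im h)
    refine ⟨⟨a, b⟩, ?_⟩
    ext <;> simp [ha, hb]
  · intro x x0
    have key : ∀ (k : ℤ) (a b : ℤ_[l]), x.re = (l : ℚ_[l]) ^ k * a → x.im = (l : ℚ_[l]) ^ k * b →
        x = (l : QuadraticAlgebra ℚ_[l] (-1) (-1)) ^ k * qmap PadicInt.Coe.ringHom ⟨a, b⟩ := by
      intro k a b h1 h3
      have : (l : QuadraticAlgebra ℚ_[l] (-1) (-1)) ^ k =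
          algebraMap ℚ_[l] _ ((l : ℚ_[l]) ^ k) := by rw [map_zpow₀, map_natCast]
      have e : ∀ z : ℤ_[l], PadicInt.Coe.ringHom z = (z : ℚ_[l]) := fun _ => rfl
      rw [this]
      ext <;> simp [qmap, h1, h3, e, -map_zpow₀]
    rcases le_total ‖x.im‖ ‖x.re‖ with h | h
    · have h0 : x.re ≠ 0 := fun h0 => x0 (by
        rw [h0, norm_zero, norm_le_zero_iff] at h
        ext <;> simp [h0, h])
      obtain ⟨k, a, b, h1, h3, h4⟩ := dec_pair l _ _ h0 h
      exact ⟨k, ⟨a, b⟩, fun h => h1 (congrArg QuadraticAlgebra.re h), key k a b h3 h4⟩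
    · have h0 : x.im ≠ 0 := fun h0 => x0 (by
        rw [h0, norm_zero, norm_le_zero_iff] at h
        ext <;> simp [h0, h])
      obtain ⟨k, b, a, h1, h3, h4⟩ := dec_pair l _ _ h0 h
      exact ⟨k, ⟨a, b⟩, fun h => h1 (congrArg QuadraticAlgebra.im h), key k a b h4 h3⟩
  · ext <;> simp [sq, QuadraticAlgebra.re_one, QuadraticAlgebra.im_one]
  · rw [Nat.card_congr (QuadraticAlgebra.equivProd _ _), Nat.card_prod, Nat.card_zmod, sq]
  · intro y
    obtain ⟨a, ha⟩ := ZMod.intCast_surjective y.re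
    obtain ⟨b, hb⟩ := ZMod.intCast_surjective y.im
    refine ⟨a, b, ?_⟩
    ext <;> simp [qmap, ha, hb]
  · intro n hn
    obtain ⟨θ, hθ⟩ := root_padic l h2 n hn
    obtain ⟨r, hr⟩ := ZMod.intCast_surjective (PadicInt.toZMod θ)
    refine ⟨algebraMap ℤ_[l] _ θ, by rw [← map_pow, hθ, map_intCast], r, ?_⟩
    ext <;> simp [qmap, hr]

end Pool.Agent.Lib.MP_65b7ad_nt.DS
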