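import Pool.Agent.Lib.MP_65b7ad_nt.DS.Bas

/-! The norm lemma and the relation of Steinberg. -/

namespace Pool.Agent.Lib.MP_65b7ad_nt.DS

namespace NL

variable {P : Loc} {l : ℕ}

/-- One of three elements has the least valuation. -/
theorem least (x y z : P.F) (h0 : ¬(x = 0 ∧ y = 0 ∧ z = 0)) :
    ∃ t, t ≠ 0 ∧ (t = x ∨ t = y ∨ t = z) ∧ (x = 0 ∨ P.v t ≤ P.v x) ∧ (y = 0 ∨ P.v t ≤ P.v y) ∧
      (z = 0 ∨ P.v t ≤ P.v z) := by
  classical
  obtain ⟨t, ht, hm⟩ := (({x, y, z} : Finset P.F).erase 0).exists_min_image P.v (by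
    by_contra hc
    rw [Finset.not_nonempty_iff_eq_empty, Finset.erase_eq_empty_iff] at hc
    rcases hc with e | e
    · simp at e
    · have : ∀ u ∈ ({x, y, z} : Finset P.F), u = 0 := fun u hu => by simpa [e] using hu
      exact h0 ⟨this x (by simp), this y (by simp), this z (by simp)⟩)
  have k : ∀ u ∈ ({x, y, z} : Finset P.F), u = 0 ∨ P.v t ≤ P.v u := fun u hu =>
    or_iff_not_imp_left.2 fun e => hm u (Finset.mem_erase.2 ⟨e, hu⟩)
  exact ⟨t, (Finset.mem_erase.1 ht).1, by simpa using (Finset.mem_erase.1 ht).2, k x (by simp),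
    k y (by simp), k z (by simp)⟩

theorem it_div (h : P.Ok l) {x t : P.F} (ht : t ≠ 0) (hx : x = 0 ∨ P.v t ≤ P.v x) :
    P.it (x / t) := by
  by_cases e : x = 0
  · exact Or.inl (by simp [e])
  · have := hx.resolve_left e
    exact Or.inr (by rw [h.v_div e ht]; omega)

theorem sm_div (h : P.Ok l) {x t : P.F} (ht : t ≠ 0) (hx : x ≠ 0 → P.v t < P.v x) :
    P.sm (x / t) := by
  by_cases e : x = 0
  · exact Or.inl (by simp [e])
  · have := hx e
    exact Or.inr (by rw [h.v_div e ht]; omega)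

theorem sm_root (h : P.Ok l) {θ : P.F} (hθ : P.sm (θ ^ 3)) : P.sm θ := by
  by_cases h0 : θ = 0
  · exact Or.inl h0
  have := hθ.resolve_left (pow_ne_zero _ h0)
  rw [h.v_pow h0] at this
  exact Or.inr (by omega)

theorem two (h : P.Ok l) (hl : l.Prime) (h3 : l ≠ 3) {u X Y : P.F} (u0 : u ≠ 0) (hu : P.v u = 0)
    (hc : P.c u ≠ 0) (hY : P.it Y) (e : P.sm (X ^ 3 + u * Y ^ 3)) : P.sm X ∧ P.sm Y := by
  have h1 : P.sm Y := by
    by_contra hs
    obtain ⟨y0, vy⟩ := Loc.Ok.unit_of hY hs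
    have y3 : Y ^ 3 ≠ 0 := pow_ne_zero _ y0
    obtain ⟨x0, -, cx⟩ := h.close_unit hl h3 (x := X ^ 3) (y := -(u * Y ^ 3))
      (neg_ne_zero.2 (mul_ne_zero u0 y3))
      (by rw [h.v_neg, h.v_mul _ _ u0 y3, h.v_pow y0, hu, vy]; simp) (by rwa [sub_neg_eq_add])
    rw [h.c_cube (fun e => x0 (by simp [e])), h.c_neg, h.c_mul _ _ u0 y3, h.c_cube y0,
      add_zero] at cx
    exact hc cx.symm
  refine ⟨sm_root h ?_, h1⟩
  have := h.sm_sub e (h.mul_sm (h.it_mul (Or.inr hu.ge) (h.it_pow hY 2)) h1)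
  rwa [show X ^ 3 + u * Y ^ 3 - u * Y ^ 2 * Y = X ^ 3 by ring] at this

/-- Anisotropy modulo the maximal ideal. -/
theorem aniso (h : P.Ok l) (hl : l.Prime) (h3 : l ≠ 3) {u x y z : P.F} (u0 : u ≠ 0)
    (hu : P.v u = 0) (hc : P.c u ≠ 0) (hx : P.it x) (hy : P.it y) (hz : P.it z)
    (e : P.sm (Nf u x y z)) : P.sm x ∧ P.sm y ∧ P.sm z := by
  have iu : P.it u := Or.inr hu.ge
  have sz : P.sm z := by
    obtain ⟨h1, h2⟩ := two h hl h3 u0 hu hc (X := -y * x + u * z ^ 2) (Y := x * z - y ^ 2)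
      (h.it_sub (h.it_mul hx hz) (h.it_pow hy 2)) (by
        have := h.mul_sm (h.it_sub (h.it_mul iu (h.it_pow hz 3)) (h.it_pow hy 3)) e
        convert this using 1
        rw [Nf]
        ring)
    have := (two h hl h3 u0 hu hc (X := -y) (Y := z) hz (by
      convert h.sm_add (h.mul_sm hz h1) (h.mul_sm hy h2) using 1
      ring)).2
    exact this
  obtain ⟨h1, h2⟩ := two h hl h3 u0 hu hc (X := x) hy (by
    have := h.sm_sub e (h.mul_sm (h.it_sub (h.it_mul (h.it_pow iu 2) (h.it_pow hz 2))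
      (h.it_mul (h.it_mul (h.it_mul (h.it_nat 3) iu) hx) hy)) sz)
    convert this using 1
    rw [Nf]
    push_cast
    ring)
  exact ⟨h1, h2, sz⟩

theorem unit (h : P.Ok l) (hl : l.Prime) (h3 : l ≠ 3) {u x y z : P.F} (u0 : u ≠ 0)
    (hu : P.v u = 0) (hN : Nf u x y z ≠ 0) : P.T u (Nf u x y z) = 0 := by
  by_cases hc : P.c u = 0
  · simp [Loc.T, hu, hc]
  obtain ⟨t, t0, ht, hx, hy, hz⟩ := least x y z (by
    rintro ⟨rfl, rfl, rfl⟩
    simp [Nf] at hN)
  have ix := it_div h t0 hx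
  have iy := it_div h t0 hy
  have iz := it_div h t0 hz
  have iu : P.it u := Or.inr hu.ge
  obtain ⟨n0, vn⟩ := Loc.Ok.unit_of (x := Nf u (x / t) (y / t) (z / t)) (by
    have := h.it_sub (h.it_add (h.it_add (h.it_pow ix 3) (h.it_mul iu (h.it_pow iy 3)))
      (h.it_mul (h.it_pow iu 2) (h.it_pow iz 3)))
      (h.it_mul (h.it_mul (h.it_mul (h.it_mul (h.it_nat 3) iu) ix) iy) iz)
    simpa only [Nf, Nat.cast_ofNat] using this) fun e => by
      obtain ⟨h1, h2, h4⟩ := aniso h hl h3 u0 hu hc ix iy iz e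
      rcases ht with rfl | rfl | rfl
      · exact h.not_sm_one (div_self t0 ▸ h1)
      · exact h.not_sm_one (div_self t0 ▸ h2)
      · exact h.not_sm_one (div_self t0 ▸ h4)
  have e : Nf u x y z = t ^ 3 * Nf u (x / t) (y / t) (z / t) := by
    simp only [Nf]
    field_simp
  rw [e, h.T_mul_right _ (pow_ne_zero _ t0) n0, h.T_cb_right _ (pow_ne_zero _ t0) ⟨t, rfl⟩,
    Loc.Ok.T_units hu vn, add_zero]

/-- A dominating term. -/
theorem dom (h : P.Ok l) (hl : l.Prime) (h3 : l ≠ 3) {t s s' D N : P.F} (α : P.F) (t0 : t ≠ 0)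
    (hs : s ≠ 0 → P.v t < P.v s) (hs' : s' ≠ 0 → P.v t < P.v s') (hD : D ^ 3 = 27 * t * s * s')
    (hN : N = t + s + s' - D) : P.T α N = P.T α t := by
  have h1 := sm_div h t0 hs
  have h2 := sm_div h t0 hs'
  have h4 : P.sm (D / t) := sm_root h (by
    convert h.mul_sm (h.it_mul (h.it_nat 27) h1.it) h2 using 1
    rw [div_pow, hD]
    push_cast
    field_simp)
  obtain ⟨-, e1, e2⟩ := h.close hl h3 (x := N) t0 (by
    convert h.sm_sub (h.sm_add h1 h2) h4 using 1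
    rw [hN]
    field_simp
    ring)
  rw [Loc.T, Loc.T, e1, e2]

end NL

open NL

theorem nl : NLSt := fun l P hl h3 h α x y z α0 hN => by
  by_cases hv : (3 : ℤ) ∣ P.v α
  · obtain ⟨k, hk⟩ := hv
    have l0 : (l : P.F) ≠ 0 := by exact_mod_cast hl.ne_zero
    obtain ⟨p, p0, hp⟩ : ∃ p : P.F, p ≠ 0 ∧ P.v p = k := by
      obtain ⟨n, rfl | rfl⟩ := k.eq_nat_or_neg
      · exact ⟨l ^ n, pow_ne_zero _ l0, by rw [h.v_pow l0, h.v_l hl, mul_one]⟩
      · exact ⟨(l ^ n)⁻¹, inv_ne_zero (pow_ne_zero _ l0), by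
          rw [h.v_inv (pow_ne_zero _ l0), h.v_pow l0, h.v_l hl, mul_one]⟩
    have p3 : p ^ 3 ≠ 0 := pow_ne_zero _ p0
    have e : Nf α x y z = Nf (α / p ^ 3) x (p * y) (p ^ 2 * z) := by
      simp only [Nf]
      field_simp
    have := unit h hl h3 (div_ne_zero α0 p3) (by rw [h.v_div α0 p3, h.v_pow p0, hp, hk]; simp)
      (e ▸ hN)
    rwa [← e, h.T_div_left α0 p3, h.T_cb_left p3 ⟨p, rfl⟩, sub_zero] at this
  · have a2 : α ^ 2 ≠ 0 := pow_ne_zero _ α0
    have c3 : ∀ {u : P.F}, u ^ 3 ≠ 0 → u ≠ 0 := fun hu e => hu (by simp [e])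
    have vA : x ^ 3 ≠ 0 → P.v (x ^ 3) = 3 * P.v x := fun e => h.v_pow (c3 e) 3
    have vB : α * y ^ 3 ≠ 0 → P.v (α * y ^ 3) = P.v α + 3 * P.v y := fun e => by
      have := right_ne_zero_of_mul e
      rw [h.v_mul _ _ α0 this, h.v_pow (c3 this)]; rfl
    have vC : α ^ 2 * z ^ 3 ≠ 0 → P.v (α ^ 2 * z ^ 3) = 2 * P.v α + 3 * P.v z := fun e => by
      have := right_ne_zero_of_mul e
      rw [h.v_mul _ _ a2 this, h.v_pow (c3 this), h.v_pow α0]; rfl
    obtain ⟨t, t0, ht, hx, hy, hz⟩ := least (x ^ 3) (α * y ^ 3) (α ^ 2 * z ^ 3) (by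
      rintro ⟨e1, e2, e3⟩
      rw [Nf, e1, e2, e3, (pow_eq_zero_iff three_ne_zero).1 e1] at hN
      simp at hN)
    rcases ht with rfl | rfl | rfl
    · rw [dom h hl h3 α t0 (s := α * y ^ 3) (s' := α ^ 2 * z ^ 3) (D := 3 * α * x * y * z)
        (fun e => by have := hy.resolve_left e; have := vA t0; have := vB e; omega)
        (fun e => by have := hz.resolve_left e; have := vA t0; have := vC e; omega)
        (by ring) (N := Nf α x y z) rfl, h.T_cb_right _ t0 ⟨x, rfl⟩]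
    · have y3 := right_ne_zero_of_mul t0
      rw [dom h hl h3 α t0 (s := x ^ 3) (s' := α ^ 2 * z ^ 3) (D := 3 * α * x * y * z)
        (fun e => by have := hx.resolve_left e; have := vB t0; have := vA e; omega)
        (fun e => by have := hz.resolve_left e; have := vB t0; have := vC e; omega)
        (by ring) (N := Nf α x y z) (by rw [Nf]; ring), h.T_mul_right _ α0 y3, Loc.T_self,
        h.T_cb_right _ y3 ⟨y, rfl⟩, add_zero]
    · have z3 := right_ne_zero_of_mul t0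
      rw [dom h hl h3 α t0 (s := x ^ 3) (s' := α * y ^ 3) (D := 3 * α * x * y * z)
        (fun e => by have := hx.resolve_left e; have := vC t0; have := vA e; omega)
        (fun e => by have := hy.resolve_left e; have := vC t0; have := vB e; omega)
        (by ring) (N := Nf α x y z) (by rw [Nf]; ring), h.T_mul_right _ a2 z3,
        h.T_pow_right _ α0, Loc.T_self, h.T_cb_right _ z3 ⟨z, rfl⟩, mul_zero, add_zero]

/-- The relation of Steinberg. -/
theorem steinberg (hn : NLSt) {l : ℕ} {P : Loc} (hl : l.Prime) (h3 : l ≠ 3) (h : P.Ok l)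
    {x y : P.F} (hx : x ≠ 0) (hy : y ≠ 0) (e : x + y = 1) : P.T x y = 0 := by
  have e' : Nf x 1 (-1) 0 = y := by rw [Nf]; linear_combination -e
  exact e' ▸ hn l P hl h3 h x 1 (-1) 0 hx (e' ▸ hy)

theorem st (hn : NLSt) : STSt := fun l P hl h3 h z₀ z₁ z₂ h0 h1 h2 e => by
  have w0 := h.om_ne
  have w2 : P.om ^ 2 ≠ 0 := pow_ne_zero _ w0
  have w3 := h.om_cube
  have h01 := mul_ne_zero h0 h1
  have vu : P.v (z₀ * z₁ * z₂) = P.v z₀ + P.v z₁ + P.v z₂ := by
    rw [h.v_mul _ _ h01 h2, h.v_mul _ _ h0 h1]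
  have a0 := mul_ne_zero w2 h0
  have a2 := mul_ne_zero w0 h2
  constructor
  · have s := steinberg hn hl h3 h (x := -(P.om * z₂ / z₁)) (y := -(P.om ^ 2 * z₀ / z₁))
      (neg_ne_zero.2 (div_ne_zero a2 h1)) (neg_ne_zero.2 (div_ne_zero a0 h1)) (by
        field_simp
        linear_combination (-P.om ^ 2) * e + (z₁ + P.om * z₂) * w3)
    simp only [Loc.T, h.v_neg, h.c_neg, h.v_div a2 h1, h.v_div a0 h1, h.c_div a2 h1,
      h.c_div a0 h1, h.v_mul _ _ w0 h2, h.v_mul _ _ w2 h0, h.c_mul _ _ w0 h2, h.c_mul _ _ w2 h0,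
      h.v_pow w0, h.c_pow w0, h.v_om] at s
    simp only [Loc.T, vu, h.v_div h1 h2, h.c_div h1 h2, h.c_mul _ _ h01 h2, h.c_mul _ _ h0 h1,
      h.v_om]
    push_cast at s ⊢
    have t3 : (3 : ZMod 3) = 0 := rfl
    linear_combination s + ((P.v z₁ : ZMod 3) * P.c z₂ - P.v z₂ * P.c z₁ + P.v z₂ * P.c P.om) * t3
  · have b1 := mul_ne_zero w0 h1
    have b2 := mul_ne_zero w2 h2
    have v1 : P.v (P.om * z₁) = P.v z₁ := by rw [h.v_mul _ _ w0 h1, h.v_om, zero_add]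
    have v2 : P.v (P.om ^ 2 * z₂) = P.v z₂ := by
      rw [h.v_mul _ _ w2 h2, h.v_pow w0, h.v_om, mul_zero, zero_add]
    have k : ∀ a b c : P.F, a ≠ 0 → b ≠ 0 → c ≠ 0 → a + b + c = 0 →
        min (P.v a) (P.v b) ≤ P.v c := fun a b c ha hb hc e => by
      have e' : a + b = -c := by linear_combination e
      have := h.v_add a b ha hb (e' ▸ neg_ne_zero.2 hc)
      rwa [e', h.v_neg] at this
    have k1 := k _ _ _ h0 b1 b2 e
    have k2 := k _ _ _ b1 b2 h0 (by linear_combination e)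
    have k3 := k _ _ _ b2 h0 b1 (by linear_combination e)
    rw [vu, h.v_div h1 h2]
    omega

end Pool.Agent.Lib.MP_65b7ad_nt.DS
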