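import Pool.Agent.Lib.MP_65b7ad_nt.DS.St

/-! The norm of a nonzero element of the ring of rank nine does not vanish. -/

namespace Pool.Agent.Lib.MP_65b7ad_nt.DS

namespace NZ

lemma ncube {a : ℤ} (h : ∃ l : ℕ, l.Prime ∧ ¬3 ∣ padicValInt l a) {X Y : ℤ}
    (e : X ^ 3 + a * Y ^ 3 = 0) : Y = 0 := by
  obtain ⟨l, hl, h⟩ := h
  have := Fact.mk hl
  by_contra hY
  have ha : a ≠ 0 := by
    rintro rfl
    simp at h
  have e1 : X ^ 3 = a * (-Y) ^ 3 := by linear_combination e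
  have e2 := congrArg (fun n : ℤ => padicValNat l n.natAbs) e1
  simp only [Int.natAbs_mul, Int.natAbs_pow, Int.natAbs_neg] at e2
  rw [padicValNat.mul (Int.natAbs_ne_zero.2 ha) (pow_ne_zero 3 (Int.natAbs_ne_zero.2 hY)),
    padicValNat.pow, padicValNat.pow] at e2
  apply h
  unfold padicValInt
  omega

lemma aniso {R : Type} [CommRing R] [IsDomain R] (Q : R → Prop)
    (hm : ∀ x y, Q x → Q y → Q (x * y)) (hs : ∀ x y, Q x → Q y → Q (x - y)) {a : R} (ha : Q a)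
    (h : ∀ X Y, Q X → Q Y → X ^ 3 + a * Y ^ 3 = 0 → Y = 0) {x y z : R} (hx : Q x) (hy : Q y)
    (hz : Q z) (e : Nf a x y z = 0) : x = 0 ∧ y = 0 ∧ z = 0 := by
  unfold Nf at e
  have e1 : (a * (z * z) - x * y) ^ 3 + a * (x * z - y * y) ^ 3 = 0 := by
    linear_combination (a * z ^ 3 - y ^ 3) * e
  have e2 := h _ _ (hs _ _ (hm _ _ ha (hm _ _ hz hz)) (hm _ _ hx hy))
    (hs _ _ (hm _ _ hx hz) (hm _ _ hy hy)) e1
  have e3 : a * (z * z) - x * y = 0 := by
    refine pow_eq_zero_iff (three_ne_zero) |>.1 ?_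
    rw [e2] at e1
    simpa using e1
  have e4 : z = 0 := h (y - y - y) z (hs _ _ (hs _ _ hy hy) hy) hz
    (by linear_combination z * e3 + y * e2)
  subst e4
  have e5 : y = 0 := mul_self_eq_zero.1 (by linear_combination -e2)
  subst e5
  exact ⟨pow_eq_zero_iff (three_ne_zero) |>.1 (by linear_combination e), rfl, rfl⟩

lemma n3 {d : ℤ} (h : ∃ l : ℕ, l.Prime ∧ ¬3 ∣ padicValInt l d) {α : V3} (e : N3 d α = 0) :
    α = 0 := by
  obtain ⟨h0, h1, h2⟩ := aniso (fun _ : ℤ => True) (fun _ _ _ _ => trivial)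
    (fun _ _ _ _ => trivial) trivial (fun X Y _ _ e => ncube h e) trivial trivial trivial e
  funext i
  fin_cases i
  exacts [h0, h1, h2]

end NZ

open NZ in
theorem nz (h : R3St) : NZSt := by
  intro d d' Δ hd _ H hΔ e
  have H1 : ∃ l : ℕ, l.Prime ∧ ¬3 ∣ padicValInt l d := by
    simpa only [pow_one, pow_zero, mul_one] using H 1 0 (by norm_num) (by norm_num) (by norm_num)
  have H2 : ∃ l : ℕ, l.Prime ∧ ¬3 ∣ padicValInt l d' := by
    simpa only [pow_one, pow_zero, one_mul] using H 0 1 (by norm_num) (by norm_num) (by norm_num)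
  have H3 := H 1 1 (by norm_num) (by norm_num) (by norm_num)
  have H4 := H 2 1 (by norm_num) (by norm_num) (by norm_num)
  obtain ⟨T, hT⟩ := IsAlgClosed.exists_pow_nat_eq (d : ℂ) (n := 3) (by norm_num)
  have hm := fun α β => (h.1 ℂ d T hT α β).1
  have hj := fun α => (h.1 ℂ d T hT α α).2
  have inj : ∀ α : V3, ev3 α T = 0 → α = 0 := fun α e => by
    have := hj α
    rw [e, zero_mul] at this
    exact n3 H1 (by exact_mod_cast this.symm)
  have nc : ∀ X Y : ℂ, (∃ α, X = ev3 α T) → (∃ α, Y = ev3 α T) →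
      X ^ 3 + (d' : ℂ) * Y ^ 3 = 0 → Y = 0 := by
    rintro _ _ ⟨α, rfl⟩ ⟨β, rfl⟩ e
    obtain ⟨γ, hγ⟩ : ∃ γ, γ = mul3 d α (adj3 d β) := ⟨_, rfl⟩
    have e1 : ev3 γ T ^ 3 + (d' : ℂ) * (N3 d β : ℂ) ^ 3 = 0 := by
      rw [hγ, hm, ← hj]
      linear_combination ev3 (adj3 d β) T ^ 3 * e
    have e2 := inj ![γ 0 ^ 3 + d * γ 1 ^ 3 + d ^ 2 * γ 2 ^ 3 + 6 * d * γ 0 * γ 1 * γ 2 +
        d' * N3 d β ^ 3, 3 * (γ 0 ^ 2 * γ 1 + d * γ 0 * γ 2 ^ 2 + d * γ 1 ^ 2 * γ 2),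
        3 * (γ 0 ^ 2 * γ 2 + γ 0 * γ 1 ^ 2 + d * γ 1 * γ 2 ^ 2)] (by
      unfold ev3 at e1 ⊢
      simp only [Matrix.cons_val_zero, Matrix.cons_val_one, Matrix.cons_val]
      push_cast
      linear_combination e1 - ((γ 1 : ℂ) ^ 3 + 6 * γ 0 * γ 1 * γ 2 + (T ^ 3 + d) * γ 2 ^ 3 +
        3 * T * (γ 0 * γ 2 ^ 2 + γ 1 ^ 2 * γ 2) + 3 * T ^ 2 * γ 1 * γ 2 ^ 2) * hT)
    have c0 := congrFun e2 0
    have c1 := congrFun e2 1
    have c2 := congrFun e2 2
    simp only [Matrix.cons_val_zero, Matrix.cons_val_one, Matrix.cons_val, Pi.zero_apply]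
      at c0 c1 c2
    generalize γ 0 = x at c0 c1 c2
    generalize γ 1 = y at c0 c1 c2
    generalize γ 2 = z at c0 c1 c2
    have hN : N3 d β = 0 := by
      have c3 : x * ((-y) ^ 3 + d * z ^ 3) = 0 := by
        have : 3 * (x * ((-y) ^ 3 + d * z ^ 3)) = 0 := by linear_combination z * c1 - y * c2
        omega
      rcases mul_eq_zero.1 c3 with rfl | c3
      · have c4 : y = 0 ∨ z = 0 := by
          have : 3 * d * (y ^ 2 * z) = 0 := by linear_combination c1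
          simpa [hd] using this
        rcases c4 with rfl | rfl
        · exact ncube (X := d * z) H3 (by linear_combination d * c0)
        · exact ncube (X := d * y) H4 (by linear_combination d ^ 2 * c0)
      · obtain rfl := ncube H1 c3
        obtain rfl : y = 0 := by simpa using c3
        exact ncube (X := x) H2 (by linear_combination c0)
    rw [n3 H1 hN]
    simp [ev3]
  have e1 : Nf (d' : ℂ) (ev3 (row Δ 0) T) (ev3 (row Δ 1) T) (ev3 (row Δ 2) T) = 0 := by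
    have e2 : ev3 (n9 d d' Δ) T = 0 := by
      rw [n3 H1 e]
      simp [ev3]
    have e3 : ev3 (n9 d d' Δ) T = ev3 (cu3 d (row Δ 0)) T + d' * ev3 (cu3 d (row Δ 1)) T +
        d' ^ 2 * ev3 (cu3 d (row Δ 2)) T -
        3 * d' * ev3 (mul3 d (row Δ 0) (mul3 d (row Δ 1) (row Δ 2))) T := by
      simp only [n9, ev3, Pi.add_apply, Pi.sub_apply, Pi.smul_apply, smul_eq_mul]
      push_cast
      ring
    simp only [cu3, hm] at e3
    unfold Nf
    linear_combination e2 - e3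
  obtain ⟨h0, h1, h2⟩ := aniso (fun X : ℂ => ∃ α, X = ev3 α T) (by
      rintro _ _ ⟨α, rfl⟩ ⟨β, rfl⟩
      exact ⟨_, (hm α β).symm⟩) (by
      rintro _ _ ⟨α, rfl⟩ ⟨β, rfl⟩
      refine ⟨α - β, ?_⟩
      simp only [ev3, Pi.sub_apply]
      push_cast
      ring) ⟨![d', 0, 0], by simp [ev3]⟩ nc ⟨_, rfl⟩ ⟨_, rfl⟩ ⟨_, rfl⟩ e1
  refine hΔ (funext fun k => ?_)
  obtain ⟨i, j⟩ := k
  fin_cases j
  exacts [congrFun (inj _ h0) i, congrFun (inj _ h1) i, congrFun (inj _ h2) i]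

end Pool.Agent.Lib.MP_65b7ad_nt.DS
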