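import Pool.Agent.Lib.MP_65b7ad_nt.DS.St

/-! Identities in the ring of rank three. -/

namespace Pool.Agent.Lib.MP_65b7ad_nt.DS

namespace R3

variable {F : Type} [CommRing F]

theorem cast_N3 (d : ℤ) (α : V3) : (N3 d α : F) = Nf (d : F) (α 0) (α 1) (α 2) := by
  unfold N3 Nf
  push_cast
  rfl

theorem eN (a b c w t : F) (hw : w ^ 2 + w + 1 = 0) :
    (a + b * t + c * t ^ 2) * (a + b * (w * t) + c * (w * t) ^ 2) *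
      (a + b * (w ^ 2 * t) + c * (w ^ 2 * t) ^ 2) = Nf (t ^ 3) a b c := by
  unfold Nf
  linear_combination (a ^ 2 * b * t + a ^ 2 * c * w ^ 2 * t ^ 2 - a ^ 2 * c * w * t ^ 2 + a ^ 2 * c * t ^ 2 + a *
      b ^ 2 * w * t ^ 2 + a * b * c * w ^ 3 * t ^ 3 + a * b * c * w ^ 2 * t ^ 3 - 2 * a * b * c *
      w * t ^ 3 + 3 * a * b * c * t ^ 3 + a * c ^ 2 * w ^ 4 * t ^ 4 - a * c ^ 2 * w ^ 3 * t ^ 4 +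
      a * c ^ 2 * w ^ 2 * t ^ 4 + b ^ 3 * w * t ^ 3 - b ^ 3 * t ^ 3 + b ^ 2 * c * w ^ 3 * t ^ 4 +
      b * c ^ 2 * w ^ 4 * t ^ 5 + c ^ 3 * w ^ 4 * t ^ 6 - c ^ 3 * w ^ 3 * t ^ 6 + c ^ 3 * w * t ^
      6 - c ^ 3 * t ^ 6) * hw

theorem eA (a b c w t : F) (hw : w ^ 2 + w + 1 = 0) :
    3 * (a ^ 3 + w * t ^ 3 * b ^ 3 + w ^ 2 * (t ^ 3) ^ 2 * c ^ 3) =
      (a + b * t + c * t ^ 2) ^ 2 * (a + b * (w * t) + c * (w * t) ^ 2) +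
      (a + b * (w * t) + c * (w * t) ^ 2) ^ 2 * (a + b * (w ^ 2 * t) + c * (w ^ 2 * t) ^ 2) +
      (a + b * (w ^ 2 * t) + c * (w ^ 2 * t) ^ 2) ^ 2 * (a + b * t + c * t ^ 2) := by
  linear_combination -(3 * a ^ 2 * b * t + 3 * a ^ 2 * c * w ^ 2 * t ^ 2 - 3 * a ^ 2 * c * w * t ^ 2 + 3 * a ^ 2 *
      c * t ^ 2 + a * b ^ 2 * w ^ 2 * t ^ 2 + a * b ^ 2 * w * t ^ 2 + a * b ^ 2 * t ^ 2 + 2 * a *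
      b * c * w ^ 4 * t ^ 3 + 2 * a * b * c * w ^ 2 * t ^ 3 + 2 * a * b * c * t ^ 3 + a * c ^ 2 *
      w ^ 6 * t ^ 4 - a * c ^ 2 * w ^ 5 * t ^ 4 + 2 * a * c ^ 2 * w ^ 4 * t ^ 4 - a * c ^ 2 * w ^
      3 * t ^ 4 + 2 * a * c ^ 2 * w ^ 2 * t ^ 4 - a * c ^ 2 * w * t ^ 4 + a * c ^ 2 * t ^ 4 + 2 *
      b ^ 3 * w ^ 2 * t ^ 3 - 2 * b ^ 3 * w * t ^ 3 + 3 * b ^ 2 * c * w ^ 4 * t ^ 4 - b ^ 2 * c *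
      w ^ 3 * t ^ 4 - b ^ 2 * c * w ^ 2 * t ^ 4 + 2 * b ^ 2 * c * w * t ^ 4 + b * c ^ 2 * w ^ 6 *
      t ^ 5 + b * c ^ 2 * w ^ 5 * t ^ 5 + b * c ^ 2 * w ^ 4 * t ^ 5 - 2 * b * c ^ 2 * w ^ 3 * t ^
      5 + b * c ^ 2 * w ^ 2 * t ^ 5 + b * c ^ 2 * w * t ^ 5 + 2 * c ^ 3 * w ^ 6 * t ^ 6 - 2 * c ^
      3 * w ^ 5 * t ^ 6 + 2 * c ^ 3 * w ^ 3 * t ^ 6 - 2 * c ^ 3 * w ^ 2 * t ^ 6) * hw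

theorem eB (a b c w t : F) (hw : w ^ 2 + w + 1 = 0) :
    3 * (a ^ 2 - t ^ 3 * b * c) =
      (a + b * t + c * t ^ 2) * (a + b * (w * t) + c * (w * t) ^ 2) +
      (a + b * (w * t) + c * (w * t) ^ 2) * (a + b * (w ^ 2 * t) + c * (w ^ 2 * t) ^ 2) +
      (a + b * (w ^ 2 * t) + c * (w ^ 2 * t) ^ 2) * (a + b * t + c * t ^ 2) := by
  linear_combination -(2 * a * b * t + 2 * a * c * w ^ 2 * t ^ 2 - 2 * a * c * w * t ^ 2 + 2 * a * c * t ^ 2 + b ^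
      2 * w * t ^ 2 + b * c * w ^ 3 * t ^ 3 + b * c * w ^ 2 * t ^ 3 - 2 * b * c * w * t ^ 3 + 3 *
      b * c * t ^ 3 + c ^ 2 * w ^ 4 * t ^ 4 - c ^ 2 * w ^ 3 * t ^ 4 + c ^ 2 * w ^ 2 * t ^ 4) * hw

theorem eC (a b c w t : F) (hw : w ^ 2 + w + 1 = 0) :
    3 * a = (a + b * t + c * t ^ 2) + (a + b * (w * t) + c * (w * t) ^ 2) +
      (a + b * (w ^ 2 * t) + c * (w ^ 2 * t) ^ 2) := by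
  linear_combination -(b * t + c * w ^ 2 * t ^ 2 - c * w * t ^ 2 + c * t ^ 2) * hw

theorem abs (W x y z w m E0 E1 E2 : F) (hw : w ^ 2 + w + 1 = 0) (hm : m ^ 3 = 1)
    (hN : E0 * E1 * E2 = Nf W x y z) :
    E0 * E1 ^ 2 * (E0 ^ 2 * E1 + E1 ^ 2 * E2 + E2 ^ 2 * E0 +
      3 * (x ^ 3 + w ^ 2 * W * y ^ 3 + w * W ^ 2 * z ^ 3) +
      3 * m * x * (E0 * E1 + E1 * E2 + E2 * E0) + 3 * m ^ 2 * (x ^ 2 - W * y * z) * (E0 + E1 + E2) +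
      3 * (E0 * E1 * E2)) =
    Nf W (E0 * E1 + m * E1 * x + m ^ 2 * (x ^ 2 - W * y * z))
      (m * E1 * y + m ^ 2 * w ^ 2 * (W * z ^ 2 - x * y))
      (m * E1 * z + m ^ 2 * w * (y ^ 2 - x * z)) := by
  unfold Nf at *
  linear_combination (-W ^ 4 * z ^ 6 * w ^ 6 * m ^ 3 - W ^ 4 * z ^ 6 * w ^ 6 + 3 * W ^ 3 * x * y * z ^ 4 * w ^ 6 *
      m ^ 3 + 3 * W ^ 3 * x * y * z ^ 4 * w ^ 6 + 3 * W ^ 3 * x * y * z ^ 4 * w ^ 3 * m ^ 3 + 3 *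
      W ^ 3 * x * y * z ^ 4 * w ^ 3 - 3 * W ^ 3 * y ^ 3 * z ^ 3 * w ^ 3 * m ^ 3 - 3 * W ^ 3 * y ^
      3 * z ^ 3 * w ^ 3 + W ^ 3 * y ^ 3 * z ^ 3 * m ^ 3 + W ^ 3 * y ^ 3 * z ^ 3 - 3 * W ^ 3 * y *
      z ^ 4 * w ^ 4 * m ^ 2 * E1 - 3 * W ^ 3 * y * z ^ 4 * w ^ 2 * m ^ 2 * E1 - 2 * W ^ 2 * x ^ 3
      * z ^ 3 * w ^ 3 * m ^ 3 - 2 * W ^ 2 * x ^ 3 * z ^ 3 * w ^ 3 - 3 * W ^ 2 * x ^ 2 * y ^ 2 * z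
      ^ 2 * w ^ 6 * m ^ 3 - 3 * W ^ 2 * x ^ 2 * y ^ 2 * z ^ 2 * w ^ 6 - 3 * W ^ 2 * x ^ 2 * y ^ 2
      * z ^ 2 * w ^ 3 * m ^ 3 - 3 * W ^ 2 * x ^ 2 * y ^ 2 * z ^ 2 * w ^ 3 - 3 * W ^ 2 * x ^ 2 * y
      ^ 2 * z ^ 2 * m ^ 3 - 3 * W ^ 2 * x ^ 2 * y ^ 2 * z ^ 2 - 3 * W ^ 2 * x ^ 2 * z ^ 3 * w ^ 3
      * m ^ 2 * E1 + 6 * W ^ 2 * x * y ^ 4 * z * w ^ 3 * m ^ 3 + 6 * W ^ 2 * x * y ^ 4 * z * w ^ 3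
      + 6 * W ^ 2 * x * y ^ 2 * z ^ 2 * w ^ 4 * m ^ 2 * E1 + 3 * W ^ 2 * x * y ^ 2 * z ^ 2 * w ^ 3
      * m ^ 2 * E1 + 9 * W ^ 2 * x * y ^ 2 * z ^ 2 * w ^ 2 * m ^ 2 * E1 + 3 * W ^ 2 * x * y ^ 2 *
      z ^ 2 * w * m ^ 2 * E1 - 3 * W ^ 2 * x * y ^ 2 * z ^ 2 * m ^ 2 * E1 - 3 * W ^ 2 * x * z ^ 3
      * w ^ 3 * m * E0 * E1 + 3 * W ^ 2 * x * z ^ 3 * w ^ 2 * m * E1 ^ 2 + 3 * W ^ 2 * x * z ^ 3 *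
      w * m * E1 ^ 2 - W ^ 2 * y ^ 6 * w ^ 3 * m ^ 3 - W ^ 2 * y ^ 6 * w ^ 3 - 3 * W ^ 2 * y ^ 4 *
      z * w ^ 2 * m ^ 2 * E1 - 3 * W ^ 2 * y ^ 4 * z * w * m ^ 2 * E1 + 3 * W ^ 2 * y ^ 2 * z ^ 2
      * w ^ 3 * m * E0 * E1 - 3 * W ^ 2 * y ^ 2 * z ^ 2 * w ^ 2 * m * E1 ^ 2 - 3 * W ^ 2 * y ^ 2 *
      z ^ 2 * w * m * E1 ^ 2 - 3 * W ^ 2 * y ^ 2 * z ^ 2 * m * E0 * E1 - 3 * W ^ 2 * y ^ 2 * z ^ 2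
      * m * E1 ^ 2 + 3 * W ^ 2 * z ^ 3 * w ^ 2 * E0 * E1 ^ 2 - W ^ 2 * z ^ 3 * E1 ^ 3 + 3 * W * x
      ^ 4 * y * z * w ^ 3 * m ^ 3 + 3 * W * x ^ 4 * y * z * w ^ 3 + 3 * W * x ^ 4 * y * z * m ^ 3
      + 3 * W * x ^ 4 * y * z + W * x ^ 3 * y ^ 3 * w ^ 6 * m ^ 3 + W * x ^ 3 * y ^ 3 * w ^ 6 - 3
      * W * x ^ 3 * y ^ 3 * w ^ 3 * m ^ 3 - 3 * W * x ^ 3 * y ^ 3 * w ^ 3 + 3 * W * x ^ 3 * y * z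
      * w ^ 3 * m ^ 2 * E1 - 3 * W * x ^ 3 * y * z * w ^ 2 * m ^ 2 * E1 - 3 * W * x ^ 3 * y * z *
      w * m ^ 2 * E1 + 6 * W * x ^ 3 * y * z * m ^ 2 * E1 - 3 * W * x ^ 2 * y ^ 3 * w ^ 4 * m ^ 2
      * E1 - 3 * W * x ^ 2 * y ^ 3 * w ^ 3 * m ^ 2 * E1 + 3 * W * x ^ 2 * y ^ 3 * w * m ^ 2 * E1 +
      3 * W * x ^ 2 * y * z * w ^ 3 * m * E0 * E1 - 3 * W * x ^ 2 * y * z * w ^ 2 * m * E1 ^ 2 - 3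
      * W * x ^ 2 * y * z * w * m * E1 ^ 2 + 6 * W * x ^ 2 * y * z * m * E0 * E1 + 6 * W * x ^ 2 *
      y * z * m * E1 ^ 2 - 3 * W * x * y ^ 3 * w ^ 3 * m * E0 * E1 + 3 * W * x * y ^ 3 * w ^ 2 * m
      * E1 ^ 2 + 3 * W * x * y ^ 3 * w * m * E1 ^ 2 - 3 * W * x * y * z * w ^ 2 * E0 * E1 ^ 2 - 3
      * W * x * y * z * w * E0 * E1 ^ 2 + 6 * W * x * y * z * E0 * E1 ^ 2 + 3 * W * x * y * z * E1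
      ^ 3 + 3 * W * y ^ 3 * w * E0 * E1 ^ 2 - W * y ^ 3 * E1 ^ 3 - x ^ 6 * m ^ 3 - x ^ 6 - 3 * x ^
      5 * m ^ 2 * E1 - 3 * x ^ 4 * m * E0 * E1 - 3 * x ^ 4 * m * E1 ^ 2 - 6 * x ^ 3 * E0 * E1 ^ 2
      - x ^ 3 * E1 ^ 3) * hm +
    (-W ^ 4 * z ^ 6 * w ^ 4 + W ^ 4 * z ^ 6 * w ^ 3 - W ^ 4 * z ^ 6 * w + W ^ 4 * z ^ 6 + 3 * W ^
      3 * x * y * z ^ 4 * w ^ 4 - 3 * W ^ 3 * x * y * z ^ 4 * w ^ 3 + 6 * W ^ 3 * x * y * z ^ 4 *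
      w - 6 * W ^ 3 * x * y * z ^ 4 - 3 * W ^ 3 * y ^ 3 * z ^ 3 * w + 3 * W ^ 3 * y ^ 3 * z ^ 3 -
      3 * W ^ 3 * y * z ^ 4 * w ^ 2 * m ^ 2 * E1 + 3 * W ^ 3 * y * z ^ 4 * w * m ^ 2 * E1 - 3 * W
      ^ 3 * y * z ^ 4 * m ^ 2 * E1 - 2 * W ^ 2 * x ^ 3 * z ^ 3 * w + 2 * W ^ 2 * x ^ 3 * z ^ 3 - 3
      * W ^ 2 * x ^ 2 * y ^ 2 * z ^ 2 * w ^ 4 + 3 * W ^ 2 * x ^ 2 * y ^ 2 * z ^ 2 * w ^ 3 - 6 * W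
      ^ 2 * x ^ 2 * y ^ 2 * z ^ 2 * w + 6 * W ^ 2 * x ^ 2 * y ^ 2 * z ^ 2 - 3 * W ^ 2 * x ^ 2 * z
      ^ 3 * w * m ^ 2 * E1 + 3 * W ^ 2 * x ^ 2 * z ^ 3 * m ^ 2 * E1 + 6 * W ^ 2 * x * y ^ 4 * z *
      w - 6 * W ^ 2 * x * y ^ 4 * z + 6 * W ^ 2 * x * y ^ 2 * z ^ 2 * w ^ 2 * m ^ 2 * E1 - 3 * W ^
      2 * x * y ^ 2 * z ^ 2 * w * m ^ 2 * E1 + 6 * W ^ 2 * x * y ^ 2 * z ^ 2 * m ^ 2 * E1 - 3 * W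
      ^ 2 * x * z ^ 3 * w * m * E0 * E1 + 3 * W ^ 2 * x * z ^ 3 * m * E0 * E1 + 3 * W ^ 2 * x * z
      ^ 3 * m * E1 ^ 2 - W ^ 2 * y ^ 6 * w + W ^ 2 * y ^ 6 - 3 * W ^ 2 * y ^ 4 * z * m ^ 2 * E1 +
      3 * W ^ 2 * y ^ 2 * z ^ 2 * w * m * E0 * E1 - 3 * W ^ 2 * y ^ 2 * z ^ 2 * m * E0 * E1 - 3 *
      W ^ 2 * y ^ 2 * z ^ 2 * m * E1 ^ 2 + 3 * W ^ 2 * z ^ 3 * E0 * E1 ^ 2 + 3 * W * x ^ 4 * y * z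
      * w - 3 * W * x ^ 4 * y * z + W * x ^ 3 * y ^ 3 * w ^ 4 - W * x ^ 3 * y ^ 3 * w ^ 3 - 2 * W
      * x ^ 3 * y ^ 3 * w + 2 * W * x ^ 3 * y ^ 3 + 3 * W * x ^ 3 * y * z * w * m ^ 2 * E1 - 6 * W
      * x ^ 3 * y * z * m ^ 2 * E1 - 3 * W * x ^ 2 * y ^ 3 * w ^ 2 * m ^ 2 * E1 + 3 * W * x ^ 2 *
      y ^ 3 * m ^ 2 * E1 + 3 * W * x ^ 2 * y * z * w * m * E0 * E1 - 3 * W * x ^ 2 * y * z * m *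
      E0 * E1 - 3 * W * x ^ 2 * y * z * m * E1 ^ 2 - 3 * W * x * y ^ 3 * w * m * E0 * E1 + 3 * W *
      x * y ^ 3 * m * E0 * E1 + 3 * W * x * y ^ 3 * m * E1 ^ 2 - 3 * W * x * y * z * E0 * E1 ^ 2 +
      3 * W * y ^ 3 * E0 * E1 ^ 2) * hw +
    (W ^ 2 * z ^ 3 - 3 * W * x * y * z + W * y ^ 3 - 3 * W * y * z * m ^ 2 * E1 + x ^ 3 + 3 * x ^
      2 * m ^ 2 * E1 + 3 * x * m * E0 * E1 + 3 * x * m * E1 ^ 2 + 3 * E0 * E1 ^ 2 + E0 * E1 * E2 +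
      E1 ^ 3) * hN

end R3

theorem r3 : R3St := by
  refine ⟨fun F _ d T hT α β => ⟨?_, ?_⟩, fun F _ d w T hw hT α => ?_, fun d α β => ⟨?_, ?_, ?_⟩,
    fun d B α hd h => ?_⟩
  · simp only [ev3, mul3, Matrix.cons_val_zero, Matrix.cons_val_one, Matrix.cons_val]
    push_cast
    rw [← hT]
    ring
  · simp only [ev3, adj3, R3.cast_N3, Nf, Matrix.cons_val_zero, Matrix.cons_val_one,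
      Matrix.cons_val]
    push_cast
    rw [← hT]
    ring
  · rw [R3.cast_N3, ← hT]
    exact R3.eN _ _ _ w T hw
  · simp only [N3, Nf, mul3, Matrix.cons_val_zero, Matrix.cons_val_one, Matrix.cons_val]
    ring
  · simp only [N3, Nf, adj3, Matrix.cons_val_zero, Matrix.cons_val_one, Matrix.cons_val]
    ring
  · ext i
    fin_cases i <;> simp [N3, Nf, mul3, adj3] <;> ring
  · have h0 := h 0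
    have h1 := h 1
    have h2 := h 2
    have d0 : 0 ≤ d := by omega
    have B0 : 0 ≤ B := (abs_nonneg _).trans h0
    have d2 : d ≤ d ^ 2 := by nlinarith
    unfold N3 Nf
    calc _ ≤ |α 0 ^ 3| + |d * α 1 ^ 3| + |d ^ 2 * α 2 ^ 3| + |3 * d * α 0 * α 1 * α 2| :=
          (abs_sub _ _).trans (add_le_add (abs_add_three _ _ _) le_rfl)
      _ = 1 * |α 0| ^ 3 + d * |α 1| ^ 3 + d ^ 2 * |α 2| ^ 3 + 3 * d * |α 0| * |α 1| * |α 2| := by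
          simp [abs_mul, abs_of_nonneg d0]
      _ ≤ d ^ 2 * B ^ 3 + d ^ 2 * B ^ 3 + d ^ 2 * B ^ 3 + 3 * d ^ 2 * B * B * B := by
          gcongr
          omega
      _ = _ := by ring

theorem id1 : Id1St := by
  intro F _ W d ζ η w μ θ hN hw hm hT
  have h1 := R3.eN (η 0 : F) (η 1) (η 2) w θ hw
  have h2 := R3.abs (W : F) (ζ 0) (ζ 1) (ζ 2) w μ _ _ _ hw hm
    (h1.trans (by rw [hT, ← R3.cast_N3, ← R3.cast_N3, hN]))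
  rw [← R3.eA _ _ _ w θ hw, ← R3.eB _ _ _ w θ hw, ← R3.eC _ _ _ w θ hw, h1, hT] at h2
  unfold ev3 Ef
  rw [← h2, R3.cast_N3]
  ring

end Pool.Agent.Lib.MP_65b7ad_nt.DS
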