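import Pool.Agent.Lib.MP_65b7ad_nt.DS.Bas

/-! Reciprocity for a first argument prime to `3`. -/

open Finset

namespace Pool.Agent.Lib.MP_65b7ad_nt.DS

namespace RecA

theorem aniso {p : ℕ} (hp : p.Prime) (h2 : p % 3 = 2) {x y : ℤ}
    (h : (p : ℤ) ∣ x ^ 2 - x * y + y ^ 2) : (p : ℤ) ∣ y := by
  have := Fact.mk hp
  rw [← ZMod.intCast_zmod_eq_zero_iff_dvd] at h ⊢
  push_cast at h
  by_contra y0
  have e : (-(x : ZMod p) / y) ^ 2 + -(x : ZMod p) / y + 1 = 0 := by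
    field_simp
    linear_combination h
  generalize -(x : ZMod p) / y = t at e
  have t0 : t ≠ 0 := by
    rintro rfl
    simp at e
  have e1 := ZMod.pow_card_sub_one_eq_one t0
  rw [show p - 1 = 3 * (p / 3) + 1 by omega, pow_succ, pow_mul, w_cube e, one_pow, one_mul] at e1
  have e3 : ((3 : ℕ) : ZMod p) = 0 := by
    rw [e1] at e
    push_cast
    linear_combination e
  have := (Nat.prime_dvd_prime_iff_eq hp Nat.prime_three).1 ((ZMod.natCast_eq_zero_iff _ _).1 e3)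
  omega

theorem pos {x y : ℤ} (h : x ^ 2 - x * y + y ^ 2 ≠ 0) : 0 < x ^ 2 - x * y + y ^ 2 :=
  lt_of_le_of_ne (by nlinarith [sq_nonneg (x - y), sq_nonneg x, sq_nonneg y]) h.symm

variable {P : ℕ → Loc} (hP : FamOk P)
include hP

/-- Division by a rational prime. -/
theorem down {α x y : ℤ} (hα : α ≠ 0) {p : ℕ} (hp : p.Prime) (h3 : p ≠ 3)
    (hn : x ^ 2 - x * y + y ^ 2 ≠ 0) (hN : (p : ℤ) ∣ x ^ 2 - x * y + y ^ 2) (hy : (p : ℤ) ∣ y)
    (y3 : (3 : ℤ) ∣ y) (x3 : ¬(3 : ℤ) ∣ x) :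
    ∃ u v : ℤ, (u ^ 2 - u * v + v ^ 2) * p ^ 2 = x ^ 2 - x * y + y ^ 2 ∧ (3 : ℤ) ∣ v ∧
      ¬(3 : ℤ) ∣ u ∧ RR P α x y = RR P α u v := by
  have hq := Nat.prime_iff_prime_int.1 hp
  obtain ⟨v, rfl⟩ := hy
  obtain ⟨u, rfl⟩ : (p : ℤ) ∣ x := hq.dvd_of_dvd_pow (n := 2) (by
    obtain ⟨c, hc⟩ := hN
    exact ⟨c + x * v - p * v ^ 2, by linear_combination hc⟩)
  refine ⟨u, v, by ring, (Int.prime_three.dvd_or_dvd y3).resolve_left fun e => h3
    ((Nat.prime_dvd_prime_iff_eq Nat.prime_three hp).1 (by exact_mod_cast e)).symm,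
    fun e => x3 (e.mul_left _), RR_smul hP hα hq.ne_zero fun e => hn ?_⟩
  linear_combination (p : ℤ) ^ 2 * e

theorem prim (h1 : RecPSt) {α : ℤ} (hα : ¬(3 : ℤ) ∣ α) (n : ℕ) : ∀ x y : ℤ,
    x ^ 2 - x * y + y ^ 2 = n → (3 : ℤ) ∣ y → ¬(3 : ℤ) ∣ x → RR P α x y = 0 := by
  have a0 : α ≠ 0 := fun e => hα (by simp [e])
  induction n using Nat.strong_induction_on with
  | _ n ih =>
  intro x y hn y3 x3
  have n3 : ¬(3 : ℤ) ∣ n := fun e => x3 (Int.prime_three.dvd_of_dvd_pow (n := 2) (by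
    obtain ⟨c, hc⟩ := e
    obtain ⟨d, rfl⟩ := y3
    exact ⟨c + x * d - 3 * d ^ 2, by linear_combination hn + hc⟩))
  have n0 : x ^ 2 - x * y + y ^ 2 ≠ 0 := fun e => n3 (by rw [← hn, e]; simp)
  by_cases n1 : n = 1
  · obtain ⟨d, rfl⟩ := y3
    obtain rfl : d = 0 := by
      by_contra d0
      have := Int.one_le_abs d0
      rw [n1] at hn
      push_cast at hn
      nlinarith [sq_abs d, sq_nonneg (2 * x - 3 * d)]
    exact RR_int hP α fun e => x3 (by simp [e])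
  obtain ⟨p, hp, hd⟩ := Nat.exists_prime_and_dvd n1
  have hq := Nat.prime_iff_prime_int.1 hp
  have hd' : (p : ℤ) ∣ x ^ 2 - x * y + y ^ 2 := hn ▸ Int.natCast_dvd_natCast.2 hd
  have p3 : p ≠ 3 := by
    rintro rfl
    exact n3 (hn ▸ hd')
  have p1 : (1 : ℤ) < p := by exact_mod_cast hp.one_lt
  have fin : ∀ u v : ℤ, ∀ k : ℤ, 1 < k → (u ^ 2 - u * v + v ^ 2) * k = n → (3 : ℤ) ∣ v →
      ¬(3 : ℤ) ∣ u → RR P α u v = 0 := fun u v k k1 e v3 u3 => by
    have := pos (x := u) (y := v) fun z => n0 (by rw [hn, ← e, z, zero_mul])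
    exact ih (u ^ 2 - u * v + v ^ 2).toNat (by zify; rw [Int.toNat_of_nonneg this.le]; nlinarith)
      u v (Int.toNat_of_nonneg this.le).symm v3 u3
  have p0 : p % 3 ≠ 0 := fun e => p3
    ((Nat.prime_dvd_prime_iff_eq Nat.prime_three hp).1 (Nat.dvd_of_mod_eq_zero e)).symm
  rcases (by omega : p % 3 = 1 ∨ p % 3 = 2) with r | r
  · have key : ∀ a b : ℤ, a ^ 2 - a * b + b ^ 2 = p → (3 : ℤ) ∣ b → ¬(3 : ℤ) ∣ a →
        RR P α a b = 0 → (p : ℤ) ∣ x * b + y * a - y * b → RR P α x y = 0 := by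
      intro a b e b3 a3 h0 hv
      have e2 : (x * a - y * b) ^ 2 - (x * a - y * b) * (x * b + y * a - y * b) +
          (x * b + y * a - y * b) ^ 2 = n * p := by
        rw [← hn, ← e]
        ring
      obtain ⟨u, v, e3, v3, u3, e4⟩ := down hP a0 hp p3 (x := x * a - y * b)
        (y := x * b + y * a - y * b) (e2 ▸ mul_ne_zero (hn ▸ n0) hq.ne_zero)
        (e2 ▸ dvd_mul_left _ _) hv (((b3.mul_left _).add (y3.mul_right _)).sub (y3.mul_right _))
        fun z => (Int.prime_three.dvd_or_dvd ((dvd_sub_left (y3.mul_right _)).1 z)).elim x3 a3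
      rw [RR_mul_right hP a0 n0 (e ▸ hq.ne_zero), h0, add_zero] at e4
      exact e4.trans (fin u v p p1 (mul_right_cancel₀ hq.ne_zero
        (by linear_combination e3 + e2)) v3 u3)
    obtain ⟨a, b, e, a2, b3, h0⟩ := h1 P hP p hp r
    have : (p : ℤ) ∣ (x * b + y * a - y * b) * (x * -b + y * (a - b) - y * -b) := by
      obtain ⟨c, hc⟩ := hd'
      exact ⟨y ^ 2 - b ^ 2 * c, by linear_combination y ^ 2 * e - b ^ 2 * hc⟩
    rcases hq.dvd_or_dvd this with g | g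
    · exact key a b e b3 (by omega) (h0 α hα) g
    · exact key (a - b) (-b) (by linear_combination e) b3.neg_right (by omega)
        (by rw [RR_conj hP α a0 (e ▸ hq.ne_zero), h0 α hα, neg_zero]) g
  · obtain ⟨u, v, e3, v3, u3, e4⟩ := down hP a0 hp p3 n0 hd' (aniso hp r hd') y3 x3
    exact e4.trans (fin u v (p ^ 2) (by nlinarith) (e3.trans hn) v3 u3)

theorem ph (h2 : IdxSt) (n : ℕ) : ∀ k : ℤ, (n : ℤ) ^ 2 = 1 + 3 * k → RR P n 0 1 = -k := by
  induction n using induction_on_primes with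
  | zero => intro k hk; omega
  | one =>
    intro k hk
    obtain rfl : k = 0 := by omega
    simp [RR, pf]
  | prime_mul l a hl ih =>
    intro k hk
    have s : ∀ m : ℤ, ¬(3 : ℤ) ∣ m → ∃ j : ℤ, m ^ 2 = 1 + 3 * j := fun m hm => by
      obtain ⟨c, hc | hc⟩ : ∃ c, m = 3 * c + 1 ∨ m = 3 * c - 1 := by
        rcases (by omega : m % 3 = 1 ∨ m % 3 = 2) with r | r
        exacts [⟨m / 3, by omega⟩, ⟨m / 3 + 1, by omega⟩]
      exacts [⟨3 * c ^ 2 + 2 * c, by rw [hc]; ring⟩, ⟨3 * c ^ 2 - 2 * c, by rw [hc]; ring⟩]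
    have n3 : ¬(3 : ℤ) ∣ l * a := fun e => by
      have := e.pow (n := 2) two_ne_zero
      push_cast at hk
      omega
    obtain ⟨i, hi⟩ := s l fun e => n3 (e.mul_right _)
    obtain ⟨j, hj⟩ := s a fun e => n3 (e.mul_left _)
    have l3 : l ≠ 3 := by
      rintro rfl
      exact n3 (dvd_mul_right _ _)
    have h := hP l hl l3
    have e : RR P l 0 1 = -i := by
      have e1 : pf (l * (0 ^ 2 - 0 * 1 + 1 ^ 2)) = {l} := by
        simp [pf, hl.primeFactors, l3.symm]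
      have e2 : (((l ^ 2 - 1) / 3 : ℕ) : ℤ) = i := by
        have : ((l ^ 2 : ℕ) : ℤ) = 1 + 3 * i := by exact_mod_cast hi
        omega
      have e3 := (h2 l _ hl l3 h).2.1
      rw [← Int.cast_natCast, e2] at e3
      rw [RR, e1, sum_singleton, Loc.tm, Loc.T]
      simp only [Int.cast_zero, Int.cast_one, zero_add, one_mul, Int.cast_natCast, h.c_l, h.v_l hl,
        h.c_div h.om_ne (pow_ne_zero 2 h.om_ne), h.c_pow h.om_ne, e3]
      push_cast
      ring
    have e4 : k = i + j + 3 * (i * j) := by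
      push_cast at hk
      rw [mul_pow, hi, hj] at hk
      linarith
    rw [Nat.cast_mul, RR_mul_left hP (Nat.cast_ne_zero.2 hl.ne_zero)
      (fun z => n3 (by simp [z])) (by norm_num), e, ih j hj, e4]
    push_cast
    rw [show (3 : ZMod 3) = 0 from rfl]
    ring

theorem ph0 (h2 : IdxSt) {α : ℤ} (h : Pm9 α) : RR P α 0 1 = 0 := by
  obtain ⟨k, hk⟩ : ∃ k : ℤ, α ^ 2 = 1 + 3 * (3 * k) := by
    obtain ⟨c, hc | hc⟩ : ∃ c, α = 9 * c + 1 ∨ α = 9 * c - 1 := by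
      rcases h with r | r
      exacts [⟨α / 9, by omega⟩, ⟨α / 9 + 1, by omega⟩]
    exacts [⟨9 * c ^ 2 + 2 * c, by rw [hc]; ring⟩, ⟨9 * c ^ 2 - 2 * c, by rw [hc]; ring⟩]
  have e := ph hP h2 α.natAbs (3 * k) (by rw [Int.natCast_natAbs, sq_abs, hk])
  rw [Int.cast_mul, show ((3 : ℤ) : ZMod 3) = 0 from rfl, zero_mul, neg_zero] at e
  rcases Int.natAbs_eq α with r | r
  · rwa [r]
  · rw [r, ← neg_one_mul, RR_mul_left hP (by norm_num) (fun z => by
      rw [z] at r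
      rcases h with h | h <;> omega) (by norm_num), e]
    simp [RR, pf]

end RecA

open RecA in
theorem recA (h1 : RecPSt) (h2 : IdxSt) : RecASt := by
  intro P hP α x y hn
  have B : ¬(3 : ℤ) ∣ α → ∀ x y : ℤ, x ^ 2 - x * y + y ^ 2 ≠ 0 → (3 : ℤ) ∣ y → ¬(3 : ℤ) ∣ x →
      RR P α x y = 0 := fun hα x y hn =>
    prim hP h1 hα _ x y (Int.toNat_of_nonneg (pos hn).le).symm
  refine ⟨fun h9 => ?_, fun hα => B hα x y hn⟩
  have hα : ¬(3 : ℤ) ∣ α := by rcases h9 with h | h <;> omega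
  have a0 : α ≠ 0 := fun e => hα (by simp [e])
  have w := ph0 hP h2 h9
  have rot : ∀ x y : ℤ, x ^ 2 - x * y + y ^ 2 ≠ 0 → RR P α x y = RR P α (-y) (x - y) := by
    intro x y hn
    have := RR_mul_right hP (x' := 0) (y' := 1) a0 hn (by norm_num)
    rw [w, add_zero] at this
    simpa using this.symm
  have lam : RR P α 1 (-1) = 0 := by
    have e := RR_mul_right hP (x := 1) (y := -1) (x' := 1) (y' := -1) a0 (by norm_num)
      (by norm_num)
    have e2 := RR_smul hP (k := -3) (x := 0) (y := 1) a0 (by norm_num) (by norm_num)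
    norm_num at e e2
    rw [e2, w] at e
    generalize RR P α 1 (-1) = t at e
    revert t
    decide
  obtain ⟨n, hn'⟩ : ∃ n : ℕ, x ^ 2 - x * y + y ^ 2 = n :=
    ⟨_, (Int.toNat_of_nonneg (pos hn).le).symm⟩
  induction n using Nat.strong_induction_on generalizing x y with
  | _ n ih =>
  by_cases h : (3 : ℤ) ∣ x + y
  · obtain ⟨v, hv⟩ := h
    obtain rfl : y = 3 * v - x := by omega
    have n1 : (x - v) ^ 2 - (x - v) * v + v ^ 2 ≠ 0 := fun e => hn (by linear_combination 3 * e)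
    have e := RR_mul_right hP (x' := 1) (y' := -1) a0 n1 (by norm_num)
    have p := pos n1
    rw [lam, add_zero, ih ((x - v) ^ 2 - (x - v) * v + v ^ 2).toNat
      (by zify; rw [Int.toNat_of_nonneg p.le]; nlinarith) _ _ n1
      (Int.toNat_of_nonneg p.le).symm] at e
    convert e using 2 <;> ring
  by_cases hy : (3 : ℤ) ∣ y
  · exact B hα x y hn hy (by omega)
  have n1 : (-y) ^ 2 - -y * (x - y) + (x - y) ^ 2 ≠ 0 := fun e => hn (by linear_combination e)
  rw [rot x y hn]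
  by_cases hx : (3 : ℤ) ∣ x - y
  · exact B hα _ _ n1 hx (by omega)
  rw [rot _ _ n1]
  have x3 : x % 3 = 0 := by
    rcases (by omega : y % 3 = 1 ∨ y % 3 = 2) with r | r <;> omega
  exact B hα _ _ (fun e => hn (by linear_combination e)) (by omega) (by omega)

end Pool.Agent.Lib.MP_65b7ad_nt.DS
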