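import Pool.Agent.Lib.MP_65b7ad_nt.DS.Bas

/-! Reciprocity for an arbitrary first argument. -/

open Finset

namespace Pool.Agent.Lib.MP_65b7ad_nt.DS

namespace RecB

theorem loc (h1 : NLSt) {l : ℕ} {P : Loc} (hl : l.Prime) (h3 : l ≠ 3) (h : P.Ok l) {x y : ℤ}
    (hy : y ≠ 0) (hn : x ^ 2 - x * y + y ^ 2 ≠ 0) :
    P.tm 3 x y + 2 * P.tm y x y - P.tm (x ^ 2 - x * y + y ^ 2) x y = 0 := by
  obtain ⟨e, n1, n2⟩ := h.zw_ne hn
  have y0 : (y : P.F) ≠ 0 := by exact_mod_cast hy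
  have s2 : (P.om ^ 2 - P.om) ^ 2 = -3 := by
    linear_combination (P.om ^ 2 - 3 * P.om + 3) * h.om_eq
  have s0 : P.om ^ 2 - P.om ≠ 0 := fun e => by
    rw [e] at s2
    norm_num at s2
  simp only [Loc.tm]
  rw [← e]
  have eb : (x : P.F) + y * P.om ^ 2 - (x + y * P.om) = y * (P.om ^ 2 - P.om) := by ring
  generalize (x : P.F) + y * P.om = b at n1 eb
  generalize (x : P.F) + y * P.om ^ 2 = b' at n2 eb
  have g0 : b / b' ≠ 0 := div_ne_zero n1 n2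
  have e1 : Nf (b / b') 1 (-1) 0 = y * (P.om ^ 2 - P.om) / b' := by
    rw [← eb, Nf]
    field_simp
    ring
  have st := h1 l P hl h3 h (b / b') 1 (-1) 0 g0
    (by rw [e1]; exact div_ne_zero (mul_ne_zero y0 s0) n2)
  rw [e1, h.T_div_right _ (mul_ne_zero y0 s0) n2, h.T_mul_right _ y0 s0] at st
  have e2 := h.T_pow_right (b / b') s0 2
  rw [s2, h.T_neg_right] at e2
  have e3 : P.T (b / b') (b * b') = 2 * P.T (b / b') b' := by
    rw [show b * b' = b / b' * b' ^ 2 by field_simp, h.T_mul_right _ g0 (pow_ne_zero 2 n2),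
      Loc.T_self, h.T_pow_right _ n2]
    push_cast
    ring
  rw [Loc.T_symm _ (b / b'), Loc.T_symm _ (b / b'), Loc.T_symm (b * b'), e3]
  push_cast at e2 ⊢
  rw [e2]
  linear_combination -2 * st

theorem nrm {x y : ℤ} (hx : ¬(3 : ℤ) ∣ x) (hy : (3 : ℤ) ∣ y) :
    ¬(3 : ℤ) ∣ x ^ 2 - x * y + y ^ 2 := fun e => by
  obtain ⟨k, rfl⟩ := hy
  have : (3 : ℤ) ∣ x ^ 2 := by
    have := e.sub (Dvd.intro (3 * k ^ 2 - x * k) rfl)
    rwa [show x ^ 2 - x * (3 * k) + (3 * k) ^ 2 - 3 * (3 * k ^ 2 - x * k) = x ^ 2 by ring] at this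
  exact hx (Int.prime_three.dvd_of_dvd_pow this)

theorem two (h1 : NLSt) (h2 : RecASt) {P : ℕ → Loc} (hP : FamOk P) {x k : ℤ} (hx : ¬(3 : ℤ) ∣ x)
    (hk : ¬(3 : ℤ) ∣ k) : RR P 3 x (3 * (3 * k)) = 0 := by
  have k0 : k ≠ 0 := fun e => hk (by simp [e])
  have k3 : 3 * k ≠ 0 := mul_ne_zero (by norm_num) k0
  have y0 : 3 * (3 * k) ≠ 0 := mul_ne_zero (by norm_num) k3
  have y3 : (3 : ℤ) ∣ 3 * (3 * k) := Dvd.intro _ rfl
  have n3 := nrm hx y3
  have n0 : x ^ 2 - x * (3 * (3 * k)) + (3 * (3 * k)) ^ 2 ≠ 0 := fun e => n3 (by simp [e])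
  have a1 := ((h2 P hP _ x _ n0).2 n3 y3 hx)
  have a2 := ((h2 P hP k x _ n0).2 hk y3 hx)
  have a3 := RR_mul_left hP (α := 3) (by norm_num) k3 n0
  rw [RR_mul_left hP (α := 3) (by norm_num) k0 n0, a2] at a3
  generalize 3 * (3 * k) = y at y0 y3 n0 a1 a3
  have m0 := mul_ne_zero (mul_ne_zero y0 n0) n0
  have a4 : RR P 3 x y + 2 * RR P y x y - RR P (x ^ 2 - x * y + y ^ 2) x y = 0 := by
    rw [RR_eq hP m0 ((mul_dvd_mul_right y3 _).mul_right _), RR_eq hP m0 (dvd_mul_right _ _),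
      RR_eq hP m0 ⟨y, by ring⟩, mul_sum, ← sum_add_distrib, ← sum_sub_distrib]
    exact sum_eq_zero fun l hl =>
      loc h1 (mem_pf.1 hl).1 (mem_pf.1 hl).2.1 (hP l (mem_pf.1 hl).1 (mem_pf.1 hl).2.1) y0 n0
  rw [a1, a3] at a4
  generalize RR P 3 x y = r at a4
  revert r
  decide

end RecB

theorem recB (h1 : NLSt) (h2 : RecASt) : RecBSt := by
  intro P hP α x y hα hy hx
  have y3 : (3 : ℤ) ∣ y := Dvd.dvd.trans (by norm_num) hy
  have n0 : x ^ 2 - x * y + y ^ 2 ≠ 0 := fun e => RecB.nrm hx y3 (by simp [e])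
  have r3 : RR P 3 x y = 0 := by
    obtain ⟨k, rfl⟩ := hy
    by_cases hk : (3 : ℤ) ∣ k
    · have a1 := RR_mul_right hP (α := 3) (x' := 1) (y' := 3 * (3 * 1)) (by norm_num) n0
        (by norm_num)
      rw [RecB.two h1 h2 hP (by norm_num) (by norm_num), add_zero] at a1
      rw [← a1, show x * (3 * (3 * 1)) + 9 * k * 1 - 9 * k * (3 * (3 * 1)) =
        3 * (3 * (x + k - 9 * k)) by ring]
      exact RecB.two h1 h2 hP (by omega) (by omega)
    · rw [show 9 * k = 3 * (3 * k) by ring]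
      exact RecB.two h1 h2 hP hx hk
  obtain ⟨α', e, hα'⟩ :=
    (FiniteMultiplicity.of_prime_left Int.prime_three hα).exists_eq_pow_mul_and_not_dvd
  rw [e]
  have a0 : α' ≠ 0 := fun e => hα' (by simp [e])
  generalize multiplicity 3 α = s
  induction s with
  | zero => simpa using (h2 P hP α' x y n0).2 hα' y3 hx
  | succ s ih =>
    rw [pow_succ', mul_assoc, RR_mul_left hP (by norm_num)
      (mul_ne_zero (pow_ne_zero _ (by norm_num)) a0) n0, r3, ih, add_zero]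

end Pool.Agent.Lib.MP_65b7ad_nt.DS
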