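import Pool.Agent.Lib.MP_65b7ad_nt.DS.Bas

/-! Reciprocity for the primary primes. -/

open Finset

namespace Pool.Agent.Lib.MP_65b7ad_nt.DS

namespace RecP

theorem ex_j {p : ℕ} (hp : p.Prime) (h1 : p % 3 = 1) {r t : ℤ} (hr : (p : ℤ) ∣ r ^ 2 + r + 1)
    (ht : ¬(p : ℤ) ∣ t) : ∃ j : ℕ, (p : ℤ) ∣ t ^ ((p - 1) / 3) - r ^ j := by
  have := Fact.mk hp
  simp only [← ZMod.intCast_zmod_eq_zero_iff_dvd] at hr ht ⊢
  push_cast at hr ⊢
  have e : ((t : ZMod p) ^ ((p - 1) / 3)) ^ 3 = 1 := by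
    rw [← pow_mul, show (p - 1) / 3 * 3 = p - 1 by omega, ZMod.pow_card_sub_one_eq_one ht]
  generalize (t : ZMod p) ^ ((p - 1) / 3) = x at e
  have : (x - r ^ 0) * (x - r ^ 1) * (x - r ^ 2) = 0 := by
    linear_combination e + (-x ^ 2 + x * r - r + 1) * hr
  rcases mul_eq_zero.1 this with h | h
  · rcases mul_eq_zero.1 h with h | h
    exacts [⟨0, h⟩, ⟨1, h⟩]
  · exact ⟨2, h⟩

theorem of_primes {P : ℕ → Loc} (hP : FamOk P) {a b : ℤ} (hn : a ^ 2 - a * b + b ^ 2 ≠ 0)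
    {α : ℤ} (hα : α ≠ 0) (h : ∀ l : ℕ, l.Prime → (l : ℤ) ∣ α → RR P l a b = 0) :
    RR P α a b = 0 := by
  have h1 : ∀ n : ℕ, n ≠ 0 → (∀ l : ℕ, l.Prime → l ∣ n → RR P l a b = 0) → RR P n a b = 0 := by
    intro n
    induction n using induction_on_primes with
    | zero => exact fun e => absurd rfl e
    | one =>
      exact fun _ _ => sum_eq_zero fun l hl => by
        simpa [Loc.tm] using (hP l (mem_pf.1 hl).1 (mem_pf.1 hl).2.1).T_one_left _
    | prime_mul q n hq ih =>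
      intro h0 h
      have n0 : n ≠ 0 := right_ne_zero_of_mul h0
      rw [Nat.cast_mul, RR_mul_left hP (by exact_mod_cast hq.ne_zero) (by exact_mod_cast n0) hn,
        h q hq (dvd_mul_right _ _), ih n0 fun l hl e => h l hl (e.mul_left _), add_zero]
  have h2 := h1 α.natAbs (Int.natAbs_ne_zero.2 hα) fun l hl e => h l hl (Int.natCast_dvd.2 e)
  rcases Int.natAbs_eq α with e | e
  · rwa [e]
  · have h3 : RR P (-1) a b = 0 := sum_eq_zero fun l hl => by
      have k := hP l (mem_pf.1 hl).1 (mem_pf.1 hl).2.1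
      simpa [Loc.tm, k.T_neg_left] using k.T_one_left _
    rw [e, ← neg_one_mul, RR_mul_left hP (by norm_num)
      (by exact_mod_cast Int.natAbs_ne_zero.2 hα) hn, h2, h3, add_zero]

end RecP

open RecP in
theorem recP (h1 : GaussSt) (h2 : IdxSt) : RecPSt := by
  intro P hP p hp p1
  have p3 : p ≠ 3 := by omega
  have h := hP p hp p3
  obtain ⟨r, hr⟩ := h.om_int p1
  have r0 : (p : ℤ) ∣ r ^ 2 + r + 1 := by
    rw [← h.sm_int_iff hp]
    have := h.sm_mul (h.sm_neg hr) (h.it_add (h.it_add (h.it_int r) h.it_om) h.it_one)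
    convert this using 1
    push_cast
    linear_combination h.om_eq
  obtain ⟨a, b, e, a2, b3, ab, hG⟩ := h1 p r hp p1 r0
  have p0 : (p : ℤ) ≠ 0 := by exact_mod_cast hp.ne_zero
  have hn : a ^ 2 - a * b + b ^ 2 ≠ 0 := e ▸ p0
  have pd : ∀ l : ℕ, l.Prime → l ≠ p → ¬(l : ℤ) ∣ a ^ 2 - a * b + b ^ 2 := fun l hl n d =>
    n ((Nat.prime_dvd_prime_iff_eq hl hp).1 (by rw [e] at d; exact_mod_cast d))
  obtain ⟨z, z1, z2⟩ := h.zw_ne hn
  rw [e, Int.cast_natCast] at z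
  have s1 : (P p).sm (a + b * (P p).om) := by
    have := h.sm_add ((h.sm_int_iff hp _).2 ab) (h.mul_sm (h.it_int b) hr)
    convert this using 1
    push_cast
    ring
  have v0 := h.v_mul _ _ z1 z2
  rw [z, h.v_l hp] at v0
  have v1 := s1.resolve_left z1
  have v2 := (h.it_add (h.it_int a) (h.it_mul (h.it_int b) (h.it_pow h.it_om 2))).resolve_left z2
  have v3 : (P p).v (a + b * (P p).om ^ 2) = 0 := by omega
  have v4 : (P p).v ((a + b * (P p).om) / (a + b * (P p).om ^ 2)) = 1 := by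
    rw [h.v_div z1 z2]
    omega
  have tp : ∀ t : ℤ, ¬(p : ℤ) ∣ t → (P p).tm t a b = (P p).c t := fun t ht => by
    simp [Loc.tm, Loc.T, v4, (h.v_int_zero ht).2]
  have A : ∀ l : ℕ, l.Prime → l ≠ 3 → l ≠ p → RR P l a b = 0 := fun l hl l3 lp => by
    have k := hP l hl l3
    have l0 : (l : ℤ) ≠ 0 := by exact_mod_cast hl.ne_zero
    have nd : ¬(p : ℤ) ∣ l := fun d =>
      lp ((Nat.prime_dvd_prime_iff_eq hp hl).1 (by exact_mod_cast d)).symm
    obtain ⟨j, hj⟩ := ex_j hp p1 r0 nd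
    obtain ⟨g, g', hg⟩ := hG l j hl l3 lp hj
    obtain ⟨y, y1, y2⟩ := k.zw_ne hn
    obtain ⟨u1, u2⟩ := k.zw_unit hl (pd l hl lp)
    rw [e, Int.cast_natCast] at y
    have c1 := k.c_eq hl l3 (x := p * (a + b * (P l).om)) (j := j)
      (by rw [← y]; exact mul_ne_zero (mul_ne_zero y1 y2) y1)
      (by rw [← y, k.v_mul _ _ (mul_ne_zero y1 y2) y1, k.v_mul _ _ y1 y2, u1, u2]; rfl) (by
        rw [hg _ _ k.om_eq, add_sub_cancel_left]
        exact k.sm_mul (by simpa using (k.sm_int_iff hl l).2 dvd_rfl)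
          (k.it_add (k.it_int g) (k.it_mul (k.it_int g') k.it_om)))
    rw [← y, k.c_mul _ _ (mul_ne_zero y1 y2) y1, k.c_mul _ _ y1 y2] at c1
    rw [RR, sum_eq_add_of_mem l p (mem_pf.2 ⟨hl, l3, dvd_mul_right _ _, mul_ne_zero l0 hn⟩)
      (mem_pf.2 ⟨hp, p3, e ▸ dvd_mul_left _ _, mul_ne_zero l0 hn⟩) lp fun q hq n => ?_, tp l nd,
      (h2 p (P p) hp p3 h).2.2.2 p1 r l j hr nd hj, Loc.tm, Loc.T, Int.cast_natCast, k.c_l,
      k.v_l hl, k.c_div y1 y2]
    · have t3 : (3 : ZMod 3) = 0 := rfl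
      push_cast
      linear_combination c1 - (P l).c (a + b * (P l).om) * t3
    · obtain ⟨q1, -, q2, -⟩ := mem_pf.1 hq
      rcases (Nat.prime_iff_prime_int.1 q1).dvd_or_dvd q2 with d | d
      · exact absurd ((Nat.prime_dvd_prime_iff_eq q1 hl).1 (by exact_mod_cast d)) n.1
      · exact absurd d (pd q q1 n.2)
  have ts : ∀ (l : ℕ), (P l).Ok l → ((2 * a - b : ℤ) : (P l).F) =
      a + b * (P l).om + (a + b * (P l).om ^ 2) := fun l k => by
    push_cast
    linear_combination (-b : (P l).F) * k.om_eq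
  obtain ⟨t0, t1, t2⟩ := h.close_unit hp p3 z2 v3 (x := ((2 * a - b : ℤ) : (P p).F)) (by
    rw [ts p h, add_sub_cancel_right]
    exact s1)
  have t3 : ¬(p : ℤ) ∣ 2 * a - b := fun d => Loc.Ok.not_sm t0 t1 ((h.sm_int_iff hp _).2 d)
  have t4 : 2 * a - b ≠ 0 := fun d => t3 (d ▸ dvd_zero _)
  have B : RR P (2 * a - b) a b = 0 := of_primes hP hn t4 fun l hl d =>
    A l hl (by rintro rfl; omega) (by rintro rfl; exact t3 d)
  rw [RR, sum_eq_single_of_mem p (mem_pf.2 ⟨hp, p3, e ▸ dvd_mul_left _ _, mul_ne_zero t4 hn⟩)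
    fun l hl n => ?_, tp _ t3, t2] at B
  · have C : RR P p a b = 0 := by
      have c0 := h.c_mul _ _ z1 z2
      rw [z, h.c_l, B, add_zero] at c0
      rw [RR, sum_eq_single_of_mem p (mem_pf.2 ⟨hp, p3, dvd_mul_right _ _, mul_ne_zero p0 hn⟩)
        fun l hl n => ?_, Loc.tm, Loc.T, Int.cast_natCast, h.c_l, h.c_div z1 z2, B, ← c0]
      · simp
      · obtain ⟨q1, -, q2, -⟩ := mem_pf.1 hl
        rcases (Nat.prime_iff_prime_int.1 q1).dvd_or_dvd q2 with d | d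
        · exact absurd ((Nat.prime_dvd_prime_iff_eq q1 hp).1 (by exact_mod_cast d)) n
        · exact absurd d (pd l q1 n)
    refine ⟨a, b, e, a2, b3, fun α hα => of_primes hP hn (by rintro rfl; simp at hα)
      fun l hl d => ?_⟩
    by_cases lp : l = p
    · rw [lp, C]
    · exact A l hl (by rintro rfl; exact hα d) lp
  · obtain ⟨q1, q3, q2, -⟩ := mem_pf.1 hl
    have k := hP l q1 q3
    have d := ((Nat.prime_iff_prime_int.1 q1).dvd_or_dvd q2).resolve_right (pd l q1 n)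
    obtain ⟨-, y1, y2⟩ := k.zw_ne hn
    obtain ⟨u1, u2⟩ := k.zw_unit q1 (pd l q1 n)
    have c := (k.close_unit q1 q3 (neg_ne_zero.2 y2) (by rw [k.v_neg, u2])
      (x := a + b * (P l).om) (by
        rw [sub_neg_eq_add, ← ts l k]
        exact (k.sm_int_iff q1 _).2 d)).2.2
    rw [k.c_neg] at c
    simp [Loc.tm, Loc.T, k.v_div y1 y2, k.c_div y1 y2, u1, u2, c]

end Pool.Agent.Lib.MP_65b7ad_nt.DS
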