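import Pool.Agent.Lib.MP_65b7ad_nt.DS.Bas
import Pool.Agent.Lib.MP_65b7ad_nt.DS.NZ

/-! Short vectors by the pigeonhole principle. -/

open Finset

namespace Pool.Agent.Lib.MP_65b7ad_nt.DS

namespace SV

lemma pigeon {ι : Type} [Fintype ι] [DecidableEq ι] {n : ℕ} (hn : Fintype.card ι = n) (h0 : n ≠ 0)
    {p : ℕ} (hp : 0 < p) (c : ι → ℤ) : ∃ (x : ι → ℤ) (B : ℤ), x ≠ 0 ∧ B ^ n ≤ p ∧
      (∀ k, |x k| ≤ B) ∧ (p : ℤ) ∣ ∑ k, x k * c k := by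
  have hp' : (0 : ℤ) < p := by exact_mod_cast hp
  obtain ⟨x, hx, y, hy, hne, e⟩ := exists_ne_map_eq_of_card_lt_of_maps_to
    (s := Fintype.piFinset fun _ : ι => Icc (0 : ℤ) (Nat.nthRoot n p)) (t := Ico (0 : ℤ) p)
    (f := fun x => (∑ k, x k * c k) % p) (by
      simpa [hn] using Nat.lt_pow_nthRoot_add_one h0 p)
    fun x _ => mem_coe.2 (mem_Ico.2 ⟨Int.emod_nonneg _ hp'.ne', Int.emod_lt_of_pos _ hp'⟩)
  refine ⟨x - y, Nat.nthRoot n p, sub_ne_zero.2 hne, ?_, fun k => ?_, ?_⟩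
  · exact_mod_cast Nat.pow_nthRoot_le (.inl h0)
  · have h1 := mem_Icc.1 (Fintype.mem_piFinset.1 hx k)
    have h2 := mem_Icc.1 (Fintype.mem_piFinset.1 hy k)
    rw [Pi.sub_apply, abs_le]
    constructor <;> linarith [h1.1, h1.2, h2.1, h2.2]
  · simp only [Pi.sub_apply, sub_mul, sum_sub_distrib]
    exact (Int.ModEq.dvd e.symm :)

lemma cof {p : ℕ} (hp : 0 < p) {N K : ℤ} (h0 : N ≠ 0) (hd : (p : ℤ) ∣ N) (hK : K < p)
    (hN : |N| ≤ K * p) : ∃ m : ℤ, N = p * m ∧ m ≠ 0 ∧ ¬(p : ℤ) ∣ m ∧ |m| ≤ K := by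
  obtain ⟨m, rfl⟩ := hd
  have hp' : (0 : ℤ) < p := by exact_mod_cast hp
  have hm := right_ne_zero_of_mul h0
  rw [abs_mul, abs_of_pos hp', mul_comm K] at hN
  have h1 := le_of_mul_le_mul_left hN hp'
  refine ⟨m, rfl, hm, fun e => ?_, h1⟩
  linarith [Int.le_abs_of_dvd hm e]

lemma dvd_N3 {P : Loc} {p : ℕ} (h : P.Ok p) (hp : p.Prime) {d : ℤ} {θ : P.F} (hθ : θ ^ 3 = d)
    {γ : V3} (hs : P.sm (ev3 γ θ)) : (p : ℤ) ∣ N3 d γ := by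
  rw [← h.sm_int_iff hp, ← ev3_adj hθ]
  exact h.sm_mul hs (h.it_ev3 _ (h.it_cube hθ))

lemma ndvd {p : ℕ} {d : ℤ} (hd : 1 ≤ d) (h : d < p) : ¬(p : ℤ) ∣ d := fun e => by
  linarith [Int.le_of_dvd (by linarith) e]

end SV

open SV in
theorem sv3 (h : R3St) : SV3St := by
  intro P hP d p hd hc hp h3 hcd hlt
  have ok := hP p hp h3
  obtain ⟨hθ, r, hr⟩ := ok.th_res (ndvd hd (by nlinarith)) hcd
  obtain ⟨γ, B, h0, hB, hγ, hdv⟩ := pigeon (ι := Fin 3) (n := 3) (by simp) (by norm_num) hp.pos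
    fun k => r ^ k.val
  have hs : (P p).sm (ev3 γ ((P p).th d)) := by
    have e : ev3 γ ((P p).th d) = ((∑ k : Fin 3, γ k * r ^ k.val : ℤ) : (P p).F) +
        ((P p).th d - r) * (γ 1 + γ 2 * ((P p).th d + r)) := by
      simp only [ev3, Fin.sum_univ_three, Fin.val_zero, Fin.val_one, Fin.val_two]
      push_cast
      ring
    rw [e]
    exact ok.sm_add ((ok.sm_int_iff hp _).2 hdv) (ok.sm_mul hr (ok.it_add (ok.it_int _)
      (ok.it_mul (ok.it_int _) (ok.it_add (ok.it_cube hθ) (ok.it_int _)))))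
  obtain ⟨m, e, m0, hm, hK⟩ := cof hp.pos (fun e => h0 (NZ.n3 hc e)) (dvd_N3 ok hp hθ hs) hlt
    ((h.2.2.2 d B γ hd hγ).trans (mul_le_mul_of_nonneg_left hB (by positivity)))
  exact ⟨γ, m, ⟨e, m0, hm, hθ, hs⟩, hK⟩

open SV in
theorem sv9 (_h : R3St) (h9 : R9St) : SV9St := by
  intro P hP d d' p hd hd' hN hp h3 hcd hcd' hlt
  have ok := hP p hp h3
  have h1 : d * d' ≤ (d * d') ^ 8 := le_self_pow₀ (by nlinarith) (by norm_num)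
  obtain ⟨hθ, r, hr⟩ := ok.th_res (ndvd hd (by nlinarith)) hcd
  obtain ⟨hθ', r', hr'⟩ := ok.th_res (ndvd hd' (by nlinarith)) hcd'
  obtain ⟨Δ, B, h0, hB, hΔ, hdv⟩ := pigeon (ι := Fin 3 × Fin 3) (n := 9) (by simp) (by norm_num)
    hp.pos fun k => r ^ k.1.val * r' ^ k.2.val
  have i1 := ok.it_cube hθ
  have i2 := ok.it_cube hθ'
  have hs : (P p).sm (ev9 Δ ((P p).th d) ((P p).th d')) := by
    have e : ev9 Δ ((P p).th d) ((P p).th d') =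
        ((∑ k : Fin 3 × Fin 3, Δ k * (r ^ k.1.val * r' ^ k.2.val) : ℤ) : (P p).F) +
        ∑ k : Fin 3 × Fin 3, Δ k * (((P p).th d ^ k.1.val - r ^ k.1.val) * (P p).th d' ^ k.2.val +
          r ^ k.1.val * ((P p).th d' ^ k.2.val - r' ^ k.2.val)) := by
      push_cast
      rw [ev9, ← sum_add_distrib]
      exact sum_congr rfl fun k _ => by ring
    rw [e]
    exact ok.sm_add ((ok.sm_int_iff hp _).2 hdv) (ok.sm_sum fun k _ => ok.mul_sm (ok.it_int _)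
      (ok.sm_add (ok.sm_mul (ok.sm_pow_sub i1 (ok.it_int _) hr _) (ok.it_pow i2 _))
        (ok.mul_sm (ok.it_pow (ok.it_int _) _) (ok.sm_pow_sub i2 (ok.it_int _) hr' _))))
  have j1 := ok.it_om
  have j2 := ok.it_pow j1 2
  have s1 : (P p).sm (ev3 (n9 d d' Δ) ((P p).th d)) := by
    rw [h9.2.1 _ d d' _ _ _ ok.om_eq hθ hθ']
    exact ok.sm_mul (ok.sm_mul hs (ok.it_ev9 _ i1 (ok.it_mul j1 i2)))
      (ok.it_ev9 _ i1 (ok.it_mul j2 i2))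
  have s2 : (P p).sm (ev3 (n9 d' d (sw Δ)) ((P p).th d')) := by
    rw [h9.2.1 _ d' d _ _ _ ok.om_eq hθ' hθ, (h9.1 _ d d' _ _ hθ hθ' Δ Δ).2]
    exact ok.sm_mul (ok.sm_mul hs (ok.it_ev9 _ i2 (ok.it_mul j1 i1)))
      (ok.it_ev9 _ i2 (ok.it_mul j2 i1))
  obtain ⟨m, e, m0, hm, hK⟩ := cof hp.pos (hN Δ h0) (dvd_N3 ok hp hθ s1) hlt
    ((h9.2.2.2 d d' B B Δ Δ hd hd' hΔ hΔ).2.trans (mul_le_mul_of_nonneg_left hB (by positivity)))
  exact ⟨Δ, m, fun k => (pow_le_pow_left₀ (abs_nonneg _) (hΔ k) 9).trans hB, e, hK,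
    ⟨e, m0, hm, hθ, s1⟩, (h9.2.2.1 d d' Δ Δ).2.trans e, m0, hm, hθ', s2⟩

end Pool.Agent.Lib.MP_65b7ad_nt.DS
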