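import Pool.Agent.Lib.MP_65b7ad_nt.DS.Bas

/-! The subgroup `V0`. -/

set_option autoImplicit false

open Finset

namespace Pool.Agent.Lib.MP_65b7ad_nt.DS

namespace VZero

theorem step {E : Type} [AddCommGroup E] [Fintype E] (Q : E → Prop) [DecidablePred Q]
    (f : E → ZMod 3)
    (hQ : ∀ x y, Q x → Q y → Q (x - y)) (hf : ∀ x y, f (x - y) = f x - f y) :
    #(univ.filter Q) ≤ 3 * #(univ.filter fun x => Q x ∧ f x = 0) := by
  rw [card_eq_sum_card_fiberwise (f := f) (t := univ) fun _ _ => mem_univ _]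
  refine (sum_le_card_nsmul _ _ _ fun j _ => ?_).trans (by rw [card_univ, ZMod.card, smul_eq_mul])
  rcases ((univ.filter Q).filter fun x => f x = j).eq_empty_or_nonempty with e | ⟨y, hy⟩
  · rw [e]
    exact Nat.zero_le _
  refine card_le_card_of_injOn (· - y) (fun x hx => ?_) fun x _ z _ e => sub_left_injective e
  simp only [coe_filter, mem_filter, mem_univ, true_and, Set.mem_ofPred_eq] at hx hy ⊢
  exact ⟨hQ _ _ hx.1 hy.1, by rw [hf, hx.2, hy.2, sub_self]⟩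

theorem steps {E : Type} [AddCommGroup E] [Fintype E] (f : ℕ → E → ZMod 3) (I : Finset ℕ)
    (hf : ∀ i ∈ I, ∀ x y, f i (x - y) = f i x - f i y) :
    Fintype.card E ≤ 3 ^ #I * #(univ.filter fun x => ∀ i ∈ I, f i x = 0) := by
  induction I using Finset.induction_on with
  | empty => simp
  | insert j I hj ih =>
    refine (ih fun i hi => hf i (mem_insert_of_mem hi)).trans ?_
    rw [card_insert_of_notMem hj, pow_succ, mul_assoc]
    refine Nat.mul_le_mul_left _ ((step _ (f j) (fun x y hx hy i hi => ?_)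
      (hf j (mem_insert_self _ _))).trans (Nat.mul_le_mul_left _ (card_le_card fun x hx => ?_)))
    · rw [hf i (mem_insert_of_mem hi), hx i hi, hy i hi, sub_self]
    · simp only [mem_filter, mem_univ, true_and, forall_mem_insert] at hx ⊢
      exact hx.symm

theorem lin {S : Finset ℕ} (Q : ℤ → Prop) (f : ℤ → ZMod 3) (h1 : Q 1)
    (hQ : ∀ x y, Q x → Q y → Q (x * y) ∧ f (x * y) = f x + f y) (hS : ∀ l ∈ S, Q l)
    (e : S → ZMod 3) : Q (dd S e) ∧ f (dd S e) = ∑ l : S, e l * f l := by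
  have f1 : f 1 = 0 := by simpa using (hQ 1 1 h1 h1).2
  have pw : ∀ x, Q x → ∀ n : ℕ, Q (x ^ n) ∧ f (x ^ n) = n * f x := fun x hx n => by
    induction n with
    | zero => simp [h1, f1]
    | succ n ih =>
      rw [pow_succ, (hQ _ _ ih.1 hx).2, ih.2]
      exact ⟨(hQ _ _ ih.1 hx).1, by push_cast; ring⟩
  unfold dd
  induction (univ : Finset S) using Finset.induction_on with
  | empty => simp [h1, f1]
  | insert l s hl ih =>
    have := pw _ (hS l l.2) (e l).val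
    rw [prod_insert hl, sum_insert hl, (hQ _ _ this.1 ih.1).2, this.2, ih.2, ZMod.natCast_zmod_val]
    exact ⟨(hQ _ _ this.1 ih.1).1, rfl⟩

theorem lin' {S : Finset ℕ} (Q : ℤ → Prop) (f : ℤ → ZMod 3) (h1 : Q 1)
    (hQ : ∀ x y, Q x → Q y → Q (x * y) ∧ f (x * y) = f x + f y) (hS : ∀ l ∈ S, Q l)
    (e e' : S → ZMod 3) : f (dd S (e - e')) = f (dd S e) - f (dd S e') := by
  simp only [(lin Q f h1 hQ hS _).2, Pi.sub_apply, sub_mul, sum_sub_distrib]

/-- The class modulo `± 1` of a unit modulo nine. -/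
def ph (n : ℤ) : ZMod 3 := if n % 9 = 2 ∨ n % 9 = 7 then 1 else if n % 9 = 4 ∨ n % 9 = 5 then 2 else 0

theorem ph_mul (x y : ℤ) (hx : ¬(3 : ℤ) ∣ x) (hy : ¬(3 : ℤ) ∣ y) :
    ¬(3 : ℤ) ∣ x * y ∧ ph (x * y) = ph x + ph y := by
  refine ⟨fun h => (Int.prime_three.dvd_or_dvd h).elim hx hy, ?_⟩
  unfold ph
  rw [Int.mul_emod]
  have a : ∀ z : ℤ, ¬(3 : ℤ) ∣ z → z % 9 = 1 ∨ z % 9 = 2 ∨ z % 9 = 4 ∨ z % 9 = 5 ∨ z % 9 = 7 ∨
    z % 9 = 8 := fun z _ => by omega
  rcases a x hx with e | e | e | e | e | e <;> rcases a y hy with e' | e' | e' | e' | e' | e' <;>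
    rw [e, e'] <;> decide

theorem ph_zero {x : ℤ} (hx : ¬(3 : ℤ) ∣ x) : Pm9 x ↔ ph x = 0 := by
  unfold ph Pm9
  split_ifs with a b
  · exact iff_of_false (by omega) (by decide)
  · exact iff_of_false (by omega) (by decide)
  · exact iff_of_true (by omega) rfl

theorem cong {P : Loc} {l m m' k : ℕ} (h : P.Ok l) (hl : l.Prime) (h3 : l ≠ 3) (hk : k ≠ 0)
    (hm : ¬l ∣ m') (e : m ≡ m' [MOD l]) {n n' : ℕ} (hn : n = k * m) (hn' : n' = k * m') :
    P.v (n : ℤ) = P.v (n' : ℤ) ∧ P.c (n : ℤ) = P.c (n' : ℤ) := by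
  obtain ⟨a, b⟩ := h.v_int_zero (n := m') (by exact_mod_cast hm)
  obtain ⟨a', b', c'⟩ := h.close_unit hl h3 a b (x := ((m : ℤ) : P.F)) (by
    rw [← Int.cast_sub, h.sm_int_iff hl]
    exact e.symm.dvd)
  have k0 : ((k : ℤ) : P.F) ≠ 0 := by exact_mod_cast hk
  rw [hn, hn', Nat.cast_mul, Nat.cast_mul, Int.cast_mul, Int.cast_mul, h.v_mul _ _ k0 a',
    h.v_mul _ _ k0 a, h.c_mul _ _ k0 a', h.c_mul _ _ k0 a, b, b', c']
  exact ⟨rfl, rfl⟩

end VZero

open VZero Classical in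
theorem v0 (h : IdxSt) : V0St := by
  intro P hP a b c S p q ⟨ha, hb, hc, hS⟩ hp hq
  have n0 : a * b * c ≠ 0 := by positivity
  have s0 : ∀ l ∈ S, (l : ℤ) ≠ 0 := fun l hl => by exact_mod_cast (hS l hl).1.ne_zero
  have s3 : ∀ l ∈ S, ¬(3 : ℤ) ∣ l := fun l hl e => (hS l hl).2.1
    ((Nat.prime_dvd_prime_iff_eq Nat.prime_three (hS l hl).1).1 (by exact_mod_cast e)).symm
  have d3 : ∀ e, ¬(3 : ℤ) ∣ dd S e := fun e => (lin _ ph (by decide) ph_mul s3 e).1
  have d0 : ∀ e, dd S e ≠ 0 := fun e k => d3 e (k ▸ dvd_zero _)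
  have lp := lin' _ ph (by decide) ph_mul s3
  have lc : ∀ r : ℕ, r.Prime → r ≠ 3 → ∀ e e', (P r).c (dd S (e - e') : ℤ) =
      (P r).c (dd S e : ℤ) - (P r).c (dd S e' : ℤ) := fun r h1 h2 =>
    lin' (· ≠ 0) (fun n => (P r).c n) one_ne_zero (fun x y hx hy => ⟨mul_ne_zero hx hy, by
      rw [Int.cast_mul, (hP r h1 h2).c_mul _ _ (by exact_mod_cast hx) (by exact_mod_cast hy)]⟩) s0
  have lT : ∀ r : ℕ, r.Prime → r ≠ 3 → ∀ (z : (P r).F) e e', (P r).T (dd S (e - e') : ℤ) z =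
      (P r).T (dd S e : ℤ) z - (P r).T (dd S e' : ℤ) z := fun r h1 h2 z =>
    lin' (· ≠ 0) (fun n => (P r).T n z) one_ne_zero (fun x y hx hy => ⟨mul_ne_zero hx hy, by
      rw [Int.cast_mul, (hP r h1 h2).T_mul_left (by exact_mod_cast hx) (by exact_mod_cast hy)]⟩) s0
  refine ⟨?_, ?_, fun p' q' hp' hq' e1 e2 => ?_⟩
  · have k := steps (fun r e => if r = 3 then ph (dd S e) else if r ∈ S then
      (P r).T (dd S e : ℤ) ((a * p * (b * q) * c : ℕ) : ℤ) else (P r).c (dd S e : ℤ))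
      (insert 3 ((a * b * c).primeFactors.filter fun l => l % 3 = 1)) (fun r hr x y => by
        split_ifs with h1 h2
        · exact lp x y
        all_goals
          have := Nat.prime_of_mem_primeFactors
            (mem_filter.1 ((mem_insert.1 hr).resolve_left h1)).1
        exacts [lT r this h1 _ x y, lc r this h1 x y])
    rw [Fintype.card_fun, ZMod.card, Fintype.card_coe, card_insert_of_notMem (by simp)] at k
    refine k.trans (Nat.mul_le_mul_left _ (card_le_card fun e he => ?_))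
    have he := (mem_filter.1 he).2
    have two : ∀ r : ℕ, r.Prime → r ≠ 3 → r % 3 ≠ 1 → ∀ n : ℤ, n ≠ 0 → (P r).c n = 0 :=
      fun r h1 h2 h4 => (h r _ h1 h2 (hP r h1 h2)).1 (by
        have : r % 3 ≠ 0 := fun e => h2
          ((Nat.prime_dvd_prime_iff_eq Nat.prime_three h1).1 (Nat.dvd_of_mod_eq_zero e)).symm
        omega)
    refine mem_filter.2 ⟨mem_univ _, fun l hl => ?_, fun r hr h1 h2 => ?_, (ph_zero (d3 e)).2 ?_⟩
    · obtain ⟨a1, a2, a3, -⟩ := hS l hl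
      by_cases k : l % 3 = 1
      · simpa only [if_neg a2, if_pos hl] using he l
          (mem_insert_of_mem (mem_filter.2 ⟨Nat.mem_primeFactors.2 ⟨a1, a3, n0⟩, k⟩))
      · have := hp.1.pos
        have := hq.1.pos
        rw [Loc.T, two l a1 a2 k _ (d0 e), two l a1 a2 k _ (by positivity), mul_zero, mul_zero,
          sub_zero]
    · by_cases k : r % 3 = 1
      · simpa only [if_neg h2, if_neg h1] using he r (mem_insert_of_mem (mem_filter.2 ⟨hr, k⟩))
      · exact two r (Nat.prime_of_mem_primeFactors hr) h2 k _ (d0 e)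
    · simpa only [if_pos] using he 3 (mem_insert_self _ _)
  · have cl : ∀ x y, x ∈ V0 P a b c S p q → y ∈ V0 P a b c S p q → x - y ∈ V0 P a b c S p q := by
      intro x y hx hy
      obtain ⟨-, x1, x2, x3⟩ := mem_filter.1 hx
      obtain ⟨-, y1, y2, y3⟩ := mem_filter.1 hy
      refine mem_filter.2 ⟨mem_univ _, fun l hl => ?_, fun r hr h1 h2 => ?_, (ph_zero (d3 _)).2 ?_⟩
      · rw [lT l (hS l hl).1 (hS l hl).2.1, x1 l hl, y1 l hl, sub_self]
      · rw [lc r (Nat.prime_of_mem_primeFactors hr) h2, x2 r hr h1 h2, y2 r hr h1 h2, sub_self]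
      · rw [lp, (ph_zero (d3 _)).1 x3, (ph_zero (d3 _)).1 y3, sub_self]
    have k1 := step (· ∈ V0 P a b c S p q) (fun e => (P p).c (dd S e : ℤ)) cl (lc p hp.1 hp.2.1)
    have k2 := step (fun e => e ∈ V0 P a b c S p q ∧ (P p).c (dd S e : ℤ) = 0)
      (fun e => (P q).c (dd S e : ℤ)) (fun x y hx hy => ⟨cl x y hx.1 hy.1, by rw [lc p hp.1 hp.2.1, hx.2, hy.2, sub_self]⟩)
      (lc q hq.1 hq.2.1)
    rw [filter_univ_mem] at k1
    refine k1.trans ((Nat.mul_le_mul_left 3 k2).trans ?_)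
    rw [← mul_assoc]
    refine Nat.mul_le_mul_left _ (card_le_card fun e he => ?_)
    have := (mem_filter.1 he).2
    exact mem_filter.2 ⟨this.1.1, this.1.2, this.2⟩
  · have nd : ∀ l ∈ S, ∀ r, Fr a b c r → ¬l ∣ r := fun l hl r hr e => hr.2.2
      ((Nat.prime_dvd_prime_iff_eq (hS l hl).1 hr.1).1 e ▸ (hS l hl).2.2.1)
    have md : ∀ l ∈ S, ∀ {x y : ℕ}, x ≡ y [MOD ∏ l ∈ S, l] → x ≡ y [MOD l] :=
      fun l hl _ _ e => e.of_dvd (dvd_prod_of_mem _ hl)
    refine ⟨filter_congr fun e _ => and_congr_left' (forall₂_congr fun l hl => ?_),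
      forall₂_congr fun l hl => ?_⟩
    all_goals obtain ⟨a1, a2, -⟩ := hS l hl
    · obtain ⟨k1, k2⟩ := cong (hP l a1 a2) a1 a2 n0 (fun k => (a1.dvd_mul.1 k).elim
        (nd l hl _ hp') (nd l hl _ hq')) ((md l hl e1).mul (md l hl e2))
        (n := a * p * (b * q) * c) (n' := a * p' * (b * q') * c) (by ring) (by ring)
      rw [Loc.T, Loc.T, k1, k2]
    · obtain ⟨k1, k2⟩ := cong (hP l a1 a2) a1 a2 (k := a * c ^ 2) (by positivity) (nd l hl _ hp')
        (md l hl e1) (n := a * p * c ^ 2) (n' := a * p' * c ^ 2) (by ring) (by ring)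
      obtain ⟨k3, k4⟩ := cong (hP l a1 a2) a1 a2 (k := b * c ^ 2) (by positivity) (nd l hl _ hq')
        (md l hl e2) (n := b * q * c ^ 2) (n' := b * q' * c ^ 2) (by ring) (by ring)
      rw [Loc.T, Loc.T, k1, k2, k3, k4]

end Pool.Agent.Lib.MP_65b7ad_nt.DS
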