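import Pool.Agent.Lib.MP_65b7ad_nt.DS.F
import Pool.Agent.Lib.MP_65b7ad_nt.DS.Loc1
import Pool.Agent.Lib.MP_65b7ad_nt.DS.Loc2
import Pool.Agent.Lib.MP_65b7ad_nt.DS.NL
import Pool.Agent.Lib.MP_65b7ad_nt.DS.Idx
import Pool.Agent.Lib.MP_65b7ad_nt.DS.Gauss
import Pool.Agent.Lib.MP_65b7ad_nt.DS.RecP
import Pool.Agent.Lib.MP_65b7ad_nt.DS.RecA
import Pool.Agent.Lib.MP_65b7ad_nt.DS.RecB
import Pool.Agent.Lib.MP_65b7ad_nt.DS.R3
import Pool.Agent.Lib.MP_65b7ad_nt.DS.R9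
import Pool.Agent.Lib.MP_65b7ad_nt.DS.Id2
import Pool.Agent.Lib.MP_65b7ad_nt.DS.KeyL
import Pool.Agent.Lib.MP_65b7ad_nt.DS.Key3
import Pool.Agent.Lib.MP_65b7ad_nt.DS.Key
import Pool.Agent.Lib.MP_65b7ad_nt.DS.CL
import Pool.Agent.Lib.MP_65b7ad_nt.DS.VZero
import Pool.Agent.Lib.MP_65b7ad_nt.DS.Dep
import Pool.Agent.Lib.MP_65b7ad_nt.DS.K12
import Pool.Agent.Lib.MP_65b7ad_nt.DS.SV
import Pool.Agent.Lib.MP_65b7ad_nt.DS.NZ
import Pool.Agent.Lib.MP_65b7ad_nt.DS.Xq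
import Pool.Agent.Lib.MP_65b7ad_nt.DS.Box
import Pool.Agent.Lib.MP_65b7ad_nt.DS.BL
import Pool.Agent.Lib.MP_65b7ad_nt.DS.Cell

/-! The steps put together. -/

namespace Pool.Agent.Lib.MP_65b7ad_nt.DS

theorem famAll : ∃ P : ℕ → Loc, FamOk P := fam loc1 loc2

theorem recAAll : RecASt := recA (recP gauss idx) idx

theorem recBAll : RecBSt := recB nl recAAll

theorem keyAll : KeySt := key (keyL nl id1 id2) (key3 nl id1 recBAll) recAAll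

theorem fAll : FSt :=
  fst (r9 r3) (k1 keyAll cl (st nl) (dep nl idx) (v0 idx)) (k2 keyAll cl) (sv3 r3)
    (sv9 r3 (r9 r3)) (nz r3) (xq (r9 r3)) (bl box) (dep nl idx) (v0 idx)

theorem ctxAll : CtxSt := ctx (cell fAll (v0 idx)) (dep nl idx) (v0 idx)

end Pool.Agent.Lib.MP_65b7ad_nt.DS
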