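import Pool.Agent.Lib.MP_65b7ad_nt.DS.St

/-! Basic facts on local data. -/

open Finset

namespace Pool.Agent.Lib.MP_65b7ad_nt.DS

section Ring

variable {F : Type} [CommRing F]

theorem ev3_mul {d : ℤ} {T : F} (h : T ^ 3 = d) (α β : V3) :
    ev3 (mul3 d α β) T = ev3 α T * ev3 β T := by
  simp only [ev3, mul3, Matrix.cons_val_zero, Matrix.cons_val_one, Matrix.cons_val]
  push_cast
  linear_combination (-((α 1 : F) * β 2 + α 2 * β 1) - α 2 * β 2 * T) * h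

theorem ev3_adj {d : ℤ} {T : F} (h : T ^ 3 = d) (α : V3) :
    ev3 α T * ev3 (adj3 d α) T = N3 d α := by
  simp only [ev3, adj3, N3, Nf, Matrix.cons_val_zero, Matrix.cons_val_one, Matrix.cons_val]
  push_cast
  linear_combination ((α 1 : F) ^ 3 - 2 * α 0 * α 1 * α 2 + d * α 2 ^ 3
    + α 2 * (α 1 ^ 2 - α 0 * α 2) * T) * h

theorem ev3_smul (k : ℤ) (α : V3) (T : F) : ev3 (k • α) T = k * ev3 α T := by
  simp only [ev3, Pi.smul_apply, smul_eq_mul]
  push_cast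
  ring

theorem w_cube {w : F} (h : w ^ 2 + w + 1 = 0) : w ^ 3 = 1 := by
  linear_combination (w - 1) * h

theorem w_sq {w : F} (h : w ^ 2 + w + 1 = 0) : (w ^ 2) ^ 2 + w ^ 2 + 1 = 0 := by
  linear_combination (w ^ 2 - w + 1) * h

theorem w_mul_cube {w T : F} {d : F} (h : w ^ 2 + w + 1 = 0) (hT : T ^ 3 = d) :
    (w * T) ^ 3 = d := by
  rw [mul_pow, w_cube h, one_mul, hT]

/-- The norm form is the product of the three conjugates. -/
theorem nf_prod {w T d : F} (h : w ^ 2 + w + 1 = 0) (hT : T ^ 3 = d) (x y z : F) :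
    (x + y * T + z * T ^ 2) * (x + y * (w * T) + z * (w * T) ^ 2) *
      (x + y * (w ^ 2 * T) + z * (w ^ 2 * T) ^ 2) = Nf d x y z := by
  have h3 := w_cube h
  have key : ∀ A B C : F, (A + B + C) * (A + w * B + w ^ 2 * C) * (A + w ^ 2 * B + w * C) =
      A ^ 3 + B ^ 3 + C ^ 3 - 3 * A * B * C := fun A B C => by
    linear_combination (A + B + C) * ((A * B + A * C + B * C * (w ^ 2 - w + 1)) * h
      + (B ^ 2 + C ^ 2) * h3)
  have e : (w ^ 2 * T) ^ 2 = w * T ^ 2 := by linear_combination w * T ^ 2 * h3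
  have := key x (y * T) (z * T ^ 2)
  rw [e, Nf, ← hT]
  linear_combination this

theorem ev3_norm {d : ℤ} {w T : F} (h : w ^ 2 + w + 1 = 0) (hT : T ^ 3 = d) (α : V3) :
    ev3 α T * ev3 α (w * T) * ev3 α (w ^ 2 * T) = N3 d α := by
  rw [ev3, ev3, ev3, nf_prod h hT, N3]
  simp [Nf]

end Ring

theorem N3_smul (d k : ℤ) (α : V3) : N3 d (k • α) = k ^ 3 * N3 d α := by
  simp only [N3, Nf, Pi.smul_apply, smul_eq_mul]
  ring

theorem N3_mul (d : ℤ) (α β : V3) : N3 d (mul3 d α β) = N3 d α * N3 d β := by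
  simp only [N3, Nf, mul3, Matrix.cons_val_zero, Matrix.cons_val_one, Matrix.cons_val]
  ring

theorem N3_adj (d : ℤ) (α : V3) : N3 d (adj3 d α) = N3 d α ^ 2 := by
  simp only [N3, Nf, adj3, Matrix.cons_val_zero, Matrix.cons_val_one, Matrix.cons_val]
  ring

/-- The norm form is anisotropic over a field in which `α` is not a cube. -/
theorem nf_aniso {F : Type} [Field F] {α x y z : F} (hα : ¬∃ t : F, t ^ 3 = α)
    (h : Nf α x y z = 0) : x = 0 ∧ y = 0 ∧ z = 0 := by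
  have two : ∀ X Y : F, X ^ 3 + α * Y ^ 3 = 0 → X = 0 ∧ Y = 0 := fun X Y e => by
    by_cases hY : Y = 0
    · subst hY
      exact ⟨pow_eq_zero_iff (by norm_num) |>.1 (by simpa using e : X ^ 3 = 0), rfl⟩
    · exact absurd ⟨-X / Y, by field_simp; linear_combination -e⟩ hα
  by_cases hz : z = 0
  · subst hz
    obtain ⟨h1, h2⟩ := two x y (by simpa [Nf] using h)
    exact ⟨h1, h2, rfl⟩
  · exfalso
    obtain ⟨h1, h2⟩ := two (-y * x + α * z ^ 2) (x * z - y ^ 2) (by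
      rw [Nf] at h
      linear_combination (α * z ^ 3 - y ^ 3) * h)
    exact hα ⟨y / z, by field_simp; linear_combination -(z * h1) - y * h2⟩

theorem Sc3.smul {η : V3} (h : Sc3 η) {k : ℤ} (hk : k ≠ 0) : Sc3 (k • η) := by
  obtain ⟨t, n, hn, h0, h1, h2⟩ := h
  obtain ⟨s, k', hk', rfl⟩ : ∃ (s : ℕ) (k' : ℤ), ¬(3 : ℤ) ∣ k' ∧ k = 3 ^ s * k' := by
    obtain ⟨k', e, hk'⟩ := (FiniteMultiplicity.of_prime_left Int.prime_three hk).exists_eq_pow_mul_and_not_dvd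
    exact ⟨_, k', hk', e⟩
  refine ⟨s + t, k' * n, fun e => (Int.prime_three.dvd_or_dvd e).elim hk' hn, ?_, ?_, ?_⟩
  · simp only [Pi.smul_apply, smul_eq_mul, h0]; ring
  · obtain ⟨u, hu⟩ := h1
    exact ⟨k' * u, by simp only [Pi.smul_apply, smul_eq_mul, hu]; ring⟩
  · obtain ⟨u, hu⟩ := h2
    exact ⟨k' * u, by simp only [Pi.smul_apply, smul_eq_mul, hu]; ring⟩

theorem Sc3.mul {η η' : V3} (h : Sc3 η) (h' : Sc3 η') (d : ℤ) : Sc3 (mul3 d η η') := by
  obtain ⟨t, n, hn, h0, ⟨u, h1⟩, ⟨w, h2⟩⟩ := h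
  obtain ⟨t', n', hn', h0', ⟨u', h1'⟩, ⟨w', h2'⟩⟩ := h'
  refine ⟨t + t', n * n' + 81 * d * (u * w' + w * u'), fun e => ?_, ?_, ?_, ?_⟩
  · have : (3 : ℤ) ∣ n * n' := (dvd_add_left ⟨27 * d * (u * w' + w * u'), by ring⟩).1 e
    exact (Int.prime_three.dvd_or_dvd this).elim hn hn'
  · simp only [mul3, Matrix.cons_val_zero, h0, h1, h2, h0', h1', h2']; ring
  · exact ⟨n * u' + u * n' + 9 * d * w * w', by
      simp only [mul3, Matrix.cons_val_zero, Matrix.cons_val_one, h0, h1, h2, h0', h1', h2']; ring⟩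
  · exact ⟨n * w' + 9 * u * u' + w * n', by
      simp only [mul3, Matrix.cons_val, h0, h1, h2, h0', h1', h2']; ring⟩

namespace Loc

variable {P : Loc} {l : ℕ}

theorem sm.it {x : P.F} (h : P.sm x) : P.it x := h.imp id le_of_lt

theorem sm_zero : P.sm 0 := Or.inl rfl

theorem it_zero : P.it 0 := Or.inl rfl

theorem T_symm (x y : P.F) : P.T x y = -P.T y x := by simp only [T]; ring

theorem T_self (x : P.F) : P.T x x = 0 := by simp only [T]; ring

theorem th_cube {d : ℤ} (h : P.Cb d) : P.th d ^ 3 = d := by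
  unfold th
  split_ifs with h1 h2
  · exact h1.choose_spec.1
  · exact h2.choose_spec
  · exact absurd h h2

namespace Ok

variable (h : P.Ok l)
include h

theorem v_one : P.v 1 = 0 := by
  have := h.v_mul 1 1 one_ne_zero one_ne_zero
  rw [one_mul] at this
  omega

theorem c_one : P.c 1 = 0 := by
  have := h.c_mul 1 1 one_ne_zero one_ne_zero
  rw [one_mul] at this
  exact left_eq_add.1 this

theorem v_pow {x : P.F} (hx : x ≠ 0) (n : ℕ) : P.v (x ^ n) = n * P.v x := by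
  induction n with
  | zero => simp [h.v_one]
  | succ n ih => rw [pow_succ, h.v_mul _ _ (pow_ne_zero _ hx) hx, ih]; push_cast; ring

theorem c_pow {x : P.F} (hx : x ≠ 0) (n : ℕ) : P.c (x ^ n) = n * P.c x := by
  induction n with
  | zero => simp [h.c_one]
  | succ n ih => rw [pow_succ, h.c_mul _ _ (pow_ne_zero _ hx) hx, ih]; push_cast; ring

theorem c_cube {x : P.F} (hx : x ≠ 0) : P.c (x ^ 3) = 0 := by
  rw [h.c_pow hx]
  exact mul_eq_zero_of_left rfl _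

theorem v_inv {x : P.F} (hx : x ≠ 0) : P.v x⁻¹ = -P.v x := by
  have := h.v_mul x x⁻¹ hx (inv_ne_zero hx)
  rw [mul_inv_cancel₀ hx, h.v_one] at this
  omega

theorem c_inv {x : P.F} (hx : x ≠ 0) : P.c x⁻¹ = -P.c x := by
  have := h.c_mul x x⁻¹ hx (inv_ne_zero hx)
  rw [mul_inv_cancel₀ hx, h.c_one] at this
  exact eq_neg_of_add_eq_zero_right this.symm

theorem v_div {x y : P.F} (hx : x ≠ 0) (hy : y ≠ 0) : P.v (x / y) = P.v x - P.v y := by
  rw [div_eq_mul_inv, h.v_mul _ _ hx (inv_ne_zero hy), h.v_inv hy, sub_eq_add_neg]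

theorem c_div {x y : P.F} (hx : x ≠ 0) (hy : y ≠ 0) : P.c (x / y) = P.c x - P.c y := by
  rw [div_eq_mul_inv, h.c_mul _ _ hx (inv_ne_zero hy), h.c_inv hy, sub_eq_add_neg]

theorem v_neg_one : P.v (-1) = 0 := by
  have := h.v_mul (-1) (-1) (by simp) (by simp)
  rw [neg_mul_neg, one_mul, h.v_one] at this
  omega

theorem c_neg_one : P.c (-1) = 0 := by
  have := h.c_cube (x := -1) (by simp)
  rwa [show (-1 : P.F) ^ 3 = -1 by ring] at this

theorem v_neg (x : P.F) : P.v (-x) = P.v x := by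
  by_cases hx : x = 0
  · simp [hx]
  rw [← neg_one_mul, h.v_mul _ _ (by simp) hx, h.v_neg_one, zero_add]

theorem c_neg (x : P.F) : P.c (-x) = P.c x := by
  by_cases hx : x = 0
  · simp [hx]
  rw [← neg_one_mul, h.c_mul _ _ (by simp) hx, h.c_neg_one, zero_add]

theorem v_root {w : P.F} (hw : w ^ 3 = 1) : w ≠ 0 ∧ P.v w = 0 := by
  have h0 : w ≠ 0 := by rintro rfl; simp at hw
  have := h.v_pow h0 3
  rw [hw, h.v_one] at this
  exact ⟨h0, by omega⟩

theorem om_cube : P.om ^ 3 = 1 := w_cube h.om_eq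

theorem om_ne : P.om ≠ 0 := (h.v_root h.om_cube).1

theorem v_om : P.v P.om = 0 := (h.v_root h.om_cube).2

theorem v_nat {n : ℕ} (hn : n ≠ 0) : P.v (n : P.F) = padicValNat l n := by
  have := h.v_int n (by exact_mod_cast hn)
  simpa using this

theorem it_add {x y : P.F} (hx : P.it x) (hy : P.it y) : P.it (x + y) := by
  by_cases x0 : x = 0
  · simpa [x0] using hy
  by_cases y0 : y = 0
  · simpa [y0] using hx
  by_cases s0 : x + y = 0
  · exact Or.inl s0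
  have := h.v_add x y x0 y0 s0
  have := hx.resolve_left x0
  have := hy.resolve_left y0
  exact Or.inr (by omega)

theorem sm_add {x y : P.F} (hx : P.sm x) (hy : P.sm y) : P.sm (x + y) := by
  by_cases x0 : x = 0
  · simpa [x0] using hy
  by_cases y0 : y = 0
  · simpa [y0] using hx
  by_cases s0 : x + y = 0
  · exact Or.inl s0
  have := h.v_add x y x0 y0 s0
  have := hx.resolve_left x0
  have := hy.resolve_left y0
  exact Or.inr (by omega)

theorem it_neg {x : P.F} (hx : P.it x) : P.it (-x) :=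
  hx.imp (fun e => by simp [e]) fun e => by rwa [h.v_neg]

theorem sm_neg {x : P.F} (hx : P.sm x) : P.sm (-x) :=
  hx.imp (fun e => by simp [e]) fun e => by rwa [h.v_neg]

theorem it_sub {x y : P.F} (hx : P.it x) (hy : P.it y) : P.it (x - y) := by
  rw [sub_eq_add_neg]; exact h.it_add hx (h.it_neg hy)

theorem sm_sub {x y : P.F} (hx : P.sm x) (hy : P.sm y) : P.sm (x - y) := by
  rw [sub_eq_add_neg]; exact h.sm_add hx (h.sm_neg hy)

theorem it_mul {x y : P.F} (hx : P.it x) (hy : P.it y) : P.it (x * y) := by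
  by_cases x0 : x = 0
  · exact Or.inl (by simp [x0])
  by_cases y0 : y = 0
  · exact Or.inl (by simp [y0])
  have := h.v_mul x y x0 y0
  have := hx.resolve_left x0
  have := hy.resolve_left y0
  exact Or.inr (by omega)

theorem sm_mul {x y : P.F} (hx : P.sm x) (hy : P.it y) : P.sm (x * y) := by
  by_cases x0 : x = 0
  · exact Or.inl (by simp [x0])
  by_cases y0 : y = 0
  · exact Or.inl (by simp [y0])
  have := h.v_mul x y x0 y0
  have := hx.resolve_left x0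
  have := hy.resolve_left y0
  exact Or.inr (by omega)

theorem mul_sm {x y : P.F} (hx : P.it x) (hy : P.sm y) : P.sm (x * y) := by
  rw [mul_comm]; exact h.sm_mul hy hx

theorem it_one : P.it 1 := Or.inr h.v_one.ge

theorem it_pow {x : P.F} (hx : P.it x) (n : ℕ) : P.it (x ^ n) := by
  induction n with
  | zero => simpa using h.it_one
  | succ n ih => rw [pow_succ]; exact h.it_mul ih hx

theorem it_int (n : ℤ) : P.it (n : P.F) := by
  by_cases hn : n = 0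
  · exact Or.inl (by simp [hn])
  · exact Or.inr (by rw [h.v_int n hn]; positivity)

theorem it_nat (n : ℕ) : P.it (n : P.F) := by simpa using h.it_int n

theorem it_sum {ι : Type} {s : Finset ι} {f : ι → P.F} (hf : ∀ i ∈ s, P.it (f i)) :
    P.it (∑ i ∈ s, f i) :=
  Finset.sum_induction f P.it (fun _ _ => h.it_add) it_zero hf

theorem sm_sum {ι : Type} {s : Finset ι} {f : ι → P.F} (hf : ∀ i ∈ s, P.sm (f i)) :
    P.sm (∑ i ∈ s, f i) :=
  Finset.sum_induction f P.sm (fun _ _ => h.sm_add) sm_zero hf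

/-- A cube root of an integral element is integral. -/
theorem it_root {θ : P.F} (hθ : P.it (θ ^ 3)) : P.it θ := by
  by_cases h0 : θ = 0
  · exact Or.inl h0
  have := hθ.resolve_left (pow_ne_zero _ h0)
  rw [h.v_pow h0] at this
  exact Or.inr (by omega)

theorem it_cube {θ : P.F} {d : ℤ} (hθ : θ ^ 3 = d) : P.it θ :=
  h.it_root (hθ ▸ h.it_int d)

theorem it_om : P.it P.om := Or.inr h.v_om.ge

theorem it_ev3 (α : V3) {T : P.F} (hT : P.it T) : P.it (ev3 α T) :=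
  h.it_add (h.it_add (h.it_int _) (h.it_mul (h.it_int _) hT)) (h.it_mul (h.it_int _) (h.it_pow hT 2))

theorem it_ev9 (Δ : V9) {T U : P.F} (hT : P.it T) (hU : P.it U) : P.it (ev9 Δ T U) :=
  h.it_sum fun _ _ => h.it_mul (h.it_mul (h.it_int _) (h.it_pow hT _)) (h.it_pow hU _)

theorem not_sm_one : ¬P.sm 1 := by
  rintro (e | e)
  · exact one_ne_zero e
  · rw [h.v_one] at e; exact lt_irrefl _ e

omit h in
theorem unit_of {x : P.F} (hx : P.it x) (hs : ¬P.sm x) : x ≠ 0 ∧ P.v x = 0 := by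
  have h0 : x ≠ 0 := fun e => hs (Or.inl e)
  have h1 := hx.resolve_left h0
  have h2 : ¬0 < P.v x := fun e => hs (Or.inr e)
  exact ⟨h0, by omega⟩

omit h in
theorem not_sm {x : P.F} (hx : x ≠ 0) (hv : P.v x = 0) : ¬P.sm x := by
  rintro (e | e)
  · exact hx e
  · omega

/-- The maximal ideal is prime. -/
theorem sm_or {x y : P.F} (hx : P.it x) (hy : P.it y) (hs : P.sm (x * y)) : P.sm x ∨ P.sm y := by
  by_contra hc
  rw [not_or] at hc
  obtain ⟨x0, vx⟩ := unit_of hx hc.1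
  obtain ⟨y0, vy⟩ := unit_of hy hc.2
  exact not_sm (mul_ne_zero x0 y0) (by rw [h.v_mul _ _ x0 y0, vx, vy, add_zero]) hs

theorem sm_int_iff (hl : l.Prime) (n : ℤ) : P.sm (n : P.F) ↔ (l : ℤ) ∣ n := by
  have := Fact.mk hl
  by_cases hn : n = 0
  · simp [hn, sm]
  have h0 : (n : P.F) ≠ 0 := by exact_mod_cast hn
  rw [sm, or_iff_right h0, h.v_int n hn]
  have := padicValInt_dvd_iff (p := l) 1 n
  rw [pow_one, or_iff_right hn] at this
  rw [this]
  omega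

theorem v_int_zero {n : ℤ} (hn : ¬(l : ℤ) ∣ n) : (n : P.F) ≠ 0 ∧ P.v (n : P.F) = 0 := by
  have h0 : n ≠ 0 := by rintro rfl; simp at hn
  exact ⟨by exact_mod_cast h0, by rw [h.v_int n h0, padicValInt.eq_zero_of_not_dvd hn]; rfl⟩

theorem v_l (hl : l.Prime) : P.v (l : P.F) = 1 := by
  have := Fact.mk hl
  rw [h.v_nat hl.ne_zero, padicValNat_self]; rfl

theorem v_three (hl : l.Prime) (h3 : l ≠ 3) : P.v (3 : P.F) = 0 := by
  have : ¬(l : ℤ) ∣ (3 : ℤ) := fun e =>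
    h3 ((Nat.prime_dvd_prime_iff_eq hl Nat.prime_three).1 (by exact_mod_cast e))
  simpa using (h.v_int_zero this).2

theorem v_of_sm {x : P.F} (hx : P.sm (x - 1)) : x ≠ 0 ∧ P.v x = 0 := by
  refine unit_of ?_ fun e => h.not_sm_one ?_
  · simpa using h.it_add hx.it h.it_one
  · simpa using h.sm_sub e hx

theorem sm_pow_sub {x y : P.F} (hx : P.it x) (hy : P.it y) (hs : P.sm (x - y)) (n : ℕ) :
    P.sm (x ^ n - y ^ n) := by
  induction n with
  | zero => simpa using sm_zero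
  | succ n ih =>
    rw [show x ^ (n + 1) - y ^ (n + 1) = (x ^ n - y ^ n) * x + y ^ n * (x - y) by ring]
    exact h.sm_add (h.sm_mul ih hx) (h.mul_sm (h.it_pow hy n) hs)

/-- The cube roots of unity are distinct modulo the maximal ideal. -/
theorem om_pow_sm (hl : l.Prime) (h3 : l ≠ 3) {n : ℕ} (hn : P.sm (P.om ^ n - 1)) : 3 ∣ n := by
  have e := h.om_eq
  have e3 := h.om_cube
  have hw : P.om ^ n = P.om ^ (n % 3) := by
    conv_lhs => rw [← Nat.div_add_mod n 3, pow_add, pow_mul, e3, one_pow, one_mul]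
  rw [hw] at hn
  have n3 : ¬P.sm (3 : P.F) := not_sm (by norm_num) (h.v_three hl h3)
  have i1 := h.it_sub h.it_om h.it_one
  have i2 := h.it_sub (h.it_pow h.it_om 2) h.it_one
  have pr : (P.om - 1) * (P.om ^ 2 - 1) = 3 := by linear_combination e3 - e
  have : n % 3 = 0 ∨ n % 3 = 1 ∨ n % 3 = 2 := by omega
  rcases this with r | r | r
  · exact Nat.dvd_of_mod_eq_zero r
  · rw [r, pow_one] at hn
    exact absurd (pr ▸ h.sm_mul hn i2) n3
  · rw [r] at hn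
    exact absurd (pr ▸ h.mul_sm i1 hn) n3

/-- The index is determined by its defining congruence. -/
theorem c_eq (hl : l.Prime) (h3 : l ≠ 3) {x : P.F} (hx : x ≠ 0) (hv : P.v x = 0) {j : ℕ}
    (hj : P.sm (x ^ ((l ^ 2 - 1) / 3) - P.om ^ j)) : P.c x = -(j : ZMod 3) := by
  have h1 := h.c_def x hx hv
  have h2 := h.sm_mul hj (h.it_pow h.it_om (P.c x).val)
  have h4 : P.sm (P.om ^ (j + (P.c x).val) - 1) := by
    have := h.sm_sub h1 h2
    rwa [show x ^ ((l ^ 2 - 1) / 3) * P.om ^ (P.c x).val - 1 -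
      (x ^ ((l ^ 2 - 1) / 3) - P.om ^ j) * P.om ^ (P.c x).val =
      P.om ^ (j + (P.c x).val) - 1 by ring] at this
  have h5 := (ZMod.natCast_eq_zero_iff _ 3).2 (h.om_pow_sm hl h3 h4)
  push_cast at h5
  rw [ZMod.natCast_zmod_val] at h5
  exact eq_neg_of_add_eq_zero_right h5

theorem c_of_sm (hl : l.Prime) (h3 : l ≠ 3) {x : P.F} (hx : P.sm (x - 1)) : P.c x = 0 := by
  obtain ⟨x0, vx⟩ := h.v_of_sm hx
  have := h.c_eq hl h3 x0 vx (j := 0) (by
    simpa using h.sm_pow_sub (Or.inr vx.ge) h.it_one hx ((l ^ 2 - 1) / 3))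
  simpa using this

/-- Close elements have the same valuation and the same index. -/
theorem close (hl : l.Prime) (h3 : l ≠ 3) {x y : P.F} (hy : y ≠ 0) (hs : P.sm ((x - y) / y)) :
    x ≠ 0 ∧ P.v x = P.v y ∧ P.c x = P.c y := by
  have e : (x - y) / y = x / y - 1 := by field_simp
  rw [e] at hs
  obtain ⟨q0, vq⟩ := h.v_of_sm hs
  have cq := h.c_of_sm hl h3 hs
  have x0 : x ≠ 0 := fun e => q0 (by simp [e])
  rw [h.v_div x0 hy] at vq
  rw [h.c_div x0 hy] at cq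
  exact ⟨x0, by omega, sub_eq_zero.1 cq⟩

theorem close' (hl : l.Prime) (h3 : l ≠ 3) {x y : P.F} (hy : y ≠ 0)
    (hs : x - y = 0 ∨ P.v y < P.v (x - y)) : x ≠ 0 ∧ P.v x = P.v y ∧ P.c x = P.c y := by
  refine h.close hl h3 hy ?_
  by_cases e : x - y = 0
  · exact Or.inl (by simp [e])
  · have := hs.resolve_left e
    exact Or.inr (by rw [h.v_div e hy]; omega)

theorem close_unit (hl : l.Prime) (h3 : l ≠ 3) {x y : P.F} (hy : y ≠ 0) (hv : P.v y = 0)
    (hs : P.sm (x - y)) : x ≠ 0 ∧ P.v x = 0 ∧ P.c x = P.c y := by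
  have := h.close' hl h3 hy (x := x) (by rw [hv]; exact hs)
  rwa [hv] at this

theorem T_mul_left {x x' : P.F} (hx : x ≠ 0) (hx' : x' ≠ 0) (y : P.F) :
    P.T (x * x') y = P.T x y + P.T x' y := by
  simp only [T, h.v_mul _ _ hx hx', h.c_mul _ _ hx hx']; push_cast; ring

theorem T_mul_right (x : P.F) {y y' : P.F} (hy : y ≠ 0) (hy' : y' ≠ 0) :
    P.T x (y * y') = P.T x y + P.T x y' := by
  simp only [T, h.v_mul _ _ hy hy', h.c_mul _ _ hy hy']; push_cast; ring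

theorem T_div_left {x x' : P.F} (hx : x ≠ 0) (hx' : x' ≠ 0) (y : P.F) :
    P.T (x / x') y = P.T x y - P.T x' y := by
  simp only [T, h.v_div hx hx', h.c_div hx hx']; push_cast; ring

theorem T_div_right (x : P.F) {y y' : P.F} (hy : y ≠ 0) (hy' : y' ≠ 0) :
    P.T x (y / y') = P.T x y - P.T x y' := by
  simp only [T, h.v_div hy hy', h.c_div hy hy']; push_cast; ring

theorem T_pow_left {x : P.F} (hx : x ≠ 0) (n : ℕ) (y : P.F) : P.T (x ^ n) y = n * P.T x y := by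
  simp only [T, h.v_pow hx, h.c_pow hx]; push_cast; ring

theorem T_pow_right (x : P.F) {y : P.F} (hy : y ≠ 0) (n : ℕ) : P.T x (y ^ n) = n * P.T x y := by
  simp only [T, h.v_pow hy, h.c_pow hy]; push_cast; ring

theorem T_neg_left (x y : P.F) : P.T (-x) y = P.T x y := by simp only [T, h.v_neg, h.c_neg]

theorem T_neg_right (x y : P.F) : P.T x (-y) = P.T x y := by simp only [T, h.v_neg, h.c_neg]

theorem T_one_left (y : P.F) : P.T 1 y = 0 := by simp [T, h.v_one, h.c_one]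

theorem T_one_right (x : P.F) : P.T x 1 = 0 := by simp [T, h.v_one, h.c_one]

omit h in
theorem T_units {x y : P.F} (hx : P.v x = 0) (hy : P.v y = 0) : P.T x y = 0 := by simp [T, hx, hy]

theorem cb_cl {x : P.F} (hx : x ≠ 0) (hc : P.Cb x) : (P.v x : ZMod 3) = 0 ∧ P.c x = 0 := by
  obtain ⟨y, rfl⟩ := hc
  have y0 : y ≠ 0 := by rintro rfl; simp at hx
  refine ⟨?_, h.c_cube y0⟩
  rw [h.v_pow y0]
  push_cast
  exact mul_eq_zero_of_left rfl _

theorem T_cb_left {x : P.F} (hx : x ≠ 0) (hc : P.Cb x) (y : P.F) : P.T x y = 0 := by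
  simp [T, h.cb_cl hx hc]

theorem T_cb_right (x : P.F) {y : P.F} (hy : y ≠ 0) (hc : P.Cb y) : P.T x y = 0 := by
  simp [T, h.cb_cl hy hc]

theorem cb_iff {n : ℤ} (hn : n ≠ 0) :
    P.Cb (n : P.F) ↔ (P.v (n : P.F) : ZMod 3) = 0 ∧ P.c (n : P.F) = 0 :=
  ⟨h.cb_cl (by exact_mod_cast hn), fun e =>
    h.hensel n hn ((ZMod.intCast_zmod_eq_zero_iff_dvd _ 3).1 e.1) e.2⟩

theorem th_res {d : ℤ} (hd : ¬(l : ℤ) ∣ d) (hc : P.c (d : P.F) = 0) :
    P.th d ^ 3 = d ∧ ∃ r : ℤ, P.sm (P.th d - r) := by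
  have h1 := h.root d hd hc
  unfold th
  rw [dif_pos h1]
  exact h1.choose_spec

/-- The three conjugates of a triple of nonzero norm do not vanish. -/
theorem ev3_ne {d : ℤ} {θ : P.F} (hθ : θ ^ 3 = d) {γ : V3} (hγ : N3 d γ ≠ 0) :
    ev3 γ θ ≠ 0 ∧ ev3 γ (P.om * θ) ≠ 0 ∧ ev3 γ (P.om ^ 2 * θ) ≠ 0 := by
  have e := ev3_norm h.om_eq hθ γ
  have : ((N3 d γ : ℤ) : P.F) ≠ 0 := by exact_mod_cast hγ
  rw [← e] at this
  exact ⟨left_ne_zero_of_mul (left_ne_zero_of_mul this),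
    right_ne_zero_of_mul (left_ne_zero_of_mul this), right_ne_zero_of_mul this⟩

theorem rt_ne {d : ℤ} (hd : P.Cb d) {γ : V3} (hγ : N3 d γ ≠ 0) : P.rt d γ ≠ 0 :=
  div_ne_zero (h.ev3_ne (th_cube hd) hγ).2.1 (h.ev3_ne (th_cube hd) hγ).2.2

theorem rt_mul {d : ℤ} (hd : P.Cb d) (γ γ' : V3) :
    P.rt d (mul3 d γ γ') = P.rt d γ * P.rt d γ' := by
  rw [rt, rt, rt, ev3_mul (w_mul_cube h.om_eq (th_cube hd)),
    ev3_mul (w_mul_cube (w_sq h.om_eq) (th_cube hd)), div_mul_div_comm]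

theorem rt_adj {d : ℤ} (hd : P.Cb d) {γ : V3} (hγ : N3 d γ ≠ 0) :
    P.rt d (adj3 d γ) = (P.rt d γ)⁻¹ := by
  obtain ⟨-, n1, n2⟩ := h.ev3_ne (th_cube hd) hγ
  have e1 := ev3_adj (w_mul_cube h.om_eq (th_cube hd)) γ
  have e2 := ev3_adj (w_mul_cube (w_sq h.om_eq) (th_cube hd)) γ
  have n0 : ((N3 d γ : ℤ) : P.F) ≠ 0 := by exact_mod_cast hγ
  have n3 : ev3 (adj3 d γ) (P.om ^ 2 * P.th d) ≠ 0 := right_ne_zero_of_mul (e2 ▸ n0)
  rw [rt, rt, inv_div, div_eq_div_iff n3 n1]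
  linear_combination e1 - e2

omit h in
theorem rt_smul (d : ℤ) {k : ℤ} (hk : k ≠ 0) (γ : V3) : P.rt d (k • γ) = P.rt d γ := by
  rw [rt, rt, ev3_smul, ev3_smul, mul_div_mul_left _ _ (by exact_mod_cast hk)]

theorem zw_ne {x y : ℤ} (hn : x ^ 2 - x * y + y ^ 2 ≠ 0) :
    (x + y * P.om) * (x + y * P.om ^ 2) = ((x ^ 2 - x * y + y ^ 2 : ℤ) : P.F) ∧
      (x : P.F) + y * P.om ≠ 0 ∧ (x : P.F) + y * P.om ^ 2 ≠ 0 := by
  have e : (x + y * P.om) * (x + y * P.om ^ 2) = ((x ^ 2 - x * y + y ^ 2 : ℤ) : P.F) := by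
    push_cast
    linear_combination (x * y : P.F) * h.om_eq + (y : P.F) ^ 2 * h.om_cube
  have : ((x ^ 2 - x * y + y ^ 2 : ℤ) : P.F) ≠ 0 := by exact_mod_cast hn
  rw [← e] at this
  exact ⟨e, left_ne_zero_of_mul this, right_ne_zero_of_mul this⟩

/-- Away from the norm both conjugates are units. -/
theorem zw_unit (hl : l.Prime) {x y : ℤ} (hn : ¬(l : ℤ) ∣ x ^ 2 - x * y + y ^ 2) :
    P.v (x + y * P.om) = 0 ∧ P.v (x + y * P.om ^ 2) = 0 := by
  have h0 : x ^ 2 - x * y + y ^ 2 ≠ 0 := fun e => hn (by simp [e])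
  have e := (h.zw_ne h0).1
  have i1 := h.it_add (h.it_int x) (h.it_mul (h.it_int y) h.it_om)
  have i2 := h.it_add (h.it_int x) (h.it_mul (h.it_int y) (h.it_pow h.it_om 2))
  rw [← h.sm_int_iff hl, ← e] at hn
  exact ⟨(unit_of i1 fun s => hn (h.sm_mul s i2)).2, (unit_of i2 fun s => hn (h.mul_sm i1 s)).2⟩

theorem tm_zero (hl : l.Prime) {α x y : ℤ} (hn : ¬(l : ℤ) ∣ α * (x ^ 2 - x * y + y ^ 2)) :
    P.tm α x y = 0 := by
  have h1 : ¬(l : ℤ) ∣ α := fun e => hn (e.mul_right _)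
  have h2 : ¬(l : ℤ) ∣ x ^ 2 - x * y + y ^ 2 := fun e => hn (e.mul_left _)
  have h0 : x ^ 2 - x * y + y ^ 2 ≠ 0 := fun e => h2 (by simp [e])
  obtain ⟨-, n1, n2⟩ := h.zw_ne h0
  obtain ⟨v1, v2⟩ := h.zw_unit hl h2
  exact T_units (h.v_int_zero h1).2 (by rw [h.v_div n1 n2, v1, v2, sub_zero])

theorem tm_mul_left {α α' : ℤ} (hα : α ≠ 0) (hα' : α' ≠ 0) (x y : ℤ) :
    P.tm (α * α') x y = P.tm α x y + P.tm α' x y := by
  rw [tm, tm, tm, Int.cast_mul, h.T_mul_left (by exact_mod_cast hα) (by exact_mod_cast hα')]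

theorem tm_mul_right (α : ℤ) {x y x' y' : ℤ} (hn : x ^ 2 - x * y + y ^ 2 ≠ 0)
    (hn' : x' ^ 2 - x' * y' + y' ^ 2 ≠ 0) :
    P.tm α (x * x' - y * y') (x * y' + y * x' - y * y') = P.tm α x y + P.tm α x' y' := by
  obtain ⟨-, n1, n2⟩ := h.zw_ne hn
  obtain ⟨-, m1, m2⟩ := h.zw_ne hn'
  rw [tm, tm, tm, ← h.T_mul_right _ (div_ne_zero n1 n2) (div_ne_zero m1 m2), div_mul_div_comm]
  congr 2
  · push_cast
    linear_combination (-(y * y') : P.F) * h.om_eq
  · push_cast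
    linear_combination (-(y * y') : P.F) * w_sq h.om_eq

end Ok

end Loc

theorem fam (h1 : Loc1St) (h2 : Loc2St) : ∃ P : ℕ → Loc, FamOk P := by
  have : ∀ l : ℕ, ∃ P : Loc, l.Prime → l ≠ 3 → P.Ok l := fun l => by
    by_cases hl : l.Prime ∧ l ≠ 3
    · have h0 : l % 3 ≠ 0 := fun e => hl.2
        ((Nat.prime_dvd_prime_iff_eq Nat.prime_three hl.1).1 (Nat.dvd_of_mod_eq_zero e)).symm
      rcases (by omega : l % 3 = 1 ∨ l % 3 = 2) with e | e
      · exact (h1 l hl.1 e).imp fun P hP _ _ => hP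
      · exact (h2 l hl.1 e).imp fun P hP _ _ => hP
    · exact (h2 2 Nat.prime_two rfl).imp fun P _ a b => absurd ⟨a, b⟩ hl
  choose P hP using this
  exact ⟨P, hP⟩

theorem mem_pf {n : ℤ} {l : ℕ} : l ∈ pf n ↔ l.Prime ∧ l ≠ 3 ∧ (l : ℤ) ∣ n ∧ n ≠ 0 := by
  rw [pf, mem_erase, Nat.mem_primeFactors, Int.natCast_dvd, Ne, Ne, Int.natAbs_eq_zero]
  tauto

section RR

variable {P : ℕ → Loc} (hP : FamOk P)
include hP

/-- The sum may be taken over the primes of any nonzero multiple. -/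
theorem RR_eq {α x y n : ℤ} (hn : n ≠ 0) (hd : α * (x ^ 2 - x * y + y ^ 2) ∣ n) :
    RR P α x y = ∑ l ∈ pf n, (P l).tm α x y := by
  have h0 : α * (x ^ 2 - x * y + y ^ 2) ≠ 0 := fun e => hn (zero_dvd_iff.1 (e ▸ hd))
  refine sum_subset (fun l hl => ?_) fun l hl hl' => ?_
  · rw [mem_pf] at hl ⊢
    exact ⟨hl.1, hl.2.1, hl.2.2.1.trans hd, hn⟩
  · rw [mem_pf] at hl hl'
    exact (hP l hl.1 hl.2.1).tm_zero hl.1 fun e => hl' ⟨hl.1, hl.2.1, e, h0⟩

theorem RR_mul_left {α α' x y : ℤ} (hα : α ≠ 0) (hα' : α' ≠ 0) (hn : x ^ 2 - x * y + y ^ 2 ≠ 0) :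
    RR P (α * α') x y = RR P α x y + RR P α' x y := by
  have h0 : α * α' * (x ^ 2 - x * y + y ^ 2) ≠ 0 := mul_ne_zero (mul_ne_zero hα hα') hn
  rw [RR_eq hP h0 dvd_rfl, RR_eq hP (α := α) h0 ⟨α', by ring⟩,
    RR_eq hP (α := α') h0 ⟨α, by ring⟩, ← sum_add_distrib]
  exact sum_congr rfl fun l hl =>
    (hP l (mem_pf.1 hl).1 (mem_pf.1 hl).2.1).tm_mul_left hα hα' x y

theorem RR_mul_right {α x y x' y' : ℤ} (hα : α ≠ 0) (hn : x ^ 2 - x * y + y ^ 2 ≠ 0)
    (hn' : x' ^ 2 - x' * y' + y' ^ 2 ≠ 0) :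
    RR P α (x * x' - y * y') (x * y' + y * x' - y * y') = RR P α x y + RR P α x' y' := by
  have h0 : α * (x ^ 2 - x * y + y ^ 2) * (x' ^ 2 - x' * y' + y' ^ 2) ≠ 0 :=
    mul_ne_zero (mul_ne_zero hα hn) hn'
  rw [RR_eq hP h0 ⟨1, by ring⟩, RR_eq hP (x := x) h0 ⟨_, rfl⟩,
    RR_eq hP (x := x') h0 ⟨x ^ 2 - x * y + y ^ 2, by ring⟩, ← sum_add_distrib]
  exact sum_congr rfl fun l hl =>
    (hP l (mem_pf.1 hl).1 (mem_pf.1 hl).2.1).tm_mul_right α hn hn'

theorem RR_int (α : ℤ) {x : ℤ} (hx : x ≠ 0) : RR P α x 0 = 0 :=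
  sum_eq_zero fun l hl => by
    have hx' : (x : (P l).F) ≠ 0 := by exact_mod_cast hx
    simp [Loc.tm, hx', (hP l (mem_pf.1 hl).1 (mem_pf.1 hl).2.1).T_one_right]

/-- The conjugate of `x + y ω` is `(x - y) - y ω`. -/
theorem RR_conj (α : ℤ) {x y : ℤ} (hα : α ≠ 0) (hn : x ^ 2 - x * y + y ^ 2 ≠ 0) :
    RR P α (x - y) (-y) = -RR P α x y := by
  have hn' : (x - y) ^ 2 - (x - y) * -y + (-y) ^ 2 ≠ 0 := fun e => hn (by linear_combination e)
  have := RR_mul_right hP hα hn hn'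
  rw [show x * -y + y * (x - y) - y * -y = 0 by ring,
    RR_int hP α (fun e => hn (by linear_combination e))] at this
  exact eq_neg_of_add_eq_zero_right this.symm

theorem RR_smul {α k x y : ℤ} (hα : α ≠ 0) (hk : k ≠ 0) (hn : x ^ 2 - x * y + y ^ 2 ≠ 0) :
    RR P α (k * x) (k * y) = RR P α x y := by
  have := RR_mul_right hP (x := k) (y := 0) hα (by simpa using hk) hn
  rw [RR_int hP α hk, zero_add] at this
  simpa using this

theorem phi_mul (W : ℤ) {d : ℤ} {γ γ' : V3} (hγ : N3 d γ ≠ 0) (hγ' : N3 d γ' ≠ 0) :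
    phi P W d (mul3 d γ γ') = phi P W d γ + phi P W d γ' := by
  classical
  rw [phi, phi, phi, ← sum_add_distrib]
  refine sum_congr rfl fun l hl => ?_
  obtain ⟨h1, h2⟩ := mem_filter.1 hl
  have h := hP l (mem_pf.1 h1).1 (mem_pf.1 h1).2.1
  rw [h.rt_mul h2, h.c_mul _ _ (h.rt_ne h2 hγ) (h.rt_ne h2 hγ'), mul_add]

theorem phi_adj (W : ℤ) {d : ℤ} {γ : V3} (hγ : N3 d γ ≠ 0) :
    phi P W d (adj3 d γ) = -phi P W d γ := by
  classical
  rw [phi, phi, ← sum_neg_distrib]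
  refine sum_congr rfl fun l hl => ?_
  obtain ⟨h1, h2⟩ := mem_filter.1 hl
  have h := hP l (mem_pf.1 h1).1 (mem_pf.1 h1).2.1
  rw [h.rt_adj h2 hγ, h.c_inv (h.rt_ne h2 hγ), mul_neg]

omit hP in
theorem phi_smul (W d : ℤ) {k : ℤ} (hk : k ≠ 0) (γ : V3) : phi P W d (k • γ) = phi P W d γ := by
  simp only [phi, Loc.Ok.rt_smul d hk]

end RR

end Pool.Agent.Lib.MP_65b7ad_nt.DS
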