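import Mathlib

/-! Definitions for the count of soluble diagonal plane cubics. -/

open Finset

namespace Pool.Agent.Lib.MP_65b7ad_nt.DS

/-- The norm form of `R[T]/(T^3 - d)`. -/
def Nf {R : Type} [CommRing R] (d x y z : R) : R :=
  x ^ 3 + d * y ^ 3 + d ^ 2 * z ^ 3 - 3 * d * x * y * z

abbrev V3 : Type := Fin 3 → ℤ

abbrev V9 : Type := Fin 3 × Fin 3 → ℤ

/-- The value `x + y T + z T^2` of a triple. -/
def ev3 {R : Type} [CommRing R] (α : V3) (T : R) : R := α 0 + α 1 * T + α 2 * T ^ 2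

def N3 (d : ℤ) (α : V3) : ℤ := Nf d (α 0) (α 1) (α 2)

/-- The product modulo `T^3 = d`. -/
def mul3 (d : ℤ) (α β : V3) : V3 :=
  ![α 0 * β 0 + d * (α 1 * β 2 + α 2 * β 1), α 0 * β 1 + α 1 * β 0 + d * (α 2 * β 2),
    α 0 * β 2 + α 1 * β 1 + α 2 * β 0]

/-- The product of the two other conjugates. -/
def adj3 (d : ℤ) (α : V3) : V3 :=
  ![α 0 ^ 2 - d * α 1 * α 2, d * α 2 ^ 2 - α 0 * α 1, α 1 ^ 2 - α 0 * α 2]

def ev9 {R : Type} [CommRing R] (Δ : V9) (T U : R) : R :=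
  ∑ k : Fin 3 × Fin 3, (Δ k : R) * T ^ k.1.val * U ^ k.2.val

def cf (d : ℤ) (a b : Fin 3) : ℤ := if 3 ≤ a.val + b.val then d else 1

/-- The product modulo `T^3 = d`, `U^3 = d'`. -/
def mul9 (d d' : ℤ) (Δ Γ : V9) : V9 := fun k =>
  ∑ a : Fin 3 × Fin 3, Δ a * Γ (k - a) * cf d a.1 (k.1 - a.1) * cf d' a.2 (k.2 - a.2)

def sw (Δ : V9) : V9 := fun k => Δ (k.2, k.1)

def row (Δ : V9) (j : Fin 3) : V3 := fun i => Δ (i, j)

def cu3 (d : ℤ) (α : V3) : V3 := mul3 d α (mul3 d α α)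

/-- The norm from `ℤ[T, U]` to `ℤ[T]`. -/
def n9 (d d' : ℤ) (Δ : V9) : V3 :=
  cu3 d (row Δ 0) + d' • cu3 d (row Δ 1) + d' ^ 2 • cu3 d (row Δ 2)
    - (3 * d') • mul3 d (row Δ 0) (mul3 d (row Δ 1) (row Δ 2))

def N9 (d d' : ℤ) (Δ : V9) : ℤ := N3 d (n9 d d' Δ)

/-- Local data: a field with a cube root of unity, a valuation and a cubic index. -/
structure Loc where
  F : Type
  fld : Field F
  cz : @CharZero F fld.toAddGroupWithOne.toAddMonoidWithOne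
  om : F
  v : F → ℤ
  c : F → ZMod 3

instance (P : Loc) : Field P.F := P.fld

instance (P : Loc) : CharZero P.F := P.cz

namespace Loc

variable (P : Loc)

/-- In the maximal ideal. -/
def sm (x : P.F) : Prop := x = 0 ∨ 0 < P.v x

/-- In the valuation ring. -/
def it (x : P.F) : Prop := x = 0 ∨ 0 ≤ P.v x

def Cb (x : P.F) : Prop := ∃ y : P.F, y ^ 3 = x

/-- The tame symbol. -/
def T (x y : P.F) : ZMod 3 := (P.v y : ZMod 3) * P.c x - (P.v x : ZMod 3) * P.c y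

structure Ok (l : ℕ) : Prop where
  om_eq : P.om ^ 2 + P.om + 1 = 0
  v_mul : ∀ x y : P.F, x ≠ 0 → y ≠ 0 → P.v (x * y) = P.v x + P.v y
  v_add : ∀ x y : P.F, x ≠ 0 → y ≠ 0 → x + y ≠ 0 → min (P.v x) (P.v y) ≤ P.v (x + y)
  v_int : ∀ n : ℤ, n ≠ 0 → P.v (n : P.F) = padicValInt l n
  c_mul : ∀ x y : P.F, x ≠ 0 → y ≠ 0 → P.c (x * y) = P.c x + P.c y
  c_l : P.c (l : P.F) = 0
  c_def : ∀ x : P.F, x ≠ 0 → P.v x = 0 → P.sm (x ^ ((l ^ 2 - 1) / 3) * P.om ^ (P.c x).val - 1)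
  hensel : ∀ n : ℤ, n ≠ 0 → (3 : ℤ) ∣ P.v (n : P.F) → P.c (n : P.F) = 0 → P.Cb (n : P.F)
  root : ∀ n : ℤ, ¬(l : ℤ) ∣ n → P.c (n : P.F) = 0 →
    ∃ θ : P.F, θ ^ 3 = n ∧ ∃ r : ℤ, P.sm (θ - r)
  nontriv : ∃ x y : ℤ, ¬(l : ℤ) ∣ x ^ 2 - x * y + y ^ 2 ∧
    P.c ((x + y * P.om) / (x + y * P.om ^ 2)) ≠ 0
  om_int : l % 3 = 1 → ∃ r : ℤ, P.sm (P.om - r)

open Classical in
/-- The chosen cube root of `d`, with an integer residue if possible. -/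
noncomputable def th (d : ℤ) : P.F :=
  if h : ∃ θ : P.F, θ ^ 3 = d ∧ ∃ r : ℤ, P.sm (θ - r) then h.choose
  else if h' : ∃ θ : P.F, θ ^ 3 = d then h'.choose else 0

/-- The quotient of the two complex conjugates of a triple at the chosen root. -/
noncomputable def rt (d : ℤ) (γ : V3) : P.F :=
  ev3 γ (P.om * P.th d) / ev3 γ (P.om ^ 2 * P.th d)

/-- The local term of the reciprocity law for `α` and `x + y ω`. -/
noncomputable def tm (α x y : ℤ) : ZMod 3 :=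
  P.T α ((x + y * P.om) / (x + y * P.om ^ 2))

end Loc

def FamOk (P : ℕ → Loc) : Prop := ∀ l : ℕ, l.Prime → l ≠ 3 → (P l).Ok l

/-- The primes different from `3` that divide `n`. -/
def pf (n : ℤ) : Finset ℕ := n.natAbs.primeFactors.erase 3

noncomputable def RR (P : ℕ → Loc) (α x y : ℤ) : ZMod 3 :=
  ∑ l ∈ pf (α * (x ^ 2 - x * y + y ^ 2)), (P l).tm α x y

def Pm9 (d : ℤ) : Prop := d % 9 = 1 ∨ d % 9 = 8

/-- `3`-adically a scalar: `η = 3^t (n + 9 *, 9 *, 9 *)`. -/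
def Sc3 (η : V3) : Prop :=
  ∃ (t : ℕ) (n : ℤ), ¬(3 : ℤ) ∣ n ∧ η 0 = 3 ^ t * n ∧ (3 : ℤ) ^ (t + 2) ∣ η 1 ∧ (3 : ℤ) ^ (t + 2) ∣ η 2

open Classical in
noncomputable def phi (P : ℕ → Loc) (W d : ℤ) (γ : V3) : ZMod 3 :=
  ∑ l ∈ (pf W).filter (fun l => (P l).Cb d), (padicValInt l W : ZMod 3) * (P l).c ((P l).rt d γ)

def Good (P : ℕ → Loc) (d : ℤ) (p : ℕ) (m : ℤ) (γ : V3) : Prop :=
  N3 d γ = p * m ∧ m ≠ 0 ∧ ¬(p : ℤ) ∣ m ∧ (P p).th d ^ 3 = d ∧ (P p).sm (ev3 γ ((P p).th d))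

def Same (m : ℤ) (γ γ' : V3) : Prop := ∀ i, 9 * m ^ 2 ∣ γ i - γ' i

def Sol (a b c : ℤ) : Prop :=
  ∃ x y z : ℤ, ¬(x = 0 ∧ y = 0 ∧ z = 0) ∧ a * x ^ 3 + b * y ^ 3 + c * z ^ 3 = 0

/-- A context: three positive integers and primes dividing their product exactly once. -/
def Ctx (a b c : ℕ) (S : Finset ℕ) : Prop :=
  0 < a ∧ 0 < b ∧ 0 < c ∧ ∀ l ∈ S, l.Prime ∧ l ≠ 3 ∧ l ∣ a * b * c ∧ ¬l ^ 2 ∣ a * b * c

def dd (S : Finset ℕ) (e : S → ZMod 3) : ℤ := ∏ l : S, ((l : ℕ) : ℤ) ^ (e l).val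

open Classical in
noncomputable def V0 (P : ℕ → Loc) (a b c : ℕ) (S : Finset ℕ) (p q : ℕ) : Finset (S → ZMod 3) :=
  univ.filter fun e =>
    (∀ l ∈ S, (P l).T (dd S e : ℤ) ((a * p * (b * q) * c : ℕ) : ℤ) = 0) ∧
    (∀ r ∈ (a * b * c).primeFactors, r ∉ S → r ≠ 3 → (P r).c (dd S e : ℤ) = 0) ∧ Pm9 (dd S e)

def Els (P : ℕ → Loc) (a b c : ℕ) (S : Finset ℕ) (p q : ℕ) : Prop :=
  ∀ l ∈ S, (P l).T ((b * q * c ^ 2 : ℕ) : ℤ) ((a * p * c ^ 2 : ℕ) : ℤ) = 0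

/-- A prime that may be attached to the context. -/
def Fr (a b c p : ℕ) : Prop := p.Prime ∧ p ≠ 3 ∧ ¬p ∣ a * b * c

def Indep {S : Finset ℕ} (e e' : S → ZMod 3) : Prop :=
  ∀ i j : ZMod 3, i • e + j • e' = 0 → i = 0 ∧ j = 0

/-- The number of prime factors that are `1` modulo `3`. -/
def om1 (n : ℕ) : ℕ := #(n.primeFactors.filter fun l => l % 3 = 1)

noncomputable def e3 (k : ZMod 3) : ℂ := ZMod.stdAddChar k

open Classical in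
noncomputable def Xq (P : ℕ → Loc) (d d' : ℤ) (q : ℕ) (Δ : V9) : ℂ :=
  if (q : ℤ) ∣ N9 d d' Δ then 0
  else e3 ((P q).c ((P q).rt d (n9 d d' Δ)) - (P q).c ((P q).rt d' (n9 d' d (sw Δ))))

open Classical in
/-- The primes in `(z, X]` that do not divide `3 a b c`. -/
noncomputable def PP (a b c : ℕ) (z : ℝ) (X : ℕ) : Finset ℕ :=
  (Icc 1 X).filter fun p => Fr a b c p ∧ z < p

/-- The small primes that divide `n` exactly once. -/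
noncomputable def SS (y : ℝ) (n : ℕ) : Finset ℕ :=
  n.primeFactors.filter fun l => (l : ℝ) ≤ y ∧ l ≠ 3 ∧ ¬l ^ 2 ∣ n

/-- The weight: `1/3` at the primes of `SS`, `3` at the other prime factors. -/
noncomputable def gw (y : ℝ) (n : ℕ) : ℝ := 3 ^ #n.primeFactors / 9 ^ #(SS y n)

open Classical in
noncomputable def Npos (H : ℕ) : ℕ :=
  #((Icc 1 H ×ˢ Icc 1 H ×ˢ Icc 1 H).filter fun t : ℕ × ℕ × ℕ => Sol t.1 t.2.1 t.2.2)

noncomputable def zz (H : ℕ) : ℝ := Real.exp (Real.log H / Real.log (Real.log H) ^ 2)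

noncomputable def YY (H : ℕ) : ℝ := Real.exp (Real.log H / Real.log (Real.log H) ^ 3)

noncomputable def yy (H : ℕ) : ℝ := Real.exp (Real.log H / Real.log (Real.log H) ^ 5)

/-- A typical coefficient: a large prime factor, and few small ones. -/
def Typ (H n : ℕ) : Prop :=
  (∃ p : ℕ, p.Prime ∧ p ∣ n ∧ zz H < p) ∧
    (∏ l ∈ n.primeFactors.filter (fun l : ℕ => (l : ℝ) ≤ yy H), (l : ℝ)) ≤ YY H

def Typ3 (H a b c : ℕ) : Prop :=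
  Typ H a ∧ Typ H b ∧ Typ H c ∧ ∀ l : ℕ, l.Prime → zz H < l → ¬l ^ 2 ∣ a * b * c

/-- Soluble over the reals and over all the fields of `p`-adic numbers. -/
def LocSol (a b c : ℤ) : Prop :=
  (∃ x y z : ℝ, ¬(x = 0 ∧ y = 0 ∧ z = 0) ∧ a * x ^ 3 + b * y ^ 3 + c * z ^ 3 = 0) ∧
  ∀ (p : ℕ) [Fact p.Prime],
    ∃ x y z : ℚ_[p], ¬(x = 0 ∧ y = 0 ∧ z = 0) ∧ a * x ^ 3 + b * y ^ 3 + c * z ^ 3 = 0

/-- Squarefree numbers with all prime factors `2` modulo `3`. -/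
def NN (H : ℕ) : Finset ℕ :=
  (Icc 1 H).filter fun n => Squarefree n ∧ ∀ l ∈ n.primeFactors, l % 3 = 2

/-- The nonzero integer triples of height at most `H`. -/
noncomputable def Box (H : ℕ) : Finset (ℤ × ℤ × ℤ) :=
  (Icc (-H : ℤ) H ×ˢ Icc (-H : ℤ) H ×ˢ Icc (-H : ℤ) H).erase 0

open Classical in
noncomputable def Nsol (H : ℕ) : ℕ := #((Box H).filter fun t => Sol t.1 t.2.1 t.2.2)

open Classical in
noncomputable def Nloc (H : ℕ) : ℕ := #((Box H).filter fun t => LocSol t.1 t.2.1 t.2.2)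

end Pool.Agent.Lib.MP_65b7ad_nt.DS
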