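import Pool.Agent.Lib.MP_65b7ad_nt.DS.FPair

/-! The detecting functions. -/

open Finset

namespace Pool.Agent.Lib.MP_65b7ad_nt.DS

namespace F

open FPair

variable {S : Finset ℕ}

theorem dd_pos (hS : ∀ l ∈ S, l.Prime) (e : S → ZMod 3) : 1 ≤ dd S e :=
  (prod_pos fun (l : S) _ => pow_pos (by exact_mod_cast (hS l l.2).pos) _ : 0 < dd S e)

theorem dd_le (hS : ∀ l ∈ S, l.Prime) (e : S → ZMod 3) :
    dd S e ≤ ((∏ l ∈ S, l : ℕ) : ℤ) ^ 2 := by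
  rw [dd, Nat.cast_prod, ← prod_pow, ← prod_coe_sort S]
  refine prod_le_prod (fun l _ => by positivity) fun l _ => ?_
  have := (e l).val_lt
  exact pow_le_pow_right₀ (by exact_mod_cast (hS l l.2).one_le) (by omega)

theorem ne_zero_of_not_dvd' {a b : ℕ} (h : ¬a ∣ b) : b ≠ 0 := fun e => h (e ▸ dvd_zero a)

theorem val_dd (hS : ∀ l ∈ S, l.Prime) (e : S → ZMod 3) (l : S) :
    padicValInt l (dd S e) = (e l).val := by
  classical
  have := Fact.mk (hS l l.2)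
  have h1 : dd S e = (((l : ℕ) ^ (e l).val * ∏ r ∈ univ.erase l, (r : ℕ) ^ (e r).val : ℕ) : ℤ) := by
    rw [dd, ← mul_prod_erase univ _ (mem_univ l)]
    push_cast
    rfl
  have h2 : ¬(l : ℕ) ∣ ∏ r ∈ univ.erase l, ((r : S) : ℕ) ^ (e r).val := fun h => by
    obtain ⟨r, hr, h⟩ := ((hS l l.2).prime.dvd_finsetProd_iff _).1 h
    exact (mem_erase.1 hr).1 (Subtype.ext
      ((Nat.prime_dvd_prime_iff_eq (hS l l.2) (hS r r.2)).1 ((hS l l.2).dvd_of_dvd_pow h))).symm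
  rw [h1, padicValInt.of_nat, padicValNat.mul (pow_ne_zero _ (hS l l.2).ne_zero)
    (ne_zero_of_not_dvd' h2), padicValNat.prime_pow, padicValNat.eq_zero_of_not_dvd h2,
    add_zero]

theorem indep_val (hS : ∀ l ∈ S, l.Prime) {e e' : S → ZMod 3} (h : Indep e e') (i j : ℕ)
    (hi : i < 3) (hj : j < 3) (h0 : ¬(i = 0 ∧ j = 0)) :
    ∃ l : ℕ, l.Prime ∧ ¬3 ∣ padicValInt l (dd S e ^ i * dd S e' ^ j) := by
  by_contra hc
  push Not at hc
  have h1 := h i j (funext fun l => by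
    have := Fact.mk (hS l l.2)
    have n1 : dd S e ≠ 0 := by have := dd_pos hS e; omega
    have n2 : dd S e' ≠ 0 := by have := dd_pos hS e'; omega
    have h2 := hc l (hS l l.2)
    rw [padicValInt.mul (pow_ne_zero _ n1) (pow_ne_zero _ n2), padicValInt, padicValInt,
      Int.natAbs_pow, Int.natAbs_pow, padicValNat.pow, padicValNat.pow] at h2
    change 3 ∣ i * padicValInt l (dd S e) + j * padicValInt l (dd S e') at h2
    rw [val_dd hS, val_dd hS] at h2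
    have h3 := (ZMod.natCast_eq_zero_iff _ 3).2 h2
    push_cast at h3
    simpa using h3)
  rw [ZMod.natCast_eq_zero_iff, ZMod.natCast_eq_zero_iff] at h1
  omega

theorem ne_val (hS : ∀ l ∈ S, l.Prime) {e : S → ZMod 3} (h : e ≠ 0) :
    ∃ l : ℕ, l.Prime ∧ ¬3 ∣ padicValInt l (dd S e) := by
  obtain ⟨l, hl⟩ := Function.ne_iff.1 h
  refine ⟨l, hS l l.2, ?_⟩
  rw [val_dd hS]
  intro h3
  exact hl ((ZMod.val_eq_zero _).1 (Nat.eq_zero_of_dvd_of_lt h3 (e l).val_lt))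

theorem Indep.ne {e e' : S → ZMod 3} (h : Indep e e') : e ≠ 0 ∧ e' ≠ 0 :=
  ⟨fun e0 => one_ne_zero (h 1 0 (by simp [e0])).1, fun e0 => one_ne_zero (h 0 1 (by simp [e0])).2⟩

end F

open F FPair in
theorem fst (h9 : R9St) (hK1 : K1St) (hK2 : K2St) (hS3 : SV3St) (hS9 : SV9St) (hNZ : NZSt)
    (hX : XqSt) (hBL : BLSt) (hD : DepSt) (hV : V0St) : FSt := by
  classical
  obtain ⟨C, hC, hpair⟩ := pair h9 hK2 hS9 hX hBL
  refine ⟨C * (10 ^ 6) ^ 29, 32 * 29, by positivity,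
    fun P hP a b c S p₀ q₀ X₁ X₂ A B hcell => ?_⟩
  obtain ⟨hctx, hp₀, hq₀, hels, hX₂, hX₁, hA, hB⟩ := hcell
  have hS : ∀ l ∈ S, l.Prime := fun l hl => (hctx.2.2.2 l hl).1
  set M : ℕ := ∏ l ∈ S, l with hM
  have hM1 : (1 : ℤ) ≤ M := by
    exact_mod_cast (prod_pos fun l hl => (hS l hl).pos : 0 < ∏ l ∈ S, l)
  have hsz : ∀ e e' : S → ZMod 3,
      10 ^ 6 * (dd S e * dd S e') ^ 8 ≤ ((10 ^ 6 * M ^ 32 : ℕ) : ℤ) := fun e e' => by
    have h1 := dd_le hS e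
    have h2 := dd_le hS e'
    have h3 := dd_pos hS e
    have h4 := dd_pos hS e'
    push_cast
    calc 10 ^ 6 * (dd S e * dd S e') ^ 8 ≤ 10 ^ 6 * ((M : ℤ) ^ 2 * M ^ 2) ^ 8 := by gcongr
      _ = _ := by ring
  have hsz' : ∀ e : S → ZMod 3, 6 * dd S e ^ 2 ≤ ((10 ^ 6 * M ^ 32 : ℕ) : ℤ) := fun e => by
    refine le_trans ?_ (hsz e e)
    have h3 := dd_pos hS e
    rw [← sq, ← pow_mul]
    exact mul_le_mul (by norm_num) (pow_le_pow_right₀ h3 (by norm_num)) (by positivity)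
      (by norm_num)
  have hch : ∀ (e : S → ZMod 3) (p : ℕ), ∃ (γ : V3) (m : ℤ), e ≠ 0 → p ∈ A →
      (P p).c (dd S e : ℤ) = 0 →
      Good P (dd S e) p m γ ∧ |m| ≤ ((10 ^ 6 * M ^ 32 : ℕ) : ℤ) := fun e p => by
    by_cases h : e ≠ 0 ∧ p ∈ A ∧ (P p).c (dd S e : ℤ) = 0
    · obtain ⟨h1, -, h3, -⟩ := hA p h.2.1
      obtain ⟨γ, m, e1, e2⟩ := hS3 P hP (dd S e) p (dd_pos hS e) (ne_val hS h.1) h1.1 h1.2.1 h.2.2
        ((hsz' e).trans_lt (by exact_mod_cast h3))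
      exact ⟨γ, m, fun _ _ _ => ⟨e1, e2.trans (hsz' e)⟩⟩
    · exact ⟨0, 0, fun h1 h2 h3 => absurd ⟨h1, h2, h3⟩ h⟩
  choose δ m hδ using hch
  have hinv : ∀ p ∈ A, ∀ q ∈ B, V0 P a b c S p₀ q₀ = V0 P a b c S p q ∧ Els P a b c S p q :=
    fun p hp q hq => by
      have := (hV P hP a b c S p₀ q₀ hctx hp₀ hq₀).2.2 p q (hA p hp).1 (hB q hq).1
        (hA p hp).2.1.symm (hB q hq).2.1.symm
      exact ⟨this.1, this.2.1 hels⟩
  have hβ : ∀ (e : S → ZMod 3) (q : ℕ) (κ : ℤ × V3), ∃ t : ZMod 3, e ≠ 0 →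
      e ∈ V0 P a b c S p₀ q₀ → q ∈ B → (P q).c (dd S e : ℤ) = 0 → ∀ p ∈ A, p ≠ q →
      Sol (a * p : ℕ) (b * q : ℕ) c → (P p).c (dd S e : ℤ) = 0 → kap (m e p) (δ e p) = κ →
      phi P (b * q * c ^ 2 : ℕ) (dd S e) (δ e p) = t := fun e q κ => by
    by_cases h : ∃ p ∈ A, p ≠ q ∧ Sol (a * p : ℕ) (b * q : ℕ) c ∧ (P p).c (dd S e : ℤ) = 0 ∧
        kap (m e p) (δ e p) = κ
    · obtain ⟨p', hp', n', s', c', k'⟩ := h
      refine ⟨phi P (b * q * c ^ 2 : ℕ) (dd S e) (δ e p'), fun e0 he hq cq p hp n s cp k => ?_⟩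
      obtain ⟨k1, k2⟩ := kap_eq (k.trans k'.symm)
      exact hK1 P hP a b c S p p' q hctx (hA p hp).1 (hA p' hp').1 (hB q hq).1 n n'
        ((hA p hp).2.1.trans (hA p' hp').2.1.symm) s s' e ((hinv p hp q hq).1 ▸ he) cq _ _ _
        (hδ e p e0 hp cp).1 (k1 ▸ (hδ e p' e0 hp' c').1) k2
    · exact ⟨0, fun _ _ _ _ p hp n s cp k => absurd ⟨p, hp, n, s, cp, k⟩ h⟩
  choose β hβ using hβ
  refine ⟨fun e p q => if p ≠ q ∧ (P p).c (dd S e : ℤ) = 0 ∧ (P q).c (dd S e : ℤ) = 0 then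
      (if e = 0 then 1 else
        e3 (phi P (b * q * c ^ 2 : ℕ) (dd S e) (δ e p) - β e q (kap (m e p) (δ e p)))) else 0,
    fun e p q => ?_, fun e he p hp q hq hpq hs => ?_, fun e he e' he' hi => ?_⟩
  · dsimp only
    split_ifs <;> simp [e3_norm]
  · dsimp only
    by_cases h : (P p).c (dd S e : ℤ) = 0 ∧ (P q).c (dd S e : ℤ) = 0
    · rw [if_pos ⟨hpq, h⟩, if_pos h]
      split_ifs with e0
      · rfl
      · rw [hβ e q _ e0 he hq h.2 p hp hpq hs h.1 rfl, sub_self, e3_zero]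
    · rw [if_neg fun h' => h h'.2, if_neg h]
  obtain ⟨e0, e0'⟩ := Indep.ne hi
  have hpm : ∀ e ∈ V0 P a b c S p₀ q₀, Pm9 (dd S e) := fun e he => (mem_filter.1 he).2.2.2
  have key := hpair P hP b c (10 ^ 6 * M ^ 32) X₁ X₂ (dd S e) (dd S e')
    (A.filter fun p => (P p).c (dd S e : ℤ) = 0 ∧ (P p).c (dd S e' : ℤ) = 0)
    (B.filter fun q => (P q).c (dd S e : ℤ) = 0 ∧ (P q).c (dd S e' : ℤ) = 0)
    (δ e) (δ e') (m e) (m e') (β e) (β e') hctx.2.1 hctx.2.2.1 hX₂ hX₁ (dd_pos hS e) (dd_pos hS e')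
    (hpm e he) (hpm e' he') (hsz e e')
    (fun Δ => hNZ _ _ Δ (by have := dd_pos hS e; omega) (by have := dd_pos hS e'; omega)
      (indep_val hS hi))
    (fun p hp => by
      obtain ⟨hp, c1, c2⟩ := mem_filter.1 hp
      obtain ⟨h1, -, h3, h4⟩ := hA p hp
      exact ⟨h1.1, h1.2.1, h3, h4, c1, c2, (hδ e p e0 hp c1).1, (hδ e' p e0' hp c2).1,
        (hδ e p e0 hp c1).2, (hδ e' p e0' hp c2).2⟩)
    (fun q hq => by
      obtain ⟨hq, c1, c2⟩ := mem_filter.1 hq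
      obtain ⟨h1, -, h3, h4⟩ := hB q hq
      exact ⟨h1.1, h1.2.1, h3, h4, fun h => h1.2.2 (mul_assoc a b c ▸ h.mul_left a), c1, c2⟩)
    (fun p hp q hq hpq => by
      obtain ⟨hp, -⟩ := mem_filter.1 hp
      obtain ⟨hq, c1, c2⟩ := mem_filter.1 hq
      obtain ⟨i1, i2⟩ := hinv p hp q hq
      have h1 := (hD P hP a b c S p q hctx (hA p hp).1 (hB q hq).1 hpq).2
      have h2 := h1 e (i1 ▸ he) i2 c1
      have h3 := h1 e' (i1 ▸ he') i2 c2
      have h4 := (hB q hq).1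
      exact ⟨⟨⟨q, h4.1, h4.2.1, h2.1⟩, h2.2.1⟩, ⟨q, h4.1, h4.2.1, h3.1⟩, h3.2.1⟩)
  refine le_trans (le_of_eq ?_) (key.trans (le_of_eq ?_))
  · congr 1
    rw [sum_filter]
    refine sum_congr rfl fun p _ => ?_
    rw [sum_filter]
    by_cases c1 : (P p).c (dd S e : ℤ) = 0 ∧ (P p).c (dd S e' : ℤ) = 0
    · rw [if_pos c1]
      refine sum_congr rfl fun q _ => ?_
      by_cases c2 : (P q).c (dd S e : ℤ) = 0 ∧ (P q).c (dd S e' : ℤ) = 0
      · by_cases hpq : p = q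
        · simp [hpq]
        · simp only [c1.1, c1.2, c2.1, c2.2, e0, e0', hpq, Ne, not_false_eq_true, and_self,
            if_true, if_false]
      · rw [if_neg c2]
        rcases not_and_or.1 c2 with c | c <;> simp [c]
    · rw [if_neg c1]
      refine sum_eq_zero fun q _ => ?_
      rcases not_and_or.1 c1 with c | c <;> simp [c]
  · push_cast
    ring

end Pool.Agent.Lib.MP_65b7ad_nt.DS
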