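import Pool.Agent.Lib.MP_65b7ad_nt.DS.Bas

/-! The bilinear bound for one pair of independent numbers `d`, `d'`. -/

open Finset

namespace Pool.Agent.Lib.MP_65b7ad_nt.DS

namespace FPair

/-- The class of a good triple. -/
def kap (m : ℤ) (γ : V3) : ℤ × V3 := (m, fun i => γ i % (9 * m ^ 2))

theorem kap_eq {m m' : ℤ} {γ γ' : V3} (h : kap m γ = kap m' γ') : m = m' ∧ Same m γ γ' := by
  obtain rfl : m = m' := congrArg Prod.fst h
  exact ⟨rfl, fun i => (Int.ModEq.dvd (congrFun (congrArg Prod.snd h) i).symm)⟩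

noncomputable def KK (K : ℕ) : Finset (ℤ × V3) :=
  Icc (-K : ℤ) K ×ˢ Fintype.piFinset fun _ => Ico (0 : ℤ) (9 * K ^ 2)

theorem kap_mem {K : ℕ} {m : ℤ} (h0 : m ≠ 0) (hm : |m| ≤ K) (γ : V3) : kap m γ ∈ KK K := by
  have h1 : 0 < 9 * m ^ 2 := by positivity
  have h2 : m ^ 2 ≤ (K : ℤ) ^ 2 := by
    rw [← sq_abs]; gcongr
  simp only [KK, kap, mem_product, mem_Icc, Fintype.mem_piFinset, mem_Ico]
  exact ⟨abs_le.1 hm, fun i => ⟨Int.emod_nonneg _ h1.ne',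
    (Int.emod_lt_of_pos _ h1).trans_le (by linarith)⟩⟩

theorem card_KK {K : ℕ} (hK : 1 ≤ K) : #(KK K) ≤ 2187 * K ^ 7 := by
  rw [KK, card_product, Fintype.card_piFinset, Int.card_Icc]
  simp only [Int.card_Ico, prod_const, card_univ, Fintype.card_fin]
  have e1 : ((K : ℤ) + 1 - -K).toNat = 2 * K + 1 := by omega
  have e2 : (9 * (K : ℤ) ^ 2 - 0).toNat = 9 * K ^ 2 := by
    rw [sub_zero]; exact_mod_cast Int.toNat_natCast (9 * K ^ 2)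
  rw [e1, e2]
  calc (2 * K + 1) * (9 * K ^ 2) ^ 3 ≤ (3 * K) * (9 * K ^ 2) ^ 3 := by gcongr; omega
    _ = 2187 * K ^ 7 := by ring

theorem e3_norm (k : ZMod 3) : ‖e3 k‖ = 1 := by
  rw [e3, ZMod.stdAddChar_apply, Circle.norm_coe]

theorem e3_add (j k : ZMod 3) : e3 (j + k) = e3 j * e3 k := AddChar.map_add_eq_mul _ _ _

theorem e3_zero : e3 0 = 1 := AddChar.map_zero_eq_one _

theorem e3_conj (k : ZMod 3) : (starRingEnd ℂ) (e3 k) = e3 (-k) := by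
  rw [e3, e3, AddChar.map_neg_eq_conj]

open Classical in
/-- The part of `phi` that does not depend on `q`. -/
theorem phi_split {P : ℕ → Loc} {b c q : ℕ} (hb : 0 < b) (hc : 0 < c) (hq : q.Prime) (h3 : q ≠ 3)
    (hqb : ¬q ∣ b * c) {d : ℤ} (hd : (P q).Cb d) (γ : V3) :
    phi P (b * q * c ^ 2 : ℕ) d γ = phi P (b * c ^ 2 : ℕ) d γ + (P q).c ((P q).rt d γ) := by
  have := Fact.mk hq
  have h1 : ¬q ∣ b * c ^ 2 := fun e => hqb <| (hq.dvd_mul.1 e).elim (fun e => e.mul_right _)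
    fun e => (hq.dvd_of_dvd_pow e).mul_left _
  have h0 : b * c ^ 2 ≠ 0 := by positivity
  have e0 : b * q * c ^ 2 = q * (b * c ^ 2) := by ring
  have e1 : (pf (b * q * c ^ 2 : ℕ)).filter (fun l => (P l).Cb d) =
      insert q ((pf (b * c ^ 2 : ℕ)).filter fun l => (P l).Cb d) := by
    ext l
    simp only [mem_insert, mem_filter, mem_pf, Int.natCast_dvd_natCast, e0, Ne, Int.natCast_eq_zero]
    constructor
    · rintro ⟨⟨hl, hl3, hdv, -⟩, hcb⟩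
      rcases hl.dvd_mul.1 hdv with e | e
      · exact Or.inl ((Nat.prime_dvd_prime_iff_eq hl hq).1 e)
      · exact Or.inr ⟨⟨hl, hl3, e, h0⟩, hcb⟩
    · rintro (rfl | ⟨⟨hl, hl3, hdv, -⟩, hcb⟩)
      · exact ⟨⟨hq, h3, dvd_mul_right _ _, mul_ne_zero hq.ne_zero h0⟩, hd⟩
      · exact ⟨⟨hl, hl3, hdv.mul_left _, mul_ne_zero hq.ne_zero h0⟩, hcb⟩
  have e2 : q ∉ (pf (b * c ^ 2 : ℕ)).filter fun l => (P l).Cb d := fun e =>
    h1 (Int.natCast_dvd_natCast.1 (mem_pf.1 (mem_filter.1 e).1).2.2.1)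
  rw [phi, phi, e1, sum_insert e2, add_comm]
  congr 1
  · refine sum_congr rfl fun l hl => ?_
    have hl' := mem_pf.1 (mem_filter.1 hl).1
    have := Fact.mk hl'.1
    have hne : ¬l ∣ q := fun e => e2 ((Nat.prime_dvd_prime_iff_eq hl'.1 hq).1 e ▸ hl)
    rw [padicValInt.of_nat, padicValInt.of_nat, e0, padicValNat.mul hq.ne_zero h0,
      padicValNat.eq_zero_of_not_dvd hne, zero_add]
  · rw [padicValInt.of_nat, e0, padicValNat.mul hq.ne_zero h0, padicValNat_self,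
      padicValNat.eq_zero_of_not_dvd h1]
    simp

/-- The conditions on `W` and `d` in the second comparison lemma. -/
def Dp (P : ℕ → Loc) (W d : ℤ) : Prop :=
  (∃ l : ℕ, l.Prime ∧ l ≠ 3 ∧ (P l).Cb d ∧ ¬(P l).Cb W) ∧
    ∀ l : ℕ, l.Prime → l ≠ 3 → (P l).T W d = 0

theorem pair (h9 : R9St) (hK2 : K2St) (hSV : SV9St) (hX : XqSt) (hBL : BLSt) :
    ∃ C : ℝ, 0 < C ∧ ∀ P : ℕ → Loc, FamOk P → ∀ (b c K X₁ X₂ : ℕ) (d d' : ℤ) (A B : Finset ℕ)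
      (δ δ' : ℕ → V3) (m m' : ℕ → ℤ) (β β' : ℕ → ℤ × V3 → ZMod 3),
      0 < b → 0 < c → 9 ≤ X₂ → X₂ ≤ X₁ → 1 ≤ d → 1 ≤ d' → Pm9 d → Pm9 d' →
      10 ^ 6 * (d * d') ^ 8 ≤ K → (∀ Δ : V9, Δ ≠ 0 → N9 d d' Δ ≠ 0) →
      (∀ p ∈ A, p.Prime ∧ p ≠ 3 ∧ K < p ∧ p ≤ X₁ ∧ (P p).c d = 0 ∧ (P p).c d' = 0 ∧
        Good P d p (m p) (δ p) ∧ Good P d' p (m' p) (δ' p) ∧ |m p| ≤ K ∧ |m' p| ≤ K) →
      (∀ q ∈ B, q.Prime ∧ q ≠ 3 ∧ K < q ∧ q ≤ X₂ ∧ ¬q ∣ b * c ∧ (P q).c d = 0 ∧ (P q).c d' = 0) →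
      (∀ p ∈ A, ∀ q ∈ B, p ≠ q → Dp P (b * q * c ^ 2 : ℕ) d ∧ Dp P (b * q * c ^ 2 : ℕ) d') →
      ‖∑ p ∈ A, ∑ q ∈ B, if p ≠ q then
          e3 (phi P (b * q * c ^ 2 : ℕ) d (δ p) - β q (kap (m p) (δ p))) *
            (starRingEnd ℂ) (e3 (phi P (b * q * c ^ 2 : ℕ) d' (δ' p) - β' q (kap (m' p) (δ' p))))
        else 0‖ ≤ C * K ^ 29 * X₁ * (X₂ : ℝ) ^ (71 / 72 : ℝ) := by
  classical
  obtain ⟨C, hC, hB⟩ := hBL
  refine ⟨2187 ^ 4 * C, by positivity, fun P hP b c K X₁ X₂ d d' A B δ δ' m m' β β' hb hc hX₂ hX₁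
    hd hd' pd pd' hK hNZ hA hBq hDp => ?_⟩
  have hdd : 1 ≤ d * d' := one_le_mul_of_one_le_of_one_le hd hd'
  have hK1 : 1 ≤ K := by
    have : (1 : ℤ) ≤ 10 ^ 6 * (d * d') ^ 8 := one_le_mul_of_one_le_of_one_le (by norm_num)
      (one_le_pow₀ hdd)
    exact_mod_cast this.trans hK
  have hch : ∀ p : ℕ, ∃ (Δ : V9) (n : ℤ), p ∈ A → (∀ k, |Δ k| ^ 9 ≤ p) ∧ N9 d d' Δ = p * n ∧
      |n| ≤ K ∧ Good P d p n (n9 d d' Δ) ∧ Good P d' p n (n9 d' d (sw Δ)) := fun p => by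
    by_cases hp : p ∈ A
    · obtain ⟨h1, h2, h3, -, h5, h6, -⟩ := hA p hp
      obtain ⟨Δ, n, e1, e2, e3', e4⟩ := hSV P hP d d' p hd hd' hNZ h1 h2 h5 h6
        (hK.trans_lt (by exact_mod_cast h3))
      exact ⟨Δ, n, fun _ => ⟨e1, e2, e3'.trans hK, e4⟩⟩
    · exact ⟨0, 0, fun h => absurd h hp⟩
  choose Δ n hΔ using hch
  set γ : ℕ → V3 := fun p => n9 d d' (Δ p) with hγ
  set γ' : ℕ → V3 := fun p => n9 d' d (sw (Δ p)) with hγ'
  let J : ℕ → (ℤ × V3) × (ℤ × V3) × (ℤ × V3) × (ℤ × V3) := fun p =>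
    (kap (m p) (δ p), kap (m' p) (δ' p), kap (n p) (γ p), kap (n p) (γ' p))
  have hJ : ∀ p ∈ A, J p ∈ KK K ×ˢ KK K ×ˢ KK K ×ˢ KK K := fun p hp => by
    obtain ⟨-, -, -, -, -, -, g1, g2, b1, b2⟩ := hA p hp
    obtain ⟨-, -, b3, g3, -⟩ := hΔ p hp
    simp only [mem_product, J]
    exact ⟨kap_mem g1.2.1 b1 _, kap_mem g2.2.1 b2 _, kap_mem g3.2.1 b3 _, kap_mem g3.2.1 b3 _⟩
  rw [← sum_fiberwise_of_maps_to hJ]
  obtain ⟨C₀, hC₀⟩ : ∃ C₀ : ℕ, (C₀ : ℤ) = 9 * d * d' := ⟨(9 * d * d').toNat, by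
    rw [Int.toNat_of_nonneg]; nlinarith⟩
  have hC₁ : 1 ≤ C₀ := by
    have : (1 : ℤ) ≤ C₀ := by rw [hC₀]; nlinarith
    exact_mod_cast this
  have hC₂ : (C₀ : ℝ) ^ 5 ≤ K := by
    have : (C₀ : ℤ) ^ 5 ≤ K := by
      refine le_trans ?_ hK
      rw [hC₀, mul_assoc, mul_pow]
      exact mul_le_mul (by norm_num) (pow_le_pow_right₀ hdd (by norm_num)) (by positivity)
        (by norm_num)
    exact_mod_cast this
  have hfib : ∀ j, ‖∑ p ∈ A with J p = j, ∑ q ∈ B, if p ≠ q then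
      e3 (phi P (b * q * c ^ 2 : ℕ) d (δ p) - β q (kap (m p) (δ p))) *
        (starRingEnd ℂ) (e3 (phi P (b * q * c ^ 2 : ℕ) d' (δ' p) - β' q (kap (m' p) (δ' p))))
      else 0‖ ≤ C * K * X₁ * (X₂ : ℝ) ^ (71 / 72 : ℝ) := fun j => by
    rcases (A.filter fun p => J p = j).eq_empty_or_nonempty with e | ⟨p₀, hp₀⟩
    · rw [e, sum_empty, norm_zero]; positivity
    obtain ⟨hp₀, hj₀⟩ := mem_filter.1 hp₀
    obtain ⟨a1, a2, -, -, -, -, a7, a8, -, -⟩ := hA p₀ hp₀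
    obtain ⟨-, -, a9, a10, a11⟩ := hΔ p₀ hp₀
    refine le_trans (le_of_eq ?_) ((hB (mul9 d d') (N9 d d') C₀ X₁ X₂ (A.filter fun p => J p = j)
      B Δ (n p₀) (Xq P d d')
      (fun p => e3 (phi P (b * c ^ 2 : ℕ) d (γ p) - phi P (b * c ^ 2 : ℕ) d' (γ' p)))
      (fun q => e3 ((phi P (b * q * c ^ 2 : ℕ) d (δ p₀) - phi P (b * q * c ^ 2 : ℕ) d (γ p₀)
          - β q (kap (m p₀) (δ p₀))) - (phi P (b * q * c ^ 2 : ℕ) d' (δ' p₀)
          - phi P (b * q * c ^ 2 : ℕ) d' (γ' p₀) - β' q (kap (m' p₀) (δ' p₀)))))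
      hC₁ hX₂ hX₁ (fun x y s t hx hy k => by
        rw [hC₀]; exact (h9.2.2.2 d d' s t x y hd hd' hx hy).1 k)
      (fun x y => (h9.2.2.1 d d' x y).1) a10.2.1 (fun p hp => ?_) (fun q hq => ?_)
      (fun p => (e3_norm _).le) (fun q => (e3_norm _).le)).trans (by gcongr))
    · congr 1
      refine sum_congr rfl fun p hp => sum_congr rfl fun q hq => ?_
      obtain ⟨hp, hj⟩ := mem_filter.1 hp
      have hJe : J p = J p₀ := hj.trans hj₀.symm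
      have k1 : kap (m p) (δ p) = kap (m p₀) (δ p₀) := congrArg (·.1) hJe
      have k2 : kap (m' p) (δ' p) = kap (m' p₀) (δ' p₀) := congrArg (·.2.1) hJe
      have k3 : kap (n p) (γ p) = kap (n p₀) (γ p₀) := congrArg (·.2.2.1) hJe
      have k4 : kap (n p) (γ' p) = kap (n p₀) (γ' p₀) := congrArg (·.2.2.2) hJe
      obtain ⟨b1, b2, -, -, -, -, b7, b8, -, -⟩ := hA p hp
      obtain ⟨-, b9, b10, b11, b12⟩ := hΔ p hp
      obtain ⟨c1, c2, c3, -, c5, c6, c7⟩ := hBq q hq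
      by_cases hpq : p = q
      · subst hpq
        rw [if_neg (by simp), Xq, if_pos ⟨_, b9⟩, mul_zero]
      have hnd : ¬(q : ℤ) ∣ N9 d d' (Δ p) := by
        rw [b9]
        intro e
        rcases (Nat.prime_iff_prime_int.1 c1).dvd_or_dvd e with e | e
        · exact hpq ((Nat.prime_dvd_prime_iff_eq c1 b1).1 (Int.natCast_dvd_natCast.1 e)).symm
        · have := Int.le_of_dvd (abs_pos.2 b11.2.1) ((dvd_abs _ _).2 e)
          have : (K : ℤ) < q := by exact_mod_cast c3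
          linarith
      have hqd : ∀ x : ℤ, 1 ≤ x → x ≤ d * d' → (P q).c x = 0 → (P q).Cb x := fun x h1 h2 h3 => by
        have hx : ¬(q : ℤ) ∣ x := fun e => by
          have h4 := Int.le_of_dvd (by linarith) e
          have h5 : (K : ℤ) < q := by exact_mod_cast c3
          have h6 : d * d' ≤ (d * d') ^ 8 := le_self_pow₀ hdd (by norm_num)
          have h7 : 0 ≤ (d * d') ^ 8 := by positivity
          linarith
        exact ⟨_, ((hP q c1 c2).th_res hx h3).1⟩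
      have hW : ((b * q * c ^ 2 : ℕ) : ℤ) ≠ 0 := by
        have := c1.pos
        positivity
      obtain ⟨⟨D1, D2⟩, D3, D4⟩ := hDp p hp q hq hpq
      have r1 := hK2 P hP _ d p p₀ _ _ _ _ _ _ hW pd D1 D2 b1 b2 a1 a2 b7
        ((kap_eq k1).1 ▸ a7) (kap_eq k1).2 b11 ((kap_eq k3).1 ▸ a10) (kap_eq k3).2
      have r2 := hK2 P hP _ d' p p₀ _ _ _ _ _ _ hW pd' D3 D4 b1 b2 a1 a2 b8
        ((kap_eq k2).1 ▸ a8) (kap_eq k2).2 b12 ((kap_eq k4).1 ▸ a11) (kap_eq k4).2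
      have s1 := phi_split (P := P) hb hc c1 c2 c5 (hqd d hd (by nlinarith) c6) (γ p)
      have s2 := phi_split (P := P) hb hc c1 c2 c5 (hqd d' hd' (by nlinarith) c7) (γ' p)
      rw [if_pos hpq, Xq, if_neg hnd, e3_conj, ← e3_add, ← e3_add, ← e3_add, k1, k2]
      congr 1
      linear_combination r1 - r2 + s1 - s2
    · obtain ⟨hp, hj⟩ := mem_filter.1 hp
      have k3 : kap (n p) (γ p) = kap (n p₀) (γ p₀) :=
        congrArg (·.2.2.1) (hj.trans hj₀.symm : J p = J p₀)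
      obtain ⟨b1, -, -, b4, -⟩ := hA p hp
      obtain ⟨b8, b9, -⟩ := hΔ p hp
      exact ⟨b1, b4, (kap_eq k3).1 ▸ b9, fun k => (b8 k).trans (by exact_mod_cast b4)⟩
    · obtain ⟨c1, c2, c3, c4, -, c6, c7⟩ := hBq q hq
      have hx : ∀ x : ℤ, 1 ≤ x → x ≤ d * d' → ¬(q : ℤ) ∣ x := fun x h1 h2 e => by
        have h4 := Int.le_of_dvd (by linarith) e
        have h5 : (K : ℤ) < q := by exact_mod_cast c3
        have h6 : d * d' ≤ (d * d') ^ 8 := le_self_pow₀ hdd (by norm_num)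
        have h7 : 0 ≤ (d * d') ^ 8 := by positivity
        linarith
      exact ⟨c1, c4, hX P hP d d' q c1 c2 (hx d hd (by nlinarith)) (hx d' hd' (by nlinarith)) c6 c7⟩
  refine (norm_sum_le _ _).trans ((sum_le_card_nsmul _ _ _ fun j _ => hfib j).trans ?_)
  have hc4 : (#(KK K ×ˢ KK K ×ˢ KK K ×ˢ KK K) : ℝ) ≤ 2187 ^ 4 * K ^ 28 := by
    have h1 : (#(KK K) : ℝ) ≤ 2187 * K ^ 7 := by exact_mod_cast card_KK hK1
    simp only [card_product, Nat.cast_mul]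
    calc (#(KK K) : ℝ) * (#(KK K) * (#(KK K) * #(KK K))) = #(KK K) ^ 4 := by ring
      _ ≤ (2187 * K ^ 7) ^ 4 := by gcongr
      _ = _ := by ring
  rw [nsmul_eq_mul]
  calc _ ≤ (2187 ^ 4 * K ^ 28 : ℝ) * (C * K * X₁ * (X₂ : ℝ) ^ (71 / 72 : ℝ)) := by gcongr
    _ = _ := by ring

end FPair

end Pool.Agent.Lib.MP_65b7ad_nt.DS
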