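import Pool.Agent.Lib.MP_65b7ad_nt.DS.St

/-! The ring of rank nine. -/

open Finset

namespace Pool.Agent.Lib.MP_65b7ad_nt.DS

namespace R9

theorem cf_pow {F : Type} [CommRing F] {d : ℤ} {T : F} (h : T ^ 3 = d) (a b : Fin 3) :
    (cf d a b : F) * T ^ (a + b).val = T ^ a.val * T ^ b.val := by
  fin_cases a <;> fin_cases b <;> simp [cf, ← h] <;> ring

theorem ev_mul {F : Type} [CommRing F] {d d' : ℤ} {T U : F} (h : T ^ 3 = d) (h' : U ^ 3 = d')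
    (Δ Γ : V9) : ev9 (mul9 d d' Δ Γ) T U = ev9 Δ T U * ev9 Γ T U := by
  simp only [ev9, mul9, Int.cast_sum, sum_mul]
  rw [sum_comm]
  refine sum_congr rfl fun a _ => ?_
  rw [mul_sum, ← Equiv.sum_comp (Equiv.addLeft a)]
  refine sum_congr rfl fun b _ => ?_
  simp only [Equiv.coe_addLeft, add_sub_cancel_left, Prod.fst_add, Prod.snd_add, Int.cast_mul]
  linear_combination (Δ a * Γ b * cf d' a.2 b.2 * U ^ (a.2 + b.2).val : F) * cf_pow h a.1 b.1 +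
    (Δ a * Γ b * T ^ a.1.val * T ^ b.1.val : F) * cf_pow h' a.2 b.2

theorem ev_sw {F : Type} [CommRing F] (T U : F) (Δ : V9) : ev9 (sw Δ) U T = ev9 Δ T U := by
  rw [ev9, ev9, ← Equiv.sum_comp (Equiv.prodComm (Fin 3) (Fin 3))]
  refine sum_congr rfl fun k _ => ?_
  simp only [sw, Equiv.prodComm_apply, Prod.fst_swap, Prod.snd_swap]
  ring

theorem ev_row {F : Type} [CommRing F] (T U : F) (Δ : V9) :
    ev9 Δ T U = ev3 (row Δ 0) T + ev3 (row Δ 1) T * U + ev3 (row Δ 2) T * U ^ 2 := by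
  simp [ev9, ev3, row, Fintype.sum_prod_type, Fin.sum_univ_three]
  ring

theorem ev_n9 (h : R3St) {F : Type} [CommRing F] {d d' : ℤ} {w T U : F} (hw : w ^ 2 + w + 1 = 0)
    (hT : T ^ 3 = d) (hU : U ^ 3 = d') (Δ : V9) :
    ev3 (n9 d d' Δ) T = ev9 Δ T U * ev9 Δ T (w * U) * ev9 Δ T (w ^ 2 * U) := by
  have m := fun α β => (h.1 F d T hT α β).1
  have e : ev3 (n9 d d' Δ) T = ev3 (cu3 d (row Δ 0)) T + d' * ev3 (cu3 d (row Δ 1)) T +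
      d' ^ 2 * ev3 (cu3 d (row Δ 2)) T -
      3 * d' * ev3 (mul3 d (row Δ 0) (mul3 d (row Δ 1) (row Δ 2))) T := by
    simp only [n9, ev3, Pi.add_apply, Pi.sub_apply, Pi.smul_apply, smul_eq_mul]
    push_cast
    ring
  rw [e]
  simp only [cu3, m, ev_row, ← hU]
  generalize ev3 (row Δ 0) T = x
  generalize ev3 (row Δ 1) T = y
  generalize ev3 (row Δ 2) T = z
  linear_combination -(x + y * U + z * U ^ 2) * (x * (y * U) + x * (z * U ^ 2) * (w ^ 2 - w + 1) +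
    (y * U) ^ 2 * (w - 1) + y * U * (z * U ^ 2) * (w ^ 3 - w + 1) +
    (z * U ^ 2) ^ 2 * (w - 1) * (w ^ 3 + 1)) * hw

theorem N9_eq (h : R3St) {F : Type} [CommRing F] {d d' : ℤ} {w T U : F} (hw : w ^ 2 + w + 1 = 0)
    (hT : T ^ 3 = d) (hU : U ^ 3 = d') (Δ : V9) :
    (N9 d d' Δ : F) = ev9 Δ T U * ev9 Δ T (w * U) * ev9 Δ T (w ^ 2 * U) *
      (ev9 Δ (w * T) U * ev9 Δ (w * T) (w * U) * ev9 Δ (w * T) (w ^ 2 * U)) *
      (ev9 Δ (w ^ 2 * T) U * ev9 Δ (w ^ 2 * T) (w * U) * ev9 Δ (w ^ 2 * T) (w ^ 2 * U)) := by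
  have h3 : w ^ 3 = 1 := by linear_combination (w - 1) * hw
  have a : (w * T) ^ 3 = d := by rw [mul_pow, h3, one_mul, hT]
  have b : (w ^ 2 * T) ^ 3 = d := by
    rw [mul_pow, ← pow_mul, mul_comm 2 3, pow_mul, h3, one_pow, one_mul, hT]
  rw [N9, ← h.2.1 F d w T hw hT, ev_n9 h hw hT hU, ev_n9 h hw a hU, ev_n9 h hw b hU]

theorem N9_alg (h : R3St) (d d' : ℤ) (Δ Γ : V9) :
    N9 d d' (mul9 d d' Δ Γ) = N9 d d' Δ * N9 d d' Γ ∧ N9 d' d (sw Δ) = N9 d d' Δ := by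
  obtain ⟨T, hT⟩ := IsAlgClosed.exists_pow_nat_eq (d : ℂ) (n := 3) (by norm_num)
  obtain ⟨U, hU⟩ := IsAlgClosed.exists_pow_nat_eq (d' : ℂ) (n := 3) (by norm_num)
  obtain ⟨s, hs⟩ := IsAlgClosed.exists_pow_nat_eq (-3 : ℂ) (n := 2) (by norm_num)
  obtain ⟨w, hw⟩ : ∃ w : ℂ, w ^ 2 + w + 1 = 0 := ⟨(s - 1) / 2, by linear_combination hs / 4⟩
  have h3 : w ^ 3 = 1 := by linear_combination (w - 1) * hw
  have a : ∀ {x c : ℂ}, x ^ 3 = c → (w * x) ^ 3 = c := fun e => by rw [mul_pow, h3, one_mul, e]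
  have b : ∀ {x c : ℂ}, x ^ 3 = c → (w ^ 2 * x) ^ 3 = c := fun e => by
    rw [mul_pow, ← pow_mul, mul_comm 2 3, pow_mul, h3, one_pow, one_mul, e]
  constructor
  · apply Int.cast_injective (α := ℂ)
    rw [Int.cast_mul, N9_eq h hw hT hU, N9_eq h hw hT hU, N9_eq h hw hT hU, ev_mul hT hU,
      ev_mul hT (a hU), ev_mul hT (b hU), ev_mul (a hT) hU, ev_mul (a hT) (a hU),
      ev_mul (a hT) (b hU), ev_mul (b hT) hU, ev_mul (b hT) (a hU), ev_mul (b hT) (b hU)]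
    ring
  · apply Int.cast_injective (α := ℂ)
    rw [N9_eq h hw hU hT, N9_eq h hw hT hU]
    simp only [ev_sw]
    ring

theorem mul_bd {x y A B : ℤ} (hx : |x| ≤ A) (hy : |y| ≤ B) : |x * y| ≤ A * B := by
  rw [abs_mul]
  exact mul_le_mul hx hy (abs_nonneg _) ((abs_nonneg _).trans hx)

theorem mul3_bd {d A B : ℤ} {α β : V3} (hd : 1 ≤ d) (ha : ∀ i, |α i| ≤ A) (hb : ∀ i, |β i| ≤ B)
    (i : Fin 3) : |mul3 d α β i| ≤ 3 * d * A * B := by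
  have m := fun i j => abs_le.1 (mul_bd (ha i) (hb j))
  have p : 0 ≤ A * B := (abs_nonneg _).trans (mul_bd (ha 0) (hb 0))
  have q : A * B ≤ d * (A * B) := le_mul_of_one_le_left p hd
  have d0 : 0 ≤ d := by omega
  have r := fun i j => mul_le_mul_of_nonneg_left (m i j).1 d0
  have r' := fun i j => mul_le_mul_of_nonneg_left (m i j).2 d0
  rw [abs_le]
  fin_cases i
  · simp only [mul3, Fin.zero_eta, Matrix.cons_val_zero]
    constructor <;> linarith [m 0 0, r 1 2, r 2 1, r' 1 2, r' 2 1]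
  · simp only [mul3, Fin.mk_one, Matrix.cons_val_one, Matrix.cons_val_zero]
    constructor <;> linarith [m 0 1, m 1 0, r 2 2, r' 2 2]
  · simp only [mul3, Fin.reduceFinMk, Matrix.cons_val]
    constructor <;> linarith [m 0 2, m 1 1, m 2 0]

theorem cf_bd {d : ℤ} (hd : 1 ≤ d) (a b : Fin 3) : |cf d a b| ≤ d := by
  unfold cf
  split_ifs
  · exact (abs_of_nonneg (by omega)).le
  · simpa using hd

theorem mul9_bd {d d' A B : ℤ} {Δ Γ : V9} (hd : 1 ≤ d) (hd' : 1 ≤ d') (ha : ∀ k, |Δ k| ≤ A)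
    (hb : ∀ k, |Γ k| ≤ B) (k : Fin 3 × Fin 3) : |mul9 d d' Δ Γ k| ≤ 9 * d * d' * A * B := by
  refine (abs_sum_le_sum_abs _ _).trans ((sum_le_card_nsmul _ _ (A * B * d * d') fun a _ =>
    mul_bd (mul_bd (mul_bd (ha _) (hb _)) (cf_bd hd _ _)) (cf_bd hd' _ _)).trans (le_of_eq ?_))
  simp
  ring

theorem n9_bd {d d' A : ℤ} {Δ : V9} (hd : 1 ≤ d) (hd' : 1 ≤ d') (ha : ∀ k, |Δ k| ≤ A)
    (i : Fin 3) : |n9 d d' Δ i| ≤ 54 * d ^ 2 * d' ^ 2 * A ^ 3 := by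
  have r : ∀ j i, |row Δ j i| ≤ A := fun j i => ha _
  have m := fun a b c => mul3_bd hd (r a) (mul3_bd hd (r b) (r c)) i
  obtain ⟨X, hX⟩ : ∃ X, X = 3 * d * A * (3 * d * A * A) := ⟨_, rfl⟩
  rw [← hX] at m
  have X0 : 0 ≤ X := (abs_nonneg _).trans (m 0 0 0)
  have d1 : d' ≤ d' ^ 2 := by nlinarith
  have e1 : |d'| ≤ d' ^ 2 := by rwa [abs_of_nonneg (by omega)]
  have e2 : |d' ^ 2| ≤ d' ^ 2 := (abs_of_nonneg (sq_nonneg _)).le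
  have e3 : |3 * d'| ≤ 3 * d' ^ 2 := by rw [abs_of_nonneg (by omega)]; omega
  have a0 := abs_le.1 ((m 0 0 0).trans (le_mul_of_one_le_left X0 (hd'.trans d1)))
  have a1 := abs_le.1 (mul_bd e1 (m 1 1 1))
  have a2 := abs_le.1 (mul_bd e2 (m 2 2 2))
  have a3 := abs_le.1 (mul_bd e3 (m 0 1 2))
  have e : 54 * d ^ 2 * d' ^ 2 * A ^ 3 = 6 * (d' ^ 2 * X) := by rw [hX]; ring
  rw [e, abs_le]
  simp only [n9, cu3, Pi.add_apply, Pi.sub_apply, Pi.smul_apply, smul_eq_mul]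
  constructor <;> linarith [a0.1, a0.2, a1.1, a1.2, a2.1, a2.2, a3.1, a3.2]

theorem N9_bd (h : R3St) {d d' A : ℤ} {Δ : V9} (hd : 1 ≤ d) (hd' : 1 ≤ d')
    (ha : ∀ k, |Δ k| ≤ A) : |N9 d d' Δ| ≤ 10 ^ 6 * (d * d') ^ 8 * A ^ 9 := by
  refine (h.2.2.2 d _ _ hd (n9_bd hd hd' ha)).trans ?_
  have A0 : 0 ≤ A := (abs_nonneg _).trans (ha 0)
  have p : 0 ≤ d ^ 8 * d' ^ 6 * A ^ 9 := by
    have : 0 ≤ d := by omega
    have : 0 ≤ d' := by omega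
    positivity
  have q : d ^ 8 * d' ^ 6 * A ^ 9 ≤ d' ^ 2 * (d ^ 8 * d' ^ 6 * A ^ 9) :=
    le_mul_of_one_le_left p (one_le_pow₀ hd')
  have e1 : 6 * d ^ 2 * (54 * d ^ 2 * d' ^ 2 * A ^ 3) ^ 3 = 944784 * (d ^ 8 * d' ^ 6 * A ^ 9) := by
    ring
  have e2 : 10 ^ 6 * (d * d') ^ 8 * A ^ 9 = 1000000 * (d' ^ 2 * (d ^ 8 * d' ^ 6 * A ^ 9)) := by ring
  rw [e1, e2]
  linarith

end R9

open R9 in
theorem r9 (h : R3St) : R9St :=
  ⟨fun _ _ _ _ T U hT hU Δ Γ => ⟨ev_mul hT hU Δ Γ, ev_sw T U Δ⟩,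
    fun _ _ _ _ _ _ _ hw hT hU Δ => ev_n9 h hw hT hU Δ, N9_alg h,
    fun _ _ _ _ _ _ hd hd' ha hb => ⟨mul9_bd hd hd' ha hb, N9_bd h hd hd' ha⟩⟩

end Pool.Agent.Lib.MP_65b7ad_nt.DS
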