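import Pool.Agent.Lib.MP_65b7ad_nt.DS.Bas

/-! The character modulo `q` of the ring of rank nine. -/

open Finset

namespace Pool.Agent.Lib.MP_65b7ad_nt.DS

namespace XqA

/-- The nine conjugates. -/
noncomputable def E (P : Loc) (d d' : ℤ) (Δ : V9) (k : Fin 3 × Fin 3) : P.F :=
  ev9 Δ (P.om ^ k.1.val * P.th d) (P.om ^ k.2.val * P.th d')

/-- The exponent of the character. -/
noncomputable def vl (P : Loc) (d d' : ℤ) (Δ : V9) : ZMod 3 :=
  P.c (E P d d' Δ (1, 0)) - P.c (E P d d' Δ (2, 0)) + 2 * P.c (E P d d' Δ (1, 2))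
    - 2 * P.c (E P d d' Δ (2, 1)) - P.c (E P d d' Δ (0, 1)) + P.c (E P d d' Δ (0, 2))

theorem ev_row {F : Type} [CommRing F] (T U : F) (Δ : V9) :
    ev9 Δ T U = ev3 (row Δ 0) T + ev3 (row Δ 1) T * U + ev3 (row Δ 2) T * U ^ 2 := by
  simp [ev9, ev3, row, Fintype.sum_prod_type, Fin.sum_univ_three]
  ring

theorem ev_sub {F : Type} [CommRing F] (T U : F) (x y : V9) :
    ev9 (x - y) T U = ev9 x T U - ev9 y T U := by
  simp only [ev9, ← sum_sub_distrib, Pi.sub_apply, Int.cast_sub]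
  exact sum_congr rfl fun _ _ => by ring

variable {P : Loc} {q : ℕ} (h : P.Ok q)
include h

theorem it_prod {ι : Type} {s : Finset ι} {f : ι → P.F} (hf : ∀ i ∈ s, P.it (f i)) :
    P.it (∏ i ∈ s, f i) :=
  Finset.prod_induction f P.it (fun _ _ => h.it_mul) h.it_one hf

theorem sm_prod {ι : Type} [DecidableEq ι] {s : Finset ι} {f : ι → P.F} (hf : ∀ i, P.it (f i)) :
    P.sm (∏ i ∈ s, f i) ↔ ∃ i ∈ s, P.sm (f i) := by
  constructor
  · induction s using Finset.induction_on with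
    | empty => intro e; exact absurd (by simpa using e) h.not_sm_one
    | insert a s ha ih =>
      intro e
      rw [prod_insert ha] at e
      rcases h.sm_or (hf a) (it_prod h fun i _ => hf i) e with e | e
      · exact ⟨a, mem_insert_self _ _, e⟩
      · obtain ⟨i, hi, e⟩ := ih e
        exact ⟨i, mem_insert_of_mem hi, e⟩
  · rintro ⟨i, hi, e⟩
    rw [← mul_prod_erase s f hi]
    exact h.sm_mul e (it_prod h fun i _ => hf i)

theorem sm_cancel {u a : P.F} (hu : u ≠ 0 ∧ P.v u = 0) (e : P.sm (u * a)) : P.sm a := by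
  by_cases a0 : a = 0
  · exact Or.inl a0
  · have := e.resolve_left (mul_ne_zero hu.1 a0)
    rw [h.v_mul _ _ hu.1 a0, hu.2, zero_add] at this
    exact Or.inr this

theorem pw_cube {θ : P.F} {d : ℤ} (hθ : θ ^ 3 = d) (i : ℕ) : (P.om ^ i * θ) ^ 3 = d := by
  rw [mul_pow, ← pow_mul, mul_comm i 3, pow_mul, h.om_cube, one_pow, one_mul, hθ]

theorem th_unit {θ : P.F} {d : ℤ} (hθ : θ ^ 3 = d) (hd : ¬(q : ℤ) ∣ d) : θ ≠ 0 ∧ P.v θ = 0 := by
  obtain ⟨d0, vd⟩ := h.v_int_zero hd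
  have h0 : θ ≠ 0 := by rintro rfl; exact d0 (by rw [← hθ]; simp)
  rw [← hθ, h.v_pow h0] at vd
  exact ⟨h0, by omega⟩

/-- Inversion of the Fourier transform of length three. -/
theorem dft (hq : q.Prime) (h3 : q ≠ 3) {θ a b c : P.F} (hθ : θ ≠ 0 ∧ P.v θ = 0)
    (e : ∀ i : Fin 3, P.sm (a + b * (P.om ^ i.val * θ) + c * (P.om ^ i.val * θ) ^ 2)) :
    P.sm a ∧ P.sm b ∧ P.sm c := by
  have e0 := e 0
  have e1 := e 1
  have e2 := e 2
  simp only [Fin.val_zero, Fin.val_one, Fin.val_two, pow_zero, pow_one, one_mul] at e0 e1 e2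
  have w := h.om_eq
  have w3 := h.om_cube
  have u3 : (3 : P.F) ≠ 0 ∧ P.v 3 = 0 := ⟨by norm_num, h.v_three hq h3⟩
  have i1 := h.it_om
  have i2 := h.it_pow h.it_om 2
  refine ⟨sm_cancel h u3 ?_, sm_cancel h hθ (sm_cancel h u3 ?_),
    sm_cancel h hθ (sm_cancel h hθ (sm_cancel h u3 ?_))⟩
  · convert h.sm_add (h.sm_add e0 e1) e2 using 1
    linear_combination (-(b * θ) - c * θ ^ 2) * w - c * θ ^ 2 * P.om * w3
  · convert h.sm_add (h.sm_add e0 (h.mul_sm i2 e1)) (h.mul_sm i1 e2) using 1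
    linear_combination (-a - c * θ ^ 2) * w
      - (2 * b * θ + c * θ ^ 2 * P.om + c * θ ^ 2 * P.om ^ 2) * w3
  · convert h.sm_add (h.sm_add e0 (h.mul_sm i1 e1)) (h.mul_sm i2 e2) using 1
    linear_combination (-a - b * θ) * w
      - (c * θ ^ 2 + b * θ * P.om + c * θ ^ 2 * (P.om ^ 3 + 1)) * w3

variable {d d' : ℤ} (hd : P.th d ^ 3 = d) (hd' : P.th d' ^ 3 = d')
include hd hd'

theorem it_E (Δ : V9) (k : Fin 3 × Fin 3) : P.it (E P d d' Δ k) :=
  h.it_ev9 Δ (h.it_cube (pw_cube h hd _)) (h.it_cube (pw_cube h hd' _))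

theorem E_mul (h9 : R9St) (Δ Γ : V9) (k : Fin 3 × Fin 3) :
    E P d d' (mul9 d d' Δ Γ) k = E P d d' Δ k * E P d d' Γ k :=
  (h9.1 P.F d d' _ _ (pw_cube h hd _) (pw_cube h hd' _) Δ Γ).1

theorem n9_row (h9 : R9St) (Δ : V9) (i : Fin 3) :
    ev3 (n9 d d' Δ) (P.om ^ i.val * P.th d) =
      E P d d' Δ (i, 0) * E P d d' Δ (i, 1) * E P d d' Δ (i, 2) := by
  rw [h9.2.1 P.F d d' P.om _ _ h.om_eq (pw_cube h hd _) hd']
  simp [E]

theorem n9_col (h9 : R9St) (Δ : V9) (j : Fin 3) :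
    ev3 (n9 d' d (sw Δ)) (P.om ^ j.val * P.th d') =
      E P d d' Δ (0, j) * E P d d' Δ (1, j) * E P d d' Δ (2, j) := by
  rw [h9.2.1 P.F d' d P.om _ _ h.om_eq (pw_cube h hd' _) hd]
  have s := fun i : ℕ => (h9.1 P.F d d' _ _ (pw_cube h hd i) (pw_cube h hd' j.val) Δ Δ).2
  have s0 := s 0
  have s1 := s 1
  have s2 := s 2
  simp only [pow_zero, pow_one, one_mul] at s0 s1
  rw [s0, s1, s2]
  simp [E]

theorem N9_prod (h9 : R9St) (Δ : V9) : ((N9 d d' Δ : ℤ) : P.F) = ∏ k, E P d d' Δ k := by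
  have a := n9_row h hd hd' h9 Δ 0
  have b := n9_row h hd hd' h9 Δ 1
  have c := n9_row h hd hd' h9 Δ 2
  simp only [Fin.val_zero, Fin.val_one, Fin.val_two, pow_zero, pow_one, one_mul] at a b c
  rw [N9, ← ev3_norm h.om_eq hd, a, b, c, Fintype.prod_prod_type]
  simp only [Fin.prod_univ_three]

theorem dvd_iff (h9 : R9St) (hq : q.Prime) (Δ : V9) :
    (q : ℤ) ∣ N9 d d' Δ ↔ ∃ k, P.sm (E P d d' Δ k) := by
  rw [← h.sm_int_iff hq, N9_prod h hd hd' h9, sm_prod h (it_E h hd hd' Δ)]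
  simp

theorem E_unit (h9 : R9St) (hq : q.Prime) {Δ : V9} (hn : ¬(q : ℤ) ∣ N9 d d' Δ)
    (k : Fin 3 × Fin 3) : E P d d' Δ k ≠ 0 ∧ P.v (E P d d' Δ k) = 0 :=
  Loc.Ok.unit_of (it_E h hd hd' Δ k) fun e => hn ((dvd_iff h hd hd' h9 hq Δ).2 ⟨k, e⟩)

theorem val_eq (h9 : R9St) (hq : q.Prime) {Δ : V9} (hn : ¬(q : ℤ) ∣ N9 d d' Δ) :
    P.c (P.rt d (n9 d d' Δ)) - P.c (P.rt d' (n9 d' d (sw Δ))) = vl P d d' Δ := by
  have u := fun k => (E_unit h hd hd' h9 hq hn k).1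
  have a := n9_row h hd hd' h9 Δ 1
  have b := n9_row h hd hd' h9 Δ 2
  have a' := n9_col h hd hd' h9 Δ 1
  have b' := n9_col h hd hd' h9 Δ 2
  simp only [Fin.val_one, Fin.val_two, pow_one] at a b a' b'
  have m : ∀ k₁ k₂ k₃, E P d d' Δ k₁ * E P d d' Δ k₂ * E P d d' Δ k₃ ≠ 0 ∧
      P.c (E P d d' Δ k₁ * E P d d' Δ k₂ * E P d d' Δ k₃) =
        P.c (E P d d' Δ k₁) + P.c (E P d d' Δ k₂) + P.c (E P d d' Δ k₃) := fun k₁ k₂ k₃ =>
    ⟨mul_ne_zero (mul_ne_zero (u _) (u _)) (u _), by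
      rw [h.c_mul _ _ (mul_ne_zero (u _) (u _)) (u _), h.c_mul _ _ (u _) (u _)]⟩
  rw [Loc.rt, Loc.rt, a, b, a', b', h.c_div (m _ _ _).1 (m _ _ _).1,
    h.c_div (m _ _ _).1 (m _ _ _).1, (m _ _ _).2, (m _ _ _).2, (m _ _ _).2, (m _ _ _).2, vl]
  ring

theorem E_cong {x y : V9} (hq : q.Prime) (e : ∀ k, (q : ℤ) ∣ x k - y k) (k : Fin 3 × Fin 3) :
    P.sm (E P d d' x k - E P d d' y k) := by
  rw [E, E, ← ev_sub]
  exact h.sm_sum fun j _ => h.sm_mul (h.sm_mul ((h.sm_int_iff hq _).2 (e j))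
    (h.it_pow (h.it_cube (pw_cube h hd _)) _)) (h.it_pow (h.it_cube (pw_cube h hd' _)) _)

theorem cong_E (hq : q.Prime) (h3 : q ≠ 3) (n : ¬(q : ℤ) ∣ d) (n' : ¬(q : ℤ) ∣ d') {z : V9}
    (e : ∀ k, P.sm (E P d d' z k)) (k : Fin 3 × Fin 3) : (q : ℤ) ∣ z k := by
  have r : ∀ i : Fin 3, P.sm (ev3 (row z 0) (P.om ^ i.val * P.th d)) ∧
      P.sm (ev3 (row z 1) (P.om ^ i.val * P.th d)) ∧
      P.sm (ev3 (row z 2) (P.om ^ i.val * P.th d)) := fun i =>
    dft h hq h3 (th_unit h hd' n') fun j => by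
      have := e (i, j)
      rwa [E, ev_row] at this
  have r0 := dft h hq h3 (th_unit h hd n) fun i => (r i).1
  have r1 := dft h hq h3 (th_unit h hd n) fun i => (r i).2.1
  have r2 := dft h hq h3 (th_unit h hd n) fun i => (r i).2.2
  rw [← h.sm_int_iff hq]
  obtain ⟨i, j⟩ := k
  fin_cases i <;> fin_cases j
  exacts [r0.1, r1.1, r2.1, r0.2.1, r1.2.1, r2.2.1, r0.2.2, r1.2.2, r2.2.2]

omit hd hd' in
/-- An inverse modulo `q`. -/
theorem inv_mod (hq : q.Prime) {θ : P.F} {r : ℤ} (hθ : θ ≠ 0 ∧ P.v θ = 0) (e : P.sm (θ - r)) :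
    ∃ s : ℤ, P.sm (s * θ - 1) := by
  have n : ¬(q : ℤ) ∣ r := fun c => Loc.Ok.not_sm hθ.1 hθ.2 (by
    simpa using h.sm_add e ((h.sm_int_iff hq r).2 c))
  obtain ⟨a, s, e1⟩ := (Nat.prime_iff_prime_int.1 hq).irreducible.coprime_iff_not_dvd.2 n
  have e2 : P.sm ((s * r - 1 : ℤ) : P.F) := (h.sm_int_iff hq _).2 ⟨-a, by linear_combination e1⟩
  refine ⟨s, ?_⟩
  convert h.sm_add (h.mul_sm (h.it_int s) e) e2 using 1
  push_cast
  ring

/-- A unit on which the exponent does not vanish. -/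
theorem exists_u (h9 : R9St) (hq : q.Prime) (h3 : q ≠ 3) (n : ¬(q : ℤ) ∣ d) (n' : ¬(q : ℤ) ∣ d')
    {r r' : ℤ} (hr : P.sm (P.th d - r)) (hr' : P.sm (P.th d' - r')) :
    ∃ u : V9, ¬(q : ℤ) ∣ N9 d d' u ∧ vl P d d' u ≠ 0 := by
  obtain ⟨s, hs⟩ := inv_mod h hq (th_unit h hd n) hr
  obtain ⟨s', hs'⟩ := inv_mod h hq (th_unit h hd' n') hr'
  obtain ⟨κ, hκ⟩ := inv_mod h hq (θ := 3) (r := 3) ⟨by norm_num, h.v_three hq h3⟩
    (by simpa using Loc.sm_zero)
  obtain ⟨x, y, hxy, hc⟩ := h.nontriv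
  obtain ⟨t, ht⟩ : ∃ t : ℤ, t = κ * (1 - x - y) := ⟨_, rfl⟩
  let G : V3 := ![x + t - 1, (y + t) * s, t * s ^ 2]
  let u : V9 := fun k => κ * s' ^ k.2.val * G k.1 + if k = 0 then 1 else 0
  have ev : ∀ T U : P.F, ev9 u T U = κ * (1 + s' * U + (s' * U) ^ 2) *
      (x + t - 1 + (y + t) * (s * T) + t * (s * T) ^ 2) + 1 := fun T U => by
    simp [ev9, u, G, Fintype.sum_prod_type, Fin.sum_univ_three, Prod.ext_iff]
    ring
  have io := fun i : ℕ => h.it_pow h.it_om i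
  have cg : ∀ {s θ : P.F}, P.sm (s * θ - 1) → ∀ i : ℕ, P.sm (s * (P.om ^ i * θ) - P.om ^ i) :=
    fun e i => by
      convert h.mul_sm (io i) e using 1
      ring
  have cp : ∀ {a b c Y Z : P.F}, P.it a → P.it b → P.it c → P.it Z → P.sm (Y - Z) →
      P.it (a + b * Z + c * Z ^ 2) ∧ P.sm (a + b * Y + c * Y ^ 2 - (a + b * Z + c * Z ^ 2)) :=
    fun {a b c Y Z} ia ib ic iZ e => by
      have iY : P.it Y := by simpa using h.it_add e.it iZ
      refine ⟨h.it_add (h.it_add ia (h.it_mul ib iZ)) (h.it_mul ic (h.it_pow iZ 2)), ?_⟩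
      convert h.sm_add (h.mul_sm ib e) (h.mul_sm ic (h.sm_pow_sub iY iZ e 2)) using 1
      ring
  have key : ∀ k : Fin 3 × Fin 3, P.sm (E P d d' u k -
      (κ * (1 + P.om ^ k.2.val + (P.om ^ k.2.val) ^ 2) *
        (x + t - 1 + (y + t) * P.om ^ k.1.val + t * (P.om ^ k.1.val) ^ 2) + 1)) := fun k => by
    obtain ⟨iA, eA⟩ := cp h.it_one h.it_one h.it_one (io k.2.val) (cg hs' k.2.val)
    obtain ⟨iB, eB⟩ := cp (h.it_sub (h.it_add (h.it_int x) (h.it_int t)) h.it_one)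
      (h.it_add (h.it_int y) (h.it_int t)) (h.it_int t) (io k.1.val) (cg hs k.1.val)
    have iB' := h.it_add eB.it iB
    rw [E, ev]
    convert h.mul_sm (h.it_int κ) (h.sm_add (h.sm_mul eA iB') (h.mul_sm iA eB)) using 1
    ring
  have w := h.om_eq
  have w2 := w_sq h.om_eq
  have one : ∀ i j : Fin 3, j ≠ 0 → P.sm (E P d d' u (i, j) - 1) := fun i j hj => by
    have e := key (i, j)
    have z : 1 + P.om ^ j.val + (P.om ^ j.val) ^ 2 = 0 := by
      fin_cases j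
      · exact absurd rfl hj
      · simpa using (by linear_combination w : 1 + P.om + P.om ^ 2 = 0)
      · simpa using (by linear_combination w2 : 1 + P.om ^ 2 + (P.om ^ 2) ^ 2 = 0)
    simpa [z] using e
  have col : ∀ i : Fin 3, P.sm (E P d d' u (i, 0) -
      (x + t + (y + t) * P.om ^ i.val + t * (P.om ^ i.val) ^ 2)) := fun i => by
    have e := key (i, 0)
    have iB := (cp (h.it_sub (h.it_add (h.it_int x) (h.it_int t)) h.it_one)
      (h.it_add (h.it_int y) (h.it_int t)) (h.it_int t) (io i.val) (cg hs i.val)).1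
    convert h.sm_add e (h.sm_mul hκ iB) using 1
    simp only [Fin.val_zero, pow_zero]
    ring
  have h0 : x ^ 2 - x * y + y ^ 2 ≠ 0 := fun e => hxy (by simp [e])
  obtain ⟨-, n1, n2⟩ := h.zw_ne h0
  obtain ⟨v1, v2⟩ := h.zw_unit hq hxy
  have c0 : P.sm (E P d d' u (0, 0) - 1) := by
    convert h.sm_add (col 0) (h.sm_mul hκ (h.it_int (1 - x - y))) using 1
    simp only [Fin.val_zero, pow_zero, ht]
    push_cast
    ring
  have c1 := h.close_unit hq h3 n1 v1 (x := E P d d' u (1, 0)) (by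
    convert col 1 using 2
    simp only [Fin.val_one, pow_one]
    linear_combination (-t : P.F) * w)
  have c2 := h.close_unit hq h3 n2 v2 (x := E P d d' u (2, 0)) (by
    convert col 2 using 2
    simp only [Fin.val_two]
    linear_combination (-t : P.F) * w2)
  refine ⟨u, fun e => ?_, ?_⟩
  · obtain ⟨⟨i, j⟩, e⟩ := (dvd_iff h hd hd' h9 hq u).1 e
    by_cases hj : j = 0
    · subst hj
      fin_cases i
      · exact Loc.Ok.not_sm (h.v_of_sm c0).1 (h.v_of_sm c0).2 e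
      · exact Loc.Ok.not_sm c1.1 c1.2.1 e
      · exact Loc.Ok.not_sm c2.1 c2.2.1 e
    · exact Loc.Ok.not_sm (h.v_of_sm (one i j hj)).1 (h.v_of_sm (one i j hj)).2 e
  · have z := fun i j hj => h.c_of_sm hq h3 (one i j hj)
    rw [h.c_div n1 n2] at hc
    rw [vl, c1.2.2, c2.2.2, z 1 2 (by decide), z 2 1 (by decide), z 0 1 (by decide),
      z 0 2 (by decide)]
    simpa using hc

end XqA

open XqA in
theorem xq (h9 : R9St) : XqSt := by
  intro P hP d d' q hq h3 n n' c c'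
  have h := hP q hq h3
  obtain ⟨hd, r, hr⟩ := h.th_res n c
  obtain ⟨hd', r', hr'⟩ := h.th_res n' c'
  have z : ∀ {Δ}, (q : ℤ) ∣ N9 d d' Δ → Xq P d d' q Δ = 0 := fun e => by rw [Xq, if_pos e]
  have nz : ∀ {Δ}, ¬(q : ℤ) ∣ N9 d d' Δ → Xq P d d' q Δ = e3 (vl (P q) d d' Δ) := fun e => by
    rw [Xq, if_neg e, val_eq h hd hd' h9 hq e]
  have pr := Nat.prime_iff_prime_int.1 hq
  have mul : ∀ x y, Xq P d d' q (mul9 d d' x y) = Xq P d d' q x * Xq P d d' q y := fun x y => by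
    have m := (h9.2.2.1 d d' x y).1
    by_cases ex : (q : ℤ) ∣ N9 d d' x
    · rw [z ex, z (m ▸ ex.mul_right _), zero_mul]
    by_cases ey : (q : ℤ) ∣ N9 d d' y
    · rw [z ey, z (m ▸ ey.mul_left _), mul_zero]
    have exy : ¬(q : ℤ) ∣ N9 d d' (mul9 d d' x y) := fun e =>
      (pr.dvd_or_dvd (m ▸ e)).elim ex ey
    have cm := fun k => h.c_mul _ _ (E_unit h hd hd' h9 hq ex k).1 (E_unit h hd hd' h9 hq ey k).1
    rw [nz ex, nz ey, nz exy, e3, e3, e3, ← AddChar.map_add_eq_mul]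
    congr 1
    simp only [vl, E_mul h hd hd' h9, cm]
    ring
  have per : ∀ x y : V9, (∀ k, (q : ℤ) ∣ x k - y k) → Xq P d d' q x = Xq P d d' q y :=
    fun x y e => by
    have s := E_cong h hd hd' hq e
    by_cases ey : (q : ℤ) ∣ N9 d d' y
    · obtain ⟨k, hk⟩ := (dvd_iff h hd hd' h9 hq y).1 ey
      rw [z ey, z ((dvd_iff h hd hd' h9 hq x).2 ⟨k, by simpa using h.sm_add (s k) hk⟩)]
    have cl := fun k => h.close_unit hq h3 (E_unit h hd hd' h9 hq ey k).1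
      (E_unit h hd hd' h9 hq ey k).2 (s k)
    have ex : ¬(q : ℤ) ∣ N9 d d' x := fun e => by
      obtain ⟨k, hk⟩ := (dvd_iff h hd hd' h9 hq x).1 e
      exact Loc.Ok.not_sm (cl k).1 (cl k).2.1 hk
    rw [nz ex, nz ey]
    simp only [vl, fun k => (cl k).2.2]
  refine ⟨mul, fun x => ?_, per, ?_⟩
  · by_cases ex : (q : ℤ) ∣ N9 d d' x
    · simp [z ex]
    · rw [nz ex, e3, AddChar.norm_apply]
  obtain ⟨u, hu, hv⟩ := exists_u h hd hd' h9 hq h3 n n' hr hr'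
  have u1 : Xq P d d' q u ≠ 1 := by
    rw [nz hu, e3]
    intro e
    exact hv (ZMod.injective_stdAddChar (by simpa using e))
  have q0 : (0 : ℤ) < q := by exact_mod_cast hq.pos
  set S := Fintype.piFinset (fun _ : Fin 3 × Fin 3 => Ico (0 : ℤ) q) with hS
  let f : V9 → V9 := fun x k => mul9 d d' u x k % q
  have fc : ∀ x k, (q : ℤ) ∣ f x k - mul9 d d' u x k := fun x k =>
    (Int.mod_modEq _ _).symm.dvd
  have inj : Set.InjOn f S := fun x hx y hy e => by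
    have dv := cong_E h hd hd' hq h3 n n' (z := x - y) fun k => by
      refine sm_cancel h (E_unit h hd hd' h9 hq hu k) ?_
      have a := E_cong h hd hd' hq (fc x) k
      have b := E_cong h hd hd' hq (fc y) k
      rw [E_mul h hd hd' h9] at a b
      rw [e] at a
      convert h.sm_sub b a using 1
      simp only [E, ev_sub]
      ring
    funext k
    have a := mem_Ico.1 (Fintype.mem_piFinset.1 (mem_coe.1 hx) k)
    have b := mem_Ico.1 (Fintype.mem_piFinset.1 (mem_coe.1 hy) k)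
    have := Int.eq_zero_of_abs_lt_dvd (dv k) (by
      rw [abs_lt, Pi.sub_apply]; omega)
    rw [Pi.sub_apply] at this
    omega
  have im : S.image f = S := eq_of_subset_of_card_le (fun y hy => by
      obtain ⟨x, -, rfl⟩ := mem_image.1 hy
      exact Fintype.mem_piFinset.2 fun k =>
        mem_Ico.2 ⟨Int.emod_nonneg _ q0.ne', Int.emod_lt_of_pos _ q0⟩)
    (card_image_of_injOn inj).ge
  have e : ∑ x ∈ S, Xq P d d' q x = Xq P d d' q u * ∑ x ∈ S, Xq P d d' q x := by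
    conv_lhs => rw [← im, sum_image inj]
    rw [mul_sum]
    exact sum_congr rfl fun x _ => by rw [per _ _ (fc x), mul]
  by_contra ne
  exact u1 (mul_right_cancel₀ ne (by rw [← e, one_mul]))

end Pool.Agent.Lib.MP_65b7ad_nt.DS
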